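import Mathlib

/-!
# MP_d01a95_gt, m = 2, part (2), sections 1 and 2: interface (helper45)

Everything lives on the open convex set `Om` of `E = C^2` (the Kerr chart, `p 0 = mu`, `p 1 = tau`).
`VG G` : an invariant second order operator `L` in divergence form, a proper cocompact action of the
group `G`, a function with `1 ≤ L phi` and bounded gradient, and a point pair invariant `Y`.
All functions are only meaningful on `Om`.
-/

set_option autoImplicit false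
set_option linter.all false

open MeasureTheory Filter Topology
open scoped ContDiff InnerProductSpace ENNReal

namespace Pool.Agent.MPd01a95.LN

/-- the coordinate space -/
abbrev E : Type := Fin 2 → ℂ

/-- the domain -/
def Om : Set E := {p | 0 < (p 1).im}

/-- real basis of the coordinate space -/
noncomputable def bs : Fin 4 → E :=
  ![Pi.single 0 1, Pi.single 0 Complex.I, Pi.single 1 1, Pi.single 1 Complex.I]

/-- real coordinates, `x = ∑ i, co x i • bs i` -/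
noncomputable def co (x : E) : Fin 4 → ℝ := ![(x 0).re, (x 0).im, (x 1).re, (x 1).im]

section smooth

variable {F : Type*} [NormedAddCommGroup F] [NormedSpace ℝ F]

/-- real partial derivatives -/
noncomputable def dr (i : Fin 4) (u : E → F) (p : E) : F := fderiv ℝ u p (bs i)

/-- smooth on the domain -/
def Smo (u : E → F) : Prop := ContDiffOn ℝ ∞ u Om

/-- on the domain, `u` vanishes outside a compact subset of the domain -/
def CS (u : E → F) : Prop := ∃ K : Set E, IsCompact K ∧ K ⊆ Om ∧ ∀ p ∈ Om, p ∉ K → u p = 0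

end smooth

/-- an elliptic operator in divergence form with respect to the density `rho` -/
structure Ell where
  a : Fin 4 → Fin 4 → E → ℝ
  rho : E → ℝ
  a_smo : ∀ i j, Smo (a i j)
  rho_smo : Smo rho
  rho_pos : ∀ p ∈ Om, 0 < rho p
  a_symm : ∀ i j, ∀ p ∈ Om, a i j p = a j i p
  a_pos : ∀ p ∈ Om, ∀ x : Fin 4 → ℝ, x ≠ 0 → 0 < ∑ i, ∑ j, a i j p * x i * x j

namespace Ell

variable (V : Ell)

/-- first order coefficients, given by the divergence form -/
noncomputable def b (j : Fin 4) (p : E) : ℝ :=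
  (V.rho p)⁻¹ * ∑ i, dr i (fun q => V.rho q * V.a i j q) p

/-- the operator `L u = rho⁻¹ ∑ ∂_i (rho a_ij ∂_j u)` -/
noncomputable def L {F : Type*} [NormedAddCommGroup F] [NormedSpace ℝ F] (u : E → F) (p : E) : F :=
  ∑ i, ∑ j, V.a i j p • dr i (dr j u) p + ∑ j, V.b j p • dr j u p

/-- the carre du champ -/
noncomputable def Gam {H : Type*} [NormedAddCommGroup H] [InnerProductSpace ℝ H]
    (s t : E → H) (p : E) : ℝ :=
  ∑ i, ∑ j, V.a i j p * ⟪dr i s p, dr j t p⟫_ℝ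

/-- the invariant volume -/
noncomputable def mu : Measure E :=
  (volume.restrict Om).withDensity fun p => ENNReal.ofReal (V.rho p)

end Ell

/-- The surface with its group. -/
structure VG (G : Type) [Group G] extends Ell where
  act : G → E → E
  act_mem : ∀ g, ∀ p ∈ Om, act g p ∈ Om
  act_one : ∀ p ∈ Om, act 1 p = p
  act_mul : ∀ g h, ∀ p ∈ Om, act (g * h) p = act g (act h p)
  act_smo : ∀ g, ContDiffOn ℝ ∞ (act g) Om
  jac : ∀ g, ∀ p ∈ Om, rho (act g p) * |(fderiv ℝ (act g) p).det| = rho p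
  proper : ∀ K : Set E, IsCompact K → K ⊆ Om → {g : G | ∃ p ∈ K, act g p ∈ K}.Finite
  cocpt : ∃ K : Set E, IsCompact K ∧ K ⊆ Om ∧ ∀ p ∈ Om, ∃ g, act g p ∈ K
  L_inv : ∀ g, ∀ u : E → ℝ, Smo u → ∀ p ∈ Om,
    toEll.L (fun q => u (act g q)) p = toEll.L u (act g p)
  /-- a function with bounded gradient and `L phi ≥ 1` -/
  phi : E → ℝ
  phi_smo : Smo phi
  phi_L : ∀ p ∈ Om, 1 ≤ toEll.L phi p
  phi_G : ∃ C : ℝ, ∀ p ∈ Om, toEll.Gam phi phi p ≤ C
  /-- the point pair invariant (`= 1 + dist^2 + ...`) -/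
  Y : E → E → ℝ
  Y_smo : ContDiffOn ℝ ∞ (fun x : E × E => Y x.1 x.2) (Om ×ˢ Om)
  Y_symm : ∀ p ∈ Om, ∀ q ∈ Om, Y p q = Y q p
  Y_inv : ∀ g, ∀ p ∈ Om, ∀ q ∈ Om, Y (act g p) (act g q) = Y p q
  Y_ge : ∀ p ∈ Om, ∀ q ∈ Om, 1 ≤ Y p q
  Y_diag : ∀ p ∈ Om, Y p p = 1
  Y_sep : ∀ p ∈ Om, ∀ q ∈ Om, Y p q = 1 → p = q
  Y_proper : ∀ K : Set E, IsCompact K → K ⊆ Om → ∀ R : ℝ, ∃ K' : Set E, IsCompact K' ∧ K' ⊆ Om ∧
    ∀ p ∈ K, ∀ q ∈ Om, Y p q ≤ R → q ∈ K'
  /-- the quadratic form of `Y - 1` on the diagonal -/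
  qf : Fin 4 → Fin 4 → E → ℝ
  qf_cont : ∀ i j, ContinuousOn (qf i j) Om
  qf_symm : ∀ i j, ∀ p ∈ Om, qf i j p = qf j i p
  qf_pos : ∀ p ∈ Om, ∀ x : Fin 4 → ℝ, x ≠ 0 → 0 < ∑ i, ∑ j, qf i j p * x i * x j
  Y_quad : ∀ K : Set E, IsCompact K → K ⊆ Om → ∃ C : ℝ, ∀ p ∈ K, ∀ q ∈ K,
    |Y p q - 1 - ∑ i, ∑ j, qf i j p * co (q - p) i * co (q - p) j| ≤ C * ‖q - p‖ ^ 3
  kap : ℝ
  kap_pos : 0 < kap
  qf_det : ∀ p ∈ Om, (Matrix.of fun i j => qf i j p).det = kap * rho p ^ 2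
  /-- the defect of symmetry -/
  beta : E → E → ℝ
  beta_bd : ∀ K : Set E, IsCompact K → K ⊆ Om → ∃ C : ℝ, ∀ p ∈ K, ∀ q ∈ K,
    |beta p q| ≤ C * ‖q - p‖ ^ 5
  Y_comm : ∀ ph : ℝ → ℝ, ContDiff ℝ ∞ ph → ∀ p ∈ Om, ∀ q ∈ Om,
    toEll.L (fun x => ph (Y x q)) p - toEll.L (fun x => ph (Y p x)) q =
      (deriv ph (Y p q) + Y p q * deriv (deriv ph) (Y p q)) * beta p q

section sections

variable {G : Type} [Group G] {H : Type} [NormedAddCommGroup H] [InnerProductSpace ℝ H]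

/-- equivariant maps for the orthogonal representation `pi` -/
def IsSec (V : VG G) (pi : G →* (H ≃ₗᵢ[ℝ] H)) (s : E → H) : Prop :=
  ∀ g, ∀ p ∈ Om, s (V.act g p) = pi g (s p)

/-- equivariant maps for the affine isometric action with linear part `pi` and cocycle `c` -/
def IsAff (V : VG G) (pi : G →* (H ≃ₗᵢ[ℝ] H)) (c : G → H) (h : E → H) : Prop :=
  ∀ g, ∀ p ∈ Om, h (V.act g p) = pi g (h p) + c g

/-- the cocycle condition -/
def IsCoc (pi : G →* (H ≃ₗᵢ[ℝ] H)) (c : G → H) : Prop := ∀ g h, c (g * h) = pi g (c h) + c g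

/-- smooth cutoff function whose translates add up to one -/
structure IsChi (V : VG G) (χ : E → ℝ) : Prop where
  smo : Smo χ
  cs : CS χ
  nn : ∀ p ∈ Om, 0 ≤ χ p
  one : ∀ p ∈ Om, ∑' g, χ (V.act g p) = 1

/-- exponential decay of the coefficients on a dense subspace, exponential growth of the group -/
structure Decay (pi : G →* (H ≃ₗᵢ[ℝ] H)) where
  len : G → ℝ
  len_nn : ∀ g, 0 ≤ len g
  cnt : ∃ C : ℝ, 0 < C ∧ ∀ R : ℝ, 0 ≤ R →
    {g | len g ≤ R}.Finite ∧ ({g | len g ≤ R}.ncard : ℝ) ≤ C * Real.exp (C * R)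
  D : Submodule ℝ H
  dense : Dense (D : Set H)
  dec : ∀ ξ ∈ D, ∀ η ∈ D, ∃ C : ℝ, ∀ g, |⟪pi g ξ, η⟫_ℝ| ≤ C * Real.exp (-(len g))

/-- inner product of sections over the quotient -/
noncomputable def B (V : VG G) (χ : E → ℝ) (s t : E → H) : ℝ := ∫ p, χ p * ⟪s p, t p⟫_ℝ ∂V.mu

/-- energy form over the quotient -/
noncomputable def En (V : VG G) (χ : E → ℝ) (s t : E → H) : ℝ := ∫ p, χ p * V.Gam s t p ∂V.mu

/-- the section obtained by averaging over the group -/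
noncomputable def theta (V : VG G) (pi : G →* (H ≃ₗᵢ[ℝ] H)) (τ : E → H) (p : E) : H :=
  ∑' g, pi g (τ (V.act g⁻¹ p))

end sections

section kernels

variable {G : Type} [Group G] {F : Type*} [NormedAddCommGroup F] [NormedSpace ℝ F]

/-- continuous invariant kernels of finite range -/
structure Ker (V : VG G) (k : E → E → ℝ) : Prop where
  cont : ContinuousOn (fun x : E × E => k x.1 x.2) (Om ×ˢ Om)
  inv : ∀ g, ∀ p ∈ Om, ∀ q ∈ Om, k (V.act g p) (V.act g q) = k p q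
  ran : ∃ R : ℝ, ∀ p ∈ Om, ∀ q ∈ Om, R ≤ V.Y p q → k p q = 0

/-- smooth kernels -/
def SmoK (k : E → E → ℝ) : Prop := ContDiffOn ℝ ∞ (fun x : E × E => k x.1 x.2) (Om ×ˢ Om)

/-- the integral operator -/
noncomputable def Ko (V : VG G) (k : E → E → ℝ) (s : E → F) (p : E) : F :=
  ∫ q, k p q • s q ∂V.mu

/-- the mass of the kernel -/
noncomputable def mk (V : VG G) (k : E → E → ℝ) (p : E) : ℝ := ∫ q, k p q ∂V.mu

/-- the cutoff kernel: equal to 1 for `Y ≤ R`, to 0 for `R + 1 ≤ Y` -/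
noncomputable def kk (V : VG G) (R : ℝ) (p q : E) : ℝ := Real.smoothTransition (R + 1 - V.Y p q)

/-- the Markov operator `s - (m s - K s) / (2 M)` of the kernel `kk V 2` -/
noncomputable def Ao (V : VG G) (M : ℝ) (s : E → F) (p : E) : F :=
  (1 - mk V (kk V 2) p / (2 * M)) • s p + (1 / (2 * M)) • Ko V (kk V 2) s p

/-- `M` bounds the mass of the kernel `kk V 2` -/
def MOK (V : VG G) (M : ℝ) : Prop := 0 < M ∧ ∀ p ∈ Om, mk V (kk V 2) p ≤ M

/-- the mollifier at scale `ε` -/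
noncomputable def ke (V : VG G) (c ε : ℝ) (p q : E) : ℝ :=
  (c * ε ^ 4)⁻¹ * Real.smoothTransition (1 - (V.Y p q - 1) / ε ^ 2)

/-- the commutator kernel -/
noncomputable def te (V : VG G) (c ε : ℝ) (p q : E) : ℝ :=
  V.L (fun x => ke V c ε x q) p - V.L (fun x => ke V c ε p x) q

end kernels

end Pool.Agent.MPd01a95.LN
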