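import Mathlib
import Pool.Agent.Lib.MP_d01a95_gt_L.LDefs

/-!
# Module Bas: calculus on the domain
-/

set_option autoImplicit false
set_option linter.all false

open MeasureTheory Filter Topology
open scoped ContDiff InnerProductSpace ENNReal

namespace Pool.Agent.MPd01a95.LN

theorem isOpen_Om : IsOpen Om := by
  have hc : Continuous fun p : E => (p 1).im := Complex.continuous_im.comp (continuous_apply 1)
  exact isOpen_lt continuous_const hc

theorem convex_Om : Convex ℝ Om := by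
  intro x hx y hy a b ha hb hab
  have hx' : 0 < (x 1).im := hx
  have hy' : 0 < (y 1).im := hy
  show 0 < ((a • x + b • y) 1).im
  have : ((a • x + b • y) 1).im = a * (x 1).im + b * (y 1).im := by
    simp
  rw [this]
  rcases ha.lt_or_eq with h | h
  · have := mul_pos h hx'
    have := mul_nonneg hb hy'.le
    linarith
  · have hb1 : b = 1 := by linarith
    rw [← h, hb1]
    linarith

theorem nonempty_Om : Om.Nonempty := by
  refine ⟨fun _ => Complex.I, ?_⟩
  show 0 < (Complex.I).im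
  simp

theorem measurableSet_Om : MeasurableSet Om := isOpen_Om.measurableSet

theorem sum_co (x : E) : ∑ i, co x i • bs i = x := by
  funext j
  fin_cases j
  · simp [Fin.sum_univ_four, co, bs, Complex.ext_iff]
  · simp [Fin.sum_univ_four, co, bs, Complex.ext_iff]

theorem abs_co_le (x : E) (i : Fin 4) : |co x i| ≤ ‖x‖ := by
  have h0 := norm_le_pi_norm x 0
  have h1 := norm_le_pi_norm x 1
  fin_cases i
  · exact (Complex.abs_re_le_norm (x 0)).trans h0
  · exact (Complex.abs_im_le_norm (x 0)).trans h0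
  · exact (Complex.abs_re_le_norm (x 1)).trans h1
  · exact (Complex.abs_im_le_norm (x 1)).trans h1

theorem norm_le_co (x : E) : ‖x‖ ^ 2 ≤ ∑ i, co x i ^ 2 := by
  have hs : ∑ i, co x i ^ 2 = ‖x 0‖ ^ 2 + ‖x 1‖ ^ 2 := by
    rw [← Complex.normSq_eq_norm_sq, ← Complex.normSq_eq_norm_sq, Complex.normSq_apply,
      Complex.normSq_apply]
    simp [Fin.sum_univ_four, co]
    ring
  have hn : ‖x‖ ≤ Real.sqrt (∑ i, co x i ^ 2) := by
    rw [pi_norm_le_iff_of_nonneg (Real.sqrt_nonneg _)]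
    intro j
    apply Real.le_sqrt_of_sq_le
    rw [hs]
    fin_cases j
    · have := sq_nonneg ‖x 1‖
      show ‖x 0‖ ^ 2 ≤ _
      linarith
    · have := sq_nonneg ‖x 0‖
      show ‖x 1‖ ^ 2 ≤ _
      linarith
  have h0 : 0 ≤ ∑ i, co x i ^ 2 := Finset.sum_nonneg fun i _ => sq_nonneg _
  calc ‖x‖ ^ 2 ≤ (Real.sqrt (∑ i, co x i ^ 2)) ^ 2 := by
        exact pow_le_pow_left₀ (norm_nonneg _) hn 2
    _ = _ := Real.sq_sqrt h0

variable {F : Type*} [NormedAddCommGroup F] [NormedSpace ℝ F]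
variable {F' : Type*} [NormedAddCommGroup F'] [NormedSpace ℝ F']
variable {H : Type*} [NormedAddCommGroup H] [InnerProductSpace ℝ H]

theorem fderiv_eq (u : E → F) (p x : E) : fderiv ℝ u p x = ∑ i, co x i • dr i u p := by
  conv_lhs => rw [← sum_co x]
  rw [map_sum]
  simp only [map_smul, dr]

theorem Smo.diff {u : E → F} (h : Smo u) {p : E} (hp : p ∈ Om) : DifferentiableAt ℝ u p := by
  have h1 : ContDiffAt ℝ ∞ u p := ContDiffOn.contDiffAt h (isOpen_Om.mem_nhds hp)
  exact h1.differentiableAt (by simp)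

theorem Smo.cont {u : E → F} (h : Smo u) : ContinuousOn u Om := ContDiffOn.continuousOn h

theorem Smo.dr {u : E → F} (h : Smo u) (i : Fin 4) : Smo (dr i u) := by
  have h1 : ContDiffOn ℝ ∞ (fderiv ℝ u) Om := ContDiffOn.fderiv_of_isOpen h isOpen_Om (by simp)
  exact h1.clm_apply contDiffOn_const

theorem Smo.congr {u v : E → F} (h : Smo u) (e : ∀ p ∈ Om, v p = u p) : Smo v :=
  ContDiffOn.congr h e

theorem Smo.add {u v : E → F} (h : Smo u) (h' : Smo v) : Smo (fun p => u p + v p) :=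
  ContDiffOn.add h h'

theorem Smo.sub {u v : E → F} (h : Smo u) (h' : Smo v) : Smo (fun p => u p - v p) :=
  ContDiffOn.sub h h'

theorem Smo.const (c : F) : Smo (fun _ => c) := contDiffOn_const

theorem Smo.clm {u : E → F} (h : Smo u) (T : F →L[ℝ] F') : Smo (fun p => T (u p)) :=
  T.contDiff.comp_contDiffOn h

theorem Smo.smul {f : E → ℝ} {u : E → F} (hf : Smo f) (h : Smo u) : Smo (fun p => f p • u p) :=
  ContDiffOn.smul hf h

theorem Smo.inner {s t : E → H} (hs : Smo s) (ht : Smo t) : Smo (fun p => ⟪s p, t p⟫_ℝ) :=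
  ContDiffOn.inner ℝ hs ht

theorem Smo.sum {ι : Type*} (A : Finset ι) {u : ι → E → F} (h : ∀ i ∈ A, Smo (u i)) :
    Smo (fun p => ∑ i ∈ A, u i p) := ContDiffOn.sum h

/-- composition with a smooth self map of the domain -/
theorem Smo.comp {u : E → F} (h : Smo u) {T : E → E} (hT : ContDiffOn ℝ ∞ T Om)
    (hm : ∀ p ∈ Om, T p ∈ Om) : Smo (fun p => u (T p)) := ContDiffOn.comp h hT hm

theorem dr_congr {u v : E → F} (e : ∀ p ∈ Om, u p = v p) {p : E} (hp : p ∈ Om) (i : Fin 4) :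
    dr i u p = dr i v p := by
  have h1 : u =ᶠ[𝓝 p] v := by
    filter_upwards [isOpen_Om.mem_nhds hp] with q hq using e q hq
  unfold dr
  rw [h1.fderiv_eq]

theorem dr_add {u v : E → F} (h : Smo u) (h' : Smo v) {p : E} (hp : p ∈ Om) (i : Fin 4) :
    dr i (fun q => u q + v q) p = dr i u p + dr i v p := by
  have h1 : HasFDerivAt (fun q => u q + v q) (fderiv ℝ u p + fderiv ℝ v p) p :=
    (h.diff hp).hasFDerivAt.add (h'.diff hp).hasFDerivAt
  unfold dr
  rw [h1.fderiv]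
  rfl

theorem dr_sub {u v : E → F} (h : Smo u) (h' : Smo v) {p : E} (hp : p ∈ Om) (i : Fin 4) :
    dr i (fun q => u q - v q) p = dr i u p - dr i v p := by
  have h1 : HasFDerivAt (fun q => u q - v q) (fderiv ℝ u p - fderiv ℝ v p) p :=
    (h.diff hp).hasFDerivAt.sub (h'.diff hp).hasFDerivAt
  unfold dr
  rw [h1.fderiv]
  rfl

theorem dr_const (c : F) (p : E) (i : Fin 4) : dr i (fun _ => c) p = 0 := by
  unfold dr
  simp

theorem dr_clm {u : E → F} (h : Smo u) (T : F →L[ℝ] F') {p : E} (hp : p ∈ Om) (i : Fin 4) :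
    dr i (fun q => T (u q)) p = T (dr i u p) := by
  have h1 : HasFDerivAt (fun q => T (u q)) (T.comp (fderiv ℝ u p)) p :=
    T.hasFDerivAt.comp p (h.diff hp).hasFDerivAt
  unfold dr
  rw [h1.fderiv]
  rfl

theorem dr_smul {f : E → ℝ} {u : E → F} (hf : Smo f) (h : Smo u) {p : E} (hp : p ∈ Om)
    (i : Fin 4) : dr i (fun q => f q • u q) p = dr i f p • u p + f p • dr i u p := by
  have h1 : HasFDerivAt (fun q => f q • u q)
      (f p • fderiv ℝ u p + (fderiv ℝ f p).smulRight (u p)) p :=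
    (hf.diff hp).hasFDerivAt.smul (h.diff hp).hasFDerivAt
  unfold dr
  rw [h1.fderiv]
  simp [add_comm]

theorem dr_inner {s t : E → H} (hs : Smo s) (ht : Smo t) {p : E} (hp : p ∈ Om) (i : Fin 4) :
    dr i (fun q => ⟪s q, t q⟫_ℝ) p = ⟪dr i s p, t p⟫_ℝ + ⟪s p, dr i t p⟫_ℝ := by
  unfold dr
  rw [fderiv_inner_apply ℝ (hs.diff hp) (ht.diff hp)]
  ring

theorem dr_sum {ι : Type*} (A : Finset ι) {u : ι → E → F} (h : ∀ i ∈ A, Smo (u i)) {p : E}
    (hp : p ∈ Om) (j : Fin 4) :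
    dr j (fun q => ∑ i ∈ A, u i q) p = ∑ i ∈ A, dr j (u i) p := by
  unfold dr
  have h1 : HasFDerivAt (fun q => ∑ i ∈ A, u i q) (∑ i ∈ A, fderiv ℝ (u i) p) p :=
    HasFDerivAt.fun_sum fun i hi => ((h i hi).diff hp).hasFDerivAt
  rw [h1.fderiv, ContinuousLinearMap.sum_apply]

theorem dr_comm {u : E → F} (h : Smo u) {p : E} (hp : p ∈ Om) (i j : Fin 4) :
    dr i (dr j u) p = dr j (dr i u) p := by
  have h0 : ContDiffOn ℝ ∞ (fderiv ℝ u) Om := ContDiffOn.fderiv_of_isOpen h isOpen_Om (by simp)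
  have h1 : ContDiffAt ℝ ∞ u p := ContDiffOn.contDiffAt h (isOpen_Om.mem_nhds hp)
  have h2 : DifferentiableAt ℝ (fderiv ℝ u) p :=
    (h0.contDiffAt (isOpen_Om.mem_nhds hp)).differentiableAt (by simp)
  have key : ∀ a b : Fin 4, LN.dr a (LN.dr b u) p = fderiv ℝ (fderiv ℝ u) p (bs a) (bs b) := by
    intro a b
    have h3 : HasFDerivAt (fun q => fderiv ℝ u q (bs b))
        ((ContinuousLinearMap.apply ℝ F (bs b)).comp (fderiv ℝ (fderiv ℝ u) p)) p :=
      (ContinuousLinearMap.apply ℝ F (bs b)).hasFDerivAt.comp p h2.hasFDerivAt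
    show fderiv ℝ (fun q => fderiv ℝ u q (bs b)) p (bs a) = _
    rw [h3.fderiv]
    rfl
  rw [key, key]
  have h5 : ContDiffAt ℝ 2 u p :=
    h1.of_le (WithTop.coe_le_coe.2 (le_top : (2 : ℕ∞) ≤ ⊤))
  have h4 : IsSymmSndFDerivAt ℝ u p := h5.isSymmSndFDerivAt (by simp)
  exact h4 _ _

end Pool.Agent.MPd01a95.LN
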