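import Mathlib
import Pool.Agent.Lib.MP_d01a95_gt_L.LDefs
import Pool.Agent.Lib.MP_d01a95_gt_L.LBas

/-!
# Module Cs: functions with compact support in the domain, cutoff functions
-/

set_option autoImplicit false
set_option linter.all false

open MeasureTheory Filter Topology
open scoped ContDiff InnerProductSpace ENNReal

namespace Pool.Agent.MPd01a95.LN

variable {F : Type*} [NormedAddCommGroup F] [NormedSpace ℝ F]
variable {F' : Type*} [NormedAddCommGroup F'] [NormedSpace ℝ F']
variable {H : Type*} [NormedAddCommGroup H] [InnerProductSpace ℝ H]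

theorem CS.dr {u : E → F} (h : CS u) (i : Fin 4) : CS (dr i u) := by
  obtain ⟨K, hK, hO, h0⟩ := h
  refine ⟨K, hK, hO, fun p hp hpK => ?_⟩
  have hU : Om ∩ Kᶜ ∈ 𝓝 p := (isOpen_Om.inter hK.isClosed.isOpen_compl).mem_nhds ⟨hp, hpK⟩
  have he : u =ᶠ[𝓝 p] fun _ => (0 : F) := by
    filter_upwards [hU] with q hq
    exact h0 q hq.1 hq.2
  unfold LN.dr
  rw [he.fderiv_eq]
  simp

/-- a general closure property: `v` vanishes where `u` does -/
theorem CS.of_imp {u : E → F} {v : E → F'} (h : CS u) (e : ∀ p ∈ Om, u p = 0 → v p = 0) :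
    CS v := by
  obtain ⟨K, hK, hO, h0⟩ := h
  exact ⟨K, hK, hO, fun p hp hpK => e p hp (h0 p hp hpK)⟩

theorem CS.smul_left {f : E → ℝ} {u : E → F} (h : CS f) : CS (fun p => f p • u p) :=
  h.of_imp (fun p _ hp => by simp [hp])

theorem CS.smul_right {f : E → ℝ} {u : E → F} (h : CS u) : CS (fun p => f p • u p) :=
  h.of_imp (fun p _ hp => by simp [hp])

theorem CS.add {u v : E → F} (h : CS u) (h' : CS v) : CS (fun p => u p + v p) := by
  obtain ⟨K, hK, hO, h0⟩ := h
  obtain ⟨K', hK', hO', h0'⟩ := h'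
  refine ⟨K ∪ K', hK.union hK', Set.union_subset hO hO', fun p hp hpK => ?_⟩
  show u p + v p = 0
  rw [h0 p hp (fun hx => hpK (Or.inl hx)), h0' p hp (fun hx => hpK (Or.inr hx)), add_zero]

theorem CS.sum {ι : Type*} (A : Finset ι) {u : ι → E → F} (h : ∀ i ∈ A, CS (u i)) :
    CS (fun p => ∑ i ∈ A, u i p) := by
  classical
  induction A using Finset.induction_on with
  | empty => exact ⟨∅, isCompact_empty, Set.empty_subset _, fun p _ _ => by simp⟩
  | insert a s ha ih =>
    have h1 : CS (u a) := h a (Finset.mem_insert_self _ _)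
    have h2 := ih (fun i hi => h i (Finset.mem_insert_of_mem hi))
    have h3 := h1.add h2
    have he : (fun p => ∑ i ∈ insert a s, u i p) = fun p => u a p + ∑ i ∈ s, u i p := by
      funext p
      exact Finset.sum_insert ha
    rw [he]
    exact h3

private theorem supp_sub {u : E → F} {K : Set E} (h0 : ∀ p ∈ Om, p ∉ K → u p = 0) :
    Function.support (Om.indicator u) ⊆ K := by
  intro p hp
  by_contra hpK
  apply hp
  by_cases hO : p ∈ Om
  · rw [Set.indicator_of_mem hO]
    exact h0 p hO hpK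
  · exact Set.indicator_of_notMem hO _

private theorem ind_ev_in {u : E → F} {p : E} (hp : p ∈ Om) : Om.indicator u =ᶠ[𝓝 p] u := by
  filter_upwards [isOpen_Om.mem_nhds hp] with q hq
  exact Set.indicator_of_mem hq _

private theorem ind_ev_out {u : E → F} {K : Set E} (hK : IsClosed K)
    (h0 : ∀ p ∈ Om, p ∉ K → u p = 0) {p : E} (hp : p ∉ K) :
    Om.indicator u =ᶠ[𝓝 p] fun _ => (0 : F) := by
  filter_upwards [hK.isOpen_compl.mem_nhds hp] with q hq
  by_contra hne
  exact hq (supp_sub h0 hne)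

theorem CS.indicator_cont {u : E → F} (hu : ContinuousOn u Om) (hc : CS u) :
    Continuous (Om.indicator u) ∧ HasCompactSupport (Om.indicator u) ∧
      tsupport (Om.indicator u) ⊆ Om := by
  obtain ⟨K, hK, hO, h0⟩ := hc
  have hts : tsupport (Om.indicator u) ⊆ K := closure_minimal (supp_sub h0) hK.isClosed
  refine ⟨?_, HasCompactSupport.of_support_subset_isCompact hK (supp_sub h0), hts.trans hO⟩
  rw [continuous_iff_continuousAt]
  intro p
  by_cases hp : p ∈ Om
  · exact (hu.continuousAt (isOpen_Om.mem_nhds hp)).congr (ind_ev_in hp).symm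
  · have hpK : p ∉ K := fun hx => hp (hO hx)
    exact continuousAt_const.congr (ind_ev_out hK.isClosed h0 hpK).symm

theorem CS.indicator_smooth {u : E → F} (hu : Smo u) (hc : CS u) :
    ContDiff ℝ ∞ (Om.indicator u) := by
  obtain ⟨K, hK, hO, h0⟩ := hc
  rw [contDiff_iff_contDiffAt]
  intro p
  by_cases hp : p ∈ Om
  · exact (hu.contDiffAt (isOpen_Om.mem_nhds hp)).congr_of_eventuallyEq (ind_ev_in hp)
  · have hpK : p ∉ K := fun hx => hp (hO hx)
    exact contDiffAt_const.congr_of_eventuallyEq (ind_ev_out hK.isClosed h0 hpK)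

/-- a compact set has a compact neighbourhood in the domain -/
theorem exists_nhd {K : Set E} (hK : IsCompact K) (hO : K ⊆ Om) :
    ∃ K' : Set E, IsCompact K' ∧ K' ⊆ Om ∧ K ⊆ interior K' := by
  obtain ⟨L, h1, h2, h3⟩ := exists_compact_between hK isOpen_Om hO
  exact ⟨L, h1, h3, h2⟩

/-- smooth cutoff functions -/
theorem exists_cut {K : Set E} (hK : IsCompact K) (hO : K ⊆ Om) :
    ∃ η : E → ℝ, Smo η ∧ ContDiff ℝ ∞ η ∧ CS η ∧ (∀ p, 0 ≤ η p) ∧ (∀ p, η p ≤ 1) ∧
      ∀ p ∈ K, η p = 1 := by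
  obtain ⟨L, h1, h2, h3⟩ := exists_nhd hK hO
  have hd : Disjoint (interior L)ᶜ K := by
    rw [Set.disjoint_left]
    intro x hx hxK
    exact hx (h3 hxK)
  obtain ⟨f, hf0, hf1, hf⟩ := exists_contMDiffMap_zero_one_of_isClosed
    (modelWithCornersSelf ℝ E) (n := (⊤ : ℕ∞)) isOpen_interior.isClosed_compl hK.isClosed hd
  have hsm : ContDiff ℝ ∞ (f : E → ℝ) := f.contMDiff.contDiff
  refine ⟨f, hsm.contDiffOn, hsm, ⟨L, h1, h2, fun p _ hpL => ?_⟩, fun p => (hf p).1,
    fun p => (hf p).2, fun p hp => hf1 hp⟩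
  exact hf0 (fun hx => hpL (interior_subset hx))

/-- the closed convex hull stays in the domain -/
theorem exists_hull {K : Set E} (hK : IsCompact K) (hO : K ⊆ Om) :
    ∃ K' : Set E, IsCompact K' ∧ K' ⊆ Om ∧ K ⊆ K' ∧ Convex ℝ K' := by
  rcases K.eq_empty_or_nonempty with hne | hne
  · subst hne
    exact ⟨∅, isCompact_empty, Set.empty_subset _, Set.Subset.refl _, convex_empty⟩
  have hcont : Continuous fun p : E => (p 1).im :=
    Complex.continuous_im.comp (continuous_apply 1)
  obtain ⟨p0, hp0, hmin⟩ := hK.exists_isMinOn hne hcont.continuousOn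
  obtain ⟨R, hR⟩ := hK.isBounded.subset_closedBall (0 : E)
  refine ⟨Metric.closedBall 0 R ∩ {p : E | (p0 1).im ≤ (p 1).im}, ?_, ?_, ?_, ?_⟩
  · exact (isCompact_closedBall _ _).inter_right (isClosed_le continuous_const hcont)
  · intro p hp
    have h1 : 0 < (p0 1).im := hO hp0
    have h2 : (p0 1).im ≤ (p 1).im := hp.2
    exact lt_of_lt_of_le h1 h2
  · intro p hp
    exact ⟨hR hp, hmin hp⟩
  · refine (convex_closedBall _ _).inter ?_
    intro x hx y hy a b ha hb hab
    have hx' : (p0 1).im ≤ (x 1).im := hx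
    have hy' : (p0 1).im ≤ (y 1).im := hy
    have he : ((a • x + b • y) 1).im = a * (x 1).im + b * (y 1).im := by simp
    show (p0 1).im ≤ ((a • x + b • y) 1).im
    rw [he]
    have h1 := mul_le_mul_of_nonneg_left hx' ha
    have h2 := mul_le_mul_of_nonneg_left hy' hb
    have h3 : a * (p0 1).im + b * (p0 1).im = (p0 1).im := by rw [← add_mul, hab, one_mul]
    linarith

end Pool.Agent.MPd01a95.LN
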