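import Mathlib
import Pool.Agent.Lib.MP_d01a95_gt_L.LDefs
import Pool.Agent.Lib.MP_d01a95_gt_L.LBas
import Pool.Agent.Lib.MP_d01a95_gt_L.LCs

/-!
# Module Alg: algebra of `L` and `Gam`
-/

set_option autoImplicit false
set_option linter.all false

open MeasureTheory Filter Topology
open scoped ContDiff InnerProductSpace ENNReal

namespace Pool.Agent.MPd01a95.LN

namespace LAlg

open scoped MatrixOrder in
theorem psd_decomp (A : Fin 4 → Fin 4 → ℝ) (hs : ∀ i j, A i j = A j i)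
    (hp : ∀ x : Fin 4 → ℝ, 0 ≤ ∑ i, ∑ j, A i j * x i * x j) :
    ∃ S : Fin 4 → Fin 4 → ℝ, ∀ i j, A i j = ∑ k, S k i * S k j := by
  have hM : (Matrix.of A).PosSemidef := by
    refine Matrix.PosSemidef.of_dotProduct_mulVec_nonneg ?_ fun x => ?_
    · ext i j
      simp only [Matrix.conjTranspose_apply, Matrix.of_apply, star_trivial]
      exact hs j i
    · have h := hp x
      have e : dotProduct (star x) ((Matrix.of A).mulVec x) = ∑ i, ∑ j, A i j * x i * x j := by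
        simp only [dotProduct, Matrix.mulVec, Matrix.of_apply, star_trivial, Finset.mul_sum]
        exact Finset.sum_congr rfl fun i _ => Finset.sum_congr rfl fun j _ => by ring
      rw [e]
      exact h
  obtain ⟨B, hB⟩ := CStarAlgebra.nonneg_iff_eq_star_mul_self.mp hM.nonneg
  refine ⟨fun k i => B k i, fun i j => ?_⟩
  have := congrFun (congrFun hB i) j
  rw [Matrix.of_apply] at this
  rw [this, Matrix.mul_apply]
  rfl

theorem form_eq {H : Type*} [NormedAddCommGroup H] [InnerProductSpace ℝ H]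
    {A S : Fin 4 → Fin 4 → ℝ} (h : ∀ i j, A i j = ∑ k, S k i * S k j) (x y : Fin 4 → H) :
    ∑ i, ∑ j, A i j * ⟪x i, y j⟫_ℝ = ∑ k, ⟪∑ i, S k i • x i, ∑ j, S k j • y j⟫_ℝ := by
  have h1 : ∀ k, ⟪∑ i, S k i • x i, ∑ j, S k j • y j⟫_ℝ =
      ∑ i, ∑ j, S k i * S k j * ⟪x i, y j⟫_ℝ := by
    intro k
    rw [sum_inner]
    refine Finset.sum_congr rfl fun i _ => ?_
    rw [inner_sum]
    refine Finset.sum_congr rfl fun j _ => ?_
    rw [real_inner_smul_left, real_inner_smul_right]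
    ring
  calc ∑ i, ∑ j, A i j * ⟪x i, y j⟫_ℝ
      = ∑ i, ∑ j, ∑ k, S k i * S k j * ⟪x i, y j⟫_ℝ :=
        Finset.sum_congr rfl fun i _ => Finset.sum_congr rfl fun j _ => by
          rw [h, Finset.sum_mul]
    _ = ∑ i, ∑ k, ∑ j, S k i * S k j * ⟪x i, y j⟫_ℝ :=
        Finset.sum_congr rfl fun i _ => Finset.sum_comm
    _ = ∑ k, ∑ i, ∑ j, S k i * S k j * ⟪x i, y j⟫_ℝ := Finset.sum_comm
    _ = ∑ k, ⟪∑ i, S k i • x i, ∑ j, S k j • y j⟫_ℝ :=
        Finset.sum_congr rfl fun k _ => (h1 k).symm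

theorem form_nonneg {H : Type*} [NormedAddCommGroup H] [InnerProductSpace ℝ H]
    (A : Fin 4 → Fin 4 → ℝ) (hs : ∀ i j, A i j = A j i)
    (hp : ∀ x : Fin 4 → ℝ, 0 ≤ ∑ i, ∑ j, A i j * x i * x j) (x : Fin 4 → H) :
    0 ≤ ∑ i, ∑ j, A i j * ⟪x i, x j⟫_ℝ := by
  obtain ⟨S, hS⟩ := psd_decomp A hs hp
  rw [form_eq hS]
  exact Finset.sum_nonneg fun k _ => real_inner_self_nonneg

theorem form_cs {H : Type*} [NormedAddCommGroup H] [InnerProductSpace ℝ H]
    (A : Fin 4 → Fin 4 → ℝ) (hs : ∀ i j, A i j = A j i)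
    (hp : ∀ x : Fin 4 → ℝ, 0 ≤ ∑ i, ∑ j, A i j * x i * x j) (x y : Fin 4 → H) :
    (∑ i, ∑ j, A i j * ⟪x i, y j⟫_ℝ) ^ 2 ≤
      (∑ i, ∑ j, A i j * ⟪x i, x j⟫_ℝ) * (∑ i, ∑ j, A i j * ⟪y i, y j⟫_ℝ) := by
  obtain ⟨S, hS⟩ := psd_decomp A hs hp
  rw [form_eq hS, form_eq hS, form_eq hS]
  generalize (fun k => ∑ i, S k i • x i) = X
  have h1 : |∑ k, ⟪∑ i, S k i • x i, ∑ j, S k j • y j⟫_ℝ| ≤
      ∑ k, ‖∑ i, S k i • x i‖ * ‖∑ j, S k j • y j‖ :=
    (Finset.abs_sum_le_sum_abs _ _).trans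
      (Finset.sum_le_sum fun k _ => abs_real_inner_le_norm _ _)
  have h2 := Finset.sum_mul_sq_le_sq_mul_sq Finset.univ (fun k => ‖∑ i, S k i • x i‖)
    (fun k => ‖∑ j, S k j • y j‖)
  have h3 : ∀ z : Fin 4 → H, ∑ k, ⟪∑ i, S k i • z i, ∑ j, S k j • z j⟫_ℝ =
      ∑ k, ‖∑ i, S k i • z i‖ ^ 2 := fun z =>
    Finset.sum_congr rfl fun k _ => real_inner_self_eq_norm_sq _
  rw [h3 x, h3 y]
  refine le_trans ?_ h2
  exact sq_le_sq' (neg_le_of_abs_le h1) (le_of_abs_le h1)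

/-- the square sum sphere -/
def Sph : Set (Fin 4 → ℝ) := {x | ∑ i, x i ^ 2 = 1}

theorem isCompact_Sph : IsCompact Sph := by
  refine Metric.isCompact_of_isClosed_isBounded ?_ ?_
  · exact isClosed_eq (by fun_prop) continuous_const
  · refine (Metric.isBounded_closedBall (x := (0 : Fin 4 → ℝ)) (r := 1)).subset fun x hx => ?_
    rw [mem_closedBall_zero_iff, pi_norm_le_iff_of_nonneg zero_le_one]
    intro i
    have h1 : x i ^ 2 ≤ ∑ i, x i ^ 2 :=
      Finset.single_le_sum (f := fun i => x i ^ 2) (fun i _ => sq_nonneg _) (Finset.mem_univ i)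
    have h2 : ∑ i, x i ^ 2 = 1 := hx
    rw [Real.norm_eq_abs]
    exact abs_le_one_iff_mul_self_le_one.2 (by nlinarith)

theorem q_low (V : Ell) {K : Set E} (hK : IsCompact K) (hO : K ⊆ Om) :
    ∃ c : ℝ, 0 < c ∧ ∀ p ∈ K, ∀ x : Fin 4 → ℝ,
      c * ∑ i, x i ^ 2 ≤ ∑ i, ∑ j, V.a i j p * x i * x j := by
  rcases K.eq_empty_or_nonempty with hne | hne
  · subst hne
    exact ⟨1, one_pos, fun p hp => absurd hp (Set.notMem_empty p)⟩
  have hS : Sph.Nonempty := ⟨Pi.single 0 1, by simp [Sph, Fin.sum_univ_four]⟩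
  have hcont : ContinuousOn (fun z : E × (Fin 4 → ℝ) => ∑ i, ∑ j, V.a i j z.1 * z.2 i * z.2 j)
      (K ×ˢ Sph) := by
    refine continuousOn_finset_sum _ fun i _ => continuousOn_finset_sum _ fun j _ => ?_
    have h1 : ContinuousOn (fun z : E × (Fin 4 → ℝ) => V.a i j z.1) (K ×ˢ Sph) :=
      ((V.a_smo i j).cont.mono hO).comp continuousOn_fst fun z hz => hz.1
    have h2 : Continuous (fun z : E × (Fin 4 → ℝ) => z.2 i) :=
      (continuous_apply i).comp continuous_snd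
    have h3 : Continuous (fun z : E × (Fin 4 → ℝ) => z.2 j) :=
      (continuous_apply j).comp continuous_snd
    exact (h1.mul h2.continuousOn).mul h3.continuousOn
  obtain ⟨⟨p0, x0⟩, hm, hmin⟩ := (hK.prod isCompact_Sph).exists_isMinOn (hne.prod hS) hcont
  have hx0 : x0 ≠ 0 := by
    rintro rfl
    have h1 : ∑ i, ((0 : Fin 4 → ℝ) i) ^ 2 = 1 := hm.2
    simp at h1
  refine ⟨∑ i, ∑ j, V.a i j p0 * x0 i * x0 j, V.a_pos p0 (hO hm.1) x0 hx0, fun p hp x => ?_⟩
  rcases eq_or_ne (∑ i, x i ^ 2) 0 with h0 | h0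
  · have hx : x = 0 := by
      funext i
      have h1 := (Finset.sum_eq_zero_iff_of_nonneg (fun i _ => sq_nonneg (x i))).1 h0 i
        (Finset.mem_univ i)
      exact pow_eq_zero_iff (two_ne_zero) |>.1 h1
    subst hx
    simp
  · have hr : 0 < ∑ i, x i ^ 2 :=
      lt_of_le_of_ne (Finset.sum_nonneg fun i _ => sq_nonneg _) (Ne.symm h0)
    generalize hrr : ∑ i, x i ^ 2 = r at h0 hr
    have hs : 0 < Real.sqrt r := Real.sqrt_pos.2 hr
    have hss : Real.sqrt r ^ 2 = r := Real.sq_sqrt hr.le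
    have hy : (fun i => x i / Real.sqrt r) ∈ Sph := by
      have h1 : ∑ i, (x i / Real.sqrt r) ^ 2 = 1 := by
        simp only [div_pow, hss]
        rw [← Finset.sum_div, hrr, div_self h0]
      exact h1
    have h2 := isMinOn_iff.1 hmin (p, fun i => x i / Real.sqrt r) ⟨hp, hy⟩
    have h3 : ∑ i, ∑ j, V.a i j p * x i * x j =
        r * ∑ i, ∑ j, V.a i j p * (x i / Real.sqrt r) * (x j / Real.sqrt r) := by
      rw [Finset.mul_sum]
      refine Finset.sum_congr rfl fun i _ => ?_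
      rw [Finset.mul_sum]
      refine Finset.sum_congr rfl fun j _ => ?_
      have h4 : r * (V.a i j p * (x i / Real.sqrt r) * (x j / Real.sqrt r)) =
          V.a i j p * x i * x j * (r / Real.sqrt r ^ 2) := by
        field_simp
      rw [h4, hss, div_self h0, mul_one]
    rw [h3, mul_comm]
    exact mul_le_mul_of_nonneg_left h2 hr.le

end LAlg

variable (V : Ell)
variable {F : Type*} [NormedAddCommGroup F] [NormedSpace ℝ F]
variable {F' : Type*} [NormedAddCommGroup F'] [NormedSpace ℝ F']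
variable {H : Type*} [NormedAddCommGroup H] [InnerProductSpace ℝ H]

namespace LAlg

theorem a_nonneg {p : E} (hp : p ∈ Om) (x : Fin 4 → ℝ) :
    0 ≤ ∑ i, ∑ j, V.a i j p * x i * x j := by
  rcases eq_or_ne x 0 with rfl | h
  · simp
  · exact (V.a_pos p hp x h).le

theorem dr2_congr {u v : E → F} (e : ∀ p ∈ Om, u p = v p) {p : E} (hp : p ∈ Om) (i j : Fin 4) :
    dr i (dr j u) p = dr i (dr j v) p :=
  dr_congr (fun q hq => dr_congr e hq j) hp i

end LAlg

open LAlg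

theorem b_smo (j : Fin 4) : Smo (V.b j) := by
  have h1 : Smo (fun p => (V.rho p)⁻¹) :=
    ContDiffOn.inv V.rho_smo (fun p hp => (V.rho_pos p hp).ne')
  have h2 : ∀ i, Smo (fun q => V.rho q * V.a i j q) := fun i => V.rho_smo.smul (V.a_smo i j)
  exact h1.smul (Smo.sum Finset.univ fun i _ => (h2 i).dr i)

theorem L_smo {u : E → F} (h : Smo u) : Smo (V.L u) :=
  Smo.add (Smo.sum _ fun i _ => Smo.sum _ fun j _ => (V.a_smo i j).smul ((h.dr j).dr i))
    (Smo.sum _ fun j _ => (b_smo V j).smul (h.dr j))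

theorem L_congr {u v : E → F} (e : ∀ p ∈ Om, u p = v p) {p : E} (hp : p ∈ Om) :
    V.L u p = V.L v p := by
  have h1 : ∀ j, dr j u p = dr j v p := fun j => dr_congr e hp j
  have h2 : ∀ i j, dr i (dr j u) p = dr i (dr j v) p := fun i j => dr2_congr e hp i j
  simp only [Ell.L, h2, h1]

theorem L_cs {u : E → F} (h : CS u) : CS (V.L u) :=
  CS.add (CS.sum _ fun i _ => CS.sum _ fun j _ => CS.smul_right ((h.dr j).dr i))
    (CS.sum _ fun j _ => CS.smul_right (h.dr j))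

theorem L_add {u v : E → F} (h : Smo u) (h' : Smo v) {p : E} (hp : p ∈ Om) :
    V.L (fun q => u q + v q) p = V.L u p + V.L v p := by
  have h1 : ∀ j, ∀ q ∈ Om, dr j (fun q => u q + v q) q = dr j u q + dr j v q :=
    fun j q hq => dr_add h h' hq j
  have h2 : ∀ i j, dr i (dr j (fun q => u q + v q)) p = dr i (dr j u) p + dr i (dr j v) p :=
    fun i j => (dr_congr (h1 j) hp i).trans (dr_add (h.dr j) (h'.dr j) hp i)
  simp only [Ell.L, h1 _ p hp, h2, smul_add, Finset.sum_add_distrib]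
  abel

theorem L_sub {u v : E → F} (h : Smo u) (h' : Smo v) {p : E} (hp : p ∈ Om) :
    V.L (fun q => u q - v q) p = V.L u p - V.L v p := by
  have h1 : ∀ j, ∀ q ∈ Om, dr j (fun q => u q - v q) q = dr j u q - dr j v q :=
    fun j q hq => dr_sub h h' hq j
  have h2 : ∀ i j, dr i (dr j (fun q => u q - v q)) p = dr i (dr j u) p - dr i (dr j v) p :=
    fun i j => (dr_congr (h1 j) hp i).trans (dr_sub (h.dr j) (h'.dr j) hp i)
  simp only [Ell.L, h1 _ p hp, h2, smul_sub, Finset.sum_sub_distrib]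
  abel

theorem L_const (c : F) {p : E} (hp : p ∈ Om) : V.L (fun _ => c) p = 0 := by
  have h1 : ∀ j, ∀ q ∈ Om, dr j (fun _ : E => c) q = 0 := fun j q _ => dr_const c q j
  have h2 : ∀ i j, dr i (dr j (fun _ : E => c)) p = 0 :=
    fun i j => (dr_congr (h1 j) hp i).trans (dr_const 0 p i)
  simp only [Ell.L, h1 _ p hp, h2, smul_zero, Finset.sum_const_zero, add_zero]

theorem L_clm {u : E → F} (h : Smo u) (T : F →L[ℝ] F') {p : E} (hp : p ∈ Om) :
    V.L (fun q => T (u q)) p = T (V.L u p) := by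
  have h1 : ∀ j, ∀ q ∈ Om, dr j (fun q => T (u q)) q = T (dr j u q) :=
    fun j q hq => dr_clm h T hq j
  have h2 : ∀ i j, dr i (dr j (fun q => T (u q))) p = T (dr i (dr j u) p) :=
    fun i j => (dr_congr (h1 j) hp i).trans (dr_clm (h.dr j) T hp i)
  simp only [Ell.L, h1 _ p hp, h2, map_add, map_sum, map_smul]

theorem L_sum {ι : Type*} (A : Finset ι) {u : ι → E → F} (h : ∀ i ∈ A, Smo (u i)) {p : E}
    (hp : p ∈ Om) : V.L (fun q => ∑ i ∈ A, u i q) p = ∑ i ∈ A, V.L (u i) p := by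
  classical
  induction A using Finset.induction_on with
  | empty =>
    simp only [Finset.sum_empty]
    exact L_const V 0 hp
  | insert a s ha ih =>
    have e : ∀ q ∈ Om, ∑ i ∈ insert a s, u i q = u a q + ∑ i ∈ s, u i q :=
      fun q _ => Finset.sum_insert ha
    rw [L_congr V e hp, L_add V (h a (Finset.mem_insert_self _ _))
      (Smo.sum s fun i hi => h i (Finset.mem_insert_of_mem hi)) hp,
      ih fun i hi => h i (Finset.mem_insert_of_mem hi), Finset.sum_insert ha]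

theorem Gam_congr {s s' t t' : E → H} (e : ∀ p ∈ Om, s p = s' p) (e' : ∀ p ∈ Om, t p = t' p)
    {p : E} (hp : p ∈ Om) : V.Gam s t p = V.Gam s' t' p := by
  have h1 : ∀ j, dr j s p = dr j s' p := fun j => dr_congr e hp j
  have h2 : ∀ j, dr j t p = dr j t' p := fun j => dr_congr e' hp j
  simp only [Ell.Gam, h1, h2]

theorem Gam_smo {s t : E → H} (hs : Smo s) (ht : Smo t) : Smo (V.Gam s t) :=
  Smo.sum _ fun i _ => Smo.sum _ fun j _ => (V.a_smo i j).smul ((hs.dr i).inner (ht.dr j))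

theorem Gam_symm (s t : E → H) {p : E} (hp : p ∈ Om) : V.Gam s t p = V.Gam t s p := by
  rw [Ell.Gam, Ell.Gam, Finset.sum_comm]
  refine Finset.sum_congr rfl fun i _ => Finset.sum_congr rfl fun j _ => ?_
  rw [V.a_symm j i p hp, real_inner_comm]

theorem Gam_add {s s' t : E → H} (hs : Smo s) (hs' : Smo s') {p : E} (hp : p ∈ Om) :
    V.Gam (fun q => s q + s' q) t p = V.Gam s t p + V.Gam s' t p := by
  have h1 : ∀ j, dr j (fun q => s q + s' q) p = dr j s p + dr j s' p :=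
    fun j => dr_add hs hs' hp j
  simp only [Ell.Gam, h1, inner_add_left, mul_add, Finset.sum_add_distrib]

theorem Gam_smul (c : ℝ) {s t : E → H} (hs : Smo s) {p : E} (hp : p ∈ Om) :
    V.Gam (fun q => c • s q) t p = c * V.Gam s t p := by
  have h1 : ∀ j, dr j (fun q => c • s q) p = c • dr j s p := by
    intro j
    have := dr_smul (Smo.const c) hs hp j
    rw [dr_const, zero_smul, zero_add] at this
    exact this
  simp only [Ell.Gam, h1, real_inner_smul_left, Finset.mul_sum]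
  exact Finset.sum_congr rfl fun i _ => Finset.sum_congr rfl fun j _ => by ring

theorem Gam_const (c : H) (t : E → H) (p : E) : V.Gam (fun _ => c) t p = 0 := by
  have h1 : ∀ j, dr j (fun _ : E => c) p = 0 := fun j => dr_const c p j
  simp only [Ell.Gam, h1, inner_zero_left, mul_zero, Finset.sum_const_zero]

theorem Gam_nonneg (s : E → H) {p : E} (hp : p ∈ Om) : 0 ≤ V.Gam s s p :=
  form_nonneg (fun i j => V.a i j p) (fun i j => V.a_symm i j p hp) (a_nonneg V hp)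
    fun i => dr i s p

/-- Cauchy and Schwarz -/
theorem Gam_cs (s t : E → H) {p : E} (hp : p ∈ Om) :
    V.Gam s t p ^ 2 ≤ V.Gam s s p * V.Gam t t p :=
  form_cs (fun i j => V.a i j p) (fun i j => V.a_symm i j p hp) (a_nonneg V hp)
    (fun i => dr i s p) fun i => dr i t p

/-- comparison with the Euclidean gradient on compact sets -/
theorem Gam_low {K : Set E} (hK : IsCompact K) (hO : K ⊆ Om) :
    ∃ c : ℝ, 0 < c ∧ ∀ (H : Type) [NormedAddCommGroup H] [InnerProductSpace ℝ H] (s : E → H),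
      ∀ p ∈ K, c * ∑ i, ‖dr i s p‖ ^ 2 ≤ V.Gam s s p := by
  classical
  obtain ⟨c, hc, hq⟩ := q_low V hK hO
  refine ⟨c, hc, fun H _ _ s p hp => ?_⟩
  have h1 : ∀ x : Fin 4 → ℝ, ∑ i, ∑ j, (V.a i j p - if i = j then c else 0) * x i * x j =
      ∑ i, ∑ j, V.a i j p * x i * x j - c * ∑ i, x i ^ 2 := by
    intro x
    simp only [sub_mul, Finset.sum_sub_distrib, ite_mul, zero_mul, Finset.sum_ite_eq,
      Finset.mem_univ, if_true, Finset.mul_sum]
    congr 1
    exact Finset.sum_congr rfl fun i _ => by ring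
  have h2 : ∀ i j, (V.a i j p - if i = j then c else 0) = (V.a j i p - if j = i then c else 0) := by
    intro i j
    rw [V.a_symm i j p (hO hp)]
    by_cases h : i = j
    · rw [if_pos h, if_pos h.symm]
    · rw [if_neg h, if_neg (Ne.symm h)]
  have h3 := form_nonneg (fun i j => V.a i j p - if i = j then c else 0) h2
    (fun x => by rw [h1]; exact sub_nonneg.2 (hq p hp x)) (fun i => dr i s p)
  have h4 : ∑ i, ∑ j, (V.a i j p - if i = j then c else 0) * ⟪dr i s p, dr j s p⟫_ℝ =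
      V.Gam s s p - c * ∑ i, ‖dr i s p‖ ^ 2 := by
    simp only [sub_mul, Finset.sum_sub_distrib, ite_mul, zero_mul, Finset.sum_ite_eq,
      Finset.mem_univ, if_true, Finset.mul_sum, Ell.Gam]
    congr 1
    exact Finset.sum_congr rfl fun i _ => by rw [real_inner_self_eq_norm_sq]
  rw [h4] at h3
  exact sub_nonneg.1 h3

/-- Leibniz rule for `L` of an inner product -/
theorem L_inner {s t : E → H} (hs : Smo s) (ht : Smo t) {p : E} (hp : p ∈ Om) :
    V.L (fun q => ⟪s q, t q⟫_ℝ) p = ⟪V.L s p, t p⟫_ℝ + ⟪s p, V.L t p⟫_ℝ + 2 * V.Gam s t p := by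
  have h1 : ∀ j, ∀ q ∈ Om, dr j (fun q => ⟪s q, t q⟫_ℝ) q =
      ⟪dr j s q, t q⟫_ℝ + ⟪s q, dr j t q⟫_ℝ := fun j q hq => dr_inner hs ht hq j
  have h2 : ∀ i j, dr i (dr j (fun q => ⟪s q, t q⟫_ℝ)) p =
      (⟪dr i (dr j s) p, t p⟫_ℝ + ⟪dr j s p, dr i t p⟫_ℝ) +
        (⟪dr i s p, dr j t p⟫_ℝ + ⟪s p, dr i (dr j t) p⟫_ℝ) := by
    intro i j
    rw [dr_congr (h1 j) hp i, dr_add ((hs.dr j).inner ht) (hs.inner (ht.dr j)) hp i,
      dr_inner (hs.dr j) ht hp i, dr_inner hs (ht.dr j) hp i]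
  have h3 : ∑ i, ∑ j, V.a i j p * ⟪dr j s p, dr i t p⟫_ℝ = V.Gam s t p := by
    rw [Ell.Gam, Finset.sum_comm]
    refine Finset.sum_congr rfl fun i _ => Finset.sum_congr rfl fun j _ => ?_
    rw [V.a_symm j i p hp]
  have h4 : ⟪V.L s p, t p⟫_ℝ = ∑ i, ∑ j, V.a i j p * ⟪dr i (dr j s) p, t p⟫_ℝ +
      ∑ j, V.b j p * ⟪dr j s p, t p⟫_ℝ := by
    simp only [Ell.L, inner_add_left, sum_inner, real_inner_smul_left]
  have h5 : ⟪s p, V.L t p⟫_ℝ = ∑ i, ∑ j, V.a i j p * ⟪s p, dr i (dr j t) p⟫_ℝ +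
      ∑ j, V.b j p * ⟪s p, dr j t p⟫_ℝ := by
    simp only [Ell.L, inner_add_right, inner_sum, real_inner_smul_right]
  have h6 : V.L (fun q => ⟪s q, t q⟫_ℝ) p =
      (∑ i, ∑ j, V.a i j p * ⟪dr i (dr j s) p, t p⟫_ℝ +
        ∑ i, ∑ j, V.a i j p * ⟪dr j s p, dr i t p⟫_ℝ +
        (∑ i, ∑ j, V.a i j p * ⟪dr i s p, dr j t p⟫_ℝ +
        ∑ i, ∑ j, V.a i j p * ⟪s p, dr i (dr j t) p⟫_ℝ)) +
      (∑ j, V.b j p * ⟪dr j s p, t p⟫_ℝ + ∑ j, V.b j p * ⟪s p, dr j t p⟫_ℝ) := by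
    simp only [Ell.L, h1 _ p hp, h2, smul_eq_mul, mul_add, Finset.sum_add_distrib]
  rw [h6, h4, h5, h3]
  have h7 : ∑ i, ∑ j, V.a i j p * ⟪dr i s p, dr j t p⟫_ℝ = V.Gam s t p := rfl
  rw [h7]
  ring

/-- Leibniz rule for real functions -/
theorem L_mul {u v : E → ℝ} (hu : Smo u) (hv : Smo v) {p : E} (hp : p ∈ Om) :
    V.L (fun q => u q * v q) p = V.L u p * v p + u p * V.L v p + 2 * V.Gam u v p := by
  have e0 : ∀ a b : ℝ, ⟪a, b⟫_ℝ = a * b := fun a b => by
    rw [real_inner_eq_re_inner]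
    simp [mul_comm]
  have e : ∀ q ∈ Om, u q * v q = ⟪u q, v q⟫_ℝ := fun q _ => (e0 _ _).symm
  rw [L_congr V e hp, L_inner V hu hv hp, e0, e0]

end Pool.Agent.MPd01a95.LN
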