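import Mathlib
import Pool.Agent.Lib.MP_d01a95_gt_L.LDefs
import Pool.Agent.Lib.MP_d01a95_gt_L.LBas
import Pool.Agent.Lib.MP_d01a95_gt_L.LCs
import Pool.Agent.Lib.MP_d01a95_gt_L.LAlg

/-!
# Module Grn: integrability, Green formulas with compact support
-/

set_option autoImplicit false
set_option linter.all false

open MeasureTheory Filter Topology
open scoped ContDiff InnerProductSpace ENNReal

namespace Pool.Agent.MPd01a95.LN

variable (V : Ell)
variable {F : Type*} [NormedAddCommGroup F] [NormedSpace ℝ F]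
variable {H : Type*} [NormedAddCommGroup H] [InnerProductSpace ℝ H]

private theorem aem_rho : AEMeasurable (fun p => ENNReal.ofReal (V.rho p)) (volume.restrict Om) :=
  ((V.rho_smo.cont).aemeasurable measurableSet_Om).ennreal_ofReal

theorem int_mu (f : E → F) : ∫ p, f p ∂V.mu = ∫ p in Om, V.rho p • f p := by
  rw [Ell.mu, integral_withDensity_eq_integral_toReal_smul₀ (aem_rho V)
    (Eventually.of_forall fun x => ENNReal.ofReal_lt_top)]
  refine setIntegral_congr_fun measurableSet_Om fun p hp => ?_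
  rw [ENNReal.toReal_ofReal (V.rho_pos p hp).le]

theorem ae_mu {P : E → Prop} (h : ∀ p ∈ Om, P p) : ∀ᵐ p ∂V.mu, P p := by
  have h1 : ∀ᵐ p ∂(volume.restrict Om), P p :=
    (ae_restrict_mem measurableSet_Om).mono fun p hp => h p hp
  exact (withDensity_absolutelyContinuous (volume.restrict Om) _).ae_le h1

private theorem intOn_cs {f : E → F} (hf : ContinuousOn f Om) (hc : CS f) :
    IntegrableOn f Om := by
  obtain ⟨h1, h2, h3⟩ := CS.indicator_cont hf hc
  exact (integrable_indicator_iff measurableSet_Om).1 (h1.integrable_of_hasCompactSupport h2)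

theorem mu_lt_top {K : Set E} (hK : IsCompact K) (hO : K ⊆ Om) : V.mu K < ⊤ := by
  have hcon : ContinuousOn V.rho K := (V.rho_smo.cont).mono hO
  obtain ⟨C, hC⟩ := hK.exists_bound_of_continuousOn hcon
  rw [Ell.mu, withDensity_apply _ hK.measurableSet]
  calc ∫⁻ p in K, ENNReal.ofReal (V.rho p) ∂(volume.restrict Om)
      ≤ ∫⁻ p in K, ENNReal.ofReal C ∂(volume.restrict Om) := by
        refine setLIntegral_mono' hK.measurableSet fun p hp => ?_
        exact ENNReal.ofReal_le_ofReal ((le_abs_self _).trans (hC p hp))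
    _ = ENNReal.ofReal C * (volume.restrict Om) K := by
        rw [setLIntegral_const]
    _ < ⊤ := by
        refine ENNReal.mul_lt_top ENNReal.ofReal_lt_top ?_
        exact (Measure.restrict_apply_le _ _).trans_lt hK.measure_lt_top

theorem integrable_cs {f : E → F} (hf : ContinuousOn f Om) (hc : CS f) :
    Integrable f V.mu := by
  rw [Ell.mu, integrable_withDensity_iff_integrable_smul₀' (aem_rho V)
    (Eventually.of_forall fun x => ENNReal.ofReal_lt_top)]
  have h1 : IntegrableOn (fun p => V.rho p • f p) Om :=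
    intOn_cs ((V.rho_smo.cont).smul hf) (CS.smul_right hc)
  refine IntegrableOn.congr_fun h1 (fun p hp => ?_) measurableSet_Om
  rw [ENNReal.toReal_ofReal (V.rho_pos p hp).le]

/-- functions continuous on the domain are almost everywhere strongly measurable -/
theorem aesm {f : E → F} (hf : ContinuousOn f Om) : AEStronglyMeasurable f V.mu :=
  (hf.aestronglyMeasurable measurableSet_Om).mono_ac
    (withDensity_absolutelyContinuous (volume.restrict Om) _)

/-- the integral of a nonnegative continuous function with compact support vanishes only if the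
function does -/
theorem eq_zero_of_int {f : E → ℝ} (hf : ContinuousOn f Om) (hc : CS f)
    (hn : ∀ p ∈ Om, 0 ≤ f p) (h0 : ∫ p, f p ∂V.mu = 0) : ∀ p ∈ Om, f p = 0 := by
  rw [int_mu] at h0
  have h1 : IntegrableOn (fun p => V.rho p • f p) Om :=
    intOn_cs ((V.rho_smo.cont).smul hf) (CS.smul_right hc)
  have h2 : 0 ≤ᵐ[volume.restrict Om] fun p => V.rho p • f p :=
    (ae_restrict_mem measurableSet_Om).mono fun p hp =>
      mul_nonneg (V.rho_pos p hp).le (hn p hp)
  rw [integral_eq_zero_iff_of_nonneg_ae h2 h1] at h0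
  have h3 : Set.EqOn (fun p => V.rho p • f p) 0 Om :=
    Measure.eqOn_open_of_ae_eq h0 isOpen_Om ((V.rho_smo.cont).smul hf) continuousOn_const
  intro p hp
  have h4 := h3 hp
  simp only [smul_eq_mul, Pi.zero_apply, mul_eq_zero] at h4
  exact h4.resolve_left (V.rho_pos p hp).ne'

/-- integral of a derivative -/
theorem int_dr {u : E → F} (hu : Smo u) (hc : CS u) (i : Fin 4) :
    ∫ p in Om, dr i u p = 0 := by
  obtain ⟨h1, h2, h3⟩ := CS.indicator_cont hu.cont hc
  have h4 : ContDiff ℝ ∞ (Om.indicator u) := CS.indicator_smooth hu hc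
  have h5 : ∀ p ∈ Om, dr i u p = fderiv ℝ (Om.indicator u) p (bs i) := by
    intro p hp
    have := dr_congr (u := u) (v := Om.indicator u)
      (fun q hq => (Set.indicator_of_mem hq u).symm) hp i
    exact this
  have h6 : ∀ p, p ∉ Om → fderiv ℝ (Om.indicator u) p (bs i) = 0 := by
    intro p hp
    have : p ∉ tsupport (Om.indicator u) := fun h => hp (h3 h)
    have h7 : fderiv ℝ (Om.indicator u) p = 0 := by
      by_contra hne
      exact this (support_fderiv_subset ℝ hne)
    rw [h7]
    rfl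
  rw [setIntegral_congr_fun measurableSet_Om h5,
    setIntegral_eq_integral_of_forall_compl_eq_zero (fun p hp => h6 p hp)]
  have h8 : Continuous (fun p => fderiv ℝ (Om.indicator u) p (bs i)) :=
    (h4.continuous_fderiv (by simp)).clm_apply continuous_const
  have h9 : HasCompactSupport (fun p => fderiv ℝ (Om.indicator u) p (bs i)) :=
    h2.fderiv_apply (𝕜 := ℝ) (bs i)
  have hI := integral_smul_fderiv_eq_neg_fderiv_smul_of_integrable (μ := (volume : Measure E))
    (f := fun _ : E => (1 : ℝ)) (g := Om.indicator u) (v := bs i)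
    (by simpa using (integrable_zero E F volume)) (by simpa using h8.integrable_of_hasCompactSupport h9)
    (by simpa using h1.integrable_of_hasCompactSupport h2)
    (fun x _ => differentiableAt_const _) (fun x _ => (h4.differentiable (by simp)) x)
  simpa using hI

private theorem Smo.w (i j : Fin 4) : Smo (fun q => V.rho q * V.a i j q) :=
  Smo.smul (u := V.a i j) V.rho_smo (V.a_smo i j)

private theorem rho_b (j : Fin 4) {p : E} (hp : p ∈ Om) :
    V.rho p * V.b j p = ∑ i, dr i (fun q => V.rho q * V.a i j q) p := by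
  unfold Ell.b
  rw [← mul_assoc, mul_inv_cancel₀ (V.rho_pos p hp).ne', one_mul]

/-- divergence of a vector field `∑ j, w i j X j` -/
private theorem int_div {X : Fin 4 → E → F} (hX : ∀ j, Smo (X j)) (hc : ∀ j, CS (X j)) :
    ∫ p in Om, ∑ i, dr i (fun q => ∑ j, (V.rho q * V.a i j q) • X j q) p = 0 := by
  have hs : ∀ i, Smo (fun q => ∑ j, (V.rho q * V.a i j q) • X j q) := fun i =>
    Smo.sum Finset.univ (u := fun j q => (V.rho q * V.a i j q) • X j q)
      (fun j _ => Smo.smul (Smo.w V i j) (hX j))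
  have hcs : ∀ i, CS (fun q => ∑ j, (V.rho q * V.a i j q) • X j q) := fun i =>
    CS.sum Finset.univ (u := fun j q => (V.rho q * V.a i j q) • X j q)
      (fun j _ => CS.smul_right (hc j))
  rw [integral_finset_sum]
  · exact Finset.sum_eq_zero fun i _ => int_dr (hs i) (hcs i) i
  · intro i _
    exact intOn_cs ((hs i).dr i).cont ((hcs i).dr i)

private theorem div_eq {X : Fin 4 → E → F} (hX : ∀ j, Smo (X j)) {p : E} (hp : p ∈ Om) :
    ∑ i, dr i (fun q => ∑ j, (V.rho q * V.a i j q) • X j q) p =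
      V.rho p • (∑ i, ∑ j, V.a i j p • dr i (X j) p + ∑ j, V.b j p • X j p) := by
  have h1 : ∀ i, dr i (fun q => ∑ j, (V.rho q * V.a i j q) • X j q) p =
      ∑ j, (dr i (fun q => V.rho q * V.a i j q) p • X j p +
        (V.rho p * V.a i j p) • dr i (X j) p) := by
    intro i
    rw [dr_sum Finset.univ (u := fun j q => (V.rho q * V.a i j q) • X j q)
      (fun j _ => Smo.smul (Smo.w V i j) (hX j)) hp i]
    exact Finset.sum_congr rfl fun j _ => dr_smul (Smo.w V i j) (hX j) hp i
  simp_rw [h1, Finset.sum_add_distrib]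
  rw [smul_add, add_comm]
  congr 1
  · simp_rw [Finset.smul_sum, smul_smul]
  · rw [Finset.sum_comm, Finset.smul_sum]
    refine Finset.sum_congr rfl fun j _ => ?_
    rw [smul_smul, rho_b V j hp, Finset.sum_smul]

private theorem sum_swap {M : Type*} [AddCommMonoid M] [Module ℝ M] {p : E} (hp : p ∈ Om)
    (c : Fin 4 → Fin 4 → M) :
    ∑ i, ∑ j, V.a i j p • c i j = ∑ i, ∑ j, V.a i j p • c j i := by
  rw [Finset.sum_comm]
  refine Finset.sum_congr rfl fun i _ => Finset.sum_congr rfl fun j _ => ?_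
  rw [V.a_symm j i p hp]

/-- Green formula: the second factor has compact support -/
theorem green {s t : E → H} (hs : Smo s) (ht : Smo t) (hc : CS t) :
    ∫ p, ⟪V.L s p, t p⟫_ℝ ∂V.mu = - ∫ p, V.Gam s t p ∂V.mu := by
  have hX : ∀ j, Smo (fun q => ⟪dr j s q, t q⟫_ℝ) := fun j => Smo.inner (hs.dr j) ht
  have hXc : ∀ j, CS (fun q => ⟪dr j s q, t q⟫_ℝ) := fun j =>
    CS.of_imp hc fun p _ h => by simp only [h, inner_zero_right]
  have hLs : Smo (fun q => ⟪V.L s q, t q⟫_ℝ) := Smo.inner (L_smo V hs) ht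
  have hLc : CS (fun q => ⟪V.L s q, t q⟫_ℝ) :=
    CS.of_imp hc fun p _ h => by simp only [h, inner_zero_right]
  have hG : Smo (V.Gam s t) := Gam_smo V hs ht
  have hGc : CS (V.Gam s t) := by
    have : CS (fun p => ∑ i, ∑ j, V.a i j p • ⟪dr i s p, dr j t p⟫_ℝ) := by
      refine CS.sum Finset.univ (u := fun i p => ∑ j, V.a i j p • ⟪dr i s p, dr j t p⟫_ℝ)
        fun i _ => CS.sum Finset.univ (u := fun j p => V.a i j p • ⟪dr i s p, dr j t p⟫_ℝ)
        fun j _ => ?_
      exact CS.of_imp (hc.dr j) fun p _ h => by simp only [h, inner_zero_right, smul_zero]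
    exact this
  have key : ∀ p ∈ Om, V.rho p • ⟪V.L s p, t p⟫_ℝ + V.rho p • V.Gam s t p =
      ∑ i, dr i (fun q => ∑ j, (V.rho q * V.a i j q) • (fun q => ⟪dr j s q, t q⟫_ℝ) q) p := by
    intro p hp
    rw [div_eq V hX hp, ← smul_add]
    congr 1
    have h1 : ∀ i j : Fin 4, dr i (fun q => ⟪dr j s q, t q⟫_ℝ) p =
        ⟪dr i (dr j s) p, t p⟫_ℝ + ⟪dr j s p, dr i t p⟫_ℝ := fun i j =>
      dr_inner (hs.dr j) ht hp i
    simp_rw [h1, smul_add, Finset.sum_add_distrib]
    have h2 : ∑ i, ∑ j, V.a i j p • ⟪dr j s p, dr i t p⟫_ℝ = V.Gam s t p := by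
      rw [sum_swap V hp (fun i j => ⟪dr j s p, dr i t p⟫_ℝ)]
      rfl
    rw [h2]
    have h3 : ⟪V.L s p, t p⟫_ℝ = ∑ i, ∑ j, V.a i j p • ⟪dr i (dr j s) p, t p⟫_ℝ +
        ∑ j, V.b j p • ⟪dr j s p, t p⟫_ℝ := by
      unfold Ell.L
      simp only [inner_add_left, sum_inner, real_inner_smul_left, smul_eq_mul]
    rw [h3]
    ring
  have hfin : ∫ p in Om, (V.rho p • ⟪V.L s p, t p⟫_ℝ + V.rho p • V.Gam s t p) = 0 := by
    rw [setIntegral_congr_fun measurableSet_Om key]
    exact int_div V hX hXc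
  rw [integral_add] at hfin
  · rw [int_mu, int_mu]
    linarith
  · exact intOn_cs ((V.rho_smo.cont).smul hLs.cont) (CS.smul_right hLc)
  · exact intOn_cs ((V.rho_smo.cont).smul hG.cont) (CS.smul_right hGc)

/-- Green formula: the differentiated factor has compact support -/
theorem green' {s t : E → H} (hs : Smo s) (ht : Smo t) (hc : CS t) :
    ∫ p, ⟪s p, V.L t p⟫_ℝ ∂V.mu = - ∫ p, V.Gam s t p ∂V.mu := by
  have hX : ∀ j, Smo (fun q => ⟪s q, dr j t q⟫_ℝ) := fun j => Smo.inner hs (ht.dr j)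
  have hXc : ∀ j, CS (fun q => ⟪s q, dr j t q⟫_ℝ) := fun j =>
    CS.of_imp (hc.dr j) fun p _ h => by simp only [h, inner_zero_right]
  have hLs : Smo (fun q => ⟪s q, V.L t q⟫_ℝ) := Smo.inner hs (L_smo V ht)
  have hLc : CS (fun q => ⟪s q, V.L t q⟫_ℝ) :=
    CS.of_imp (L_cs V hc) fun p _ h => by simp only [h, inner_zero_right]
  have hG : Smo (V.Gam s t) := Gam_smo V hs ht
  have hGc : CS (V.Gam s t) := by
    have : CS (fun p => ∑ i, ∑ j, V.a i j p • ⟪dr i s p, dr j t p⟫_ℝ) := by
      refine CS.sum Finset.univ (u := fun i p => ∑ j, V.a i j p • ⟪dr i s p, dr j t p⟫_ℝ)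
        fun i _ => CS.sum Finset.univ (u := fun j p => V.a i j p • ⟪dr i s p, dr j t p⟫_ℝ)
        fun j _ => ?_
      exact CS.of_imp (hc.dr j) fun p _ h => by simp only [h, inner_zero_right, smul_zero]
    exact this
  have key : ∀ p ∈ Om, V.rho p • ⟪s p, V.L t p⟫_ℝ + V.rho p • V.Gam s t p =
      ∑ i, dr i (fun q => ∑ j, (V.rho q * V.a i j q) • (fun q => ⟪s q, dr j t q⟫_ℝ) q) p := by
    intro p hp
    rw [div_eq V hX hp, ← smul_add]
    congr 1
    have h1 : ∀ i j : Fin 4, dr i (fun q => ⟪s q, dr j t q⟫_ℝ) p =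
        ⟪dr i s p, dr j t p⟫_ℝ + ⟪s p, dr i (dr j t) p⟫_ℝ := fun i j =>
      dr_inner hs (ht.dr j) hp i
    simp_rw [h1, smul_add, Finset.sum_add_distrib]
    have h2 : ∑ i, ∑ j, V.a i j p • ⟪dr i s p, dr j t p⟫_ℝ = V.Gam s t p := rfl
    rw [h2]
    have h3 : ⟪s p, V.L t p⟫_ℝ = ∑ i, ∑ j, V.a i j p • ⟪s p, dr i (dr j t) p⟫_ℝ +
        ∑ j, V.b j p • ⟪s p, dr j t p⟫_ℝ := by
      unfold Ell.L
      simp only [inner_add_right, inner_sum, real_inner_smul_right, smul_eq_mul]
    rw [h3]
    ring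
  have hfin : ∫ p in Om, (V.rho p • ⟪s p, V.L t p⟫_ℝ + V.rho p • V.Gam s t p) = 0 := by
    rw [setIntegral_congr_fun measurableSet_Om key]
    exact int_div V hX hXc
  rw [integral_add] at hfin
  · rw [int_mu, int_mu]
    linarith
  · exact intOn_cs ((V.rho_smo.cont).smul hLs.cont) (CS.smul_right hLc)
  · exact intOn_cs ((V.rho_smo.cont).smul hG.cont) (CS.smul_right hGc)

/-- Green formula with a real kernel and a vector valued function -/
theorem green_smul [CompleteSpace F] {u : E → ℝ} {s : E → F} (hu : Smo u) (hs : Smo s)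
    (hc : CS u) : ∫ p, V.L u p • s p ∂V.mu = ∫ p, u p • V.L s p ∂V.mu := by
  have hX : ∀ j, Smo (fun q => dr j u q • s q - u q • dr j s q) := fun j =>
    Smo.sub (Smo.smul (hu.dr j) hs) (Smo.smul hu (hs.dr j))
  have hXc : ∀ j, CS (fun q => dr j u q • s q - u q • dr j s q) := by
    intro j
    have h1 : CS (fun q => dr j u q • s q) := CS.smul_left (hc.dr j)
    have h2 : CS (fun q => (-1 : ℝ) • (u q • dr j s q)) :=
      CS.smul_right (f := fun _ => (-1 : ℝ)) (CS.smul_left hc)
    refine CS.of_imp (CS.add h1 h2) fun p hp h => ?_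
    rw [← h]
    rw [neg_one_smul, sub_eq_add_neg]
  have hA : Smo (fun q => V.L u q • s q) := Smo.smul (L_smo V hu) hs
  have hAc : CS (fun q => V.L u q • s q) := CS.smul_left (L_cs V hc)
  have hB : Smo (fun q => u q • V.L s q) := Smo.smul hu (L_smo V hs)
  have hBc : CS (fun q => u q • V.L s q) := CS.smul_left hc
  have key : ∀ p ∈ Om, V.rho p • (V.L u p • s p) - V.rho p • (u p • V.L s p) =
      ∑ i, dr i (fun q => ∑ j, (V.rho q * V.a i j q) •
        (fun q => dr j u q • s q - u q • dr j s q) q) p := by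
    intro p hp
    rw [div_eq V hX hp, ← smul_sub]
    congr 1
    have h1 : ∀ i j : Fin 4, dr i (fun q => dr j u q • s q - u q • dr j s q) p =
        (dr i (dr j u) p • s p - u p • dr i (dr j s) p) +
          (dr j u p • dr i s p - dr i u p • dr j s p) := by
      intro i j
      rw [dr_sub (Smo.smul (hu.dr j) hs) (Smo.smul hu (hs.dr j)) hp i,
        dr_smul (hu.dr j) hs hp i, dr_smul hu (hs.dr j) hp i]
      abel
    simp_rw [h1, smul_add, Finset.sum_add_distrib]
    have h2 : ∑ i, ∑ j, V.a i j p • (dr j u p • dr i s p - dr i u p • dr j s p) = 0 := by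
      simp_rw [smul_sub, Finset.sum_sub_distrib]
      rw [sum_swap V hp (fun i j => dr j u p • dr i s p), sub_self]
    rw [h2, add_zero]
    unfold Ell.L
    rw [add_smul, smul_add]
    simp_rw [smul_sub, Finset.sum_sub_distrib, Finset.sum_smul, Finset.smul_sum]
    have h3 : ∀ (c x : ℝ) (y : F), (c • x) • y = c • x • y := fun c x y => smul_assoc c x y
    have h4 : ∀ (c x : ℝ) (y : F), x • c • y = c • x • y := fun c x y => smul_comm x c y
    simp_rw [h3]
    have h5 : ∑ i, ∑ j, u p • V.a i j p • dr i (dr j s) p =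
        ∑ i, ∑ j, V.a i j p • u p • dr i (dr j s) p :=
      Finset.sum_congr rfl fun i _ => Finset.sum_congr rfl fun j _ => h4 _ _ _
    have h6 : ∑ j, u p • V.b j p • dr j s p = ∑ j, V.b j p • u p • dr j s p :=
      Finset.sum_congr rfl fun j _ => h4 _ _ _
    rw [h5, h6]
    abel
  have hfin : ∫ p in Om, (V.rho p • (V.L u p • s p) - V.rho p • (u p • V.L s p)) = 0 := by
    rw [setIntegral_congr_fun measurableSet_Om key]
    exact int_div V hX hXc
  rw [integral_sub] at hfin
  · rw [int_mu, int_mu]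
    exact sub_eq_zero.1 hfin
  · exact intOn_cs ((V.rho_smo.cont).smul hA.cont) (CS.smul_right hAc)
  · exact intOn_cs ((V.rho_smo.cont).smul hB.cont) (CS.smul_right hBc)

end Pool.Agent.MPd01a95.LN
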