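import Mathlib
import Pool.Agent.Lib.MP_d01a95_gt_L.LDefs
import Pool.Agent.Lib.MP_d01a95_gt_L.LBas
import Pool.Agent.Lib.MP_d01a95_gt_L.LCs
import Pool.Agent.Lib.MP_d01a95_gt_L.LAlg

/-!
# Module Inv: invariance
-/

set_option autoImplicit false
set_option linter.all false

open MeasureTheory Filter Topology
open scoped ContDiff InnerProductSpace ENNReal

namespace Pool.Agent.MPd01a95.LN

variable {G : Type} [Group G] (V : VG G)
variable {H : Type} [NormedAddCommGroup H] [InnerProductSpace ℝ H]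
variable (pi : G →* (H ≃ₗᵢ[ℝ] H)) {c c' : G → H}

theorem act_inv_act (g : G) {p : E} (hp : p ∈ Om) : V.act g⁻¹ (V.act g p) = p := by
  rw [← V.act_mul g⁻¹ g p hp, inv_mul_cancel, V.act_one p hp]

theorem act_act_inv (g : G) {p : E} (hp : p ∈ Om) : V.act g (V.act g⁻¹ p) = p := by
  rw [← V.act_mul g g⁻¹ p hp, mul_inv_cancel, V.act_one p hp]

theorem Smo.act {F : Type*} [NormedAddCommGroup F] [NormedSpace ℝ F] {u : E → F} (h : Smo u)
    (g : G) : Smo (fun p => u (V.act g p)) :=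
  Smo.comp h (V.act_smo g) (V.act_mem g)

theorem cont_act {F : Type*} [TopologicalSpace F] {u : E → F} (h : ContinuousOn u Om)
    (g : G) : ContinuousOn (fun p => u (V.act g p)) Om :=
  h.comp (V.act_smo g).continuousOn (fun p hp => V.act_mem g p hp)

theorem CS.act {F : Type*} [NormedAddCommGroup F] [NormedSpace ℝ F] {u : E → F} (h : CS u)
    (g : G) : CS (fun p => u (V.act g p)) := by
  obtain ⟨K, hK, hO, h0⟩ := h
  refine ⟨V.act g⁻¹ '' K, hK.image_of_continuousOn ((V.act_smo g⁻¹).continuousOn.mono hO), ?_, ?_⟩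
  · rintro _ ⟨q, hq, rfl⟩
    exact V.act_mem g⁻¹ q (hO hq)
  · intro p hp hpK
    refine h0 _ (V.act_mem g p hp) (fun hx => hpK ⟨V.act g p, hx, act_inv_act V g hp⟩)

/-- finiteness for two compact sets -/
theorem fin_act {K K' : Set E} (hK : IsCompact K) (hO : K ⊆ Om) (hK' : IsCompact K')
    (hO' : K' ⊆ Om) : {g : G | ∃ p ∈ K, V.act g p ∈ K'}.Finite := by
  refine (V.proper (K ∪ K') (hK.union hK') (Set.union_subset hO hO')).subset ?_
  rintro g ⟨p, hp, hg⟩
  exact ⟨p, Or.inl hp, Or.inr hg⟩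

theorem L_inv_vec (g : G) {u : E → H} (h : Smo u) {p : E} (hp : p ∈ Om) :
    V.L (fun q => u (V.act g q)) p = V.L u (V.act g p) := by
  refine ext_inner_left ℝ fun ξ => ?_
  have h1 := L_clm V.toEll (h.act V g) (innerSL ℝ ξ) hp
  have h2 := L_clm V.toEll h (innerSL ℝ ξ) (V.act_mem g p hp)
  have h3 := V.L_inv g (fun q => innerSL ℝ ξ (u q)) (h.clm (innerSL ℝ ξ)) p hp
  simp only [innerSL_apply_apply] at h1 h2 h3
  rw [← h1, ← h2, h3]

theorem Gam_inv (g : G) {s t : E → H} (hs : Smo s) (ht : Smo t) {p : E} (hp : p ∈ Om) :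
    V.Gam (fun q => s (V.act g q)) (fun q => t (V.act g q)) p = V.Gam s t (V.act g p) := by
  have h1 := L_inner V.toEll (hs.act V g) (ht.act V g) hp
  have h2 := L_inner V.toEll hs ht (V.act_mem g p hp)
  have h3 := V.L_inv g (fun q => ⟪s q, t q⟫_ℝ) (hs.inner ht) p hp
  rw [L_inv_vec V g hs hp, L_inv_vec V g ht hp] at h1
  have h4 := h1.symm.trans (h3.trans h2)
  linarith

/-- affine isometries do not change the carre du champ -/
theorem Gam_iso (T : H ≃ₗᵢ[ℝ] H) (x y : H) {s t : E → H} (hs : Smo s) (ht : Smo t) {p : E}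
    (hp : p ∈ Om) : V.Gam (fun q => T (s q) + x) (fun q => T (t q) + y) p = V.Gam s t p := by
  have key : ∀ (z : H) {w : E → H}, Smo w → ∀ i, dr i (fun q => T (w q) + z) p = T (dr i w p) := by
    intro z w hw i
    have h1 : Smo (fun q => T (w q)) :=
      hw.clm (T.toContinuousLinearEquiv : H →L[ℝ] H)
    have h2 := dr_add h1 (Smo.const z) hp i
    have h3 := dr_clm hw (T.toContinuousLinearEquiv : H →L[ℝ] H) hp i
    rw [h2, dr_const, add_zero]
    exact h3
  simp only [Ell.Gam]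
  refine Finset.sum_congr rfl fun i _ => Finset.sum_congr rfl fun j _ => ?_
  rw [key x hs i, key y ht j, LinearIsometryEquiv.inner_map_map]

theorem IsSec.aff {s : E → H} (h : IsSec V pi s) : IsAff V pi (fun _ => 0) s := by
  intro g p hp
  simp only [add_zero]
  exact h g p hp

/-- `L` of an affine map is a section -/
theorem L_aff {h : E → H} (hh : Smo h) (ha : IsAff V pi c h) : IsSec V pi (V.L h) := by
  intro g p hp
  rw [← L_inv_vec V g hh hp]
  have hT : Smo (fun q => pi g (h q)) := hh.clm ((pi g).toContinuousLinearEquiv : H →L[ℝ] H)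
  rw [L_congr V.toEll (fun q hq => ha g q hq) hp, L_add V.toEll hT (Smo.const (c g)) hp,
    L_const V.toEll (c g) hp, add_zero]
  exact L_clm V.toEll hh ((pi g).toContinuousLinearEquiv : H →L[ℝ] H) hp

theorem L_sec {s : E → H} (hs : Smo s) (ha : IsSec V pi s) : IsSec V pi (V.L s) :=
  L_aff V pi hs (IsSec.aff V pi ha)

theorem IsAff.add {h s : E → H} (ha : IsAff V pi c h) (hs : IsSec V pi s) :
    IsAff V pi c (fun p => h p + s p) := by
  intro g p hp
  show h (V.act g p) + s (V.act g p) = pi g (h p + s p) + c g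
  rw [ha g p hp, hs g p hp, map_add]
  abel

theorem IsAff.sub {h h' : E → H} (ha : IsAff V pi c h) (ha' : IsAff V pi c h') :
    IsSec V pi (fun p => h p - h' p) := by
  intro g p hp
  show h (V.act g p) - h' (V.act g p) = pi g (h p - h' p)
  rw [ha g p hp, ha' g p hp, map_sub]
  abel

theorem IsSec.lin {s t : E → H} (a b : ℝ) (hs : IsSec V pi s) (ht : IsSec V pi t) :
    IsSec V pi (fun p => a • s p + b • t p) := by
  intro g p hp
  show a • s (V.act g p) + b • t (V.act g p) = pi g (a • s p + b • t p)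
  rw [hs g p hp, ht g p hp, map_add, map_smul, map_smul]

theorem IsSec.smul {f : E → ℝ} {s : E → H} (hf : ∀ g, ∀ p ∈ Om, f (V.act g p) = f p)
    (hs : IsSec V pi s) : IsSec V pi (fun p => f p • s p) := by
  intro g p hp
  show f (V.act g p) • s (V.act g p) = pi g (f p • s p)
  rw [hf g p hp, hs g p hp, map_smul]

/-- the carre du champ of two affine maps is invariant -/
theorem Gam_aff {h h' : E → H} (hh : Smo h) (hh' : Smo h') (ha : IsAff V pi c h)
    (ha' : IsAff V pi c' h') (g : G) {p : E} (hp : p ∈ Om) :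
    V.Gam h h' (V.act g p) = V.Gam h h' p := by
  rw [← Gam_inv V g hh hh' hp,
    Gam_congr V.toEll (fun q hq => ha g q hq) (fun q hq => ha' g q hq) hp]
  exact Gam_iso V (pi g) (c g) (c' g) hh hh' hp

theorem inner_sec {s t : E → H} (hs : IsSec V pi s) (ht : IsSec V pi t) (g : G) {p : E}
    (hp : p ∈ Om) : ⟪s (V.act g p), t (V.act g p)⟫_ℝ = ⟪s p, t p⟫_ℝ := by
  rw [hs g p hp, ht g p hp, LinearIsometryEquiv.inner_map_map]

theorem norm_sec {s : E → H} (hs : IsSec V pi s) (g : G) {p : E} (hp : p ∈ Om) :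
    ‖s (V.act g p)‖ = ‖s p‖ := by
  rw [hs g p hp, LinearIsometryEquiv.norm_map]

/-- an invariant continuous function is bounded -/
theorem inv_bd {f : E → ℝ} (hf : ContinuousOn f Om) (hi : ∀ g, ∀ p ∈ Om, f (V.act g p) = f p) :
    ∃ C : ℝ, 0 < C ∧ ∀ p ∈ Om, |f p| ≤ C := by
  obtain ⟨K, hK, hO, hc⟩ := V.cocpt
  obtain ⟨C, hC⟩ := hK.exists_bound_of_continuousOn (hf.mono hO)
  refine ⟨max C 1, lt_max_of_lt_right one_pos, fun p hp => ?_⟩
  obtain ⟨g, hg⟩ := hc p hp
  rw [← hi g p hp]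
  exact le_max_of_le_left (hC _ hg)

/-- an invariant continuous positive function is bounded below -/
theorem inv_low {f : E → ℝ} (hf : ContinuousOn f Om) (hi : ∀ g, ∀ p ∈ Om, f (V.act g p) = f p)
    (h0 : ∀ p ∈ Om, 0 < f p) : ∃ C : ℝ, 0 < C ∧ ∀ p ∈ Om, C ≤ f p := by
  obtain ⟨K, hK, hO, hc⟩ := V.cocpt
  obtain ⟨p0, hp0⟩ := nonempty_Om
  obtain ⟨g0, hg0⟩ := hc p0 hp0
  obtain ⟨q, hq, hmin⟩ := hK.exists_isMinOn ⟨_, hg0⟩ (hf.mono hO)
  refine ⟨f q, h0 q (hO hq), fun p hp => ?_⟩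
  obtain ⟨g, hg⟩ := hc p hp
  rw [← hi g p hp]
  exact hmin hg

end Pool.Agent.MPd01a95.LN
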