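import Mathlib
import Pool.Agent.Lib.MP_d01a95_gt_L.LDefs
import Pool.Agent.Lib.MP_d01a95_gt_L.LBas
import Pool.Agent.Lib.MP_d01a95_gt_L.LCs
import Pool.Agent.Lib.MP_d01a95_gt_L.LAlg
import Pool.Agent.Lib.MP_d01a95_gt_L.LGrn
import Pool.Agent.Lib.MP_d01a95_gt_L.LInv

/-!
# Module Unf: change of variables, unfolding
-/

set_option autoImplicit false
set_option linter.all false

open MeasureTheory Filter Topology
open scoped ContDiff InnerProductSpace ENNReal

namespace Pool.Agent.MPd01a95.LN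

variable {G : Type} [Group G] (V : VG G) {χ : E → ℝ}
variable {F : Type*} [NormedAddCommGroup F] [NormedSpace ℝ F]

/-- invariance of the volume -/
theorem int_act (g : G) (f : E → F) : ∫ p, f (V.act g p) ∂V.mu = ∫ p, f p ∂V.mu := by
  rw [int_mu, int_mu]
  have hinj : Set.InjOn (V.act g) Om := by
    intro p hp q hq h
    rw [← act_inv_act V g hp, ← act_inv_act V g hq, h]
  have himg : V.act g '' Om = Om := by
    ext q
    constructor
    · rintro ⟨p, hp, rfl⟩
      exact V.act_mem g p hp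
    · intro hq
      exact ⟨V.act g⁻¹ q, V.act_mem _ _ hq, act_act_inv V g hq⟩
  have hd : ∀ p ∈ Om, HasFDerivWithinAt (V.act g) (fderiv ℝ (V.act g) p) Om p := by
    intro p hp
    have h1 : DifferentiableAt ℝ (V.act g) p :=
      ((V.act_smo g).differentiableOn (by simp)).differentiableAt (isOpen_Om.mem_nhds hp)
    exact h1.hasFDerivAt.hasFDerivWithinAt
  have h := integral_image_eq_integral_abs_det_fderiv_smul (volume : Measure E) measurableSet_Om
    hd hinj (fun p => V.rho p • f p)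
  rw [himg] at h
  rw [h]
  refine setIntegral_congr_fun measurableSet_Om fun p hp => ?_
  show V.rho p • f (V.act g p) =
    |(fderiv ℝ (V.act g) p).det| • (V.rho (V.act g p) • f (V.act g p))
  rw [smul_smul, mul_comm, V.jac g p hp]

/-- the sums over the group are finite: the index set is uniform on compact sets -/
theorem tsum_act {F : Type*} [NormedAddCommGroup F] [NormedSpace ℝ F] {f : E → F} (hc : CS f)
    {K : Set E} (hK : IsCompact K) (hO : K ⊆ Om) :
    ∃ A : Finset G, (∀ p ∈ K, ∀ g, g ∉ A → f (V.act g p) = 0) ∧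
      (∀ p ∈ K, ∑' g, f (V.act g p) = ∑ g ∈ A, f (V.act g p)) := by
  obtain ⟨L, hL, hLO, h0⟩ := hc
  have hfin := fin_act V hK hO hL hLO
  have h1 : ∀ p ∈ K, ∀ g, g ∉ hfin.toFinset → f (V.act g p) = 0 := by
    intro p hp g hg
    refine h0 _ (V.act_mem g p (hO hp)) fun hm => hg ?_
    exact hfin.mem_toFinset.2 ⟨p, hp, hm⟩
  exact ⟨hfin.toFinset, h1, fun p hp => tsum_eq_sum fun g hg => h1 p hp g hg⟩

/-- the sum over the group is continuous -/
theorem tsum_cont {f : E → F} (hf : ContinuousOn f Om) (hc : CS f) :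
    ContinuousOn (fun p => ∑' g, f (V.act g p)) Om := by
  intro p hp
  obtain ⟨K, hK, hKO, hsub⟩ := exists_nhd (isCompact_singleton (x := p))
    (Set.singleton_subset_iff.2 hp)
  obtain ⟨A, h1, h2⟩ := tsum_act V hc hK hKO
  have h3 : ContinuousOn (fun p => ∑ g ∈ A, f (V.act g p)) Om :=
    continuousOn_finset_sum A fun g _ => cont_act V hf g
  have h4 : ContinuousAt (fun p => ∑ g ∈ A, f (V.act g p)) p :=
    h3.continuousAt (isOpen_Om.mem_nhds hp)
  refine (h4.congr ?_).continuousWithinAt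
  have h5 : interior K ∈ 𝓝 p := isOpen_interior.mem_nhds (hsub rfl)
  filter_upwards [h5] with q hq
  exact (h2 q (interior_subset hq)).symm

private theorem sfin (V : VG G) : SFinite V.mu := by
  unfold Ell.mu
  infer_instance

/-- Fubini for continuous functions with compact support in the second variable, uniformly for
the first variable in compact sets, and a cutoff in the first variable -/
theorem fubini {f : E → ℝ} (hf : ContinuousOn f Om) (hc : CS f) {k : E → E → F}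
    (hk : ContinuousOn (fun x : E × E => k x.1 x.2) (Om ×ˢ Om))
    (hr : ∀ K : Set E, IsCompact K → K ⊆ Om → ∃ K' : Set E, IsCompact K' ∧ K' ⊆ Om ∧
      ∀ p ∈ K, ∀ q ∈ Om, q ∉ K' → k p q = 0) :
    ∫ p, f p • ∫ q, k p q ∂V.mu ∂V.mu = ∫ q, ∫ p, f p • k p q ∂V.mu ∂V.mu := by
  haveI := sfin V
  obtain ⟨L, hL, hLO, h0⟩ := hc
  obtain ⟨K', hK', hKO', h0'⟩ := hr L hL hLO
  have hcont : ContinuousOn (fun x : E × E => f x.1 • k x.1 x.2) (Om ×ˢ Om) :=
    (hf.comp continuousOn_fst fun x hx => hx.1).smul hk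
  have hs : IsCompact (L ×ˢ K') := hL.prod hK'
  have hsO : L ×ˢ K' ⊆ Om ×ˢ Om := Set.prod_mono hLO hKO'
  have hmeas : (V.mu.prod V.mu) (L ×ˢ K') ≠ ⊤ := by
    rw [Measure.prod_prod]
    exact ENNReal.mul_ne_top (mu_lt_top V.toEll hL hLO).ne (mu_lt_top V.toEll hK' hKO').ne
  have hon : IntegrableOn (fun x : E × E => f x.1 • k x.1 x.2) (L ×ˢ K') (V.mu.prod V.mu) := by
    obtain ⟨C, hC⟩ := hs.exists_bound_of_continuousOn (hcont.mono hsO)
    haveI : IsFiniteMeasure ((V.mu.prod V.mu).restrict (L ×ˢ K')) :=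
      ⟨by rw [Measure.restrict_apply_univ]; exact lt_top_iff_ne_top.2 hmeas⟩
    refine Integrable.of_bound (C := C) ?_ ?_
    · exact (hcont.mono hsO).aestronglyMeasurable_of_isCompact hs hs.measurableSet
    · exact (ae_restrict_mem hs.measurableSet).mono fun x hx => hC x hx
  have hae : ∀ᵐ x ∂(V.mu.prod V.mu), x.1 ∈ Om ∧ x.2 ∈ Om := by
    have h1 : ∀ᵐ p ∂V.mu, p ∈ Om := ae_mu V.toEll fun p hp => hp
    exact (Measure.quasiMeasurePreserving_fst.ae h1).and
      (Measure.quasiMeasurePreserving_snd.ae h1)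
  have hint : Integrable (fun x : E × E => f x.1 • k x.1 x.2) (V.mu.prod V.mu) := by
    refine hon.integrable_of_ae_notMem_eq_zero (hae.mono fun x hx hxs => ?_)
    by_cases hxL : x.1 ∈ L
    · have : x.2 ∉ K' := fun h => hxs ⟨hxL, h⟩
      rw [h0' x.1 hxL x.2 hx.2 this, smul_zero]
    · rw [h0 x.1 hx.1 hxL, zero_smul]
  have h1 : ∀ p, f p • ∫ q, k p q ∂V.mu = ∫ q, f p • k p q ∂V.mu := fun p =>
    (integral_smul _ _).symm
  simp_rw [h1]
  exact integral_integral_swap (f := fun p q => f p • k p q) hint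

/-- unfolding -/
theorem unfold (hχ : IsChi V χ) {f : E → F} (hf : ContinuousOn f Om) (hc : CS f) :
    ∫ p, f p ∂V.mu = ∫ p, χ p • ∑' g, f (V.act g p) ∂V.mu := by
  obtain ⟨L, hL, hLO, h0⟩ := hχ.cs
  obtain ⟨A, h1, h2⟩ := tsum_act V hc hL hLO
  have hχc : ContinuousOn χ Om := hχ.smo.cont
  have e1 : ∫ p, χ p • ∑' g, f (V.act g p) ∂V.mu =
      ∫ p, ∑ g ∈ A, χ p • f (V.act g p) ∂V.mu := by
    refine integral_congr_ae (ae_mu V.toEll fun p hp => ?_)
    show χ p • ∑' g, f (V.act g p) = ∑ g ∈ A, χ p • f (V.act g p)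
    rw [← Finset.smul_sum]
    by_cases hpL : p ∈ L
    · rw [h2 p hpL]
    · rw [h0 p hp hpL, zero_smul, zero_smul]
  have e2 : ∫ p, ∑ g ∈ A, χ p • f (V.act g p) ∂V.mu =
      ∑ g ∈ A, ∫ p, χ p • f (V.act g p) ∂V.mu := by
    refine integral_finset_sum A fun g _ => ?_
    exact integrable_cs V.toEll (hχc.smul (cont_act V hf g)) (CS.smul_left hχ.cs)
  have e3 : ∀ g : G, ∫ p, χ p • f (V.act g p) ∂V.mu =
      ∫ p, χ (V.act g⁻¹ p) • f p ∂V.mu := by
    intro g
    rw [← int_act V g (fun p => χ (V.act g⁻¹ p) • f p)]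
    refine integral_congr_ae (ae_mu V.toEll fun p hp => ?_)
    show χ p • f (V.act g p) = χ (V.act g⁻¹ (V.act g p)) • f (V.act g p)
    rw [act_inv_act V g hp]
  have e4 : ∑ g ∈ A, ∫ p, χ (V.act g⁻¹ p) • f p ∂V.mu =
      ∫ p, ∑ g ∈ A, χ (V.act g⁻¹ p) • f p ∂V.mu := by
    refine (integral_finset_sum A fun g _ => ?_).symm
    exact integrable_cs V.toEll ((cont_act V hχc g⁻¹).smul hf) (CS.smul_right hc)
  have e5 : ∫ p, ∑ g ∈ A, χ (V.act g⁻¹ p) • f p ∂V.mu = ∫ p, f p ∂V.mu := by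
    refine integral_congr_ae (ae_mu V.toEll fun p hp => ?_)
    show ∑ g ∈ A, χ (V.act g⁻¹ p) • f p = f p
    rw [← Finset.sum_smul]
    by_cases hz : f p = 0
    · rw [hz, smul_zero]
    · have h3 : ∑ g ∈ A, χ (V.act g⁻¹ p) = 1 := by
        rw [← hχ.one p hp, ← (Equiv.inv G).tsum_eq (fun g => χ (V.act g p))]
        refine (tsum_eq_sum fun g hg => ?_).symm
        show χ (V.act g⁻¹ p) = 0
        have hm : V.act g⁻¹ p ∈ Om := V.act_mem _ _ hp
        by_contra hne
        have hmL : V.act g⁻¹ p ∈ L := by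
          by_contra hn
          exact hne (h0 _ hm hn)
        have := h1 _ hmL g hg
        rw [act_act_inv V g hp] at this
        exact hz this
      rw [h3, one_smul]
  rw [e1, e2]
  simp_rw [e3]
  rw [e4, e5]

private theorem cont_par (V : VG G) {f : E → ℝ} (hf : ContinuousOn f Om) (hc : CS f)
    {k : E → E → ℝ} (hk : ContinuousOn (fun x : E × E => k x.1 x.2) (Om ×ˢ Om)) :
    ContinuousOn (fun q => ∫ p, f p • k p q ∂V.mu) Om := by
  intro q0 hq0
  obtain ⟨L, hL, hLO, h0⟩ := hc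
  obtain ⟨Q, hQ, hQO, hsub⟩ := exists_nhd (isCompact_singleton (x := q0))
    (Set.singleton_subset_iff.2 hq0)
  have hcont : ContinuousOn (fun x : E × E => f x.1 • k x.1 x.2) (Om ×ˢ Om) :=
    (hf.comp continuousOn_fst fun x hx => hx.1).smul hk
  obtain ⟨C, hC⟩ := (hL.prod hQ).exists_bound_of_continuousOn
    (hcont.mono (Set.prod_mono hLO hQO))
  have hQn : interior Q ∈ 𝓝 q0 := isOpen_interior.mem_nhds (hsub rfl)
  refine ContinuousAt.continuousWithinAt ?_
  refine continuousAt_of_dominated (bound := L.indicator fun _ => C) ?_ ?_ ?_ ?_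
  · filter_upwards [hQn] with q hq
    have hqO : q ∈ Om := hQO (interior_subset hq)
    refine aesm V.toEll ?_
    exact hcont.comp (f := fun p : E => ((p, q) : E × E)) (by fun_prop) fun p hp => ⟨hp, hqO⟩
  · filter_upwards [hQn] with q hq
    refine ae_mu V.toEll fun p hp => ?_
    by_cases hpL : p ∈ L
    · rw [Set.indicator_of_mem hpL]
      exact hC (p, q) ⟨hpL, interior_subset hq⟩
    · rw [Set.indicator_of_notMem hpL, h0 p hp hpL, zero_smul, norm_zero]
  · rw [integrable_indicator_iff hL.measurableSet]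
    exact integrableOn_const (mu_lt_top V.toEll hL hLO).ne
  · refine ae_mu V.toEll fun p hp => ?_
    have h1 : ContinuousOn (fun q => f p • k p q) Om :=
      hcont.comp (f := fun q : E => ((p, q) : E × E)) (by fun_prop) fun q hq => ⟨hp, hq⟩
    exact h1.continuousAt (isOpen_Om.mem_nhds hq0)

private theorem ker_hr (V : VG G) {k : E → E → ℝ} (hk : Ker V k) :
    ∀ K : Set E, IsCompact K → K ⊆ Om → ∃ K' : Set E, IsCompact K' ∧ K' ⊆ Om ∧
      ∀ p ∈ K, ∀ q ∈ Om, q ∉ K' → k p q = 0 := by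
  intro K hK hO
  obtain ⟨R, hR⟩ := hk.ran
  obtain ⟨K', hK', hKO', h⟩ := V.Y_proper K hK hO R
  refine ⟨K', hK', hKO', fun p hp q hq hqK => hR p (hO hp) q hq ?_⟩
  by_contra hlt
  exact hqK (h p hp q hq (not_le.1 hlt).le)

private theorem ker_hr' (V : VG G) {k : E → E → ℝ} (hk : Ker V k) :
    ∀ K : Set E, IsCompact K → K ⊆ Om → ∃ K' : Set E, IsCompact K' ∧ K' ⊆ Om ∧
      ∀ q ∈ K, ∀ p ∈ Om, p ∉ K' → k p q = 0 := by
  intro K hK hO
  obtain ⟨R, hR⟩ := hk.ran
  obtain ⟨K', hK', hKO', h⟩ := V.Y_proper K hK hO R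
  refine ⟨K', hK', hKO', fun q hq p hp hpK => hR p hp q (hO hq) ?_⟩
  rw [V.Y_symm p hp q (hO hq)]
  by_contra hlt
  exact hpK (h q hq p hp (not_le.1 hlt).le)

/-- unfolding for functions of two variables -/
theorem unfold_ker (hχ : IsChi V χ) {k : E → E → ℝ} (hk : Ker V k) :
    ∫ p, χ p * ∫ q, k p q ∂V.mu ∂V.mu = ∫ q, χ q * ∫ p, k p q ∂V.mu ∂V.mu := by
  have hχc : ContinuousOn χ Om := hχ.smo.cont
  have e1 : ∫ p, χ p * ∫ q, k p q ∂V.mu ∂V.mu = ∫ q, ∫ p, χ p • k p q ∂V.mu ∂V.mu :=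
    fubini V hχc hχ.cs hk.cont (ker_hr V hk)
  have hΨc : ContinuousOn (fun q => ∫ p, χ p • k p q ∂V.mu) Om :=
    cont_par V hχc hχ.cs hk.cont
  have hΨs : CS (fun q => ∫ p, χ p • k p q ∂V.mu) := by
    obtain ⟨L, hL, hLO, h0⟩ := hχ.cs
    obtain ⟨K', hK', hKO', h0'⟩ := ker_hr V hk L hL hLO
    refine ⟨K', hK', hKO', fun q hq hqK => ?_⟩
    refine (integral_congr_ae (ae_mu V.toEll fun p hp => ?_)).trans (integral_zero _ _)
    show χ p • k p q = 0
    by_cases hpL : p ∈ L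
    · rw [h0' p hpL q hq hqK, smul_zero]
    · rw [h0 p hp hpL, zero_smul]
  rw [e1, unfold V hχ hΨc hΨs]
  refine integral_congr_ae (ae_mu V.toEll fun q hq => ?_)
  show χ q • ∑' g, ∫ p, χ p • k p (V.act g q) ∂V.mu = χ q * ∫ p, k p q ∂V.mu
  rw [smul_eq_mul]
  congr 1
  have e2 : ∀ g : G, ∫ p, χ p • k p (V.act g q) ∂V.mu = ∫ p, χ (V.act g p) • k p q ∂V.mu := by
    intro g
    rw [← int_act V g (fun p => χ p • k p (V.act g q))]
    refine integral_congr_ae (ae_mu V.toEll fun p hp => ?_)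
    show χ (V.act g p) • k (V.act g p) (V.act g q) = χ (V.act g p) • k p q
    rw [hk.inv g p hp q hq]
  simp_rw [e2]
  obtain ⟨K', hK', hKO', h0'⟩ := ker_hr' V hk {q} isCompact_singleton
    (Set.singleton_subset_iff.2 hq)
  have hkq : ContinuousOn (fun p => k p q) Om :=
    hk.cont.comp (f := fun p : E => ((p, q) : E × E)) (by fun_prop) fun p hp => ⟨hp, hq⟩
  have hkc : CS (fun p => k p q) :=
    ⟨K', hK', hKO', fun p hp hpK => h0' q rfl p hp hpK⟩
  obtain ⟨A, h1, h2⟩ := tsum_act V hχ.cs hK' hKO'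
  have e3 : ∑' g, ∫ p, χ (V.act g p) • k p q ∂V.mu =
      ∑ g ∈ A, ∫ p, χ (V.act g p) • k p q ∂V.mu := by
    refine tsum_eq_sum fun g hg => ?_
    refine (integral_congr_ae (ae_mu V.toEll fun p hp => ?_)).trans (integral_zero _ _)
    show χ (V.act g p) • k p q = 0
    by_cases hpK : p ∈ K'
    · rw [h1 p hpK g hg, zero_smul]
    · rw [h0' q rfl p hp hpK, smul_zero]
  have e4 : ∑ g ∈ A, ∫ p, χ (V.act g p) • k p q ∂V.mu =
      ∫ p, ∑ g ∈ A, χ (V.act g p) • k p q ∂V.mu :=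
    (integral_finset_sum A fun g _ =>
      integrable_cs V.toEll ((cont_act V hχc g).smul hkq) (CS.smul_right hkc)).symm
  rw [e3, e4]
  refine integral_congr_ae (ae_mu V.toEll fun p hp => ?_)
  show ∑ g ∈ A, χ (V.act g p) • k p q = k p q
  rw [← Finset.sum_smul]
  by_cases hpK : p ∈ K'
  · rw [← h2 p hpK, hχ.one p hp, one_smul]
  · rw [h0' q rfl p hp hpK, smul_zero]

/-- integrals of nonnegative invariant functions over compact sets are controlled by the integral
over the quotient -/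
theorem inv_int_le (hχ : IsChi V χ) {η : E → ℝ} (hη : ContinuousOn η Om) (hc : CS η)
    (hn : ∀ p ∈ Om, 0 ≤ η p) :
    ∃ N : ℝ, 0 < N ∧ ∀ f : E → ℝ, ContinuousOn f Om → (∀ p ∈ Om, 0 ≤ f p) →
      (∀ g, ∀ p ∈ Om, f (V.act g p) = f p) →
      ∫ p, η p * f p ∂V.mu ≤ N * ∫ p, χ p * f p ∂V.mu := by
  have hχc : ContinuousOn χ Om := hχ.smo.cont
  obtain ⟨L, hL, hLO, h0⟩ := hχ.cs
  have hS : ContinuousOn (fun p => ∑' g, η (V.act g p)) Om := tsum_cont V hη hc
  obtain ⟨C, hC⟩ := hL.exists_bound_of_continuousOn (hS.mono hLO)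
  refine ⟨|C| + 1, by positivity, fun f hf hfn hfi => ?_⟩
  have hηf : ContinuousOn (fun p => η p • f p) Om := hη.smul hf
  have e1 : ∫ p, η p * f p ∂V.mu = ∫ p, χ p • ((∑' g, η (V.act g p)) * f p) ∂V.mu := by
    rw [show (∫ p, η p * f p ∂V.mu) = ∫ p, η p • f p ∂V.mu from rfl,
      unfold V hχ hηf (CS.smul_left hc)]
    refine integral_congr_ae (ae_mu V.toEll fun p hp => ?_)
    show χ p • ∑' g, η (V.act g p) • f (V.act g p) = χ p • ((∑' g, η (V.act g p)) * f p)
    congr 1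
    rw [← tsum_mul_right]
    refine tsum_congr fun g => ?_
    rw [hfi g p hp, smul_eq_mul]
  rw [e1, ← integral_const_mul]
  refine integral_mono_ae ?_ ?_ ?_
  · exact integrable_cs V.toEll (hχc.smul (hS.mul hf)) (CS.smul_left hχ.cs)
  · exact integrable_cs V.toEll (continuousOn_const.mul (hχc.mul hf))
      (CS.of_imp hχ.cs fun p _ h => by simp only [h, zero_mul, mul_zero])
  · refine ae_mu V.toEll fun p hp => ?_
    show χ p * ((∑' g, η (V.act g p)) * f p) ≤ (|C| + 1) * (χ p * f p)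
    by_cases hpL : p ∈ L
    · have h1 : (∑' g, η (V.act g p)) ≤ |C| + 1 := by
        have := hC p hpL
        rw [Real.norm_eq_abs] at this
        linarith [le_abs_self (∑' g, η (V.act g p)), le_abs_self C]
      have h2 : 0 ≤ χ p * f p := mul_nonneg (hχ.nn p hp) (hfn p hp)
      nlinarith
    · rw [h0 p hp hpL, zero_mul, zero_mul, mul_zero]

end Pool.Agent.MPd01a95.LN
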