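import Mathlib
import Pool.Agent.Lib.MP_d01a95_gt_L.LDefs
import Pool.Agent.Lib.MP_d01a95_gt_L.LBas
import Pool.Agent.Lib.MP_d01a95_gt_L.LCs
import Pool.Agent.Lib.MP_d01a95_gt_L.LAlg
import Pool.Agent.Lib.MP_d01a95_gt_L.LGrn
import Pool.Agent.Lib.MP_d01a95_gt_L.LInv
import Pool.Agent.Lib.MP_d01a95_gt_L.LUnf

/-!
# Module Bf: the bilinear form of sections
-/

set_option autoImplicit false
set_option linter.all false

open MeasureTheory Filter Topology
open scoped ContDiff InnerProductSpace ENNReal

namespace Pool.Agent.MPd01a95.LN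

variable {G : Type} [Group G] (V : VG G) {χ : E → ℝ}
variable {H : Type} [NormedAddCommGroup H] [InnerProductSpace ℝ H]
variable (pi : G →* (H ≃ₗᵢ[ℝ] H)) {c : G → H}

private theorem B_int (hχ : IsChi V χ) {s t : E → H} (hs : ContinuousOn s Om)
    (ht : ContinuousOn t Om) : Integrable (fun p => χ p * ⟪s p, t p⟫_ℝ) V.mu := by
  refine integrable_cs V.toEll (hχ.smo.cont.mul (hs.inner ht)) ?_
  exact hχ.cs.of_imp (fun p hp h => by simp [h])

theorem B_nonneg (hχ : IsChi V χ) (s : E → H) : 0 ≤ B V χ s s := by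
  unfold B
  refine integral_nonneg_of_ae (ae_mu V.toEll fun p hp => ?_)
  exact mul_nonneg (hχ.nn p hp) real_inner_self_nonneg

theorem B_symm (s t : E → H) : B V χ s t = B V χ t s := by
  unfold B
  simp only [real_inner_comm]

theorem B_congr {s s' t t' : E → H} (e : ∀ p ∈ Om, s p = s' p) (e' : ∀ p ∈ Om, t p = t' p) :
    B V χ s t = B V χ s' t' := by
  unfold B
  refine integral_congr_ae (ae_mu V.toEll fun p hp => ?_)
  simp only [e p hp, e' p hp]

theorem B_add (hχ : IsChi V χ) {s s' t : E → H} (hs : ContinuousOn s Om)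
    (hs' : ContinuousOn s' Om) (ht : ContinuousOn t Om) :
    B V χ (fun p => s p + s' p) t = B V χ s t + B V χ s' t := by
  unfold B
  rw [← integral_add (B_int V hχ hs ht) (B_int V hχ hs' ht)]
  refine integral_congr_ae (Eventually.of_forall fun p => ?_)
  simp only [inner_add_left, mul_add]

theorem B_smul (a : ℝ) (s t : E → H) : B V χ (fun p => a • s p) t = a * B V χ s t := by
  unfold B
  rw [← integral_const_mul]
  refine integral_congr_ae (Eventually.of_forall fun p => ?_)
  simp only [real_inner_smul_left]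
  ring

private theorem B_sq (hχ : IsChi V χ) {s t : E → H} (hs : ContinuousOn s Om)
    (ht : ContinuousOn t Om) :
    B V χ (fun p => s p + t p) (fun p => s p + t p)
      = B V χ s s + 2 * B V χ s t + B V χ t t := by
  have hst : ContinuousOn (fun p => s p + t p) Om := hs.add ht
  have e1 := B_add V hχ hs ht hst
  have e2 := B_add V hχ hs ht hs
  have e3 := B_add V hχ hs ht ht
  have e4 := B_symm V (χ := χ) s (fun p => s p + t p)
  have e5 := B_symm V (χ := χ) t (fun p => s p + t p)
  have e6 := B_symm V (χ := χ) s t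
  linarith

/-- Cauchy and Schwarz -/
theorem B_cs (hχ : IsChi V χ) {s t : E → H} (hs : ContinuousOn s Om) (ht : ContinuousOn t Om) :
    B V χ s t ^ 2 ≤ B V χ s s * B V χ t t := by
  have key : ∀ r : ℝ, 0 ≤ B V χ t t * (r * r) + (2 * B V χ s t) * r + B V χ s s := by
    intro r
    have h0 := B_nonneg V hχ (fun p => s p + r • t p)
    have hrt : ContinuousOn (fun p => r • t p) Om := ht.const_smul r
    have e := B_sq V hχ hs hrt
    have e1 := B_smul V (χ := χ) r t (fun p => r • t p)
    have e2 := B_symm V (χ := χ) t (fun p => r • t p)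
    have e3 := B_smul V (χ := χ) r t t
    have e4 := B_symm V (χ := χ) s (fun p => r • t p)
    have e5 := B_smul V (χ := χ) r t s
    have e6 := B_symm V (χ := χ) s t
    rw [e, e4, e5, ← e6, e1, e2, e3] at h0
    linarith
  have := discrim_le_zero key
  unfold discrim at this
  nlinarith [this]

/-- triangle inequality in the form `|s + t|^2 ≤ 2 |s|^2 + 2 |t|^2` -/
theorem B_add_le (hχ : IsChi V χ) {s t : E → H} (hs : ContinuousOn s Om)
    (ht : ContinuousOn t Om) :
    B V χ (fun p => s p + t p) (fun p => s p + t p) ≤ 2 * B V χ s s + 2 * B V χ t t := by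
  have h0 := B_nonneg V hχ (fun p => s p + (-1 : ℝ) • t p)
  have hrt : ContinuousOn (fun p => (-1 : ℝ) • t p) Om := ht.const_smul (-1 : ℝ)
  have e := B_sq V hχ hs hrt
  have e1 := B_smul V (χ := χ) (-1) t (fun p => (-1 : ℝ) • t p)
  have e2 := B_symm V (χ := χ) t (fun p => (-1 : ℝ) • t p)
  have e3 := B_smul V (χ := χ) (-1) t t
  have e4 := B_symm V (χ := χ) s (fun p => (-1 : ℝ) • t p)
  have e5 := B_smul V (χ := χ) (-1) t s
  have e6 := B_symm V (χ := χ) s t
  have e7 := B_sq V hχ hs ht
  rw [e, e4, e5, ← e6, e1, e2, e3] at h0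
  rw [e7]
  linarith

end Pool.Agent.MPd01a95.LN
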