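import Mathlib
import Pool.Agent.Lib.MP_d01a95_gt_L.LDefs
import Pool.Agent.Lib.MP_d01a95_gt_L.LBas
import Pool.Agent.Lib.MP_d01a95_gt_L.LCs
import Pool.Agent.Lib.MP_d01a95_gt_L.LAlg
import Pool.Agent.Lib.MP_d01a95_gt_L.LGrn
import Pool.Agent.Lib.MP_d01a95_gt_L.LInv
import Pool.Agent.Lib.MP_d01a95_gt_L.LUnf
import Pool.Agent.Lib.MP_d01a95_gt_L.LBf

/-!
# Module Chi: the cutoff function, an affine map, averages over the group
-/

set_option autoImplicit false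
set_option linter.all false

open MeasureTheory Filter Topology
open scoped ContDiff InnerProductSpace ENNReal

namespace Pool.Agent.MPd01a95.LN

variable {G : Type} [Group G] (V : VG G) {χ : E → ℝ}
variable {H : Type} [NormedAddCommGroup H] [InnerProductSpace ℝ H]
variable (pi : G →* (H ≃ₗᵢ[ℝ] H)) {c : G → H}

section aux

variable {F : Type*} [NormedAddCommGroup F] [NormedSpace ℝ F]

private theorem LChi_fin {f : E → F} (hc : CS f) {K : Set E} (hK : IsCompact K) (hO : K ⊆ Om) :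
    ∃ A : Finset G, ∀ p ∈ K, ∀ g, g ∉ A → f (V.act g⁻¹ p) = 0 := by
  classical
  obtain ⟨A, hA, -⟩ := tsum_act V hc hK hO
  refine ⟨A.image (fun g => g⁻¹), fun p hp g hg => hA p hp g⁻¹ fun h => hg ?_⟩
  exact Finset.mem_image.2 ⟨g⁻¹, h, inv_inv g⟩

private theorem LChi_ev {p : E} (hp : p ∈ Om) {u : G → E → F}
    (hf : ∀ K : Set E, IsCompact K → K ⊆ Om → ∃ A : Finset G, ∀ p ∈ K, ∀ g, g ∉ A → u g p = 0) :
    ∃ A : Finset G, (∀ᶠ q in 𝓝 p, ∑' g, u g q = ∑ g ∈ A, u g q) ∧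
      ∑' g, u g p = ∑ g ∈ A, u g p := by
  obtain ⟨K', hK', hO', hin⟩ := exists_nhd (isCompact_singleton (x := p))
    (Set.singleton_subset_iff.2 hp)
  obtain ⟨A, hA⟩ := hf K' hK' hO'
  have key : ∀ q ∈ K', ∑' g, u g q = ∑ g ∈ A, u g q := fun q hq =>
    tsum_eq_sum fun g hg => hA q hq g hg
  have hpi : p ∈ interior K' := hin rfl
  refine ⟨A, ?_, key p (interior_subset hpi)⟩
  filter_upwards [mem_interior_iff_mem_nhds.1 hpi] with q hq
  exact key q hq

private theorem LChi_cont {u : G → E → F} (hu : ∀ g, ContinuousOn (u g) Om)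
    (hf : ∀ K : Set E, IsCompact K → K ⊆ Om → ∃ A : Finset G, ∀ p ∈ K, ∀ g, g ∉ A → u g p = 0) :
    ContinuousOn (fun p => ∑' g, u g p) Om := by
  intro p hp
  obtain ⟨A, h1, h2⟩ := LChi_ev hp hf
  have h3 : ContinuousOn (fun p => ∑ g ∈ A, u g p) Om :=
    continuousOn_finset_sum A fun g _ => hu g
  exact (h3 p hp).congr_of_eventuallyEq (mem_nhdsWithin_of_mem_nhds h1) h2

private theorem LChi_smo {u : G → E → F} (hu : ∀ g, Smo (u g))
    (hf : ∀ K : Set E, IsCompact K → K ⊆ Om → ∃ A : Finset G, ∀ p ∈ K, ∀ g, g ∉ A → u g p = 0) :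
    Smo (fun p => ∑' g, u g p) := by
  intro p hp
  obtain ⟨A, h1, h2⟩ := LChi_ev hp hf
  have h3 : Smo (fun p => ∑ g ∈ A, u g p) := Smo.sum A fun g _ => hu g
  exact (h3 p hp).congr_of_eventuallyEq (mem_nhdsWithin_of_mem_nhds h1) h2

private theorem LChi_one (hχ : IsChi V χ) {p : E} (hp : p ∈ Om) :
    ∑' g, χ (V.act g⁻¹ p) = 1 := by
  rw [← hχ.one p hp]
  exact (Equiv.inv G).tsum_eq (fun g => χ (V.act g p))

private theorem LChi_shift (k : G) (f : G → F) : ∑' g, f g = ∑' g, f (k * g) :=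
  ((Equiv.mulLeft k).tsum_eq f).symm

private theorem LChi_act (k g : G) {p : E} (hp : p ∈ Om) :
    V.act (k * g)⁻¹ (V.act k p) = V.act g⁻¹ p := by
  rw [← V.act_mul _ _ p hp]
  congr 1
  group

end aux

theorem exists_chi : ∃ χ : E → ℝ, IsChi V χ := by
  obtain ⟨K, hK, hO, hcov⟩ := V.cocpt
  obtain ⟨η, hη, -, hcs, hnn, hle, hone⟩ := exists_cut hK hO
  obtain ⟨S, hS⟩ : ∃ S : E → ℝ, S = fun p => ∑' g, η (V.act g p) := ⟨_, rfl⟩
  have hSs : Smo S := by
    rw [hS]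
    refine LChi_smo (fun g => Smo.act V hη g) fun K' hK' hO' => ?_
    obtain ⟨A, hA, -⟩ := tsum_act V hcs hK' hO'
    exact ⟨A, hA⟩
  have hS1 : ∀ p ∈ Om, 1 ≤ S p := by
    intro p hp
    obtain ⟨A, hA, hA'⟩ := tsum_act V hcs (isCompact_singleton (x := p))
      (Set.singleton_subset_iff.2 hp)
    obtain ⟨g, hg⟩ := hcov p hp
    have h1 : η (V.act g p) = 1 := hone _ hg
    have h2 : g ∈ A := by
      by_contra h
      rw [hA p rfl g h] at h1
      exact zero_ne_one h1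
    rw [hS]
    show 1 ≤ ∑' g, η (V.act g p)
    rw [hA' p rfl, ← h1]
    exact Finset.single_le_sum (f := fun g => η (V.act g p)) (fun g _ => hnn _) h2
  have hSi : ∀ h, ∀ p ∈ Om, S (V.act h p) = S p := by
    intro h p hp
    rw [hS]
    show ∑' g, η (V.act g (V.act h p)) = ∑' g, η (V.act g p)
    rw [← (Equiv.mulRight h).tsum_eq (fun g => η (V.act g p))]
    refine tsum_congr fun g => ?_
    show η (V.act g (V.act h p)) = η (V.act (g * h) p)
    rw [V.act_mul g h p hp]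
  have hS0 : ∀ p ∈ Om, S p ≠ 0 := fun p hp => (lt_of_lt_of_le one_pos (hS1 p hp)).ne'
  refine ⟨fun p => η p / S p, ?_, ?_, ?_, ?_⟩
  · exact ContDiffOn.div hη hSs hS0
  · exact CS.of_imp hcs fun p _ h => by rw [h, zero_div]
  · intro p hp
    exact div_nonneg (hnn p) (zero_le_one.trans (hS1 p hp))
  · intro p hp
    have h1 : ∀ g, η (V.act g p) / S (V.act g p) = η (V.act g p) / S p := by
      intro g
      rw [hSi g p hp]
    simp only [h1]
    rw [tsum_div_const]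
    have h2 : ∑' g, η (V.act g p) = S p := by rw [hS]
    rw [h2]
    exact div_self (hS0 p hp)

/-- a smooth affine map: `h₀ p = ∑ χ(g⁻¹ p) c(g)` -/
theorem exists_aff (hχ : IsChi V χ) (hc : IsCoc pi c) :
    ∃ h : E → H, Smo h ∧ IsAff V pi c h := by
  refine ⟨fun p => ∑' g, χ (V.act g⁻¹ p) • c g, ?_, ?_⟩
  · refine LChi_smo (fun g => (Smo.act V hχ.smo g⁻¹).smul (Smo.const (c g))) fun K hK hO => ?_
    obtain ⟨A, hA⟩ := LChi_fin V hχ.cs hK hO
    exact ⟨A, fun p hp g hg => by rw [hA p hp g hg, zero_smul]⟩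
  · intro k p hp
    obtain ⟨A, hA⟩ := LChi_fin V hχ.cs (isCompact_singleton (x := p))
      (Set.singleton_subset_iff.2 hp)
    show ∑' g, χ (V.act g⁻¹ (V.act k p)) • c g = pi k (∑' g, χ (V.act g⁻¹ p) • c g) + c k
    rw [LChi_shift k]
    have h1 : ∀ g, χ (V.act (k * g)⁻¹ (V.act k p)) • c (k * g) =
        χ (V.act g⁻¹ p) • (pi k (c g) + c k) := by
      intro g
      rw [LChi_act V k g hp, hc k g]
    simp only [h1]
    have h2 : ∑ g ∈ A, χ (V.act g⁻¹ p) = 1 := by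
      rw [← LChi_one V hχ hp]
      exact (tsum_eq_sum fun g hg => hA p rfl g hg).symm
    rw [tsum_eq_sum (s := A) fun g hg => by rw [hA p rfl g hg, zero_smul],
      tsum_eq_sum (s := A) fun g hg => by rw [hA p rfl g hg, zero_smul]]
    simp only [smul_add, Finset.sum_add_distrib, map_sum, map_smul]
    rw [← Finset.sum_smul, h2, one_smul]

/-- averages of continuous functions with compact support are continuous sections -/
theorem theta_sec {τ : E → H} (hτ : ContinuousOn τ Om) (hc : CS τ) :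
    ContinuousOn (theta V pi τ) Om ∧ IsSec V pi (theta V pi τ) := by
  constructor
  · refine LChi_cont (u := fun g p => pi g (τ (V.act g⁻¹ p))) (fun g => ?_) fun K hK hO => ?_
    · exact (pi g).continuous.comp_continuousOn (cont_act V hτ g⁻¹)
    · obtain ⟨A, hA⟩ := LChi_fin V hc hK hO
      exact ⟨A, fun p hp g hg => by rw [hA p hp g hg, map_zero]⟩
  · intro k p hp
    obtain ⟨A, hA⟩ := LChi_fin V hc (isCompact_singleton (x := p))
      (Set.singleton_subset_iff.2 hp)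
    show ∑' g, pi g (τ (V.act g⁻¹ (V.act k p))) = pi k (∑' g, pi g (τ (V.act g⁻¹ p)))
    rw [LChi_shift k]
    have h1 : ∀ g, pi (k * g) (τ (V.act (k * g)⁻¹ (V.act k p))) =
        pi k (pi g (τ (V.act g⁻¹ p))) := by
      intro g
      rw [LChi_act V k g hp, map_mul]
      rfl
    simp only [h1]
    rw [tsum_eq_sum (s := A) fun g hg => by rw [hA p rfl g hg, map_zero, map_zero],
      tsum_eq_sum (s := A) fun g hg => by rw [hA p rfl g hg, map_zero], map_sum]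

/-- every section is an average -/
theorem theta_chi (hχ : IsChi V χ) {s : E → H} (hs : IsSec V pi s) :
    ∀ p ∈ Om, theta V pi (fun q => χ q • s q) p = s p := by
  intro p hp
  obtain ⟨A, hA⟩ := LChi_fin V hχ.cs (isCompact_singleton (x := p))
    (Set.singleton_subset_iff.2 hp)
  show ∑' g, pi g (χ (V.act g⁻¹ p) • s (V.act g⁻¹ p)) = s p
  have h1 : ∀ g, pi g (χ (V.act g⁻¹ p) • s (V.act g⁻¹ p)) = χ (V.act g⁻¹ p) • s p := by
    intro g
    rw [hs g⁻¹ p hp, map_smul]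
    congr 1
    show (pi g * pi g⁻¹) (s p) = s p
    rw [← map_mul, mul_inv_cancel, map_one]
    rfl
  simp only [h1]
  rw [tsum_eq_sum (s := A) fun g hg => by rw [hA p rfl g hg, zero_smul], ← Finset.sum_smul]
  have h2 : ∑ g ∈ A, χ (V.act g⁻¹ p) = 1 := by
    rw [← LChi_one V hχ hp]
    exact (tsum_eq_sum fun g hg => hA p rfl g hg).symm
  rw [h2, one_smul]

theorem theta_add {τ τ' : E → H} (hc : CS τ) (hc' : CS τ') :
    ∀ p ∈ Om, theta V pi (fun q => τ q + τ' q) p = theta V pi τ p + theta V pi τ' p := by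
  classical
  intro p hp
  obtain ⟨A, hA⟩ := LChi_fin V hc (isCompact_singleton (x := p)) (Set.singleton_subset_iff.2 hp)
  obtain ⟨A', hA'⟩ := LChi_fin V hc' (isCompact_singleton (x := p))
    (Set.singleton_subset_iff.2 hp)
  have hU : ∀ g, g ∉ A ∪ A' → τ (V.act g⁻¹ p) = 0 ∧ τ' (V.act g⁻¹ p) = 0 := by
    intro g hg
    rw [Finset.mem_union, not_or] at hg
    exact ⟨hA p rfl g hg.1, hA' p rfl g hg.2⟩
  show ∑' g, pi g (τ (V.act g⁻¹ p) + τ' (V.act g⁻¹ p)) =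
    ∑' g, pi g (τ (V.act g⁻¹ p)) + ∑' g, pi g (τ' (V.act g⁻¹ p))
  rw [tsum_eq_sum (s := A ∪ A') fun g hg => by rw [(hU g hg).1, (hU g hg).2, add_zero, map_zero],
    tsum_eq_sum (s := A ∪ A') fun g hg => by rw [(hU g hg).1, map_zero],
    tsum_eq_sum (s := A ∪ A') fun g hg => by rw [(hU g hg).2, map_zero],
    ← Finset.sum_add_distrib]
  exact Finset.sum_congr rfl fun g _ => map_add _ _ _

/-- bound of an average -/
theorem theta_bd (hχ : IsChi V χ) {K : Set E} (hK : IsCompact K) (hO : K ⊆ Om) :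
    ∃ C : ℝ, 0 < C ∧ ∀ τ : E → H, ContinuousOn τ Om → (∀ p ∈ Om, p ∉ K → τ p = 0) →
      ∀ δ : ℝ, (∀ p ∈ Om, ‖τ p‖ ≤ δ) →
      B V χ (theta V pi τ) (theta V pi τ) ≤ C * δ ^ 2 := by
  classical
  obtain ⟨K', hK', hO', hz⟩ := hχ.cs
  have hfin := fin_act V hK' hO' hK hO
  obtain ⟨A, hA⟩ : ∃ A : Finset G, ∀ p ∈ K', ∀ g, g ∉ A → V.act g⁻¹ p ∉ K := by
    refine ⟨hfin.toFinset.image (fun g => g⁻¹), fun p hp g hg h => hg ?_⟩
    refine Finset.mem_image.2 ⟨g⁻¹, ?_, inv_inv g⟩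
    rw [Set.Finite.mem_toFinset]
    exact ⟨p, hp, h⟩
  have hI0 : 0 ≤ ∫ p, χ p ∂V.mu :=
    integral_nonneg_of_ae (ae_mu V.toEll hχ.nn)
  have hIχ : Integrable χ V.mu := integrable_cs V.toEll hχ.smo.cont hχ.cs
  refine ⟨(A.card : ℝ) ^ 2 * ∫ p, χ p ∂V.mu + 1, by positivity, ?_⟩
  intro τ hτ hτK δ hδ
  have hcs : CS τ := ⟨K, hK, hO, hτK⟩
  obtain ⟨hc1, hs1⟩ := theta_sec V pi hτ hcs
  have hδ0 : 0 ≤ δ := by
    obtain ⟨p, hp⟩ := nonempty_Om
    exact (norm_nonneg _).trans (hδ p hp)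
  have hbd : ∀ p ∈ K', ‖theta V pi τ p‖ ≤ A.card * δ := by
    intro p hp
    have h1 : theta V pi τ p = ∑ g ∈ A, pi g (τ (V.act g⁻¹ p)) := by
      show ∑' g, pi g (τ (V.act g⁻¹ p)) = _
      refine tsum_eq_sum fun g hg => ?_
      rw [hτK _ (V.act_mem _ p (hO' hp)) (hA p hp g hg), map_zero]
    rw [h1]
    refine (norm_sum_le _ _).trans ?_
    have h2 : ∀ g ∈ A, ‖pi g (τ (V.act g⁻¹ p))‖ ≤ δ := by
      intro g _
      rw [LinearIsometryEquiv.norm_map]
      exact hδ _ (V.act_mem _ p (hO' hp))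
    refine (Finset.sum_le_sum h2).trans ?_
    rw [Finset.sum_const, nsmul_eq_mul]
  have hle : B V χ (theta V pi τ) (theta V pi τ) ≤
      ∫ p, χ p * ((A.card : ℝ) ^ 2 * δ ^ 2) ∂V.mu := by
    refine integral_mono_ae ?_ (hIχ.mul_const _) ?_
    · refine integrable_cs V.toEll (hχ.smo.cont.mul (hc1.inner hc1)) ?_
      exact CS.of_imp hχ.cs fun p _ h => by rw [h, zero_mul]
    · refine ae_mu V.toEll fun p hp => ?_
      show χ p * ⟪theta V pi τ p, theta V pi τ p⟫_ℝ ≤ χ p * ((A.card : ℝ) ^ 2 * δ ^ 2)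
      by_cases hpK : p ∈ K'
      · refine mul_le_mul_of_nonneg_left ?_ (hχ.nn p hp)
        rw [real_inner_self_eq_norm_sq, ← mul_pow]
        exact pow_le_pow_left₀ (norm_nonneg _) (hbd p hpK) 2
      · rw [hz p hp hpK, zero_mul, zero_mul]
  refine hle.trans ?_
  rw [integral_mul_const]
  nlinarith [sq_nonneg δ]

/-- pairing of two averages -/
theorem B_theta (hχ : IsChi V χ) {τ τ' : E → H} (hτ : ContinuousOn τ Om) (hc : CS τ)
    (hτ' : ContinuousOn τ' Om) (hc' : CS τ') :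
    B V χ (theta V pi τ) (theta V pi τ') =
      ∑' g, ∫ p, ⟪τ p, pi g (τ' (V.act g⁻¹ p))⟫_ℝ ∂V.mu := by
  obtain ⟨hc1, hs1⟩ := theta_sec V pi hτ' hc'
  obtain ⟨Ψ, hΨ⟩ : ∃ Ψ : E → ℝ, Ψ = fun p => ⟪τ p, theta V pi τ' p⟫_ℝ := ⟨_, rfl⟩
  have hΨc : ContinuousOn Ψ Om := by
    rw [hΨ]
    exact hτ.inner hc1
  have hΨs : CS Ψ := by
    rw [hΨ]
    exact CS.of_imp hc fun p _ h => by rw [h, inner_zero_left]
  -- unfolding
  have h1 : B V χ (theta V pi τ) (theta V pi τ') = ∫ p, Ψ p ∂V.mu := by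
    rw [Pool.Agent.MPd01a95.LN.unfold V hχ hΨc hΨs]
    refine integral_congr_ae (ae_mu V.toEll fun p hp => ?_)
    show χ p * ⟪theta V pi τ p, theta V pi τ' p⟫_ℝ = χ p • ∑' g, Ψ (V.act g p)
    rw [smul_eq_mul, ← (Equiv.inv G).tsum_eq (fun g => Ψ (V.act g p))]
    congr 1
    obtain ⟨A, hA⟩ := LChi_fin V hc (isCompact_singleton (x := p))
      (Set.singleton_subset_iff.2 hp)
    have h2 : theta V pi τ p = ∑ g ∈ A, pi g (τ (V.act g⁻¹ p)) := by
      show ∑' g, pi g (τ (V.act g⁻¹ p)) = _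
      exact tsum_eq_sum fun g hg => by rw [hA p rfl g hg, map_zero]
    have h3 : ∑' g, Ψ (V.act ((Equiv.inv G) g) p) = ∑ g ∈ A, Ψ (V.act g⁻¹ p) := by
      refine tsum_eq_sum fun g hg => ?_
      show Ψ (V.act g⁻¹ p) = 0
      rw [hΨ]
      show ⟪τ (V.act g⁻¹ p), _⟫_ℝ = 0
      rw [hA p rfl g hg, inner_zero_left]
    rw [h2, h3, sum_inner]
    refine Finset.sum_congr rfl fun g _ => ?_
    rw [hΨ]
    show _ = ⟪τ (V.act g⁻¹ p), theta V pi τ' (V.act g⁻¹ p)⟫_ℝ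
    rw [hs1 g⁻¹ p hp, ← (pi g).inner_map_map (τ (V.act g⁻¹ p))]
    congr 1
    show _ = (pi g * pi g⁻¹) (theta V pi τ' p)
    rw [← map_mul, mul_inv_cancel, map_one]
    rfl
  -- the finite sum
  obtain ⟨K, hK, hO, hz⟩ := id hc
  obtain ⟨A, hA⟩ := LChi_fin V hc' hK hO
  have h4 : ∀ g, g ∉ A → ∀ p ∈ Om, ⟪τ p, pi g (τ' (V.act g⁻¹ p))⟫_ℝ = 0 := by
    intro g hg p hp
    by_cases hpK : p ∈ K
    · rw [hA p hpK g hg, map_zero, inner_zero_right]
    · rw [hz p hp hpK, inner_zero_left]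
  rw [h1, tsum_eq_sum (s := A)]
  · rw [← integral_finset_sum]
    · refine integral_congr_ae (ae_mu V.toEll fun p hp => ?_)
      rw [hΨ]
      show ⟪τ p, ∑' g, pi g (τ' (V.act g⁻¹ p))⟫_ℝ = ∑ g ∈ A, ⟪τ p, pi g (τ' (V.act g⁻¹ p))⟫_ℝ
      by_cases hpK : p ∈ K
      · rw [tsum_eq_sum (s := A) fun g hg => by rw [hA p hpK g hg, map_zero], inner_sum]
      · simp only [hz p hp hpK, inner_zero_left, Finset.sum_const_zero]
    · intro g _
      refine integrable_cs V.toEll (hτ.inner ?_) ?_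
      · exact (pi g).continuous.comp_continuousOn (cont_act V hτ' g⁻¹)
      · exact CS.of_imp hc fun p _ h => by rw [h, inner_zero_left]
  · intro g hg
    rw [integral_congr_ae (ae_mu V.toEll (h4 g hg)), integral_zero]

end Pool.Agent.MPd01a95.LN
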