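import Mathlib
import Pool.Agent.Lib.MP_d01a95_gt_L.LDefs
import Pool.Agent.Lib.MP_d01a95_gt_L.LBas
import Pool.Agent.Lib.MP_d01a95_gt_L.LCs
import Pool.Agent.Lib.MP_d01a95_gt_L.LAlg
import Pool.Agent.Lib.MP_d01a95_gt_L.LGrn
import Pool.Agent.Lib.MP_d01a95_gt_L.LInv
import Pool.Agent.Lib.MP_d01a95_gt_L.LUnf
import Pool.Agent.Lib.MP_d01a95_gt_L.LBf

/-!
# Module Gq: Green formula on the quotient
-/

set_option autoImplicit false
set_option linter.all false

open MeasureTheory Filter Topology
open scoped ContDiff InnerProductSpace ENNReal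

namespace Pool.Agent.MPd01a95.LN

/-- Leibniz rule for the second argument of the carre du champ -/
private theorem gam_leib (V : Ell) {H : Type} [NormedAddCommGroup H] [InnerProductSpace ℝ H]
    {f : E → ℝ} {h t : E → H} (hf : Smo f) (ht : Smo t) {p : E} (hp : p ∈ Om) :
    V.Gam h (fun q => f q • t q) p = f p * V.Gam h t p +
      ∑ i, ∑ j, V.a i j p * (dr j f p * ⟪dr i h p, t p⟫_ℝ) := by
  unfold Ell.Gam
  rw [Finset.mul_sum, ← Finset.sum_add_distrib]
  refine Finset.sum_congr rfl fun i _ => ?_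
  rw [Finset.mul_sum, ← Finset.sum_add_distrib]
  refine Finset.sum_congr rfl fun j _ => ?_
  rw [dr_smul hf ht hp, inner_add_right, real_inner_smul_right, real_inner_smul_right]
  ring

/-- the derivative at a point only depends on the germ -/
private theorem dr_germ {F : Type*} [NormedAddCommGroup F] [NormedSpace ℝ F] {u v : E → F}
    {p : E} (e : u =ᶠ[𝓝 p] v) (i : Fin 4) : dr i u p = dr i v p := by
  unfold dr
  rw [e.fderiv_eq]

variable {G : Type} [Group G] (V : VG G) {χ : E → ℝ}
variable {H : Type} [NormedAddCommGroup H] [InnerProductSpace ℝ H]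
variable (pi : G →* (H ≃ₗᵢ[ℝ] H)) {c : G → H}

/-- the cross term, translated by a group element -/
private theorem cross_act (hχ : Smo χ) {h t : E → H} (hh : Smo h) (ha : IsAff V pi c h)
    (ht : Smo t) (hs : IsSec V pi t) (g : G) {p : E} (hp : p ∈ Om) :
    ∑ i, ∑ j, V.a i j (V.act g p) *
        (dr j χ (V.act g p) * ⟪dr i h (V.act g p), t (V.act g p)⟫_ℝ) =
      ∑ i, ∑ j, V.a i j p * (dr j (fun q => χ (V.act g q)) p * ⟪dr i h p, t p⟫_ℝ) := by
  have hgp : V.act g p ∈ Om := V.act_mem g p hp
  have e1 := gam_leib V.toEll (h := h) hχ ht hgp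
  have e2 := gam_leib V.toEll (f := fun q => χ (V.act g q)) (h := h) (hχ.act V g) ht hp
  have e3 : V.Gam h t (V.act g p) = V.Gam h t p := Gam_aff V pi hh ht ha (hs.aff V pi) g hp
  have e4 : V.Gam h (fun q => χ q • t q) (V.act g p) =
      V.Gam h (fun q => χ (V.act g q) • t q) p := by
    rw [← Gam_inv V g hh (hχ.smul ht) hp]
    rw [← Gam_iso V (pi g) (c g) 0 hh ((hχ.act V g).smul ht) hp]
    refine Gam_congr V.toEll (fun q hq => ha g q hq) (fun q hq => ?_) hp
    rw [hs g q hq, map_smul, add_zero]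
  rw [e4, e3] at e1
  linarith [e1, e2]

/-- Green formula on the quotient -/
theorem green_quot (hχ : IsChi V χ) {h t : E → H} (hh : Smo h) (ha : IsAff V pi c h)
    (ht : Smo t) (hs : IsSec V pi t) : B V χ (V.L h) t = - En V χ h t := by
  have hst : Smo (fun p => χ p • t p) := hχ.smo.smul ht
  have hcs : CS (fun p => χ p • t p) := CS.smul_left hχ.cs
  have e1 : B V χ (V.L h) t = ∫ p, ⟪V.L h p, χ p • t p⟫_ℝ ∂V.mu := by
    unfold B
    refine integral_congr_ae (Eventually.of_forall fun p => ?_)
    simp only [real_inner_smul_right]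
  rw [e1, green V.toEll hh hst hcs]
  congr 1
  unfold En
  -- the cross term
  set D : E → ℝ := fun p => ∑ i, ∑ j, V.a i j p * (dr j χ p * ⟪dr i h p, t p⟫_ℝ) with hD
  have hDs : Smo D := by
    refine Smo.sum _ fun i _ => Smo.sum _ fun j _ => ?_
    have := (V.a_smo i j).smul ((hχ.smo.dr j).smul ((hh.dr i).inner ht))
    simpa only [smul_eq_mul] using this
  have hDc : CS D := by
    refine CS.sum _ fun i _ => CS.sum _ fun j _ => ?_
    refine CS.of_imp (hχ.cs.dr j) fun p _ h0 => ?_
    rw [h0, zero_mul, mul_zero]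
  have hGs : Smo (fun p => χ p * V.Gam h t p) := by
    have := hχ.smo.smul (Gam_smo V.toEll hh ht)
    simpa only [smul_eq_mul] using this
  have hGc : CS (fun p => χ p * V.Gam h t p) := by
    refine CS.of_imp hχ.cs fun p _ h0 => ?_
    rw [h0, zero_mul]
  have hD0 : ∫ p, D p ∂V.mu = 0 := by
    rw [unfold V hχ hDs.cont hDc]
    have : (fun _ : E => (0 : ℝ)) =ᵐ[V.mu] fun p => χ p • ∑' g, D (V.act g p) := by
      refine ae_mu V.toEll fun p hp => ?_
      -- a compact neighbourhood
      obtain ⟨K, hK, hKO, hpK⟩ := exists_nhd (K := {p}) isCompact_singleton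
        (Set.singleton_subset_iff.2 hp)
      have hKn : K ∈ 𝓝 p := mem_interior_iff_mem_nhds.1 (hpK rfl)
      obtain ⟨A, hA, hA'⟩ := tsum_act V hχ.cs hK hKO
      have hz : ∀ g, g ∉ A → D (V.act g p) = 0 := by
        intro g hg
        have e := cross_act V pi hχ.smo hh ha ht hs g hp
        have e0 : ∀ j, dr j (fun q => χ (V.act g q)) p = 0 := by
          intro j
          have : (fun q => χ (V.act g q)) =ᶠ[𝓝 p] fun _ => (0 : ℝ) := by
            filter_upwards [hKn] with q hq
            exact hA q hq g hg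
          rw [dr_germ this, dr_const]
        rw [hD]
        simp only
        rw [e]
        refine Finset.sum_eq_zero fun i _ => Finset.sum_eq_zero fun j _ => ?_
        rw [e0 j, zero_mul, mul_zero]
      have hsum : ∀ j, ∑ g ∈ A, dr j (fun q => χ (V.act g q)) p = 0 := by
        intro j
        rw [← dr_sum A (fun g _ => hχ.smo.act V g) hp]
        have : (fun q => ∑ g ∈ A, χ (V.act g q)) =ᶠ[𝓝 p] fun _ => (1 : ℝ) := by
          filter_upwards [hKn] with q hq
          rw [← hA' q hq]
          exact hχ.one q (hKO hq)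
        rw [dr_germ this, dr_const]
      have key : ∑' g, D (V.act g p) = 0 := by
        rw [tsum_eq_sum (s := A) (fun g hg => hz g hg)]
        have : ∀ g ∈ A, D (V.act g p) =
            ∑ i, ∑ j, V.a i j p * (dr j (fun q => χ (V.act g q)) p * ⟪dr i h p, t p⟫_ℝ) :=
          fun g _ => cross_act V pi hχ.smo hh ha ht hs g hp
        rw [Finset.sum_congr rfl this, Finset.sum_comm]
        refine Finset.sum_eq_zero fun i _ => ?_
        rw [Finset.sum_comm]
        refine Finset.sum_eq_zero fun j _ => ?_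
        rw [← Finset.mul_sum, ← Finset.sum_mul, hsum j, zero_mul, mul_zero]
      simp only [key, smul_zero]
    rw [← integral_congr_ae this, integral_zero]
  have e2 : ∫ p, V.Gam h (fun p => χ p • t p) p ∂V.mu =
      ∫ p, (χ p * V.Gam h t p + D p) ∂V.mu := by
    refine integral_congr_ae ?_
    exact ae_mu V.toEll fun p hp => gam_leib V.toEll hχ.smo ht hp
  rw [e2, integral_add (integrable_cs V.toEll hGs.cont hGc)
    (integrable_cs V.toEll hDs.cont hDc), hD0, add_zero]

end Pool.Agent.MPd01a95.LN
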