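import Mathlib
import Pool.Agent.Lib.MP_d01a95_gt_L.LDefs
import Pool.Agent.Lib.MP_d01a95_gt_L.LBas
import Pool.Agent.Lib.MP_d01a95_gt_L.LCs
import Pool.Agent.Lib.MP_d01a95_gt_L.LAlg
import Pool.Agent.Lib.MP_d01a95_gt_L.LGrn
import Pool.Agent.Lib.MP_d01a95_gt_L.LInv
import Pool.Agent.Lib.MP_d01a95_gt_L.LUnf
import Pool.Agent.Lib.MP_d01a95_gt_L.LBf
import Pool.Agent.Lib.MP_d01a95_gt_L.LChi

/-!
# Module Ker: operators with a continuous invariant kernel of finite range
-/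

set_option autoImplicit false
set_option linter.all false

open MeasureTheory Filter Topology
open scoped ContDiff InnerProductSpace ENNReal

namespace Pool.Agent.MPd01a95.LN

variable {G : Type} [Group G] (V : VG G) {χ : E → ℝ}
variable {F : Type*} [NormedAddCommGroup F] [NormedSpace ℝ F]
variable {H : Type} [NormedAddCommGroup H] [InnerProductSpace ℝ H]
variable (pi : G →* (H ≃ₗᵢ[ℝ] H)) {k : E → E → ℝ}

/-- finite range in both variables -/
theorem Ker.fr (hk : Ker V k) {K : Set E} (hK : IsCompact K) (hO : K ⊆ Om) :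
    ∃ K' : Set E, IsCompact K' ∧ K' ⊆ Om ∧ ∀ p ∈ K, ∀ q ∈ Om, q ∉ K' →
      k p q = 0 ∧ k q p = 0 := by
  obtain ⟨R, hR⟩ := hk.ran
  obtain ⟨K', hK', hO', h⟩ := V.Y_proper K hK hO R
  refine ⟨K', hK', hO', fun p hp q hq hn => ?_⟩
  have h1 : R < V.Y p q := by
    by_contra hc
    exact hn (h p hp q hq (not_lt.mp hc))
  refine ⟨hR p (hO hp) q hq h1.le, hR q hq p (hO hp) ?_⟩
  rw [V.Y_symm q hq p (hO hp)]
  exact h1.le

theorem Ker.swap (hk : Ker V k) : Ker V (fun p q => k q p) := by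
  refine ⟨?_, fun g p hp q hq => hk.inv g q hq p hp, ?_⟩
  · have h1 : ContinuousOn (fun x : E × E => (x.2, x.1)) (Om ×ˢ Om) := by fun_prop
    exact hk.cont.comp h1 (fun x hx => ⟨hx.2, hx.1⟩)
  · obtain ⟨R, hR⟩ := hk.ran
    exact ⟨R, fun p hp q hq h => hR q hq p hp (by rw [V.Y_symm q hq p hp]; exact h)⟩

theorem Ker.abs (hk : Ker V k) : Ker V (fun p q => |k p q|) := by
  refine ⟨hk.cont.abs, fun g p hp q hq => by simp only [hk.inv g p hp q hq], ?_⟩
  obtain ⟨R, hR⟩ := hk.ran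
  exact ⟨R, fun p hp q hq h => by simp only [hR p hp q hq h, abs_zero]⟩

theorem Ker.bd (hk : Ker V k) : ∃ C : ℝ, 0 < C ∧ ∀ p ∈ Om, ∀ q ∈ Om, |k p q| ≤ C := by
  obtain ⟨K, hK, hO, hc⟩ := V.cocpt
  obtain ⟨K', hK', hO', hf⟩ := Ker.fr V hk hK hO
  obtain ⟨C, hC⟩ := (hK.prod hK').exists_bound_of_continuousOn
    (hk.cont.mono (Set.prod_mono hO hO'))
  refine ⟨max C 1, lt_max_of_lt_right one_pos, fun p hp q hq => ?_⟩
  obtain ⟨g, hg⟩ := hc p hp
  rw [← hk.inv g p hp q hq]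
  by_cases hn : V.act g q ∈ K'
  · exact (hC (V.act g p, V.act g q) ⟨hg, hn⟩).trans (le_max_left _ _)
  · rw [(hf _ hg _ (V.act_mem g q hq) hn).1, abs_zero]
    exact le_max_of_le_right zero_le_one

private theorem Ker.c2 (hk : Ker V k) {p : E} (hp : p ∈ Om) :
    ContinuousOn (fun q => k p q) Om := by
  have h1 : ContinuousOn (fun q : E => (p, q)) Om := by fun_prop
  exact hk.cont.comp h1 (fun x hx => ⟨hp, hx⟩)

private theorem Ker.c1 (hk : Ker V k) {q : E} (hq : q ∈ Om) :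
    ContinuousOn (fun p => k p q) Om := by
  have h1 : ContinuousOn (fun p : E => (p, q)) Om := by fun_prop
  exact hk.cont.comp h1 (fun x hx => ⟨hx, hq⟩)

private theorem Ko_cont_aux (hk : Ker V k) {s : E → F} (hs : ContinuousOn s Om) :
    ContinuousOn (Ko V k s) Om := by
  intro p0 hp0
  apply ContinuousAt.continuousWithinAt
  obtain ⟨K, hK, hO, hin⟩ := exists_nhd (K := {p0}) isCompact_singleton (by simpa using hp0)
  obtain ⟨K', hK', hO', hf⟩ := Ker.fr V hk hK hO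
  obtain ⟨C, hC0, hC⟩ := Ker.bd V hk
  obtain ⟨D, hD⟩ := hK'.exists_bound_of_continuousOn (hs.mono hO')
  have hN : K ∈ 𝓝 p0 := mem_interior_iff_mem_nhds.mp (hin (Set.mem_singleton p0))
  unfold Ko
  refine continuousAt_of_dominated (bound := K'.indicator fun _ => C * D) ?_ ?_ ?_ ?_
  · filter_upwards [hN] with p hp
    exact aesm V.toEll ((Ker.c2 V hk (hO hp)).smul hs)
  · filter_upwards [hN] with p hp
    refine ae_mu V.toEll fun q hq => ?_
    by_cases hn : q ∈ K'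
    · rw [Set.indicator_of_mem hn, norm_smul, Real.norm_eq_abs]
      exact mul_le_mul (hC p (hO hp) q hq) (hD q hn) (norm_nonneg _) hC0.le
    · rw [Set.indicator_of_notMem hn, (hf p hp q hq hn).1, zero_smul, norm_zero]
  · exact (integrableOn_const (mu_lt_top V.toEll hK' hO').ne).integrable_indicator
      hK'.measurableSet
  · refine ae_mu V.toEll fun q hq => ?_
    have h1 : ContinuousAt (fun p => k p q) p0 :=
      (Ker.c1 V hk hq).continuousAt (isOpen_Om.mem_nhds hp0)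
    exact h1.smul continuousAt_const

private theorem mk_eq (p : E) : mk V k p = Ko V k (fun _ => (1 : ℝ)) p := by
  simp only [mk, Ko, smul_eq_mul, mul_one]

/-- the mass is a continuous invariant function -/
theorem mk_cont (hk : Ker V k) : ContinuousOn (mk V k) Om := by
  have h1 : mk V k = Ko V k (fun _ => (1 : ℝ)) := funext (mk_eq V)
  rw [h1]
  exact Ko_cont_aux V hk continuousOn_const

theorem mk_inv (hk : Ker V k) (g : G) {p : E} (hp : p ∈ Om) :
    mk V k (V.act g p) = mk V k p := by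
  unfold mk
  rw [← int_act V g (fun q => k (V.act g p) q)]
  exact integral_congr_ae (ae_mu V.toEll fun q hq => hk.inv g p hp q hq)

theorem Ker.int_bd (hk : Ker V k) : ∃ C : ℝ, 0 < C ∧ ∀ p ∈ Om, ∫ q, |k p q| ∂V.mu ≤ C := by
  obtain ⟨C, hC0, hC⟩ := inv_bd V (mk_cont V (Ker.abs V hk))
    (fun g p hp => mk_inv V (Ker.abs V hk) g hp)
  exact ⟨C, hC0, fun p hp => (le_abs_self _).trans (hC p hp)⟩

/-- for fixed first variable the integrand is integrable -/
theorem Ker.integrable (hk : Ker V k) {s : E → F} (hs : ContinuousOn s Om) {p : E}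
    (hp : p ∈ Om) : Integrable (fun q => k p q • s q) V.mu := by
  obtain ⟨K', hK', hO', hf⟩ := Ker.fr V hk (K := {p}) isCompact_singleton (by simpa using hp)
  refine integrable_cs V.toEll ((Ker.c2 V hk hp).smul hs) ⟨K', hK', hO', fun q hq hn => ?_⟩
  simp only [(hf p (Set.mem_singleton p) q hq hn).1, zero_smul]

theorem Ko_cont (hk : Ker V k) {s : E → F} (hs : ContinuousOn s Om) :
    ContinuousOn (Ko V k s) Om := Ko_cont_aux V hk hs

theorem Ko_cs (hk : Ker V k) {f : E → F} (hc : CS f) : CS (Ko V k f) := by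
  obtain ⟨K, hK, hO, hf⟩ := hc
  obtain ⟨K', hK', hO', hr⟩ := Ker.fr V hk hK hO
  refine ⟨K', hK', hO', fun p hp hn => ?_⟩
  unfold Ko
  refine integral_eq_zero_of_ae (ae_mu V.toEll fun q hq => ?_)
  by_cases h1 : q ∈ K
  · simp only [(hr q h1 p hp hn).2, zero_smul, Pi.zero_apply]
  · simp only [hf q hq h1, smul_zero, Pi.zero_apply]

private theorem pi_int [CompleteSpace H] (g : G) (f : E → H) :
    ∫ q, pi g (f q) ∂V.mu = pi g (∫ q, f q ∂V.mu) :=
  (pi g).toContinuousLinearEquiv.integral_comp_comm f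

theorem Ko_sec [CompleteSpace H] (hk : Ker V k) {s : E → H} (hs : ContinuousOn s Om)
    (h : IsSec V pi s) : IsSec V pi (Ko V k s) := by
  intro g p hp
  unfold Ko
  rw [← int_act V g (fun q => k (V.act g p) q • s q), ← pi_int V pi g]
  refine integral_congr_ae (ae_mu V.toEll fun q hq => ?_)
  simp only [hk.inv g p hp q hq, h g q hq, map_smul]

/-- the operator commutes with averages -/
theorem Ko_theta [CompleteSpace H] (hk : Ker V k) {τ : E → H} (hτ : ContinuousOn τ Om)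
    (hc : CS τ) : ∀ p ∈ Om, Ko V k (theta V pi τ) p = theta V pi (Ko V k τ) p := by
  classical
  intro p hp
  have hp1 : ({p} : Set E) ⊆ Om := by simpa using hp
  obtain ⟨K', hK', hO', hr⟩ := Ker.fr V hk (K := {p}) isCompact_singleton hp1
  obtain ⟨A, hA, -⟩ := tsum_act V hc hK' hO'
  obtain ⟨A2, hA2, -⟩ := tsum_act V (Ko_cs V hk hc) isCompact_singleton hp1
  set A3 : Finset G := (A ∪ A2).image (fun g => g⁻¹) with hA3
  have hmem : ∀ g, g ∉ A3 → g⁻¹ ∉ A ∧ g⁻¹ ∉ A2 := by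
    intro g hg
    constructor
    · intro h1
      exact hg (Finset.mem_image.mpr ⟨g⁻¹, Finset.mem_union_left _ h1, inv_inv g⟩)
    · intro h1
      exact hg (Finset.mem_image.mpr ⟨g⁻¹, Finset.mem_union_right _ h1, inv_inv g⟩)
  have h1 : theta V pi (Ko V k τ) p = ∑ g ∈ A3, pi g (Ko V k τ (V.act g⁻¹ p)) := by
    unfold theta
    refine tsum_eq_sum fun g hg => ?_
    rw [hA2 p (Set.mem_singleton p) g⁻¹ (hmem g hg).2, map_zero]
  have h2 : ∀ q ∈ K', theta V pi τ q = ∑ g ∈ A3, pi g (τ (V.act g⁻¹ q)) := by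
    intro q hq
    unfold theta
    refine tsum_eq_sum fun g hg => ?_
    rw [hA q hq g⁻¹ (hmem g hg).1, map_zero]
  have h3 : Ko V k (theta V pi τ) p
      = ∫ q, ∑ g ∈ A3, k p q • pi g (τ (V.act g⁻¹ q)) ∂V.mu := by
    unfold Ko
    refine integral_congr_ae (ae_mu V.toEll fun q hq => ?_)
    by_cases hn : q ∈ K'
    · simp only [h2 q hn, Finset.smul_sum]
    · simp only [(hr p (Set.mem_singleton p) q hq hn).1, zero_smul, Finset.sum_const_zero]
  rw [h1, h3, integral_finset_sum]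
  · refine Finset.sum_congr rfl fun g _ => ?_
    rw [← int_act V g (fun q => k p q • pi g (τ (V.act g⁻¹ q)))]
    unfold Ko
    rw [← pi_int V pi g]
    refine integral_congr_ae (ae_mu V.toEll fun q hq => ?_)
    have h4 : k p (V.act g q) = k (V.act g⁻¹ p) q := by
      have h5 := hk.inv g (V.act g⁻¹ p) (V.act_mem g⁻¹ p hp) q hq
      rw [act_act_inv V g hp] at h5
      exact h5
    simp only [h4, act_inv_act V g hq, map_smul]
  · intro g _
    exact Ker.integrable V hk ((pi g).continuous.comp_continuousOn (cont_act V hτ g⁻¹)) hp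

theorem Ko_smul [CompleteSpace H] (hk : Ker V k) {f : E → ℝ} (hf : ContinuousOn f Om)
    (ξ : H) : ∀ p ∈ Om, Ko V k (fun q => f q • ξ) p = Ko V k f p • ξ := by
  intro p hp
  unfold Ko
  rw [← integral_smul_const]
  refine integral_congr_ae (ae_mu V.toEll fun q hq => ?_)
  simp only [smul_assoc]

/-- symmetric kernels give symmetric operators on sections -/
theorem Ko_symm [CompleteSpace H] (hχ : IsChi V χ) (hk : Ker V k)
    (hs : ∀ p ∈ Om, ∀ q ∈ Om, k p q = k q p) {s t : E → H} (hs : ContinuousOn s Om)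
    (ht : ContinuousOn t Om) (hs' : IsSec V pi s) (ht' : IsSec V pi t) :
    B V χ (Ko V k s) t = B V χ s (Ko V k t) := by
  have hsy : ∀ p ∈ Om, ∀ q ∈ Om, k p q = k q p := by assumption
  have hk2 : Ker V (fun p q => k p q * ⟪s q, t p⟫_ℝ) := by
    refine ⟨?_, ?_, ?_⟩
    · have h1 : ContinuousOn (fun x : E × E => s x.2) (Om ×ˢ Om) :=
        hs.comp (by fun_prop) (fun x hx => hx.2)
      have h2 : ContinuousOn (fun x : E × E => t x.1) (Om ×ˢ Om) :=
        ht.comp (by fun_prop) (fun x hx => hx.1)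
      exact hk.cont.mul (h1.inner h2)
    · intro g p hp q hq
      simp only [hk.inv g p hp q hq, hs' g q hq, ht' g p hp, LinearIsometryEquiv.inner_map_map]
    · obtain ⟨R, hR⟩ := hk.ran
      exact ⟨R, fun p hp q hq h => by simp only [hR p hp q hq h, zero_mul]⟩
  have h1 := unfold_ker V hχ hk2
  have h2 : B V χ (Ko V k s) t = ∫ p, χ p * ∫ q, k p q * ⟪s q, t p⟫_ℝ ∂V.mu ∂V.mu := by
    unfold B
    refine integral_congr_ae (ae_mu V.toEll fun p hp => ?_)
    have h3 : ⟪Ko V k s p, t p⟫_ℝ = ∫ q, k p q * ⟪s q, t p⟫_ℝ ∂V.mu := by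
      unfold Ko
      rw [real_inner_comm, ← integral_inner (Ker.integrable V hk hs hp) (t p)]
      refine integral_congr_ae (ae_mu V.toEll fun q hq => ?_)
      simp only [real_inner_smul_right, real_inner_comm (t p) (s q)]
    simp only [h3]
  have h4 : B V χ s (Ko V k t) = ∫ q, χ q * ∫ p, k p q * ⟪s q, t p⟫_ℝ ∂V.mu ∂V.mu := by
    unfold B
    refine integral_congr_ae (ae_mu V.toEll fun q hq => ?_)
    have h3 : ⟪s q, Ko V k t q⟫_ℝ = ∫ p, k p q * ⟪s q, t p⟫_ℝ ∂V.mu := by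
      unfold Ko
      rw [← integral_inner (Ker.integrable V hk ht hq) (s q)]
      refine integral_congr_ae (ae_mu V.toEll fun p hp => ?_)
      simp only [real_inner_smul_right, hsy q hq p hp]
    simp only [h3]
  rw [h2, h4, h1]

/-- symmetric kernels give symmetric operators on functions with compact support -/
theorem Ko_symm0 (hk : Ker V k) (hs : ∀ p ∈ Om, ∀ q ∈ Om, k p q = k q p) {f f' : E → ℝ}
    (hf : ContinuousOn f Om) (hf' : ContinuousOn f' Om) (hc : CS f') :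
    ∫ p, Ko V k f p * f' p ∂V.mu = ∫ p, f p * Ko V k f' p ∂V.mu := by
  have hc2 : ContinuousOn (fun x : E × E => (fun p q => k p q * f q) x.1 x.2) (Om ×ˢ Om) := by
    have h1 : ContinuousOn (fun x : E × E => f x.2) (Om ×ˢ Om) :=
      hf.comp (by fun_prop) (fun x hx => hx.2)
    exact hk.cont.mul h1
  have h1 := fubini V hf' hc (k := fun p q => k p q * f q) hc2 (by
    intro K hK hO
    obtain ⟨K', hK', hO', hr⟩ := Ker.fr V hk hK hO
    refine ⟨K', hK', hO', fun p hp q hq hn => ?_⟩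
    show k p q * f q = 0
    rw [(hr p hp q hq hn).1, zero_mul])
  have h2 : ∫ p, Ko V k f p * f' p ∂V.mu
      = ∫ p, f' p • ∫ q, (fun p q => k p q * f q) p q ∂V.mu ∂V.mu := by
    refine integral_congr_ae (ae_mu V.toEll fun p hp => ?_)
    simp only [Ko, smul_eq_mul]
    exact mul_comm _ _
  have h3 : ∫ p, f p * Ko V k f' p ∂V.mu
      = ∫ q, ∫ p, f' p • (fun p q => k p q * f q) p q ∂V.mu ∂V.mu := by
    refine integral_congr_ae (ae_mu V.toEll fun q hq => ?_)
    simp only [Ko, smul_eq_mul]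
    rw [← integral_const_mul]
    refine integral_congr_ae (ae_mu V.toEll fun p hp => ?_)
    simp only [hs q hq p hp]
    ring
  rw [h2, h3, h1]

private theorem schur_pt [CompleteSpace H] (hk : Ker V k) {s : E → H}
    (hs : ContinuousOn s Om) {p : E} (hp : p ∈ Om) :
    ‖Ko V k s p‖ ^ 2 ≤ (∫ q, |k p q| ∂V.mu) * ∫ q, |k p q| * ‖s q‖ ^ 2 ∂V.mu := by
  have hka := Ker.abs V hk
  have i0 : Integrable (fun q => |k p q|) V.mu := by
    have := Ker.integrable V hka (s := fun _ => (1 : ℝ)) continuousOn_const hp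
    simpa only [smul_eq_mul, mul_one] using this
  have i1 : Integrable (fun q => |k p q| * ‖s q‖) V.mu := by
    have := Ker.integrable V hka (s := fun q => ‖s q‖) hs.norm hp
    simpa only [smul_eq_mul] using this
  have i2 : Integrable (fun q => |k p q| * ‖s q‖ ^ 2) V.mu := by
    have := Ker.integrable V hka (s := fun q => ‖s q‖ ^ 2) (hs.norm.pow 2) hp
    simpa only [smul_eq_mul] using this
  set a := ∫ q, |k p q| ∂V.mu with ha
  set b := ∫ q, |k p q| * ‖s q‖ ∂V.mu with hb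
  set c := ∫ q, |k p q| * ‖s q‖ ^ 2 ∂V.mu with hc
  have h1 : ‖Ko V k s p‖ ≤ b := by
    unfold Ko
    refine (norm_integral_le_integral_norm _).trans (le_of_eq ?_)
    simp only [norm_smul, Real.norm_eq_abs, hb]
  have hb0 : 0 ≤ b := (norm_nonneg _).trans h1
  have h2 : ∀ r : ℝ, 0 ≤ a * (r * r) + (-(2 * b)) * r + c := by
    intro r
    have h3 : ∫ q, |k p q| * (‖s q‖ - r) ^ 2 ∂V.mu = a * (r * r) + (-(2 * b)) * r + c := by
      have h4 : ∀ q, |k p q| * (‖s q‖ - r) ^ 2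
          = (|k p q| * (r * r) + |k p q| * ‖s q‖ * (-(2 * r))) + |k p q| * ‖s q‖ ^ 2 := by
        intro q; ring
      simp only [h4]
      have e1 : ∫ q, (|k p q| * (r * r) + |k p q| * ‖s q‖ * (-(2 * r))) + |k p q| * ‖s q‖ ^ 2 ∂V.mu
          = (∫ q, (|k p q| * (r * r) + |k p q| * ‖s q‖ * (-(2 * r))) ∂V.mu) + c :=
        integral_add ((i0.mul_const _).add (i1.mul_const _)) i2
      have e2 : ∫ q, (|k p q| * (r * r) + |k p q| * ‖s q‖ * (-(2 * r))) ∂V.mu
          = (∫ q, |k p q| * (r * r) ∂V.mu) + ∫ q, |k p q| * ‖s q‖ * (-(2 * r)) ∂V.mu :=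
        integral_add (i0.mul_const _) (i1.mul_const _)
      rw [e1, e2, integral_mul_const, integral_mul_const]
      ring
    rw [← h3]
    exact integral_nonneg fun q => mul_nonneg (abs_nonneg _) (sq_nonneg _)
  have h5 := discrim_le_zero h2
  unfold discrim at h5
  have h6 : b ^ 2 ≤ a * c := by nlinarith [h5]
  exact (pow_le_pow_left₀ (norm_nonneg _) h1 2).trans h6

/-- Schur test -/
theorem schur [CompleteSpace H] (hχ : IsChi V χ) (hk : Ker V k) {C C' : ℝ} (hC0 : 0 ≤ C)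
    (hC0' : 0 ≤ C') (hC : ∀ p ∈ Om, ∫ q, |k p q| ∂V.mu ≤ C)
    (hC' : ∀ q ∈ Om, ∫ p, |k p q| ∂V.mu ≤ C') {s : E → H} (hs : ContinuousOn s Om)
    (hs' : IsSec V pi s) : B V χ (Ko V k s) (Ko V k s) ≤ C * C' * B V χ s s := by
  have hχc : ContinuousOn χ Om := Smo.cont hχ.smo
  have hk2 : Ker V (fun p q => |k p q| * ‖s q‖ ^ 2) := by
    refine ⟨?_, ?_, ?_⟩
    · have h1 : ContinuousOn (fun x : E × E => s x.2) (Om ×ˢ Om) :=
        hs.comp (by fun_prop) (fun x hx => hx.2)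
      exact hk.cont.abs.mul (h1.norm.pow 2)
    · intro g p hp q hq
      simp only [hk.inv g p hp q hq, norm_sec V pi hs' g hq]
    · obtain ⟨R, hR⟩ := hk.ran
      exact ⟨R, fun p hp q hq h => by simp only [hR p hp q hq h, abs_zero, zero_mul]⟩
  have h1 := unfold_ker V hχ hk2
  have hJ : ContinuousOn (mk V (fun p q => |k p q| * ‖s q‖ ^ 2)) Om := mk_cont V hk2
  have hKs := Ko_cont V hk hs
  have hcs : ∀ {f : E → ℝ}, CS (fun p => χ p * f p) := by
    intro f
    exact CS.smul_left (f := χ) (u := f) hχ.cs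
  have h2 : B V χ (Ko V k s) (Ko V k s)
      ≤ ∫ p, C * (χ p * mk V (fun p q => |k p q| * ‖s q‖ ^ 2) p) ∂V.mu := by
    unfold B
    refine integral_mono_ae ?_ ?_ (ae_mu V.toEll fun p hp => ?_)
    · exact integrable_cs V.toEll (hχc.mul (hKs.inner hKs)) hcs
    · exact (integrable_cs V.toEll (hχc.mul hJ) hcs).const_mul C
    · have h3 := schur_pt V hk hs hp
      have h4 : (0 : ℝ) ≤ mk V (fun p q => |k p q| * ‖s q‖ ^ 2) p :=
        integral_nonneg fun q => mul_nonneg (abs_nonneg _) (sq_nonneg _)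
      have h5 : ‖Ko V k s p‖ ^ 2 ≤ C * mk V (fun p q => |k p q| * ‖s q‖ ^ 2) p :=
        h3.trans (mul_le_mul_of_nonneg_right (hC p hp) h4)
      show χ p * ⟪Ko V k s p, Ko V k s p⟫_ℝ
        ≤ C * (χ p * mk V (fun p q => |k p q| * ‖s q‖ ^ 2) p)
      rw [real_inner_self_eq_norm_sq]
      calc χ p * ‖Ko V k s p‖ ^ 2
          ≤ χ p * (C * mk V (fun p q => |k p q| * ‖s q‖ ^ 2) p) :=
            mul_le_mul_of_nonneg_left h5 (hχ.nn p hp)
        _ = C * (χ p * mk V (fun p q => |k p q| * ‖s q‖ ^ 2) p) := by ring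
  have h6 : ∫ p, C * (χ p * mk V (fun p q => |k p q| * ‖s q‖ ^ 2) p) ∂V.mu
      = C * ∫ q, χ q * ∫ p, |k p q| * ‖s q‖ ^ 2 ∂V.mu ∂V.mu := by
    rw [integral_const_mul]
    congr 1
  have h7 : ∫ q, χ q * ∫ p, |k p q| * ‖s q‖ ^ 2 ∂V.mu ∂V.mu ≤ ∫ q, C' * (χ q * ⟪s q, s q⟫_ℝ) ∂V.mu := by
    have h8 : ∀ q, ∫ p, |k p q| * ‖s q‖ ^ 2 ∂V.mu = mk V (fun p q => |k q p|) q * ‖s q‖ ^ 2 := by
      intro q
      rw [integral_mul_const]
      rfl
    have hsw : ContinuousOn (mk V (fun p q => |k q p|)) Om :=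
      mk_cont V (Ker.abs V (Ker.swap V hk))
    refine integral_mono_ae ?_ ?_ (ae_mu V.toEll fun q hq => ?_)
    · simp only [h8]
      exact integrable_cs V.toEll (hχc.mul (hsw.mul (hs.norm.pow 2))) hcs
    · exact (integrable_cs V.toEll (hχc.mul (hs.inner hs)) hcs).const_mul C'
    · show χ q * ∫ p, |k p q| * ‖s q‖ ^ 2 ∂V.mu ≤ C' * (χ q * ⟪s q, s q⟫_ℝ)
      rw [real_inner_self_eq_norm_sq, integral_mul_const]
      calc χ q * ((∫ p, |k p q| ∂V.mu) * ‖s q‖ ^ 2)
          ≤ χ q * (C' * ‖s q‖ ^ 2) :=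
            mul_le_mul_of_nonneg_left
              (mul_le_mul_of_nonneg_right (hC' q hq) (sq_nonneg _)) (hχ.nn q hq)
        _ = C' * (χ q * ‖s q‖ ^ 2) := by ring
  calc B V χ (Ko V k s) (Ko V k s)
      ≤ C * ∫ q, χ q * ∫ p, |k p q| * ‖s q‖ ^ 2 ∂V.mu ∂V.mu := h2.trans h6.le
    _ ≤ C * ∫ q, C' * (χ q * ⟪s q, s q⟫_ℝ) ∂V.mu := mul_le_mul_of_nonneg_left h7 hC0
    _ = C * C' * B V χ s s := by
        rw [integral_const_mul, mul_assoc]
        rfl

end Pool.Agent.MPd01a95.LN
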