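import Mathlib
import Pool.Agent.Lib.MP_d01a95_gt_L.LDefs
import Pool.Agent.Lib.MP_d01a95_gt_L.LBas
import Pool.Agent.Lib.MP_d01a95_gt_L.LCs
import Pool.Agent.Lib.MP_d01a95_gt_L.LAlg
import Pool.Agent.Lib.MP_d01a95_gt_L.LGrn
import Pool.Agent.Lib.MP_d01a95_gt_L.LInv
import Pool.Agent.Lib.MP_d01a95_gt_L.LUnf
import Pool.Agent.Lib.MP_d01a95_gt_L.LBf
import Pool.Agent.Lib.MP_d01a95_gt_L.LChi
import Pool.Agent.Lib.MP_d01a95_gt_L.LKer

/-!
# Module Smk: smooth kernels, derivatives under the integral sign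
-/

set_option autoImplicit false
set_option linter.all false

open MeasureTheory Filter Topology
open scoped ContDiff InnerProductSpace ENNReal

namespace Pool.Agent.MPd01a95.LN

variable {G : Type} [Group G] (V : VG G) {χ : E → ℝ}
variable {F : Type*} [NormedAddCommGroup F] [NormedSpace ℝ F]
variable {k : E → E → ℝ}

private theorem isOpen_OO : IsOpen (Om ×ˢ Om : Set (E × E)) := isOpen_Om.prod isOpen_Om

theorem SmoK.left (hk : SmoK k) {q : E} (hq : q ∈ Om) : Smo (fun p => k p q) := by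
  have h1 : ContDiffOn ℝ ∞ (fun p : E => ((p, q) : E × E)) Om :=
    (contDiff_id.prodMk contDiff_const).contDiffOn
  exact ContDiffOn.comp (g := fun x : E × E => k x.1 x.2) hk h1 fun p hp => ⟨hp, hq⟩

theorem SmoK.right (hk : SmoK k) {p : E} (hp : p ∈ Om) : Smo (fun q => k p q) := by
  have h1 : ContDiffOn ℝ ∞ (fun q : E => ((p, q) : E × E)) Om :=
    (contDiff_const.prodMk contDiff_id).contDiffOn
  exact ContDiffOn.comp (g := fun x : E × E => k x.1 x.2) hk h1 fun q hq => ⟨hp, hq⟩

theorem SmoK.swap (hk : SmoK k) : SmoK (fun p q => k q p) := by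
  have h1 : ContDiffOn ℝ ∞ (fun x : E × E => ((x.2, x.1) : E × E)) (Om ×ˢ Om) :=
    (contDiff_snd.prodMk contDiff_fst).contDiffOn
  exact ContDiffOn.comp (g := fun x : E × E => k x.1 x.2) hk h1 fun x hx => ⟨hx.2, hx.1⟩

private theorem hasFDeriv_left (hk : SmoK k) {p q : E} (hp : p ∈ Om) (hq : q ∈ Om) :
    HasFDerivAt (fun x => k x q)
      ((fderiv ℝ (fun x : E × E => k x.1 x.2) (p, q)).comp (ContinuousLinearMap.inl ℝ E E)) p := by
  have h1 : DifferentiableAt ℝ (fun x : E × E => k x.1 x.2) (p, q) :=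
    (hk.contDiffAt (isOpen_OO.mem_nhds ⟨hp, hq⟩)).differentiableAt (by simp)
  have h2 : HasFDerivAt (fun x : E => ((x, q) : E × E)) (ContinuousLinearMap.inl ℝ E E) p :=
    hasFDerivAt_prodMk_left p q
  exact HasFDerivAt.comp (g := fun x : E × E => k x.1 x.2) p h1.hasFDerivAt h2

private theorem fderiv_left (hk : SmoK k) {p q : E} (hp : p ∈ Om) (hq : q ∈ Om) :
    fderiv ℝ (fun x => k x q) p =
      (fderiv ℝ (fun x : E × E => k x.1 x.2) (p, q)).comp (ContinuousLinearMap.inl ℝ E E) :=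
  (hasFDeriv_left hk hp hq).fderiv

/-- derivatives in the first variable of a smooth kernel form a smooth kernel -/
theorem SmoK.dr (hk : SmoK k) (i : Fin 4) : SmoK (fun p q => dr i (fun x => k x q) p) := by
  have h1 : ContDiffOn ℝ ∞ (fderiv ℝ (fun x : E × E => k x.1 x.2)) (Om ×ˢ Om) :=
    ContDiffOn.fderiv_of_isOpen hk isOpen_OO (by simp)
  have h2 : ContDiffOn ℝ ∞ (fun x : E × E =>
      fderiv ℝ (fun x : E × E => k x.1 x.2) x ((bs i, 0) : E × E)) (Om ×ˢ Om) :=
    h1.clm_apply contDiffOn_const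
  refine h2.congr fun x hx => ?_
  show LN.dr i (fun y => k y x.2) x.1 = _
  unfold LN.dr
  rw [fderiv_left hk hx.1 hx.2]
  rfl

private theorem smo_fst {f : E → ℝ} (hf : Smo f) :
    ContDiffOn ℝ ∞ (fun x : E × E => f x.1) (Om ×ˢ Om) :=
  ContDiffOn.comp hf contDiff_fst.contDiffOn fun x hx => hx.1

theorem SmoK.L (hk : SmoK k) : SmoK (fun p q => V.L (fun x => k x q) p) := by
  have h2 : ∀ i j, SmoK (fun p q => LN.dr i (fun x => LN.dr j (fun y => k y q) x) p) :=
    fun i j => SmoK.dr (k := fun p q => LN.dr j (fun x => k x q) p) (hk.dr j) i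
  have h3 : ContDiffOn ℝ ∞ (fun x : E × E =>
      ∑ i, ∑ j, V.a i j x.1 • LN.dr i (fun z => LN.dr j (fun y => k y x.2) z) x.1 +
        ∑ j, V.b j x.1 • LN.dr j (fun y => k y x.2) x.1) (Om ×ˢ Om) := by
    refine ContDiffOn.add ?_ ?_
    · refine ContDiffOn.sum fun i _ => ContDiffOn.sum fun j _ => ?_
      exact (smo_fst (V.a_smo i j)).smul (h2 i j)
    · refine ContDiffOn.sum fun j _ => ?_
      exact (smo_fst (b_smo V.toEll j)).smul (hk.dr j)
  exact h3

private theorem dr_near {u : E → F} {p : E} (h : u =ᶠ[𝓝 p] fun _ => 0) (i : Fin 4) :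
    LN.dr i u =ᶠ[𝓝 p] fun _ => 0 := by
  have h1 := h.fderiv (𝕜 := ℝ)
  filter_upwards [h1] with x hx
  unfold LN.dr
  rw [hx]
  simp

private theorem L_near {u : E → ℝ} {p : E} (h : u =ᶠ[𝓝 p] fun _ => 0) : V.L u p = 0 := by
  unfold Ell.L
  have h1 : ∀ j, LN.dr j u p = 0 := fun j => (dr_near h j).eq_of_nhds
  have h2 : ∀ i j, LN.dr i (LN.dr j u) p = 0 := fun i j =>
    (dr_near (dr_near h j) i).eq_of_nhds
  simp [h1, h2]

/-- `L` in the first variable of a smooth invariant kernel of finite range -/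
theorem Ker_L (hk : Ker V k) (hs : SmoK k) : Ker V (fun p q => V.L (fun x => k x q) p) := by
  refine ⟨(hs.L V).continuousOn, ?_, ?_⟩
  · intro g p hp q hq
    have hgq := V.act_mem g q hq
    rw [← V.L_inv g (fun x => k x (V.act g q)) (hs.left hgq) p hp]
    exact L_congr V.toEll (fun x hx => hk.inv g x hx q hq) hp
  · obtain ⟨R, hR⟩ := hk.ran
    refine ⟨R + 1, fun p hp q hq hY => L_near V ?_⟩
    have hc : ContinuousAt (fun x => V.Y x q) p := by
      have h1 : SmoK V.Y := V.Y_smo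
      exact (h1.left hq).cont.continuousAt (isOpen_Om.mem_nhds hp)
    have h2 : ∀ᶠ x in 𝓝 p, R < V.Y x q :=
      hc.eventually (lt_mem_nhds (show R < V.Y p q by linarith))
    filter_upwards [h2, isOpen_Om.mem_nhds hp] with x hx hxO
    exact hR x hxO q hq hx.le

/-- smooth kernels of locally finite range -/
private structure LF (k : E → E → ℝ) : Prop where
  smo : SmoK k
  fr : ∀ K : Set E, IsCompact K → K ⊆ Om → ∃ K' : Set E, IsCompact K' ∧ K' ⊆ Om ∧
    ∀ p ∈ K, ∀ q ∈ Om, q ∉ K' → k p q = 0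

private theorem LF.of (hk : Ker V k) (hs : SmoK k) : LF k := by
  refine ⟨hs, fun K hK hO => ?_⟩
  obtain ⟨K', h1, h2, h3⟩ := hk.fr V hK hO
  exact ⟨K', h1, h2, fun p hp q hq hn => (h3 p hp q hq hn).1⟩

private theorem LF.dr (hk : LF k) (i : Fin 4) : LF (fun p q => LN.dr i (fun x => k x q) p) := by
  refine ⟨hk.smo.dr i, fun K hK hO => ?_⟩
  obtain ⟨K1, h1, h2, h3⟩ := exists_nhd hK hO
  obtain ⟨K', h4, h5, h6⟩ := hk.fr K1 h1 h2
  refine ⟨K', h4, h5, fun p hp q hq hn => ?_⟩
  have h7 : (fun x => k x q) =ᶠ[𝓝 p] fun _ => 0 := by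
    filter_upwards [isOpen_interior.mem_nhds (h3 hp)] with x hx
    exact h6 x (interior_subset hx) q hq hn
  exact (dr_near h7 i).eq_of_nhds

private theorem LF.integrable (hk : LF k) {s : E → F} (hc : ContinuousOn s Om) {p : E}
    (hp : p ∈ Om) : Integrable (fun q => k p q • s q) V.mu := by
  refine integrable_cs V.toEll ((hk.smo.right hp).cont.smul hc) ?_
  obtain ⟨K', h1, h2, h3⟩ := hk.fr {p} isCompact_singleton (by simpa using hp)
  exact ⟨K', h1, h2, fun q hq hn => by simp [h3 p rfl q hq hn]⟩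

private theorem LF.hasFDeriv (hk : LF k) {s : E → F} (hc : ContinuousOn s Om) {p : E}
    (hp : p ∈ Om) :
    HasFDerivAt (Ko V k s) (∫ q, (fderiv ℝ (fun y => k y q) p).smulRight (s q) ∂V.mu) p := by
  obtain ⟨r, hr, hb⟩ := Metric.nhds_basis_closedBall.mem_iff.1 (isOpen_Om.mem_nhds hp)
  have hK : IsCompact (Metric.closedBall p r) := isCompact_closedBall p r
  -- the derivative as a function of two variables
  have hD : ContinuousOn (fun x : E × E => (fderiv ℝ (fun y => k y x.2) x.1).smulRight (s x.2))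
      (Om ×ˢ Om) := by
    have h1 : ContinuousOn (fderiv ℝ (fun x : E × E => k x.1 x.2)) (Om ×ˢ Om) :=
      (ContDiffOn.fderiv_of_isOpen (m := ∞) hk.smo isOpen_OO (by simp)).continuousOn
    have h2 : ContinuousOn (fun x : E × E =>
        (fderiv ℝ (fun x : E × E => k x.1 x.2) x).comp (ContinuousLinearMap.inl ℝ E E))
        (Om ×ˢ Om) := h1.clm_comp continuousOn_const
    have h3 : ContinuousOn (fun x : E × E => fderiv ℝ (fun y => k y x.2) x.1) (Om ×ˢ Om) :=
      h2.congr fun x hx => fderiv_left hk.smo hx.1 hx.2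
    have h4 : ContinuousOn (fun x : E × E => s x.2) (Om ×ˢ Om) :=
      hc.comp continuousOn_snd fun x hx => hx.2
    exact ((ContinuousLinearMap.smulRightL ℝ E F).continuous.comp_continuousOn h3).clm_apply h4
  obtain ⟨K', h4, h5, h6⟩ := hk.fr _ hK hb
  obtain ⟨C, hC⟩ := (hK.prod h4).exists_bound_of_continuousOn
    (hD.mono (Set.prod_mono hb h5))
  have hball : Metric.ball p r ⊆ Om := Metric.ball_subset_closedBall.trans hb
  -- the derivative vanishes outside `K'`
  have hz : ∀ x ∈ Metric.ball p r, ∀ q ∈ Om, q ∉ K' → fderiv ℝ (fun y => k y q) x = 0 := by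
    intro x hx q hq hn
    have h7 : (fun y => k y q) =ᶠ[𝓝 x] fun _ => 0 := by
      filter_upwards [Metric.isOpen_ball.mem_nhds hx] with y hy
      exact h6 y (Metric.ball_subset_closedBall hy) q hq hn
    rw [h7.fderiv_eq]
    simp
  have key := hasFDerivAt_integral_of_dominated_of_fderiv_le (𝕜 := ℝ) (μ := V.mu)
    (F := fun x q => k x q • s q)
    (F' := fun x q => (fderiv ℝ (fun y => k y q) x).smulRight (s q))
    (x₀ := p) (s := Metric.ball p r) (bound := K'.indicator fun _ => C)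
    (Metric.ball_mem_nhds p hr) ?_ ?_ ?_ ?_ ?_ ?_
  · exact key
  · filter_upwards [Metric.ball_mem_nhds p hr] with x hx
    exact (hk.integrable V hc (hball hx)).aestronglyMeasurable
  · exact hk.integrable V hc hp
  · refine aesm V.toEll ?_
    have h8 : ContinuousOn (fun q : E => ((p, q) : E × E)) Om :=
      (Continuous.prodMk_right p).continuousOn
    exact hD.comp h8 fun q hq => ⟨hp, hq⟩
  · refine ae_mu V.toEll fun q hq x hx => ?_
    by_cases hqK : q ∈ K'
    · rw [Set.indicator_of_mem hqK]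
      exact hC (x, q) ⟨Metric.ball_subset_closedBall hx, hqK⟩
    · rw [hz x hx q hq hqK, Set.indicator_of_notMem hqK]
      simp
  · rw [integrable_indicator_iff h4.measurableSet]
    exact integrableOn_const (mu_lt_top V.toEll h4 h5).ne
  · refine ae_mu V.toEll fun q hq x hx => ?_
    have h9 := ((hk.smo.left hq).diff (hball hx)).hasFDerivAt
    exact h9.smul_const (s q)

private theorem LF.dr_Ko [CompleteSpace F] (hk : LF k) {s : E → F} (hc : ContinuousOn s Om)
    {p : E} (hp : p ∈ Om) (i : Fin 4) :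
    LN.dr i (Ko V k s) p = Ko V (fun x q => LN.dr i (fun y => k y q) x) s p := by
  have hD : ContinuousOn (fun q => (fderiv ℝ (fun y => k y q) p).smulRight (s q)) Om := by
    have h1 : ContinuousOn (fderiv ℝ (fun x : E × E => k x.1 x.2)) (Om ×ˢ Om) :=
      (ContDiffOn.fderiv_of_isOpen (m := ∞) hk.smo isOpen_OO (by simp)).continuousOn
    have h8 : ContinuousOn (fun q : E => ((p, q) : E × E)) Om :=
      (Continuous.prodMk_right p).continuousOn
    have h2 : ContinuousOn (fun q : E => (fderiv ℝ (fun x : E × E => k x.1 x.2) (p, q)).comp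
        (ContinuousLinearMap.inl ℝ E E)) Om :=
      (h1.comp h8 fun q hq => ⟨hp, hq⟩).clm_comp continuousOn_const
    have h3 : ContinuousOn (fun q : E => fderiv ℝ (fun y => k y q) p) Om :=
      h2.congr fun q hq => fderiv_left hk.smo hp hq
    exact ((ContinuousLinearMap.smulRightL ℝ E F).continuous.comp_continuousOn h3).clm_apply hc
  have hcs : CS (fun q => (fderiv ℝ (fun y => k y q) p).smulRight (s q)) := by
    obtain ⟨K1, h1, h2, h3⟩ := exists_nhd (isCompact_singleton (x := p)) (by simpa using hp)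
    obtain ⟨K', h4, h5, h6⟩ := hk.fr K1 h1 h2
    refine ⟨K', h4, h5, fun q hq hn => ?_⟩
    have h7 : (fun y => k y q) =ᶠ[𝓝 p] fun _ => 0 := by
      filter_upwards [isOpen_interior.mem_nhds (h3 rfl)] with x hx
      exact h6 x (interior_subset hx) q hq hn
    show (fderiv ℝ (fun y => k y q) p).smulRight (s q) = 0
    rw [h7.fderiv_eq]
    simp
  have hI := integrable_cs V.toEll hD hcs
  unfold LN.dr
  rw [(hk.hasFDeriv V hc hp).fderiv, ContinuousLinearMap.integral_apply hI]
  rfl

private theorem LF.Ko_contDiff [CompleteSpace F] {s : E → F} (hc : ContinuousOn s Om) (n : ℕ) :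
    ∀ {k : E → E → ℝ}, LF k → ContDiffOn ℝ n (Ko V k s) Om := by
  induction n with
  | zero =>
    intro k hk
    rw [Nat.cast_zero, contDiffOn_zero]
    exact fun p hp => (hk.hasFDeriv V hc hp).continuousAt.continuousWithinAt
  | succ n ih =>
    intro k hk
    rw [Nat.cast_succ, contDiffOn_succ_iff_fderiv_of_isOpen isOpen_Om]
    refine ⟨fun p hp => (hk.hasFDeriv V hc hp).differentiableAt.differentiableWithinAt,
      fun h => absurd h (by simp), ?_⟩
    rw [contDiffOn_clm_apply]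
    intro y
    have h1 : ContDiffOn ℝ n (fun p => ∑ i, co y i •
        Ko V (fun x q => LN.dr i (fun y => k y q) x) s p) Om :=
      ContDiffOn.sum fun i _ => (ih (hk.dr i)).const_smul (co y i)
    refine h1.congr fun p hp => ?_
    rw [fderiv_eq]
    exact Finset.sum_congr rfl fun i _ => by rw [hk.dr_Ko V hc hp i]

theorem Ko_smo [CompleteSpace F] (hk : Ker V k) (hs : SmoK k) {s : E → F}
    (hc : ContinuousOn s Om) : Smo (Ko V k s) :=
  contDiffOn_infty.2 fun n => LF.Ko_contDiff V hc n (LF.of V hk hs)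

theorem L_Ko [CompleteSpace F] (hk : Ker V k) (hs : SmoK k) {s : E → F}
    (hc : ContinuousOn s Om) {p : E} (hp : p ∈ Om) :
    V.L (Ko V k s) p = Ko V (fun x q => V.L (fun y => k y q) x) s p := by
  have h0 := LF.of V hk hs
  have h1 : ∀ j, LF (fun p q => LN.dr j (fun x => k x q) p) := fun j => h0.dr j
  have h2 : ∀ i j, LF (fun p q => LN.dr i (fun x => LN.dr j (fun y => k y q) x) p) :=
    fun i j => (h1 j).dr i
  have e1 : ∀ j, LN.dr j (Ko V k s) p = Ko V (fun x q => LN.dr j (fun y => k y q) x) s p :=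
    fun j => h0.dr_Ko V hc hp j
  have e2 : ∀ i j, LN.dr i (LN.dr j (Ko V k s)) p =
      Ko V (fun x q => LN.dr i (fun z => LN.dr j (fun y => k y q) z) x) s p := by
    intro i j
    rw [dr_congr (v := Ko V (fun x q => LN.dr j (fun y => k y q) x) s)
      (fun x hx => h0.dr_Ko V hc hx j) hp i]
    exact (h1 j).dr_Ko V hc hp i
  show ∑ i, ∑ j, V.a i j p • LN.dr i (LN.dr j (Ko V k s)) p +
    ∑ j, V.b j p • LN.dr j (Ko V k s) p = _
  simp_rw [e1, e2]
  have hR : Ko V (fun x q => V.L (fun y => k y q) x) s p =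
      ∫ q, (∑ i, ∑ j, V.a i j p • (LN.dr i (fun z => LN.dr j (fun y => k y q) z) p • s q) +
        ∑ j, V.b j p • (LN.dr j (fun y => k y q) p • s q)) ∂V.mu := by
    unfold Ko
    refine integral_congr_ae (Eventually.of_forall fun q => ?_)
    show V.L (fun y => k y q) p • s q = _
    unfold Ell.L
    simp only [add_smul, Finset.sum_smul, smul_assoc]
  have i1 : ∀ i j, Integrable (fun q => V.a i j p •
      (LN.dr i (fun z => LN.dr j (fun y => k y q) z) p • s q)) V.mu :=
    fun i j => ((h2 i j).integrable V hc hp).smul (V.a i j p)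
  have i2 : ∀ j, Integrable (fun q => V.b j p • (LN.dr j (fun y => k y q) p • s q)) V.mu :=
    fun j => ((h1 j).integrable V hc hp).smul (V.b j p)
  rw [hR, integral_add (integrable_finset_sum _ fun i _ => integrable_finset_sum _ fun j _ => i1 i j)
    (integrable_finset_sum _ fun j _ => i2 j),
    integral_finset_sum _ fun i _ => integrable_finset_sum _ fun j _ => i1 i j,
    integral_finset_sum _ fun j _ => i2 j]
  congr 1
  · refine Finset.sum_congr rfl fun i _ => ?_
    rw [integral_finset_sum _ fun j _ => i1 i j]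
    refine Finset.sum_congr rfl fun j _ => ?_
    rw [integral_smul]
    rfl
  · refine Finset.sum_congr rfl fun j _ => ?_
    rw [integral_smul]
    rfl

/-- the mass of a smooth kernel is smooth -/
theorem mk_smo (hk : Ker V k) (hs : SmoK k) : Smo (mk V k) := by
  refine (Ko_smo V hk hs (s := fun _ => (1 : ℝ)) continuousOn_const).congr fun p hp => ?_
  simp [Ko, mk]

/-- the cutoff kernels -/
theorem kk_ker (R : ℝ) : Ker V (kk V R) ∧ SmoK (kk V R) := by
  have h1 : SmoK (kk V R) := by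
    have h2 : ContDiffOn ℝ ∞ (fun x : E × E => R + 1 - V.Y x.1 x.2) (Om ×ˢ Om) :=
      contDiffOn_const.sub V.Y_smo
    exact Real.smoothTransition.contDiff.comp_contDiffOn h2
  refine ⟨⟨h1.continuousOn, fun g p hp q hq => ?_, R + 1, fun p hp q hq h => ?_⟩, h1⟩
  · unfold kk
    rw [V.Y_inv g p hp q hq]
  · unfold kk
    exact Real.smoothTransition.zero_of_nonpos (by linarith)

theorem kk_prop {R : ℝ} (hR : 0 ≤ R) {p q : E} (hp : p ∈ Om) (hq : q ∈ Om) :
    kk V R p q = kk V R q p ∧ 0 ≤ kk V R p q ∧ kk V R p q ≤ 1 ∧ (V.Y p q ≤ R → kk V R p q = 1) ∧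
      (R + 1 ≤ V.Y p q → kk V R p q = 0) := by
  unfold kk
  refine ⟨by rw [V.Y_symm p hp q hq], Real.smoothTransition.nonneg _,
    Real.smoothTransition.le_one _, fun h => Real.smoothTransition.one_of_one_le (by linarith),
    fun h => Real.smoothTransition.zero_of_nonpos (by linarith)⟩

/-- lower and upper bound of the mass -/
theorem kk_mass {R : ℝ} (hR : 1 ≤ R) : ∃ a b : ℝ, 0 < a ∧ ∀ p ∈ Om, a ≤ mk V (kk V R) p ∧
    mk V (kk V R) p ≤ b := by
  obtain ⟨hk, hs⟩ := kk_ker V R
  have hR0 : 0 ≤ R := by linarith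
  have hcont := mk_cont V hk
  have hinv : ∀ g, ∀ p ∈ Om, mk V (kk V R) (V.act g p) = mk V (kk V R) p :=
    fun g p hp => mk_inv V hk g hp
  have hpos : ∀ p ∈ Om, 0 < mk V (kk V R) p := by
    intro p hp
    have hn : ∀ q ∈ Om, 0 ≤ kk V R p q := fun q hq => (kk_prop V hR0 hp hq).2.1
    have h0 : 0 ≤ mk V (kk V R) p := integral_nonneg_of_ae (ae_mu V.toEll hn)
    refine lt_of_le_of_ne h0 fun h => ?_
    have hcs : CS (kk V R p) := by
      obtain ⟨K', h1, h2, h3⟩ := hk.fr V (isCompact_singleton (x := p)) (by simpa using hp)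
      exact ⟨K', h1, h2, fun q hq hn => (h3 p rfl q hq hn).1⟩
    have h4 := eq_zero_of_int V.toEll (hs.right hp).cont hcs hn h.symm p hp
    have h5 := (kk_prop V hR0 hp hp).2.2.2.1 (by rw [V.Y_diag p hp]; exact hR)
    rw [h4] at h5
    exact zero_ne_one h5
  obtain ⟨a, ha, h1⟩ := inv_low V hcont hinv hpos
  obtain ⟨b, hb, h2⟩ := inv_bd V hcont hinv
  exact ⟨a, b, ha, fun p hp => ⟨h1 p hp, (le_abs_self _).trans (h2 p hp)⟩⟩

end Pool.Agent.MPd01a95.LN
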