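import Mathlib
import Pool.Agent.Lib.MP_d01a95_gt_L.LDefs
import Pool.Agent.Lib.MP_d01a95_gt_L.LBas
import Pool.Agent.Lib.MP_d01a95_gt_L.LCs
import Pool.Agent.Lib.MP_d01a95_gt_L.LAlg
import Pool.Agent.Lib.MP_d01a95_gt_L.LGrn
import Pool.Agent.Lib.MP_d01a95_gt_L.LInv
import Pool.Agent.Lib.MP_d01a95_gt_L.LUnf
import Pool.Agent.Lib.MP_d01a95_gt_L.LBf
import Pool.Agent.Lib.MP_d01a95_gt_L.LChi
import Pool.Agent.Lib.MP_d01a95_gt_L.LGq
import Pool.Agent.Lib.MP_d01a95_gt_L.LKer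
import Pool.Agent.Lib.MP_d01a95_gt_L.LSmk

/-!
# Module Sg: spectral gap for functions on the domain
-/

set_option autoImplicit false
set_option linter.all false

open MeasureTheory Filter Topology
open scoped ContDiff InnerProductSpace ENNReal

namespace Pool.Agent.MPd01a95.LN

variable {G : Type} [Group G] (V : VG G)

/-- inner product of real numbers -/
private theorem inner_mul' (x y : ℝ) : ⟪x, y⟫_ℝ = x * y := by
  simp [mul_comm]

private theorem smo_mul {u v : E → ℝ} (hu : Smo u) (hv : Smo v) : Smo (fun p => u p * v p) := by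
  simpa only [smul_eq_mul] using hu.smul hv

/-- support of the carre du champ -/
private theorem gam_cs' (W : Ell) {s t : E → ℝ} (hc : CS t) : CS (W.Gam s t) := by
  have : CS (fun p => ∑ i, ∑ j, W.a i j p • ⟪dr i s p, dr j t p⟫_ℝ) := by
    refine CS.sum Finset.univ (u := fun i p => ∑ j, W.a i j p • ⟪dr i s p, dr j t p⟫_ℝ)
      fun i _ => CS.sum Finset.univ (u := fun j p => W.a i j p • ⟪dr i s p, dr j t p⟫_ℝ)
      fun j _ => ?_
    exact CS.of_imp (hc.dr j) fun p _ h => by simp only [h, inner_zero_right, smul_zero]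
  exact this

/-- Leibniz rule for the square -/
private theorem gam_sq (W : Ell) {s f : E → ℝ} (hs : Smo s) (hf : Smo f) {p : E} (hp : p ∈ Om) :
    W.Gam s (fun q => f q * f q) p = 2 * (f p * W.Gam s f p) := by
  unfold Ell.Gam
  rw [Finset.mul_sum, Finset.mul_sum]
  refine Finset.sum_congr rfl fun i _ => ?_
  rw [Finset.mul_sum, Finset.mul_sum]
  refine Finset.sum_congr rfl fun j _ => ?_
  have h1 : dr j (fun q => f q * f q) p = dr j f p • f p + f p • dr j f p := by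
    have := dr_smul hf hf hp j
    simpa only [smul_eq_mul] using this
  rw [h1]
  simp only [inner_mul', smul_eq_mul]
  ring

/-- gap for the gradient -/
theorem gap_grad : ∃ C : ℝ, 0 < C ∧ ∀ f : E → ℝ, Smo f → CS f →
    ∫ p, f p ^ 2 ∂V.mu ≤ C * ∫ p, V.Gam f f p ∂V.mu := by
  obtain ⟨C0, hC0⟩ := V.phi_G
  have hC0' : 0 < |C0| + 1 := by positivity
  refine ⟨4 * (|C0| + 1), by positivity, fun f hf hc => ?_⟩
  set C1 : ℝ := |C0| + 1 with hC1
  have hff : Smo (fun p => f p * f p) := smo_mul hf hf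
  have hffc : CS (fun p => f p * f p) := CS.of_imp hc fun p _ h => by rw [h, mul_zero]
  have hLs : Smo (V.L V.phi) := L_smo V.toEll V.phi_smo
  -- integrability
  have I1 : Integrable (fun p => f p ^ 2) V.mu := by
    refine integrable_cs V.toEll (hf.cont.pow 2) (CS.of_imp hc fun p _ h => by rw [h]; simp)
  have I2 : Integrable (fun p => V.L V.phi p * (f p * f p)) V.mu := by
    refine integrable_cs V.toEll (hLs.cont.mul hff.cont)
      (CS.of_imp hffc fun p _ h => by rw [h, mul_zero])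
  have I3 : Integrable (fun p => V.Gam f f p) V.mu :=
    integrable_cs V.toEll (Gam_smo V.toEll hf hf).cont (gam_cs' V.toEll hc)
  have I4 : Integrable (fun p => V.Gam V.phi (fun q => f q * f q) p) V.mu :=
    integrable_cs V.toEll (Gam_smo V.toEll V.phi_smo hff).cont (gam_cs' V.toEll hffc)
  -- first step
  have h1 : ∫ p, f p ^ 2 ∂V.mu ≤ ∫ p, V.L V.phi p * (f p * f p) ∂V.mu := by
    refine integral_mono_ae I1 I2 (ae_mu V.toEll fun p hp => ?_)
    have := V.phi_L p hp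
    have h0 : 0 ≤ f p * f p := mul_self_nonneg _
    show f p ^ 2 ≤ V.L V.phi p * (f p * f p)
    nlinarith
  have h2 : ∫ p, V.L V.phi p * (f p * f p) ∂V.mu =
      - ∫ p, V.Gam V.phi (fun q => f q * f q) p ∂V.mu := by
    have := green V.toEll V.phi_smo hff hffc
    simpa only [inner_mul'] using this
  have h3 : - ∫ p, V.Gam V.phi (fun q => f q * f q) p ∂V.mu ≤
      ∫ p, (f p ^ 2 / 2 + 2 * C1 * V.Gam f f p) ∂V.mu := by
    rw [← integral_neg]
    refine integral_mono_ae I4.neg ((I1.div_const 2).add (I3.const_mul (2 * C1)))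
      (ae_mu V.toEll fun p hp => ?_)
    show -(V.Gam V.phi (fun q => f q * f q) p) ≤ f p ^ 2 / 2 + 2 * C1 * V.Gam f f p
    rw [gam_sq V.toEll V.phi_smo hf hp]
    have e1 := Gam_cs V.toEll V.phi f hp
    have e2 := hC0 p hp
    have e3 := Gam_nonneg V.toEll f hp
    have e4 : V.Gam V.phi f p ^ 2 ≤ C1 * V.Gam f f p := by
      refine e1.trans (mul_le_mul_of_nonneg_right ?_ e3)
      have := le_abs_self C0
      linarith
    nlinarith [sq_nonneg (f p + 2 * V.Gam V.phi f p)]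
  have h4 : ∫ p, (f p ^ 2 / 2 + 2 * C1 * V.Gam f f p) ∂V.mu =
      (∫ p, f p ^ 2 ∂V.mu) / 2 + 2 * C1 * ∫ p, V.Gam f f p ∂V.mu := by
    rw [integral_add (I1.div_const 2) (I3.const_mul (2 * C1)), integral_div, integral_const_mul]
  linarith

/-- gap for the operator -/
theorem gap_L : ∃ C : ℝ, 0 < C ∧ ∀ f : E → ℝ, Smo f → CS f →
    ∫ p, f p ^ 2 ∂V.mu ≤ C * ∫ p, V.L f p ^ 2 ∂V.mu := by
  obtain ⟨C, hC, h⟩ := gap_grad V
  refine ⟨C ^ 2, by positivity, fun f hf hc => ?_⟩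
  have h0 := h f hf hc
  have hLs : Smo (V.L f) := L_smo V.toEll hf
  have hLc : CS (V.L f) := L_cs V.toEll hc
  have I1 : Integrable (fun p => f p ^ 2) V.mu := by
    refine integrable_cs V.toEll (hf.cont.pow 2) (CS.of_imp hc fun p _ h => by rw [h]; simp)
  have I2 : Integrable (fun p => V.L f p ^ 2) V.mu := by
    refine integrable_cs V.toEll (hLs.cont.pow 2) (CS.of_imp hLc fun p _ h => by rw [h]; simp)
  have I3 : Integrable (fun p => f p * V.L f p) V.mu := by
    refine integrable_cs V.toEll (hf.cont.mul hLs.cont)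
      (CS.of_imp hc fun p _ h => by rw [h, zero_mul])
  have h1 : ∫ p, f p * V.L f p ∂V.mu = - ∫ p, V.Gam f f p ∂V.mu := by
    have := green' V.toEll hf hf hc
    simpa only [inner_mul'] using this
  have h2 : - ∫ p, f p * V.L f p ∂V.mu ≤
      ∫ p, (1 / (2 * C) * f p ^ 2 + C / 2 * V.L f p ^ 2) ∂V.mu := by
    rw [← integral_neg]
    refine integral_mono I3.neg ((I1.const_mul (1 / (2 * C))).add (I2.const_mul (C / 2)))
      fun p => ?_
    show -(f p * V.L f p) ≤ 1 / (2 * C) * f p ^ 2 + C / 2 * V.L f p ^ 2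
    have e : 0 ≤ 1 / (2 * C) * (f p + C * V.L f p) ^ 2 := by positivity
    have e' : 1 / (2 * C) * (f p + C * V.L f p) ^ 2 =
        1 / (2 * C) * f p ^ 2 + f p * V.L f p + C / 2 * V.L f p ^ 2 := by
      field_simp
      ring
    linarith
  have h3 : ∫ p, (1 / (2 * C) * f p ^ 2 + C / 2 * V.L f p ^ 2) ∂V.mu =
      1 / (2 * C) * ∫ p, f p ^ 2 ∂V.mu + C / 2 * ∫ p, V.L f p ^ 2 ∂V.mu := by
    rw [integral_add (I1.const_mul (1 / (2 * C))) (I2.const_mul (C / 2)), integral_const_mul,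
      integral_const_mul]
  have h4 : ∫ p, V.Gam f f p ∂V.mu ≤
      1 / (2 * C) * ∫ p, f p ^ 2 ∂V.mu + C / 2 * ∫ p, V.L f p ^ 2 ∂V.mu := by
    rw [← h3]
    linarith
  have h5 : C * ∫ p, V.Gam f f p ∂V.mu ≤
      C * (1 / (2 * C) * ∫ p, f p ^ 2 ∂V.mu + C / 2 * ∫ p, V.L f p ^ 2 ∂V.mu) :=
    mul_le_mul_of_nonneg_left h4 hC.le
  have h6 : C * (1 / (2 * C) * ∫ p, f p ^ 2 ∂V.mu + C / 2 * ∫ p, V.L f p ^ 2 ∂V.mu) =
      (∫ p, f p ^ 2 ∂V.mu) / 2 + C ^ 2 / 2 * ∫ p, V.L f p ^ 2 ∂V.mu := by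
    field_simp
  linarith

/-- Cauchy and Schwarz with a weight -/
private theorem cs_int {m : Measure E} {w d : E → ℝ} (hw : ∀ᵐ q ∂m, 0 ≤ w q)
    (I0 : Integrable w m) (I1 : Integrable (fun q => w q * d q) m)
    (I2 : Integrable (fun q => w q * d q ^ 2) m) :
    (∫ q, w q * d q ∂m) ^ 2 ≤ (∫ q, w q ∂m) * ∫ q, w q * d q ^ 2 ∂m := by
  have key : ∀ r : ℝ, 0 ≤ (∫ q, w q ∂m) * (r * r) + (2 * ∫ q, w q * d q ∂m) * r +
      ∫ q, w q * d q ^ 2 ∂m := by
    intro r
    have e : ∫ q, w q * (r + d q) ^ 2 ∂m = (∫ q, w q ∂m) * (r * r) +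
        (2 * ∫ q, w q * d q ∂m) * r + ∫ q, w q * d q ^ 2 ∂m := by
      have e1 : ∀ q, w q * (r + d q) ^ 2 =
          (w q * (r * r) + (w q * d q) * (2 * r)) + w q * d q ^ 2 := fun q => by ring
      simp_rw [e1]
      have J : Integrable (fun q => w q * (r * r) + (w q * d q) * (2 * r)) m :=
        (I0.mul_const (r * r)).add (I1.mul_const (2 * r))
      rw [integral_add J I2,
        integral_add (I0.mul_const (r * r)) (I1.mul_const (2 * r)), integral_mul_const,
        integral_mul_const]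
      ring
    rw [← e]
    refine integral_nonneg_of_ae (hw.mono fun q hq => ?_)
    show 0 ≤ w q * (r + d q) ^ 2
    positivity
  have := discrim_le_zero key
  unfold discrim at this
  nlinarith [this]

/-- the operator only depends on the germ -/
private theorem dr_germ' {F : Type*} [NormedAddCommGroup F] [NormedSpace ℝ F] {u v : E → F}
    {p : E} (e : u =ᶠ[𝓝 p] v) (i : Fin 4) : dr i u =ᶠ[𝓝 p] dr i v := by
  have h := e.fderiv (𝕜 := ℝ)
  filter_upwards [h] with q hq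
  unfold dr
  rw [hq]

private theorem L_germ (W : Ell) {u v : E → ℝ} {p : E} (e : u =ᶠ[𝓝 p] v) :
    W.L u p = W.L v p := by
  unfold Ell.L
  have h1 : ∀ j, dr j u p = dr j v p := fun j => (dr_germ' e j).self_of_nhds
  have h2 : ∀ i j, dr i (dr j u) p = dr i (dr j v) p := fun i j =>
    (dr_germ' (dr_germ' e j) i).self_of_nhds
  simp only [h1, h2]

/-- gap for the kernel `kk V 2` -/
theorem gap_ker : ∃ c : ℝ, 0 < c ∧ ∀ f : E → ℝ, ContinuousOn f Om → CS f →
    c * ∫ p, f p ^ 2 ∂V.mu ≤ ∫ p, ∫ q, kk V 2 p q * (f p - f q) ^ 2 ∂V.mu ∂V.mu := by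
  obtain ⟨C, hC, hgap⟩ := gap_L V
  obtain ⟨hk1, hs1⟩ := kk_ker V 1
  obtain ⟨hk2, hs2⟩ := kk_ker V 2
  obtain ⟨a, b, ha, hab⟩ := kk_mass V (R := 1) le_rfl
  obtain ⟨a2, b2, ha2, hab2⟩ := kk_mass V (R := 2) (by norm_num)
  set m1 : E → ℝ := mk V (kk V 1) with hm1
  have hm1s : Smo m1 := mk_smo V hk1 hs1
  have hm1p : ∀ p ∈ Om, 0 < m1 p := fun p hp => ha.trans_le (hab p hp).1
  set j : E → E → ℝ := fun p q => (m1 p)⁻¹ * kk V 1 p q with hj
  have hinvs : Smo (fun p => (m1 p)⁻¹) := hm1s.inv fun p hp => (hm1p p hp).ne'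
  have hjs : SmoK j := by
    have h1 : ContDiffOn ℝ ∞ (fun x : E × E => (m1 x.1)⁻¹) (Om ×ˢ Om) :=
      ContDiffOn.comp (g := fun p => (m1 p)⁻¹) hinvs contDiffOn_fst (fun x hx => hx.1)
    exact h1.mul hs1
  have hjk : Ker V j := by
    refine ⟨hjs.continuousOn, ?_, ?_⟩
    · intro g p hp q hq
      simp only [hj]
      rw [hk1.inv g p hp q hq, hm1, mk_inv V hk1 g hp]
    · obtain ⟨R, hR⟩ := hk1.ran
      refine ⟨R, fun p hp q hq h => ?_⟩
      simp only [hj]
      rw [hR p hp q hq h, mul_zero]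
  set l : E → E → ℝ := fun p q => V.L (fun x => j x q) p with hl
  have hlk : Ker V l := Ker_L V hjk hjs
  obtain ⟨C1, hC1, hlb⟩ := hlk.bd
  -- elementary facts on the cutoff kernels
  have hkk12 : ∀ p ∈ Om, ∀ q ∈ Om, kk V 1 p q ≤ kk V 2 p q := by
    intro p hp q hq
    obtain ⟨_, x1, x2, x3, x4⟩ := kk_prop V (R := 1) (by norm_num) hp hq
    obtain ⟨_, y1, y2, y3, y4⟩ := kk_prop V (R := 2) (by norm_num) hp hq
    rcases le_total (V.Y p q) 2 with h | h
    · rw [y3 h]; exact x2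
    · rw [x4 (by linarith)]; exact y1
  have hlk2 : ∀ p ∈ Om, ∀ q ∈ Om, |l p q| ≤ C1 * kk V 2 p q := by
    intro p hp q hq
    obtain ⟨_, y1, y2, y3, y4⟩ := kk_prop V (R := 2) (by norm_num) hp hq
    rcases le_or_gt (V.Y p q) 2 with h | h
    · rw [y3 h, mul_one]; exact hlb p hp q hq
    · have hcont : ContinuousAt (fun x : E => V.Y x q) p := by
        have h1 : ContinuousOn (fun x : E × E => V.Y x.1 x.2) (Om ×ˢ Om) := V.Y_smo.continuousOn
        have h2 : ContinuousAt (fun x : E × E => V.Y x.1 x.2) (p, q) :=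
          h1.continuousAt ((isOpen_Om.prod isOpen_Om).mem_nhds ⟨hp, hq⟩)
        exact ContinuousAt.comp (g := fun x : E × E => V.Y x.1 x.2) (f := fun x : E => (x, q)) h2
          (by fun_prop)
      have hev : (fun x => j x q) =ᶠ[𝓝 p] fun _ => (0 : ℝ) := by
        filter_upwards [hcont.eventually (lt_mem_nhds h), isOpen_Om.mem_nhds hp] with x hx hxO
        obtain ⟨_, _, _, _, x4⟩ := kk_prop V (R := 1) (by norm_num) hxO hq
        simp only [hj]
        rw [x4 (by linarith), mul_zero]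
      have h0 : l p q = 0 := by
        simp only [hl]
        rw [L_germ V.toEll hev, L_const V.toEll (0 : ℝ) hp]
      rw [h0, abs_zero]
      exact mul_nonneg hC1.le y1
  -- the integral of `l` vanishes
  have hone : ContinuousOn (fun _ : E => (1 : ℝ)) Om := continuousOn_const
  have hj1 : ∀ p ∈ Om, ∫ q, j p q ∂V.mu = 1 := by
    intro p hp
    simp only [hj]
    rw [integral_const_mul]
    exact inv_mul_cancel₀ (hm1p p hp).ne'
  have hl0 : ∀ p ∈ Om, ∫ q, l p q ∂V.mu = 0 := by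
    intro p hp
    have e1 := L_Ko V hjk hjs (s := fun _ : E => (1 : ℝ)) hone hp
    have e2 : V.L (Ko V j (fun _ : E => (1 : ℝ))) p = V.L (fun _ => (1 : ℝ)) p := by
      refine L_congr V.toEll (fun x hx => ?_) hp
      unfold Ko
      simp only [smul_eq_mul, mul_one]
      exact hj1 x hx
    rw [e2, L_const V.toEll (1 : ℝ) hp] at e1
    have e3 : Ko V (fun x q => V.L (fun y => j y q) x) (fun _ : E => (1 : ℝ)) p =
        ∫ q, l p q ∂V.mu := by
      unfold Ko
      simp only [smul_eq_mul, mul_one, hl]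
    rw [← e3, ← e1]
  have haa : 0 < a⁻¹ := inv_pos.2 ha
  have hb2 : 0 ≤ b2 := by
    obtain ⟨p, hp⟩ := nonempty_Om
    exact (ha2.trans_le ((hab2 p hp).1.trans (hab2 p hp).2)).le
  set C2 : ℝ := 2 * (C * (C1 ^ 2 * b2)) + 2 * a⁻¹ with hC2
  have hC2p : 0 < C2 := by positivity
  refine ⟨C2⁻¹, inv_pos.2 hC2p, fun f hf hc => ?_⟩
  set D : E → ℝ := fun p => ∫ q, kk V 2 p q * (f p - f q) ^ 2 ∂V.mu with hD
  set F : E → ℝ := Ko V j f with hF
  have hFs : Smo F := Ko_smo V hjk hjs hf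
  have hFc : CS F := Ko_cs V hjk hc
  -- integrability in the second variable
  have J2 : ∀ (k : E → E → ℝ), Ker V k → ∀ (s : E → ℝ), ContinuousOn s Om → ∀ p ∈ Om,
      Integrable (fun q => k p q * s q) V.mu := by
    intro k hk s hs p hp
    simpa only [smul_eq_mul] using hk.integrable V hs hp
  have hf2 : ContinuousOn (fun q => f q ^ 2) Om := hf.pow 2
  -- `D` is continuous with compact support
  have hDe : ∀ p ∈ Om, D p = mk V (kk V 2) p * f p ^ 2 - 2 * (f p * Ko V (kk V 2) f p) +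
      Ko V (kk V 2) (fun q => f q ^ 2) p := by
    intro p hp
    have i1 := J2 _ hk2 (fun _ => (1 : ℝ)) hone p hp
    have i2 := J2 _ hk2 f hf p hp
    have i3 := J2 _ hk2 (fun q => f q ^ 2) hf2 p hp
    simp only [mul_one] at i1
    simp only [hD]
    have e1 : ∀ q, kk V 2 p q * (f p - f q) ^ 2 = (kk V 2 p q * f p ^ 2 -
        (kk V 2 p q * f q) * (2 * f p)) + kk V 2 p q * f q ^ 2 := fun q => by ring
    simp_rw [e1]
    have J : Integrable (fun q => kk V 2 p q * f p ^ 2 - (kk V 2 p q * f q) * (2 * f p))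
        V.mu := (i1.mul_const (f p ^ 2)).sub (i2.mul_const (2 * f p))
    rw [integral_add J i3,
      integral_sub (i1.mul_const (f p ^ 2)) (i2.mul_const (2 * f p)), integral_mul_const,
      integral_mul_const]
    unfold mk Ko
    simp only [smul_eq_mul]
    ring
  have ID : Integrable D V.mu := by
    have hcon : ContinuousOn (fun p => mk V (kk V 2) p * f p ^ 2 -
        2 * (f p * Ko V (kk V 2) f p) + Ko V (kk V 2) (fun q => f q ^ 2) p) Om :=
      (((mk_cont V hk2).mul hf2).sub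
        (continuousOn_const.mul (hf.mul (Ko_cont V hk2 hf)))).add (Ko_cont V hk2 hf2)
    have hsu : CS (fun p => (mk V (kk V 2) p * f p ^ 2 -
        2 * (f p * Ko V (kk V 2) f p)) + Ko V (kk V 2) (fun q => f q ^ 2) p) := by
      refine CS.add (u := fun p => mk V (kk V 2) p * f p ^ 2 -
        2 * (f p * Ko V (kk V 2) f p)) ?_ ?_
      · refine CS.of_imp hc fun p _ h => ?_
        rw [h]; ring
      · refine Ko_cs V hk2 (CS.of_imp hc fun p _ h => ?_)
        rw [h]; ring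
    refine (integrable_cs V.toEll hcon hsu).congr (ae_mu V.toEll fun p hp => ?_)
    exact (hDe p hp).symm
  -- pointwise bounds
  have hJ : ∀ p ∈ Om, ∀ k : E → E → ℝ, Ker V k →
      Integrable (fun q => k p q * (f q - f p)) V.mu := by
    intro p hp k hk
    exact J2 k hk (fun q => f q - f p) (hf.sub continuousOn_const) p hp
  have hJ2 : ∀ p ∈ Om, ∀ k : E → E → ℝ, Ker V k →
      Integrable (fun q => k p q * (f q - f p) ^ 2) V.mu := by
    intro p hp k hk
    exact J2 k hk (fun q => (f q - f p) ^ 2) ((hf.sub continuousOn_const).pow 2) p hp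
  have hJ1 : ∀ p ∈ Om, ∀ k : E → E → ℝ, Ker V k → Integrable (fun q => k p q) V.mu := by
    intro p hp k hk
    have := J2 k hk (fun _ => (1 : ℝ)) hone p hp
    simpa only [mul_one] using this
  have hDe2 : ∀ p, D p = ∫ q, kk V 2 p q * (f q - f p) ^ 2 ∂V.mu := by
    intro p
    simp only [hD]
    refine integral_congr_ae (Eventually.of_forall fun q => ?_)
    show kk V 2 p q * (f p - f q) ^ 2 = kk V 2 p q * (f q - f p) ^ 2
    ring
  have hD0 : ∀ p ∈ Om, 0 ≤ D p := by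
    intro p hp
    refine integral_nonneg_of_ae (ae_mu V.toEll fun q hq => ?_)
    exact mul_nonneg (kk_prop V (R := 2) (by norm_num) hp hq).2.1 (sq_nonneg _)
  have hLF : ∀ p ∈ Om, V.L F p ^ 2 ≤ C1 ^ 2 * b2 * D p := by
    intro p hp
    have e1 : V.L F p = ∫ q, l p q * (f q - f p) ∂V.mu := by
      have e := L_Ko V hjk hjs hf hp
      rw [hF, e]
      unfold Ko
      have e2 : ∫ q, l p q * (f q - f p) ∂V.mu =
          ∫ q, l p q * f q ∂V.mu - (∫ q, l p q ∂V.mu) * f p := by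
        rw [← integral_mul_const, ← integral_sub (J2 l hlk f hf p hp)
          ((hJ1 p hp l hlk).mul_const (f p))]
        refine integral_congr_ae (Eventually.of_forall fun q => ?_)
        show l p q * (f q - f p) = l p q * f q - l p q * f p
        ring
      rw [e2, hl0 p hp, zero_mul, sub_zero]
      simp only [smul_eq_mul, hl]
    have habs : ContinuousOn (fun q => |f q - f p|) Om := (hf.sub continuousOn_const).abs
    have i0 := hJ1 p hp _ hk2
    have i1 := J2 _ hk2 (fun q => |f q - f p|) habs p hp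
    have i2 : Integrable (fun q => kk V 2 p q * |f q - f p| ^ 2) V.mu :=
      J2 _ hk2 (fun q => |f q - f p| ^ 2) (habs.pow 2) p hp
    have e3 : |V.L F p| ≤ C1 * ∫ q, kk V 2 p q * |f q - f p| ∂V.mu := by
      rw [e1, ← integral_const_mul]
      refine (abs_integral_le_integral_abs).trans ?_
      refine integral_mono_ae (hJ p hp l hlk).abs (i1.const_mul C1) (ae_mu V.toEll fun q hq => ?_)
      show |l p q * (f q - f p)| ≤ C1 * (kk V 2 p q * |f q - f p|)
      rw [abs_mul, ← mul_assoc]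
      exact mul_le_mul_of_nonneg_right (hlk2 p hp q hq) (abs_nonneg _)
    have e4 := cs_int (m := V.mu) (w := fun q => kk V 2 p q) (d := fun q => |f q - f p|)
      (ae_mu V.toEll fun q hq => (kk_prop V (R := 2) (by norm_num) hp hq).2.1) i0 i1 i2
    have e5 : ∫ q, kk V 2 p q * |f q - f p| ^ 2 ∂V.mu = D p := by
      rw [hDe2]
      simp only [sq_abs]
    have e6 : ∫ q, kk V 2 p q ∂V.mu ≤ b2 := (hab2 p hp).2
    rw [e5] at e4
    have e7 : (∫ q, kk V 2 p q * |f q - f p| ∂V.mu) ^ 2 ≤ b2 * D p :=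
      e4.trans (mul_le_mul_of_nonneg_right e6 (hD0 p hp))
    have e8 : V.L F p ^ 2 ≤ (C1 * ∫ q, kk V 2 p q * |f q - f p| ∂V.mu) ^ 2 := by
      rw [← sq_abs (V.L F p)]
      exact pow_le_pow_left₀ (abs_nonneg _) e3 2
    calc V.L F p ^ 2 ≤ (C1 * ∫ q, kk V 2 p q * |f q - f p| ∂V.mu) ^ 2 := e8
      _ = C1 ^ 2 * (∫ q, kk V 2 p q * |f q - f p| ∂V.mu) ^ 2 := by ring
      _ ≤ C1 ^ 2 * (b2 * D p) := mul_le_mul_of_nonneg_left e7 (by positivity)
      _ = C1 ^ 2 * b2 * D p := by ring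
  have hFf : ∀ p ∈ Om, (F p - f p) ^ 2 ≤ a⁻¹ * D p := by
    intro p hp
    have e1 : F p - f p = ∫ q, j p q * (f q - f p) ∂V.mu := by
      have e2 : ∫ q, j p q * (f q - f p) ∂V.mu =
          ∫ q, j p q * f q ∂V.mu - (∫ q, j p q ∂V.mu) * f p := by
        rw [← integral_mul_const, ← integral_sub (J2 j hjk f hf p hp)
          ((hJ1 p hp j hjk).mul_const (f p))]
        refine integral_congr_ae (Eventually.of_forall fun q => ?_)
        show j p q * (f q - f p) = j p q * f q - j p q * f p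
        ring
      rw [e2, hj1 p hp, one_mul, hF]
      unfold Ko
      simp only [smul_eq_mul]
    have hj0 : ∀ q ∈ Om, 0 ≤ j p q := fun q hq =>
      mul_nonneg (inv_pos.2 (hm1p p hp)).le (kk_prop V (R := 1) (by norm_num) hp hq).2.1
    have e4 := cs_int (m := V.mu) (w := fun q => j p q) (d := fun q => f q - f p)
      (ae_mu V.toEll hj0) (hJ1 p hp j hjk) (hJ p hp j hjk) (hJ2 p hp j hjk)
    rw [hj1 p hp, one_mul] at e4
    have e5 : ∫ q, j p q * (f q - f p) ^ 2 ∂V.mu ≤ a⁻¹ * D p := by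
      rw [hDe2, ← integral_const_mul]
      refine integral_mono_ae (hJ2 p hp j hjk) ((hJ2 p hp _ hk2).const_mul a⁻¹)
        (ae_mu V.toEll fun q hq => ?_)
      show j p q * (f q - f p) ^ 2 ≤ a⁻¹ * (kk V 2 p q * (f q - f p) ^ 2)
      rw [← mul_assoc]
      refine mul_le_mul_of_nonneg_right ?_ (sq_nonneg _)
      have q1 : (m1 p)⁻¹ ≤ a⁻¹ := by
        rw [inv_le_inv₀ (hm1p p hp) ha]
        exact (hab p hp).1
      exact mul_le_mul q1 (hkk12 p hp q hq)
        (kk_prop V (R := 1) (by norm_num) hp hq).2.1 haa.le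
    rw [e1]
    exact e4.trans e5
  -- integration
  have IF : Integrable (fun p => F p ^ 2) V.mu :=
    integrable_cs V.toEll (hFs.cont.pow 2) (CS.of_imp hFc fun p _ h => by rw [h]; simp)
  have ILF : Integrable (fun p => V.L F p ^ 2) V.mu :=
    integrable_cs V.toEll ((L_smo V.toEll hFs).cont.pow 2)
      (CS.of_imp (L_cs V.toEll hFc) fun p _ h => by rw [h]; simp)
  have If : Integrable (fun p => f p ^ 2) V.mu :=
    integrable_cs V.toEll hf2 (CS.of_imp hc fun p _ h => by rw [h]; simp)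
  have hFm : CS (fun p => F p + (-1 : ℝ) • f p) :=
    CS.add hFc (CS.smul_right (f := fun _ => (-1 : ℝ)) hc)
  have IFf : Integrable (fun p => (F p - f p) ^ 2) V.mu := by
    refine integrable_cs V.toEll ((hFs.cont.sub hf).pow 2) (CS.of_imp hFm fun p _ h => ?_)
    have : F p - f p = 0 := by
      have h' : F p + (-1 : ℝ) * f p = 0 := h
      linarith
    rw [this]; simp
  have k1 : ∫ p, V.L F p ^ 2 ∂V.mu ≤ C1 ^ 2 * b2 * ∫ p, D p ∂V.mu := by
    rw [← integral_const_mul]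
    exact integral_mono_ae ILF (ID.const_mul _) (ae_mu V.toEll hLF)
  have k2 : ∫ p, (F p - f p) ^ 2 ∂V.mu ≤ a⁻¹ * ∫ p, D p ∂V.mu := by
    rw [← integral_const_mul]
    exact integral_mono_ae IFf (ID.const_mul _) (ae_mu V.toEll hFf)
  have k3 : ∫ p, f p ^ 2 ∂V.mu ≤ 2 * ∫ p, F p ^ 2 ∂V.mu + 2 * ∫ p, (F p - f p) ^ 2 ∂V.mu := by
    rw [← integral_const_mul, ← integral_const_mul,
      ← integral_add (IF.const_mul 2) (IFf.const_mul 2)]
    refine integral_mono If ((IF.const_mul 2).add (IFf.const_mul 2)) fun p => ?_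
    show f p ^ 2 ≤ 2 * F p ^ 2 + 2 * (F p - f p) ^ 2
    nlinarith [sq_nonneg (2 * F p - f p)]
  have k4 := hgap F hFs hFc
  have k5 : C * ∫ p, V.L F p ^ 2 ∂V.mu ≤ C * (C1 ^ 2 * b2 * ∫ p, D p ∂V.mu) :=
    mul_le_mul_of_nonneg_left k1 hC.le
  have k6 : ∫ p, f p ^ 2 ∂V.mu ≤ C2 * ∫ p, D p ∂V.mu := by
    have : C2 * ∫ p, D p ∂V.mu = 2 * (C * (C1 ^ 2 * b2 * ∫ p, D p ∂V.mu)) +
        2 * (a⁻¹ * ∫ p, D p ∂V.mu) := by
      rw [hC2]; ring
    linarith
  calc C2⁻¹ * ∫ p, f p ^ 2 ∂V.mu ≤ C2⁻¹ * (C2 * ∫ p, D p ∂V.mu) :=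
        mul_le_mul_of_nonneg_left k6 (inv_pos.2 hC2p).le
    _ = ∫ p, D p ∂V.mu := by rw [← mul_assoc, inv_mul_cancel₀ hC2p.ne', one_mul]

end Pool.Agent.MPd01a95.LN
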