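import Mathlib
import Pool.Agent.Lib.MP_d01a95_gt_L.LDefs
import Pool.Agent.Lib.MP_d01a95_gt_L.LBas
import Pool.Agent.Lib.MP_d01a95_gt_L.LCs
import Pool.Agent.Lib.MP_d01a95_gt_L.LAlg
import Pool.Agent.Lib.MP_d01a95_gt_L.LGrn
import Pool.Agent.Lib.MP_d01a95_gt_L.LInv
import Pool.Agent.Lib.MP_d01a95_gt_L.LUnf
import Pool.Agent.Lib.MP_d01a95_gt_L.LBf
import Pool.Agent.Lib.MP_d01a95_gt_L.LChi
import Pool.Agent.Lib.MP_d01a95_gt_L.LGq
import Pool.Agent.Lib.MP_d01a95_gt_L.LKer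
import Pool.Agent.Lib.MP_d01a95_gt_L.LSmk
import Pool.Agent.Lib.MP_d01a95_gt_L.LSg

/-!
# Module Mar: the Markov operator
-/

set_option autoImplicit false
set_option linter.all false

open MeasureTheory Filter Topology
open scoped ContDiff InnerProductSpace ENNReal

namespace Pool.Agent.MPd01a95.LN

variable {G : Type} [Group G] (V : VG G) {χ : E → ℝ} {M : ℝ}
variable {F : Type*} [NormedAddCommGroup F] [NormedSpace ℝ F]
variable {H : Type} [NormedAddCommGroup H] [InnerProductSpace ℝ H]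
variable (pi : G →* (H ≃ₗᵢ[ℝ] H))

private theorem LMar_i2 {μ : Measure E} {f g : E → ℝ} (hf : Integrable f μ)
    (hg : Integrable g μ) : ∫ p, (f p + g p) ∂μ = ∫ p, f p ∂μ + ∫ p, g p ∂μ :=
  integral_add hf hg

private theorem LMar_i3 {μ : Measure E} {f g h : E → ℝ} (hf : Integrable f μ)
    (hg : Integrable g μ) (hh : Integrable h μ) :
    ∫ p, (f p + g p + h p) ∂μ = ∫ p, f p ∂μ + ∫ p, g p ∂μ + ∫ p, h p ∂μ := by
  rw [← LMar_i2 hf hg]
  exact integral_add (hf.add hg) hh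

private theorem LMar_i4 {μ : Measure E} {f g h k : E → ℝ} (hf : Integrable f μ)
    (hg : Integrable g μ) (hh : Integrable h μ) (hk : Integrable k μ) :
    ∫ p, (f p + g p + h p + k p) ∂μ =
      ∫ p, f p ∂μ + ∫ p, g p ∂μ + ∫ p, h p ∂μ + ∫ p, k p ∂μ := by
  rw [← LMar_i3 hf hg hh]
  exact integral_add ((hf.add hg).add hh) hk

private theorem LMar_i3' {μ : Measure E} {f g h : E → ℝ} (hf : Integrable f μ)
    (hg : Integrable g μ) (hh : Integrable h μ) :
    ∫ p, (f p - g p + h p) ∂μ = ∫ p, f p ∂μ - ∫ p, g p ∂μ + ∫ p, h p ∂μ := by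
  rw [← integral_sub hf hg]
  exact integral_add (hf.sub hg) hh

private theorem LMar_K : Ker V (kk V 2) := (kk_ker V 2).1

private theorem LMar_sym : ∀ p ∈ Om, ∀ q ∈ Om, kk V 2 p q = kk V 2 q p := fun p hp q hq =>
  (kk_prop V (by norm_num) hp hq).1

private theorem LMar_nn : ∀ p ∈ Om, ∀ q ∈ Om, 0 ≤ kk V 2 p q := fun p hp q hq =>
  (kk_prop V (by norm_num) hp hq).2.1

private theorem LMar_mc : ContinuousOn (mk V (kk V 2)) Om := mk_cont V (LMar_K V)

private theorem LMar_cc : ContinuousOn (fun p => 1 - mk V (kk V 2) p / (2 * M)) Om :=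
  continuousOn_const.sub ((LMar_mc V).div_const _)

theorem exists_MOK : ∃ M : ℝ, MOK V M := by
  obtain ⟨a, b, ha, h⟩ := kk_mass V (R := 2) (by norm_num)
  exact ⟨max b 1, lt_of_lt_of_le one_pos (le_max_right _ _), fun p hp =>
    (h p hp).2.trans (le_max_left _ _)⟩

theorem Ao_cont {s : E → F} (hs : ContinuousOn s Om) : ContinuousOn (Ao V M s) Om :=
  ((LMar_cc V).smul hs).add ((Ko_cont V (LMar_K V) hs).const_smul (1 / (2 * M)))

theorem Ao_cs {s : E → F} (hs : CS s) : CS (Ao V M s) :=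
  CS.add (CS.smul_right (f := fun p => 1 - mk V (kk V 2) p / (2 * M)) hs)
    (CS.smul_right (f := fun _ => 1 / (2 * M)) (Ko_cs V (LMar_K V) hs))

theorem Ao_sec [CompleteSpace H] {s : E → H} (hs : ContinuousOn s Om) (h : IsSec V pi s) :
    IsSec V pi (Ao V M s) := by
  intro g p hp
  show (1 - mk V (kk V 2) (V.act g p) / (2 * M)) • s (V.act g p) +
    (1 / (2 * M)) • Ko V (kk V 2) s (V.act g p) =
      pi g ((1 - mk V (kk V 2) p / (2 * M)) • s p + (1 / (2 * M)) • Ko V (kk V 2) s p)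
  rw [mk_inv V (LMar_K V) g hp, h g p hp, Ko_sec V pi (LMar_K V) hs h g p hp, map_add,
    map_smul, map_smul]

private theorem LMar_int {f f' : E → ℝ} (hf : ContinuousOn f Om) (hf' : ContinuousOn f' Om)
    (hc' : CS f') :
    ∫ p, Ao V M f p * f' p ∂V.mu =
      ∫ p, (1 - mk V (kk V 2) p / (2 * M)) * (f p * f' p) ∂V.mu +
        (1 / (2 * M)) * ∫ p, Ko V (kk V 2) f p * f' p ∂V.mu := by
  rw [← integral_const_mul, ← integral_add]
  · refine integral_congr_ae (Eventually.of_forall fun p => ?_)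
    show ((1 - mk V (kk V 2) p / (2 * M)) • f p + (1 / (2 * M)) • Ko V (kk V 2) f p) * f' p = _
    simp only [smul_eq_mul]
    ring
  · refine integrable_cs V.toEll ((LMar_cc V).mul (hf.mul hf')) ?_
    exact hc'.of_imp fun p _ h => by rw [h, mul_zero, mul_zero]
  · refine integrable_cs V.toEll (continuousOn_const.mul ((Ko_cont V (LMar_K V) hf).mul hf')) ?_
    exact hc'.of_imp fun p _ h => by rw [h, mul_zero, mul_zero]

/-- the operator is symmetric on functions -/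
theorem Ao_symm0 {f f' : E → ℝ} (hf : ContinuousOn f Om) (hf' : ContinuousOn f' Om)
    (hc : CS f) (hc' : CS f') :
    ∫ p, Ao V M f p * f' p ∂V.mu = ∫ p, f p * Ao V M f' p ∂V.mu := by
  have e : ∫ p, f p * Ao V M f' p ∂V.mu = ∫ p, Ao V M f' p * f p ∂V.mu :=
    integral_congr_ae (Eventually.of_forall fun p => mul_comm _ _)
  rw [e, LMar_int V hf hf' hc', LMar_int V hf' hf hc,
    Ko_symm0 V (LMar_K V) (LMar_sym V) hf hf' hc']
  congr 1
  · refine integral_congr_ae (Eventually.of_forall fun p => ?_)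
    show (1 - mk V (kk V 2) p / (2 * M)) * (f p * f' p) =
      (1 - mk V (kk V 2) p / (2 * M)) * (f' p * f p)
    rw [mul_comm (f p)]
  · congr 1
    exact integral_congr_ae (Eventually.of_forall fun p => mul_comm _ _)

/-- the mass as the operator applied to one -/
private theorem LMar_one (p : E) : Ko V (kk V 2) (fun _ => (1 : ℝ)) p = mk V (kk V 2) p := by
  unfold Ko mk
  simp only [smul_eq_mul, mul_one]

private theorem LMar_mass {f : E → ℝ} (hf : ContinuousOn f Om) (hc : CS f) :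
    ∫ p, Ko V (kk V 2) f p ∂V.mu = ∫ p, mk V (kk V 2) p * f p ∂V.mu := by
  have h := Ko_symm0 V (LMar_K V) (LMar_sym V) (f := fun _ => (1 : ℝ)) continuousOn_const hf hc
  simp only [LMar_one, one_mul] at h
  exact h.symm

/-- the two quadratic forms -/
private theorem LMar_dbl (σ : ℝ) {f : E → ℝ} (hf : ContinuousOn f Om) (hc : CS f) :
    ∫ p, ∫ q, kk V 2 p q * (f p + σ * f q) ^ 2 ∂V.mu ∂V.mu =
      (1 + σ ^ 2) * ∫ p, mk V (kk V 2) p * f p ^ 2 ∂V.mu +
        2 * σ * ∫ p, Ko V (kk V 2) f p * f p ∂V.mu := by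
  have hf2 : ContinuousOn (fun p => f p ^ 2) Om := hf.pow 2
  have hc2 : CS (fun p => f p ^ 2) := hc.of_imp fun p _ h => by rw [h]; ring
  have hin : ∀ p ∈ Om, ∫ q, kk V 2 p q * (f p + σ * f q) ^ 2 ∂V.mu =
      mk V (kk V 2) p * f p ^ 2 + 2 * σ * (Ko V (kk V 2) f p * f p) +
        σ ^ 2 * Ko V (kk V 2) (fun q => f q ^ 2) p := by
    intro p hp
    have i1 := (LMar_K V).integrable V (s := fun _ => (1 : ℝ)) continuousOn_const hp
    have i2 := (LMar_K V).integrable V hf hp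
    have i3 := (LMar_K V).integrable V hf2 hp
    have e : ∀ q, kk V 2 p q * (f p + σ * f q) ^ 2 = f p ^ 2 * (kk V 2 p q • (1 : ℝ)) +
        (2 * σ * f p) * (kk V 2 p q • f q) + σ ^ 2 * (kk V 2 p q • f q ^ 2) := by
      intro q
      simp only [smul_eq_mul]
      ring
    simp only [e]
    rw [LMar_i3 (i1.const_mul (f p ^ 2)) (i2.const_mul (2 * σ * f p)) (i3.const_mul (σ ^ 2)),
      integral_const_mul, integral_const_mul, integral_const_mul]
    have e1 : ∫ q, kk V 2 p q • (1 : ℝ) ∂V.mu = mk V (kk V 2) p := LMar_one V p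
    rw [e1]
    show f p ^ 2 * mk V (kk V 2) p + (2 * σ * f p) * Ko V (kk V 2) f p +
      σ ^ 2 * Ko V (kk V 2) (fun q => f q ^ 2) p = _
    ring
  rw [integral_congr_ae (ae_mu V.toEll hin)]
  have j1 : Integrable (fun p => mk V (kk V 2) p * f p ^ 2) V.mu :=
    integrable_cs V.toEll ((LMar_mc V).mul hf2) (hc2.of_imp fun p _ h => by
      rw [show f p ^ 2 = 0 from h, mul_zero])
  have j2 : Integrable (fun p => Ko V (kk V 2) f p * f p) V.mu :=
    integrable_cs V.toEll ((Ko_cont V (LMar_K V) hf).mul hf) (hc.of_imp fun p _ h => by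
      rw [h, mul_zero])
  have j3 : Integrable (Ko V (kk V 2) (fun q => f q ^ 2)) V.mu :=
    integrable_cs V.toEll (Ko_cont V (LMar_K V) hf2) (Ko_cs V (LMar_K V) hc2)
  rw [LMar_i3 j1 (j2.const_mul (2 * σ)) (j3.const_mul (σ ^ 2)), integral_const_mul,
    integral_const_mul, LMar_mass V hf2 hc2]
  ring

private theorem LMar_dbl_nn (σ : ℝ) (f : E → ℝ) :
    0 ≤ ∫ p, ∫ q, kk V 2 p q * (f p + σ * f q) ^ 2 ∂V.mu ∂V.mu := by
  refine integral_nonneg_of_ae (ae_mu V.toEll fun p hp => ?_)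
  refine integral_nonneg_of_ae (ae_mu V.toEll fun q hq => ?_)
  exact mul_nonneg (LMar_nn V p hp q hq) (sq_nonneg _)

private theorem LMar_sq {f : E → ℝ} (hf : ContinuousOn f Om) (hc : CS f) :
    ∫ p, Ao V M f p * f p ∂V.mu = ∫ p, f p ^ 2 ∂V.mu -
      (1 / (2 * M)) * ∫ p, mk V (kk V 2) p * f p ^ 2 ∂V.mu +
        (1 / (2 * M)) * ∫ p, Ko V (kk V 2) f p * f p ∂V.mu := by
  have hf2 : ContinuousOn (fun p => f p ^ 2) Om := hf.pow 2
  have hc2 : CS (fun p => f p ^ 2) := hc.of_imp fun p _ h => by rw [h]; ring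
  have j0 : Integrable (fun p => f p ^ 2) V.mu := integrable_cs V.toEll hf2 hc2
  have j1 : Integrable (fun p => mk V (kk V 2) p * f p ^ 2) V.mu :=
    integrable_cs V.toEll ((LMar_mc V).mul hf2) (hc2.of_imp fun p _ h => by
      rw [show f p ^ 2 = 0 from h, mul_zero])
  rw [LMar_int V hf hf hc, ← integral_const_mul (1 / (2 * M)) (fun p => mk V (kk V 2) p * f p ^ 2),
    ← integral_sub j0 (j1.const_mul _)]
  congr 1
  refine integral_congr_ae (Eventually.of_forall fun p => ?_)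
  show (1 - mk V (kk V 2) p / (2 * M)) * (f p * f p) =
    f p ^ 2 - 1 / (2 * M) * (mk V (kk V 2) p * f p ^ 2)
  ring

/-- the quadratic form on functions -/
theorem Ao_form0 {f : E → ℝ} (hM : MOK V M) (hf : ContinuousOn f Om) (hc : CS f) :
    ∫ p, f p ^ 2 ∂V.mu - ∫ p, Ao V M f p * f p ∂V.mu =
      (1 / (4 * M)) * ∫ p, ∫ q, kk V 2 p q * (f p - f q) ^ 2 ∂V.mu ∂V.mu := by
  have hM0 : M ≠ 0 := hM.1.ne'
  have h := LMar_dbl V (-1) hf hc
  have e : ∀ p q, kk V 2 p q * (f p + -1 * f q) ^ 2 = kk V 2 p q * (f p - f q) ^ 2 := by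
    intro p q
    ring
  simp only [e] at h
  rw [h, LMar_sq V hf hc]
  field_simp
  ring

private theorem LMar_pos0 {f : E → ℝ} (hM : MOK V M) (hf : ContinuousOn f Om) (hc : CS f) :
    0 ≤ ∫ p, Ao V M f p * f p ∂V.mu := by
  have hM0 : 0 < M := hM.1
  have hf2 : ContinuousOn (fun p => f p ^ 2) Om := hf.pow 2
  have hc2 : CS (fun p => f p ^ 2) := hc.of_imp fun p _ h => by rw [h]; ring
  have j0 : Integrable (fun p => f p ^ 2) V.mu := integrable_cs V.toEll hf2 hc2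
  have j1 : Integrable (fun p => mk V (kk V 2) p * f p ^ 2) V.mu :=
    integrable_cs V.toEll ((LMar_mc V).mul hf2) (hc2.of_imp fun p _ h => by
      rw [show f p ^ 2 = 0 from h, mul_zero])
  have h := LMar_dbl V 1 hf hc
  have h0 := LMar_dbl_nn V 1 f
  rw [h] at h0
  have h1 : ∫ p, mk V (kk V 2) p * f p ^ 2 ∂V.mu ≤ M * ∫ p, f p ^ 2 ∂V.mu := by
    rw [← integral_const_mul]
    refine integral_mono_ae j1 (j0.const_mul _) (ae_mu V.toEll fun p hp => ?_)
    exact mul_le_mul_of_nonneg_right (hM.2 p hp) (sq_nonneg _)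
  rw [LMar_sq V hf hc]
  have h2 : 0 < 1 / (2 * M) := by positivity
  have h3 : (1 / (2 * M)) * (2 * ∫ p, mk V (kk V 2) p * f p ^ 2 ∂V.mu) ≤
      ∫ p, f p ^ 2 ∂V.mu := by
    calc (1 / (2 * M)) * (2 * ∫ p, mk V (kk V 2) p * f p ^ 2 ∂V.mu)
        ≤ (1 / (2 * M)) * (2 * (M * ∫ p, f p ^ 2 ∂V.mu)) := by
          refine mul_le_mul_of_nonneg_left ?_ h2.le
          linarith
      _ = ∫ p, f p ^ 2 ∂V.mu := by
          field_simp
  have h4 : 0 ≤ (1 / (2 * M)) * (∫ p, mk V (kk V 2) p * f p ^ 2 ∂V.mu +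
      ∫ p, Ko V (kk V 2) f p * f p ∂V.mu) := by
    refine mul_nonneg h2.le ?_
    nlinarith [h0]
  nlinarith [h3, h4]

private theorem LMar_lin {f g : E → ℝ} (hf : ContinuousOn f Om) (hg : ContinuousOn g Om)
    (x : ℝ) {p : E} (hp : p ∈ Om) :
    Ao V M (fun q => f q + x * g q) p = Ao V M f p + x * Ao V M g p := by
  have i1 := (LMar_K V).integrable V hf hp
  have i2 := (LMar_K V).integrable V hg hp
  have e : Ko V (kk V 2) (fun q => f q + x * g q) p =
      Ko V (kk V 2) f p + x * Ko V (kk V 2) g p := by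
    unfold Ko
    rw [← integral_const_mul, ← integral_add i1 (i2.const_mul _)]
    refine integral_congr_ae (Eventually.of_forall fun q => ?_)
    simp only [smul_eq_mul]
    ring
  show (1 - mk V (kk V 2) p / (2 * M)) • (f p + x * g p) +
      (1 / (2 * M)) • Ko V (kk V 2) (fun q => f q + x * g q) p =
    ((1 - mk V (kk V 2) p / (2 * M)) • f p + (1 / (2 * M)) • Ko V (kk V 2) f p) +
      x * ((1 - mk V (kk V 2) p / (2 * M)) • g p + (1 / (2 * M)) • Ko V (kk V 2) g p)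
  rw [e]
  simp only [smul_eq_mul]
  ring

private theorem LMar_cs {f g : E → ℝ} (hM : MOK V M) (hf : ContinuousOn f Om) (hc : CS f)
    (hg : ContinuousOn g Om) (hcg : CS g) :
    (∫ p, Ao V M f p * g p ∂V.mu) ^ 2 ≤
      (∫ p, Ao V M f p * f p ∂V.mu) * ∫ p, Ao V M g p * g p ∂V.mu := by
  have i1 : Integrable (fun p => Ao V M f p * f p) V.mu :=
    integrable_cs V.toEll ((Ao_cont V hf).mul hf) (hc.of_imp fun p _ h => by rw [h, mul_zero])
  have i2 : Integrable (fun p => Ao V M f p * g p) V.mu :=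
    integrable_cs V.toEll ((Ao_cont V hf).mul hg) (hcg.of_imp fun p _ h => by rw [h, mul_zero])
  have i3 : Integrable (fun p => Ao V M g p * f p) V.mu :=
    integrable_cs V.toEll ((Ao_cont V hg).mul hf) (hc.of_imp fun p _ h => by rw [h, mul_zero])
  have i4 : Integrable (fun p => Ao V M g p * g p) V.mu :=
    integrable_cs V.toEll ((Ao_cont V hg).mul hg) (hcg.of_imp fun p _ h => by rw [h, mul_zero])
  have hsym : ∫ p, Ao V M g p * f p ∂V.mu = ∫ p, Ao V M f p * g p ∂V.mu := by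
    rw [Ao_symm0 V hg hf hcg hc]
    exact integral_congr_ae (Eventually.of_forall fun p => mul_comm _ _)
  have key : ∀ x : ℝ, 0 ≤ (∫ p, Ao V M g p * g p ∂V.mu) * (x * x) +
      (2 * ∫ p, Ao V M f p * g p ∂V.mu) * x + ∫ p, Ao V M f p * f p ∂V.mu := by
    intro x
    have hfx : ContinuousOn (fun q => f q + x * g q) Om := hf.add (continuousOn_const.mul hg)
    have hcx : CS (fun q => f q + x * g q) :=
      CS.add hc (hcg.of_imp fun p _ h => by rw [h, mul_zero])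
    have h0 := LMar_pos0 V hM hfx hcx
    have e : ∫ p, Ao V M (fun q => f q + x * g q) p * (f p + x * g p) ∂V.mu =
        ∫ p, (Ao V M f p * f p + x * (Ao V M f p * g p) + x * (Ao V M g p * f p) +
          x ^ 2 * (Ao V M g p * g p)) ∂V.mu := by
      refine integral_congr_ae (ae_mu V.toEll fun p hp => ?_)
      simp only
      rw [LMar_lin V hf hg x hp]
      ring
    rw [e, LMar_i4 i1 (i2.const_mul x) (i3.const_mul x) (i4.const_mul (x ^ 2)),
      integral_const_mul, integral_const_mul, integral_const_mul, hsym] at h0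
    nlinarith [h0]
  have := discrim_le_zero key
  unfold discrim at this
  nlinarith [this]

/-- the norm on functions is smaller than one -/
theorem Ao_norm0 (hM : MOK V M) : ∃ r : ℝ, 0 < r ∧ r < 1 ∧ ∀ f : E → ℝ, ContinuousOn f Om →
    CS f → ∫ p, Ao V M f p ^ 2 ∂V.mu ≤ r ^ 2 * ∫ p, f p ^ 2 ∂V.mu := by
  obtain ⟨c, hc0, hgap⟩ := gap_ker V
  have hM0 : 0 < M := hM.1
  have hcM : 0 < c / (4 * M) := by positivity
  set r : ℝ := max (1 - c / (4 * M)) (1 / 2) with hr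
  have hr0 : 0 < r := lt_of_lt_of_le (by norm_num) (le_max_right _ _)
  have hr1 : r < 1 := max_lt (by linarith) (by norm_num)
  have hquad : ∀ f : E → ℝ, ContinuousOn f Om → CS f →
      ∫ p, Ao V M f p * f p ∂V.mu ≤ r * ∫ p, f p ^ 2 ∂V.mu := by
    intro f hf hc
    have h1 := Ao_form0 V hM hf hc
    have h2 := hgap f hf hc
    have h3 : 0 ≤ ∫ p, f p ^ 2 ∂V.mu := integral_nonneg fun p => sq_nonneg _
    have h4 : (1 / (4 * M)) * (c * ∫ p, f p ^ 2 ∂V.mu) ≤
        (1 / (4 * M)) * ∫ p, ∫ q, kk V 2 p q * (f p - f q) ^ 2 ∂V.mu ∂V.mu :=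
      mul_le_mul_of_nonneg_left h2 (by positivity)
    have h5 : (1 / (4 * M)) * (c * ∫ p, f p ^ 2 ∂V.mu) =
        (c / (4 * M)) * ∫ p, f p ^ 2 ∂V.mu := by ring
    have h6 : (1 - c / (4 * M)) * ∫ p, f p ^ 2 ∂V.mu ≤ r * ∫ p, f p ^ 2 ∂V.mu :=
      mul_le_mul_of_nonneg_right (le_max_left _ _) h3
    linarith
  refine ⟨r, hr0, hr1, fun f hf hc => ?_⟩
  have hg := Ao_cont V (M := M) hf
  have hcg := Ao_cs V (M := M) hc
  set N : ℝ := ∫ p, Ao V M f p ^ 2 ∂V.mu with hN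
  set S : ℝ := ∫ p, f p ^ 2 ∂V.mu with hS
  have hN0 : 0 ≤ N := integral_nonneg fun p => sq_nonneg _
  have hS0 : 0 ≤ S := integral_nonneg fun p => sq_nonneg _
  have h1 := LMar_cs V hM hf hc hg hcg
  have h2 : ∫ p, Ao V M f p * Ao V M f p ∂V.mu = N :=
    integral_congr_ae (Eventually.of_forall fun p => (sq _).symm)
  rw [h2] at h1
  have h3 := hquad f hf hc
  have h4 := hquad _ hg hcg
  have h5 := LMar_pos0 V hM hf hc
  have h6 := LMar_pos0 V hM hg hcg
  have h7 : N ^ 2 ≤ (r * S) * (r * N) := by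
    refine h1.trans ?_
    exact mul_le_mul h3 h4 h6 (mul_nonneg hr0.le hS0)
  rcases hN0.lt_or_eq with h8 | h8
  · have h9 : N * N ≤ (r ^ 2 * S) * N := by nlinarith [h7]
    exact le_of_mul_le_mul_right h9 h8
  · rw [← h8]
    positivity

/-- contraction in `L^1` -/
theorem Ao_L1 (hM : MOK V M) {f : E → ℝ} (hf : ContinuousOn f Om) (hc : CS f) :
    ∫ p, |Ao V M f p| ∂V.mu ≤ ∫ p, |f p| ∂V.mu := by
  have hM0 : 0 < M := hM.1
  have hfa : ContinuousOn (fun p => |f p|) Om := hf.abs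
  have hca : CS (fun p => |f p|) := hc.of_imp fun p _ h => by rw [h, abs_zero]
  have i0 : Integrable (fun p => |f p|) V.mu := integrable_cs V.toEll hfa hca
  have i1 : Integrable (fun p => |Ao V M f p|) V.mu :=
    integrable_cs V.toEll (Ao_cont V hf).abs ((Ao_cs V hc).of_imp fun p _ h => by
      rw [h, abs_zero])
  have i2 : Integrable (fun p => mk V (kk V 2) p * |f p|) V.mu :=
    integrable_cs V.toEll ((LMar_mc V).mul hfa) (hca.of_imp fun p _ h => by
      rw [show |f p| = 0 from h, mul_zero])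
  have i3 : Integrable (Ko V (kk V 2) (fun q => |f q|)) V.mu :=
    integrable_cs V.toEll (Ko_cont V (LMar_K V) hfa) (Ko_cs V (LMar_K V) hca)
  have hpt : ∀ p ∈ Om, |Ao V M f p| ≤ |f p| - (1 / (2 * M)) * (mk V (kk V 2) p * |f p|) +
      (1 / (2 * M)) * Ko V (kk V 2) (fun q => |f q|) p := by
    intro p hp
    have h1 : |Ko V (kk V 2) f p| ≤ Ko V (kk V 2) (fun q => |f q|) p := by
      have h2 : |∫ q, kk V 2 p q • f q ∂V.mu| ≤ ∫ q, |kk V 2 p q • f q| ∂V.mu :=
        abs_integral_le_integral_abs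
      refine h2.trans (le_of_eq ?_)
      refine integral_congr_ae (ae_mu V.toEll fun q hq => ?_)
      simp only [smul_eq_mul]
      rw [abs_mul, abs_of_nonneg (LMar_nn V p hp q hq)]
    have h3 : 0 ≤ 1 - mk V (kk V 2) p / (2 * M) := by
      have h4 := hM.2 p hp
      have h5 : mk V (kk V 2) p / (2 * M) ≤ 1 := by
        rw [div_le_one (by positivity)]
        linarith
      linarith
    have h6 : (0:ℝ) < 1 / (2 * M) := by positivity
    calc |Ao V M f p| = |(1 - mk V (kk V 2) p / (2 * M)) * f p +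
          (1 / (2 * M)) * Ko V (kk V 2) f p| := rfl
      _ ≤ |(1 - mk V (kk V 2) p / (2 * M)) * f p| + |(1 / (2 * M)) * Ko V (kk V 2) f p| :=
          abs_add_le _ _
      _ = (1 - mk V (kk V 2) p / (2 * M)) * |f p| + (1 / (2 * M)) * |Ko V (kk V 2) f p| := by
          rw [abs_mul, abs_mul, abs_of_nonneg h3, abs_of_pos h6]
      _ ≤ (1 - mk V (kk V 2) p / (2 * M)) * |f p| +
          (1 / (2 * M)) * Ko V (kk V 2) (fun q => |f q|) p := by
          have := mul_le_mul_of_nonneg_left h1 h6.le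
          linarith
      _ = _ := by ring
  calc ∫ p, |Ao V M f p| ∂V.mu
      ≤ ∫ p, (|f p| - (1 / (2 * M)) * (mk V (kk V 2) p * |f p|) +
          (1 / (2 * M)) * Ko V (kk V 2) (fun q => |f q|) p) ∂V.mu :=
        integral_mono_ae i1 ((i0.sub (i2.const_mul _)).add (i3.const_mul _))
          (ae_mu V.toEll hpt)
    _ = ∫ p, |f p| ∂V.mu := by
        rw [LMar_i3' i0 (i2.const_mul (1 / (2 * M))) (i3.const_mul (1 / (2 * M))),
          integral_const_mul, integral_const_mul, LMar_mass V hfa hca]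
        ring

private theorem LMar_B (hχ : IsChi V χ) {s t : E → H} (hs : ContinuousOn s Om)
    (ht : ContinuousOn t Om) :
    B V χ (Ao V M s) t = ∫ p, χ p * ((1 - mk V (kk V 2) p / (2 * M)) * ⟪s p, t p⟫_ℝ) ∂V.mu +
      (1 / (2 * M)) * B V χ (Ko V (kk V 2) s) t := by
  unfold B
  rw [← integral_const_mul, ← integral_add]
  · refine integral_congr_ae (Eventually.of_forall fun p => ?_)
    show χ p * ⟪(1 - mk V (kk V 2) p / (2 * M)) • s p +
      (1 / (2 * M)) • Ko V (kk V 2) s p, t p⟫_ℝ = _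
    rw [inner_add_left, real_inner_smul_left, real_inner_smul_left]
    ring
  · refine integrable_cs V.toEll (hχ.smo.cont.mul ((LMar_cc V).mul (hs.inner ht))) ?_
    exact hχ.cs.of_imp fun p _ h => by rw [h, zero_mul]
  · refine integrable_cs V.toEll (continuousOn_const.mul
      (hχ.smo.cont.mul ((Ko_cont V (LMar_K V) hs).inner ht))) ?_
    exact hχ.cs.of_imp fun p _ h => by rw [h, zero_mul, mul_zero]

/-- the operator is symmetric on sections -/
theorem Ao_symm [CompleteSpace H] (hχ : IsChi V χ) {s t : E → H} (hs : ContinuousOn s Om)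
    (ht : ContinuousOn t Om) (hs' : IsSec V pi s) (ht' : IsSec V pi t) :
    B V χ (Ao V M s) t = B V χ s (Ao V M t) := by
  rw [B_symm V s (Ao V M t), LMar_B V hχ hs ht, LMar_B V hχ ht hs,
    Ko_symm V pi hχ (LMar_K V) (LMar_sym V) hs ht hs' ht', B_symm V s (Ko V (kk V 2) t)]
  congr 1
  refine integral_congr_ae (Eventually.of_forall fun p => ?_)
  show χ p * ((1 - mk V (kk V 2) p / (2 * M)) * ⟪s p, t p⟫_ℝ) =
    χ p * ((1 - mk V (kk V 2) p / (2 * M)) * ⟪t p, s p⟫_ℝ)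
  rw [real_inner_comm]

/-- the two quadratic forms on sections -/
private theorem LMar_sdbl [CompleteSpace H] (hχ : IsChi V χ) (σ : ℝ) {s : E → H}
    (hs : ContinuousOn s Om) (hs' : IsSec V pi s) :
    ∫ p, χ p * ∫ q, kk V 2 p q * ‖s p + σ • s q‖ ^ 2 ∂V.mu ∂V.mu =
      (1 + σ ^ 2) * ∫ p, χ p * (mk V (kk V 2) p * ‖s p‖ ^ 2) ∂V.mu +
        2 * σ * B V χ (Ko V (kk V 2) s) s := by
  have hn : ContinuousOn (fun p => ‖s p‖ ^ 2) Om := hs.norm.pow 2
  -- the kernel with the norm of the section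
  have hk' : Ker V (fun p q => kk V 2 p q * ‖s q‖ ^ 2) := by
    refine ⟨?_, ?_, ?_⟩
    · refine (LMar_K V).cont.mul ?_
      exact hn.comp continuousOn_snd fun x hx => hx.2
    · intro g p hp q hq
      show kk V 2 (V.act g p) (V.act g q) * ‖s (V.act g q)‖ ^ 2 = kk V 2 p q * ‖s q‖ ^ 2
      rw [(LMar_K V).inv g p hp q hq, norm_sec V pi hs' g hq]
    · obtain ⟨R, hR⟩ := (LMar_K V).ran
      exact ⟨R, fun p hp q hq h => by
        show kk V 2 p q * ‖s q‖ ^ 2 = 0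
        rw [hR p hp q hq h, zero_mul]⟩
  have hin : ∀ p ∈ Om, ∫ q, kk V 2 p q * ‖s p + σ • s q‖ ^ 2 ∂V.mu =
      mk V (kk V 2) p * ‖s p‖ ^ 2 + 2 * σ * ⟪Ko V (kk V 2) s p, s p⟫_ℝ +
        σ ^ 2 * ∫ q, kk V 2 p q * ‖s q‖ ^ 2 ∂V.mu := by
    intro p hp
    have i1 := (LMar_K V).integrable V (s := fun _ => (1 : ℝ)) continuousOn_const hp
    have i2 := (LMar_K V).integrable V hs hp
    have i3 := (LMar_K V).integrable V hn hp
    have i4 : Integrable (fun q => ⟪s p, kk V 2 p q • s q⟫_ℝ) V.mu := i2.const_inner (s p)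
    have e : ∀ q, kk V 2 p q * ‖s p + σ • s q‖ ^ 2 = ‖s p‖ ^ 2 * (kk V 2 p q • (1 : ℝ)) +
        (2 * σ) * ⟪s p, kk V 2 p q • s q⟫_ℝ + σ ^ 2 * (kk V 2 p q • ‖s q‖ ^ 2) := by
      intro q
      rw [norm_add_sq_real, norm_smul, real_inner_smul_right, real_inner_smul_right, mul_pow]
      simp only [smul_eq_mul, Real.norm_eq_abs, sq_abs]
      ring
    simp only [e]
    rw [LMar_i3 (i1.const_mul (‖s p‖ ^ 2)) (i4.const_mul (2 * σ)) (i3.const_mul (σ ^ 2)),
      integral_const_mul, integral_const_mul, integral_const_mul, integral_inner i2]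
    have e1 : ∫ q, kk V 2 p q • (1 : ℝ) ∂V.mu = mk V (kk V 2) p := LMar_one V p
    rw [e1]
    show ‖s p‖ ^ 2 * mk V (kk V 2) p + (2 * σ) * ⟪s p, Ko V (kk V 2) s p⟫_ℝ +
      σ ^ 2 * ∫ q, kk V 2 p q * ‖s q‖ ^ 2 ∂V.mu = _
    rw [real_inner_comm]
    ring
  have hout : ∀ p ∈ Om, χ p * ∫ q, kk V 2 p q * ‖s p + σ • s q‖ ^ 2 ∂V.mu =
      χ p * (mk V (kk V 2) p * ‖s p‖ ^ 2) + 2 * σ * (χ p * ⟪Ko V (kk V 2) s p, s p⟫_ℝ) +
        σ ^ 2 * (χ p * ∫ q, kk V 2 p q * ‖s q‖ ^ 2 ∂V.mu) := by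
    intro p hp
    rw [hin p hp]
    ring
  rw [integral_congr_ae (ae_mu V.toEll hout)]
  have j1 : Integrable (fun p => χ p * (mk V (kk V 2) p * ‖s p‖ ^ 2)) V.mu :=
    integrable_cs V.toEll (hχ.smo.cont.mul ((LMar_mc V).mul hn)) (hχ.cs.of_imp fun p _ h => by
      rw [h, zero_mul])
  have j2 : Integrable (fun p => χ p * ⟪Ko V (kk V 2) s p, s p⟫_ℝ) V.mu :=
    integrable_cs V.toEll (hχ.smo.cont.mul ((Ko_cont V (LMar_K V) hs).inner hs))
      (hχ.cs.of_imp fun p _ h => by rw [h, zero_mul])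
  have j3 : Integrable (fun p => χ p * ∫ q, kk V 2 p q * ‖s q‖ ^ 2 ∂V.mu) V.mu :=
    integrable_cs V.toEll (hχ.smo.cont.mul (mk_cont V hk')) (hχ.cs.of_imp fun p _ h => by
      rw [h, zero_mul])
  rw [LMar_i3 j1 (j2.const_mul (2 * σ)) (j3.const_mul (σ ^ 2)), integral_const_mul,
    integral_const_mul]
  have e3 : ∫ p, χ p * ∫ q, kk V 2 p q * ‖s q‖ ^ 2 ∂V.mu ∂V.mu =
      ∫ p, χ p * (mk V (kk V 2) p * ‖s p‖ ^ 2) ∂V.mu := by
    rw [unfold_ker V hχ hk']
    refine integral_congr_ae (ae_mu V.toEll fun q hq => ?_)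
    show χ q * ∫ p, kk V 2 p q * ‖s q‖ ^ 2 ∂V.mu = χ q * (mk V (kk V 2) q * ‖s q‖ ^ 2)
    rw [integral_mul_const]
    congr 2
    exact integral_congr_ae (ae_mu V.toEll fun p hp => LMar_sym V p hp q hq)
  rw [e3]
  show ∫ p, χ p * (mk V (kk V 2) p * ‖s p‖ ^ 2) ∂V.mu + 2 * σ * B V χ (Ko V (kk V 2) s) s +
    σ ^ 2 * ∫ p, χ p * (mk V (kk V 2) p * ‖s p‖ ^ 2) ∂V.mu = _
  ring

private theorem LMar_sdbl_nn (hχ : IsChi V χ) (σ : ℝ) (s : E → H) :
    0 ≤ ∫ p, χ p * ∫ q, kk V 2 p q * ‖s p + σ • s q‖ ^ 2 ∂V.mu ∂V.mu := by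
  refine integral_nonneg_of_ae (ae_mu V.toEll fun p hp => ?_)
  refine mul_nonneg (hχ.nn p hp) ?_
  refine integral_nonneg_of_ae (ae_mu V.toEll fun q hq => ?_)
  exact mul_nonneg (LMar_nn V p hp q hq) (sq_nonneg _)

private theorem LMar_ssq (hχ : IsChi V χ) {s : E → H} (hs : ContinuousOn s Om) :
    B V χ (Ao V M s) s = B V χ s s -
      (1 / (2 * M)) * ∫ p, χ p * (mk V (kk V 2) p * ‖s p‖ ^ 2) ∂V.mu +
        (1 / (2 * M)) * B V χ (Ko V (kk V 2) s) s := by
  have hn : ContinuousOn (fun p => ‖s p‖ ^ 2) Om := hs.norm.pow 2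
  have j0 : Integrable (fun p => χ p * ⟪s p, s p⟫_ℝ) V.mu :=
    integrable_cs V.toEll (hχ.smo.cont.mul (hs.inner hs)) (hχ.cs.of_imp fun p _ h => by
      rw [h, zero_mul])
  have j1 : Integrable (fun p => χ p * (mk V (kk V 2) p * ‖s p‖ ^ 2)) V.mu :=
    integrable_cs V.toEll (hχ.smo.cont.mul ((LMar_mc V).mul hn)) (hχ.cs.of_imp fun p _ h => by
      rw [h, zero_mul])
  rw [LMar_B V hχ hs hs]
  congr 1
  show _ = ∫ p, χ p * ⟪s p, s p⟫_ℝ ∂V.mu - _
  rw [← integral_const_mul, ← integral_sub j0 (j1.const_mul _)]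
  refine integral_congr_ae (Eventually.of_forall fun p => ?_)
  show χ p * ((1 - mk V (kk V 2) p / (2 * M)) * ⟪s p, s p⟫_ℝ) =
    χ p * ⟪s p, s p⟫_ℝ - 1 / (2 * M) * (χ p * (mk V (kk V 2) p * ‖s p‖ ^ 2))
  rw [real_inner_self_eq_norm_sq]
  ring

/-- the quadratic form on sections -/
theorem Ao_form [CompleteSpace H] (hχ : IsChi V χ) (hM : MOK V M) {s : E → H}
    (hs : ContinuousOn s Om) (hs' : IsSec V pi s) :
    B V χ s s - B V χ (Ao V M s) s =
      (1 / (4 * M)) * ∫ p, χ p * ∫ q, kk V 2 p q * ‖s p - s q‖ ^ 2 ∂V.mu ∂V.mu := by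
  have hM0 : M ≠ 0 := hM.1.ne'
  have h := LMar_sdbl V pi hχ (-1) hs hs'
  have e : ∀ p q, s p + (-1 : ℝ) • s q = s p - s q := by
    intro p q
    rw [neg_one_smul, sub_eq_add_neg]
  simp only [e] at h
  rw [h, LMar_ssq V hχ hs]
  field_simp
  ring

/-- bounds of the quadratic form on sections -/
theorem Ao_pos [CompleteSpace H] (hχ : IsChi V χ) (hM : MOK V M) {s : E → H}
    (hs : ContinuousOn s Om) (hs' : IsSec V pi s) :
    0 ≤ B V χ (Ao V M s) s ∧ B V χ (Ao V M s) s ≤ B V χ s s := by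
  have hM0 : 0 < M := hM.1
  have hn : ContinuousOn (fun p => ‖s p‖ ^ 2) Om := hs.norm.pow 2
  constructor
  · have j0 : Integrable (fun p => χ p * ⟪s p, s p⟫_ℝ) V.mu :=
      integrable_cs V.toEll (hχ.smo.cont.mul (hs.inner hs)) (hχ.cs.of_imp fun p _ h => by
        rw [h, zero_mul])
    have j1 : Integrable (fun p => χ p * (mk V (kk V 2) p * ‖s p‖ ^ 2)) V.mu :=
      integrable_cs V.toEll (hχ.smo.cont.mul ((LMar_mc V).mul hn)) (hχ.cs.of_imp fun p _ h => by
        rw [h, zero_mul])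
    have h := LMar_sdbl V pi hχ 1 hs hs'
    have h0 := LMar_sdbl_nn V hχ 1 s
    rw [h] at h0
    have h1 : ∫ p, χ p * (mk V (kk V 2) p * ‖s p‖ ^ 2) ∂V.mu ≤ M * B V χ s s := by
      unfold B
      rw [← integral_const_mul]
      refine integral_mono_ae j1 (j0.const_mul _) (ae_mu V.toEll fun p hp => ?_)
      show χ p * (mk V (kk V 2) p * ‖s p‖ ^ 2) ≤ M * (χ p * ⟪s p, s p⟫_ℝ)
      rw [real_inner_self_eq_norm_sq]
      have h2 : mk V (kk V 2) p * (χ p * ‖s p‖ ^ 2) ≤ M * (χ p * ‖s p‖ ^ 2) :=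
        mul_le_mul_of_nonneg_right (hM.2 p hp) (mul_nonneg (hχ.nn p hp) (sq_nonneg _))
      nlinarith [h2]
    rw [LMar_ssq V hχ hs]
    have h2 : 0 < 1 / (2 * M) := by positivity
    have h3 : (1 / (2 * M)) * (2 * ∫ p, χ p * (mk V (kk V 2) p * ‖s p‖ ^ 2) ∂V.mu) ≤
        B V χ s s := by
      calc (1 / (2 * M)) * (2 * ∫ p, χ p * (mk V (kk V 2) p * ‖s p‖ ^ 2) ∂V.mu)
          ≤ (1 / (2 * M)) * (2 * (M * B V χ s s)) := by
            refine mul_le_mul_of_nonneg_left ?_ h2.le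
            linarith
        _ = B V χ s s := by
            field_simp
    have h4 : 0 ≤ (1 / (2 * M)) * (∫ p, χ p * (mk V (kk V 2) p * ‖s p‖ ^ 2) ∂V.mu +
        B V χ (Ko V (kk V 2) s) s) := by
      refine mul_nonneg h2.le ?_
      nlinarith [h0]
    nlinarith [h3, h4]
  · have h1 := Ao_form V pi hχ hM hs hs'
    have h2 := LMar_sdbl_nn V hχ (-1) s
    have e : ∀ p q, s p + (-1 : ℝ) • s q = s p - s q := by
      intro p q
      rw [neg_one_smul, sub_eq_add_neg]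
    simp only [e] at h2
    have h3 : 0 ≤ (1 / (4 * M)) *
        ∫ p, χ p * ∫ q, kk V 2 p q * ‖s p - s q‖ ^ 2 ∂V.mu ∂V.mu :=
      mul_nonneg (by positivity) h2
    linarith

/-- the operator commutes with averages of simple tensors -/
theorem Ao_theta [CompleteSpace H] {f : E → ℝ} (hf : ContinuousOn f Om) (hc : CS f) (ξ : H) :
    ∀ p ∈ Om, Ao V M (theta V pi (fun q => f q • ξ)) p =
      theta V pi (fun q => Ao V M f q • ξ) p := by
  intro p hp
  have hτ : ContinuousOn (fun q => f q • ξ) Om := hf.smul continuousOn_const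
  have hcτ : CS (fun q => f q • ξ) := hc.of_imp fun p _ h => by rw [h, zero_smul]
  have hact : ∀ g, V.act g⁻¹ p ∈ Om := fun g => V.act_mem g⁻¹ p hp
  have hm : ∀ g, mk V (kk V 2) (V.act g⁻¹ p) = mk V (kk V 2) p := fun g =>
    mk_inv V (LMar_K V) g⁻¹ hp
  -- split the right hand side
  have c1 : CS (fun q => ((1 - mk V (kk V 2) q / (2 * M)) * f q) • ξ) :=
    hc.of_imp fun p _ h => by rw [h, mul_zero, zero_smul]
  have c2 : CS (fun q => ((1 / (2 * M)) * Ko V (kk V 2) f q) • ξ) :=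
    (Ko_cs V (LMar_K V) hc).of_imp fun p _ h => by rw [h, mul_zero, zero_smul]
  have e1 : theta V pi (fun q => Ao V M f q • ξ) p =
      theta V pi (fun q => ((1 - mk V (kk V 2) q / (2 * M)) * f q) • ξ) p +
        theta V pi (fun q => ((1 / (2 * M)) * Ko V (kk V 2) f q) • ξ) p := by
    rw [← theta_add V pi c1 c2 p hp]
    unfold theta
    refine tsum_congr fun g => ?_
    show pi g (((1 - mk V (kk V 2) (V.act g⁻¹ p) / (2 * M)) * f (V.act g⁻¹ p) +
      (1 / (2 * M)) * Ko V (kk V 2) f (V.act g⁻¹ p)) • ξ) = _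
    rw [add_smul]
  have e2 : theta V pi (fun q => ((1 - mk V (kk V 2) q / (2 * M)) * f q) • ξ) p =
      (1 - mk V (kk V 2) p / (2 * M)) • theta V pi (fun q => f q • ξ) p := by
    unfold theta
    rw [← tsum_const_smul'']
    refine tsum_congr fun g => ?_
    beta_reduce
    rw [hm g, mul_smul, map_smul]
  have e3 : theta V pi (fun q => ((1 / (2 * M)) * Ko V (kk V 2) f q) • ξ) p =
      (1 / (2 * M)) • theta V pi (Ko V (kk V 2) (fun q => f q • ξ)) p := by
    unfold theta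
    rw [← tsum_const_smul'']
    refine tsum_congr fun g => ?_
    beta_reduce
    rw [mul_smul, map_smul, Ko_smul V (LMar_K V) hf ξ _ (hact g)]
  rw [e1, e2, e3, ← Ko_theta V pi (LMar_K V) hτ hcτ p hp]
  rfl

end Pool.Agent.MPd01a95.LN
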