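import Mathlib
import Pool.Agent.Lib.MP_d01a95_gt_L.LDefs
import Pool.Agent.Lib.MP_d01a95_gt_L.LBas
import Pool.Agent.Lib.MP_d01a95_gt_L.LCs
import Pool.Agent.Lib.MP_d01a95_gt_L.LAlg
import Pool.Agent.Lib.MP_d01a95_gt_L.LGrn
import Pool.Agent.Lib.MP_d01a95_gt_L.LInv
import Pool.Agent.Lib.MP_d01a95_gt_L.LUnf
import Pool.Agent.Lib.MP_d01a95_gt_L.LBf
import Pool.Agent.Lib.MP_d01a95_gt_L.LChi
import Pool.Agent.Lib.MP_d01a95_gt_L.LGq
import Pool.Agent.Lib.MP_d01a95_gt_L.LKer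
import Pool.Agent.Lib.MP_d01a95_gt_L.LSmk
import Pool.Agent.Lib.MP_d01a95_gt_L.LSg
import Pool.Agent.Lib.MP_d01a95_gt_L.LMar

/-!
# Module Dec: exponential decay of the powers of the Markov operator on sections
-/

set_option autoImplicit false
set_option linter.all false

open MeasureTheory Filter Topology
open scoped ContDiff InnerProductSpace ENNReal

namespace Pool.Agent.MPd01a95.LN

variable {G : Type} [Group G] (V : VG G) {χ : E → ℝ} {M : ℝ}
variable {H : Type} [NormedAddCommGroup H] [InnerProductSpace ℝ H]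
variable (pi : G →* (H ≃ₗᵢ[ℝ] H))

/-- finite sums of averages of simple tensors with vectors in the subspace of good decay -/
def Fty (D : Decay pi) (s : E → H) : Prop :=
  ∃ (n : ℕ) (f : Fin n → E → ℝ) (ξ : Fin n → H), (∀ i, ContinuousOn (f i) Om ∧ CS (f i)) ∧
    (∀ i, ξ i ∈ D.D) ∧ ∀ p ∈ Om, s p = ∑ i, theta V pi (fun q => f i q • ξ i) p

section aux

variable {F : Type*} [NormedAddCommGroup F] [NormedSpace ℝ F]

private theorem it_cont (n : ℕ) {s : E → F} (hs : ContinuousOn s Om) :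
    ContinuousOn ((Ao V M)^[n] s) Om := by
  induction n with
  | zero => exact hs
  | succ n ih =>
    rw [Function.iterate_succ_apply']
    exact Ao_cont V ih

private theorem it_cs (n : ℕ) {s : E → F} (hs : CS s) : CS ((Ao V M)^[n] s) := by
  induction n with
  | zero => exact hs
  | succ n ih =>
    rw [Function.iterate_succ_apply']
    exact Ao_cs V ih

private theorem it_norm {r : ℝ} (hr : ∀ f : E → ℝ, ContinuousOn f Om →
    CS f → ∫ p, Ao V M f p ^ 2 ∂V.mu ≤ r ^ 2 * ∫ p, f p ^ 2 ∂V.mu) (n : ℕ) {f : E → ℝ}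
    (hf : ContinuousOn f Om) (hc : CS f) :
    ∫ p, ((Ao V M)^[n] f) p ^ 2 ∂V.mu ≤ (r ^ n) ^ 2 * ∫ p, f p ^ 2 ∂V.mu := by
  induction n with
  | zero => simp
  | succ n ih =>
    rw [Function.iterate_succ_apply']
    refine (hr _ (it_cont V n hf) (it_cs V n hc)).trans ?_
    calc r ^ 2 * ∫ p, ((Ao V M)^[n] f) p ^ 2 ∂V.mu
        ≤ r ^ 2 * ((r ^ n) ^ 2 * ∫ p, f p ^ 2 ∂V.mu) :=
          mul_le_mul_of_nonneg_left ih (sq_nonneg _)
      _ = (r ^ (n + 1)) ^ 2 * ∫ p, f p ^ 2 ∂V.mu := by ring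

private theorem it_L1 (hM : MOK V M) (n : ℕ) {f : E → ℝ}
    (hf : ContinuousOn f Om) (hc : CS f) :
    ∫ p, |((Ao V M)^[n] f) p| ∂V.mu ≤ ∫ p, |f p| ∂V.mu := by
  induction n with
  | zero => simp
  | succ n ih =>
    rw [Function.iterate_succ_apply']
    exact (Ao_L1 V hM (it_cont V n hf) (it_cs V n hc)).trans ih

private theorem cs_int (V : Ell) {f g : E → ℝ} (hf : ContinuousOn f Om) (hc : CS f)
    (hg : ContinuousOn g Om) (hc' : CS g) :
    (∫ p, f p * g p ∂V.mu) ^ 2 ≤ (∫ p, f p ^ 2 ∂V.mu) * ∫ p, g p ^ 2 ∂V.mu := by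
  have i1 : Integrable (fun p => f p ^ 2) V.mu := by
    refine integrable_cs V (hf.pow 2) (CS.of_imp hc fun p _ h => ?_)
    show f p ^ 2 = 0
    rw [h]; simp
  have i2 : Integrable (fun p => g p ^ 2) V.mu := by
    refine integrable_cs V (hg.pow 2) (CS.of_imp hc' fun p _ h => ?_)
    show g p ^ 2 = 0
    rw [h]; simp
  have i3 : Integrable (fun p => f p * g p) V.mu := by
    refine integrable_cs V (hf.mul hg) (CS.of_imp hc fun p _ h => ?_)
    show f p * g p = 0
    rw [h]; simp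
  have key : ∀ t : ℝ, 0 ≤ (∫ p, f p ^ 2 ∂V.mu) * (t * t) + (2 * ∫ p, f p * g p ∂V.mu) * t +
      ∫ p, g p ^ 2 ∂V.mu := by
    intro t
    have h1 : 0 ≤ ∫ p, (t * f p + g p) ^ 2 ∂V.mu := integral_nonneg fun p => sq_nonneg _
    have h2 : ∫ p, (t * f p + g p) ^ 2 ∂V.mu =
        ∫ p, ((t * t) * f p ^ 2 + (2 * t) * (f p * g p)) + g p ^ 2 ∂V.mu := by
      refine integral_congr_ae (Eventually.of_forall fun p => ?_)
      show (t * f p + g p) ^ 2 = (t * t) * f p ^ 2 + (2 * t) * (f p * g p) + g p ^ 2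
      ring
    have e1 : Integrable (fun p => (t * t) * f p ^ 2) V.mu := i1.const_mul _
    have e2 : Integrable (fun p => (2 * t) * (f p * g p)) V.mu := i3.const_mul _
    have e3 : Integrable (fun p => (t * t) * f p ^ 2 + (2 * t) * (f p * g p)) V.mu := e1.add e2
    rw [h2, integral_add e3 i2, integral_add e1 e2, integral_const_mul,
      integral_const_mul] at h1
    linarith
  have h := discrim_le_zero key
  unfold discrim at h
  nlinarith

private theorem Ao_congr {s s' : E → F} (e : ∀ p ∈ Om, s p = s' p) :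
    ∀ p ∈ Om, Ao V M s p = Ao V M s' p := by
  intro p hp
  unfold Ao Ko
  rw [e p hp]
  congr 2
  exact integral_congr_ae (ae_mu V.toEll fun q hq => by
    show kk V 2 p q • s q = kk V 2 p q • s' q
    rw [e q hq])

private theorem Ao_sum {ι : Type*} (A : Finset ι) {u : ι → E → F}
    (hu : ∀ i ∈ A, ContinuousOn (u i) Om) :
    ∀ p ∈ Om, Ao V M (fun q => ∑ i ∈ A, u i q) p = ∑ i ∈ A, Ao V M (u i) p := by
  intro p hp
  have h1 : Ko V (kk V 2) (fun q => ∑ i ∈ A, u i q) p = ∑ i ∈ A, Ko V (kk V 2) (u i) p := by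
    unfold Ko
    rw [← integral_finset_sum A fun i hi => (kk_ker V 2).1.integrable V (hu i hi) hp]
    refine integral_congr_ae (Eventually.of_forall fun q => ?_)
    show kk V 2 p q • ∑ i ∈ A, u i q = ∑ i ∈ A, kk V 2 p q • u i q
    rw [Finset.smul_sum]
  unfold Ao
  rw [h1, Finset.smul_sum, Finset.smul_sum, ← Finset.sum_add_distrib]

end aux

/-- the counting estimate, for one pair -/
theorem dec_pair [CompleteSpace H] (hχ : IsChi V χ) (D : Decay pi) (hM : MOK V M) :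
    ∃ r : ℝ, 0 < r ∧ r < 1 ∧ ∀ f f' : E → ℝ, ContinuousOn f Om → CS f → ContinuousOn f' Om →
      CS f' → ∀ ξ ∈ D.D, ∀ η ∈ D.D, ∃ C : ℝ, ∀ n : ℕ,
      |B V χ (theta V pi (fun q => ((Ao V M)^[2 * n] f) q • ξ))
        (theta V pi (fun q => f' q • η))| ≤ C * r ^ n := by
  classical
  obtain ⟨ρ, hρ0, hρ1, hρ⟩ := Ao_norm0 V hM
  obtain ⟨K0, hK0, hcnt⟩ := D.cnt
  obtain ⟨x, hx0, hx⟩ : ∃ x : ℝ, 0 < x ∧ Real.exp (K0 * x) * ρ = 1 := by
    refine ⟨-Real.log ρ / K0, ?_, ?_⟩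
    · exact div_pos (neg_pos.2 (Real.log_neg hρ0 hρ1)) hK0
    · rw [mul_div_cancel₀ _ hK0.ne', Real.exp_neg, Real.exp_log hρ0]
      exact inv_mul_cancel₀ hρ0.ne'
  refine ⟨max ρ (Real.exp (-x)), lt_max_of_lt_left hρ0,
    max_lt hρ1 (by rw [← Real.exp_zero]; exact Real.exp_lt_exp.2 (by linarith)), ?_⟩
  intro f f' hf hc hf' hc' ξ hξ η hη
  obtain ⟨C1, hC1⟩ := D.dec η hη ξ hξ
  have hC1n : 0 ≤ C1 := by
    have h := (abs_nonneg _).trans (hC1 1)
    have h' := Real.exp_pos (-(D.len 1))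
    nlinarith
  -- the bound for the sum of the translates
  have habs : ContinuousOn (fun p => |f' p|) Om := hf'.abs
  have hcabs : CS (fun p => |f' p|) := CS.of_imp hc' fun p _ h => by
    show |f' p| = 0
    rw [h, abs_zero]
  have hsumc := tsum_cont V habs hcabs
  obtain ⟨C2, hC2, hC2b⟩ := inv_bd V hsumc (by
    intro g p hp
    show ∑' g', |f' (V.act g' (V.act g p))| = ∑' g', |f' (V.act g' p)|
    rw [← (Equiv.mulRight g).tsum_eq (fun g' => |f' (V.act g' p)|)]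
    refine tsum_congr fun g' => ?_
    show _ = |f' (V.act (g' * g) p)|
    rw [V.act_mul g' g p hp])
  have hfin : ∀ A : Finset G, ∀ p ∈ Om, ∑ g ∈ A, |f' (V.act g⁻¹ p)| ≤ C2 := by
    intro A p hp
    obtain ⟨A0, h1, -⟩ := tsum_act V hcabs (isCompact_singleton (x := p))
      (Set.singleton_subset_iff.2 hp)
    have hsm : Summable fun g => |f' (V.act g p)| :=
      summable_of_ne_finset_zero (s := A0) fun g hg => h1 p rfl g hg
    have hsm' : Summable fun g => |f' (V.act g⁻¹ p)| :=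
      (Equiv.inv G).summable_iff.2 hsm
    have h2 : ∑ g ∈ A, |f' (V.act g⁻¹ p)| ≤ ∑' g, |f' (V.act g⁻¹ p)| :=
      hsm'.sum_le_tsum A fun g _ => abs_nonneg _
    have h3 : ∑' g, |f' (V.act g⁻¹ p)| = ∑' g, |f' (V.act g p)| :=
      (Equiv.inv G).tsum_eq (fun g => |f' (V.act g p)|)
    rw [h3] at h2
    exact h2.trans ((le_abs_self _).trans (hC2b p hp))
  set S : ℝ := Real.sqrt ((∫ p, f p ^ 2 ∂V.mu) * ∫ p, f' p ^ 2 ∂V.mu) with hS
  set T : ℝ := ∫ p, |f p| ∂V.mu with hT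
  have hSn : 0 ≤ S := Real.sqrt_nonneg _
  have hTn : 0 ≤ T := integral_nonneg fun p => abs_nonneg _
  refine ⟨K0 * C1 * S + C1 * C2 * T, fun n => ?_⟩
  set Fn : E → ℝ := (Ao V M)^[2 * n] f with hFn
  have hFc : ContinuousOn Fn Om := it_cont V (2 * n) hf
  have hFs : CS Fn := it_cs V (2 * n) hc
  set I : G → ℝ := fun g => ∫ p, Fn p * f' (V.act g⁻¹ p) ∂V.mu with hI
  have hf'g : ∀ g, ContinuousOn (fun p => f' (V.act g⁻¹ p)) Om := fun g => cont_act V hf' g⁻¹
  have hc'g : ∀ g, CS (fun p => f' (V.act g⁻¹ p)) := fun g => hc'.act V g⁻¹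
  -- pointwise bound
  have hIa : ∀ g, |I g| ≤ ρ ^ (2 * n) * S := by
    intro g
    have h1 := cs_int V.toEll hFc hFs (hf'g g) (hc'g g)
    have h2 : ∫ p, f' (V.act g⁻¹ p) ^ 2 ∂V.mu = ∫ p, f' p ^ 2 ∂V.mu :=
      int_act V g⁻¹ (fun p => f' p ^ 2)
    have h3 := it_norm V hρ (2 * n) hf hc
    have h4 : 0 ≤ ∫ p, f' p ^ 2 ∂V.mu := integral_nonneg fun p => sq_nonneg _
    have h5 : 0 ≤ ∫ p, f p ^ 2 ∂V.mu := integral_nonneg fun p => sq_nonneg _
    rw [h2] at h1
    refine abs_le_of_sq_le_sq ?_ (by positivity)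
    rw [mul_pow, hS, Real.sq_sqrt (mul_nonneg h5 h4)]
    calc I g ^ 2 ≤ (∫ p, Fn p ^ 2 ∂V.mu) * ∫ p, f' p ^ 2 ∂V.mu := h1
      _ ≤ ((ρ ^ (2 * n)) ^ 2 * ∫ p, f p ^ 2 ∂V.mu) * ∫ p, f' p ^ 2 ∂V.mu :=
          mul_le_mul_of_nonneg_right h3 h4
      _ = _ := by ring
  -- sum bound
  have hIb : ∀ A : Finset G, ∑ g ∈ A, |I g| ≤ C2 * T := by
    intro A
    have h1 : ∀ g ∈ A, |I g| ≤ ∫ p, |Fn p| * |f' (V.act g⁻¹ p)| ∂V.mu := by
      intro g _
      refine (abs_integral_le_integral_abs).trans (le_of_eq ?_)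
      refine integral_congr_ae (Eventually.of_forall fun p => ?_)
      exact abs_mul _ _
    refine (Finset.sum_le_sum h1).trans ?_
    have hint : ∀ g ∈ A, Integrable (fun p => |Fn p| * |f' (V.act g⁻¹ p)|) V.mu := by
      intro g _
      refine integrable_cs V.toEll (hFc.abs.mul (hf'g g).abs) (CS.of_imp hFs fun p _ h => ?_)
      show |Fn p| * |f' (V.act g⁻¹ p)| = 0
      rw [h]; simp
    rw [← integral_finset_sum A hint]
    have h2 : ∫ p, ∑ g ∈ A, |Fn p| * |f' (V.act g⁻¹ p)| ∂V.mu ≤ ∫ p, C2 * |Fn p| ∂V.mu := by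
      refine integral_mono_ae (integrable_finset_sum A hint) ?_ (ae_mu V.toEll fun p hp => ?_)
      · refine (integrable_cs V.toEll hFc.abs (CS.of_imp hFs fun p _ h => ?_)).const_mul _
        show |Fn p| = 0
        rw [h]; simp
      · show ∑ g ∈ A, |Fn p| * |f' (V.act g⁻¹ p)| ≤ C2 * |Fn p|
        rw [← Finset.mul_sum, mul_comm C2]
        exact mul_le_mul_of_nonneg_left (hfin A p hp) (abs_nonneg _)
    refine h2.trans ?_
    rw [integral_const_mul]
    exact mul_le_mul_of_nonneg_left (it_L1 V hM (2 * n) hf hc) hC2.le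
  -- the formula
  have hform : B V χ (theta V pi (fun q => Fn q • ξ)) (theta V pi (fun q => f' q • η)) =
      ∑' g, I g * ⟪ξ, pi g η⟫_ℝ := by
    have c1 : ContinuousOn (fun q => Fn q • ξ) Om := hFc.smul continuousOn_const
    have c2 : ContinuousOn (fun q => f' q • η) Om := hf'.smul continuousOn_const
    have c3 : CS (fun q => Fn q • ξ) := CS.smul_left hFs
    have c4 : CS (fun q => f' q • η) := CS.smul_left hc'
    rw [B_theta V pi hχ c1 c3 c2 c4]
    refine tsum_congr fun g => ?_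
    rw [hI]
    show _ = (∫ p, Fn p * f' (V.act g⁻¹ p) ∂V.mu) * ⟪ξ, pi g η⟫_ℝ
    rw [← integral_mul_const]
    refine integral_congr_ae (Eventually.of_forall fun p => ?_)
    show ⟪Fn p • ξ, pi g (f' (V.act g⁻¹ p) • η)⟫_ℝ = Fn p * f' (V.act g⁻¹ p) * ⟪ξ, pi g η⟫_ℝ
    rw [map_smul, real_inner_smul_left, real_inner_smul_right]
    ring
  -- finiteness
  obtain ⟨K, hK, hKO, hK0'⟩ := hFs
  obtain ⟨K', hK', hKO', hK0''⟩ := hc'
  have hfinset := fin_act V hK hKO hK' hKO'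
  set A : Finset G := hfinset.toFinset.image (fun g => g⁻¹) with hA
  have hIz : ∀ g, g ∉ A → I g = 0 := by
    intro g hg
    refine (integral_congr_ae (ae_mu V.toEll fun p hp => ?_)).trans (integral_zero _ _)
    show Fn p * f' (V.act g⁻¹ p) = 0
    by_cases hpK : p ∈ K
    · have h2 : V.act g⁻¹ p ∉ K' := by
        intro hm
        apply hg
        rw [hA, Finset.mem_image]
        exact ⟨g⁻¹, hfinset.mem_toFinset.2 ⟨p, hpK, hm⟩, inv_inv g⟩
      rw [hK0'' _ (V.act_mem _ _ hp) h2, mul_zero]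
    · rw [hK0' p hp hpK, zero_mul]
  have hform2 : B V χ (theta V pi (fun q => Fn q • ξ)) (theta V pi (fun q => f' q • η)) =
      ∑ g ∈ A, I g * ⟪ξ, pi g η⟫_ℝ := by
    rw [hform]
    exact tsum_eq_sum fun g hg => by rw [hIz g hg, zero_mul]
  rw [hform2]
  have hterm : ∀ g, |I g * ⟪ξ, pi g η⟫_ℝ| ≤ |I g| * (C1 * Real.exp (-(D.len g))) := by
    intro g
    rw [abs_mul, real_inner_comm]
    exact mul_le_mul_of_nonneg_left (hC1 g) (abs_nonneg _)
  have hxn : 0 ≤ x * n := by positivity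
  obtain ⟨hcf, hcc⟩ := hcnt (x * n) hxn
  have hsplit : ∑ g ∈ A, |I g| * (C1 * Real.exp (-(D.len g))) =
      ∑ g ∈ A.filter (fun g => D.len g ≤ x * n), |I g| * (C1 * Real.exp (-(D.len g))) +
      ∑ g ∈ A.filter (fun g => ¬ D.len g ≤ x * n), |I g| * (C1 * Real.exp (-(D.len g))) :=
    (Finset.sum_filter_add_sum_filter_not A _ _).symm
  have hρn : 0 ≤ ρ ^ (2 * n) := by positivity
  have hp1 : ∑ g ∈ A.filter (fun g => D.len g ≤ x * n), |I g| * (C1 * Real.exp (-(D.len g))) ≤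
      K0 * C1 * S * ρ ^ n := by
    have h1 : ∀ g ∈ A.filter (fun g => D.len g ≤ x * n),
        |I g| * (C1 * Real.exp (-(D.len g))) ≤ ρ ^ (2 * n) * S * C1 := by
      intro g _
      have h2 : Real.exp (-(D.len g)) ≤ 1 := Real.exp_le_one_iff.2 (by linarith [D.len_nn g])
      have h3 : C1 * Real.exp (-(D.len g)) ≤ C1 := by nlinarith
      exact mul_le_mul (hIa g) h3 (mul_nonneg hC1n (Real.exp_pos _).le) (by positivity)
    have h2 : ((A.filter (fun g => D.len g ≤ x * n)).card : ℝ) ≤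
        K0 * Real.exp (K0 * (x * n)) := by
      refine le_trans ?_ hcc
      have : (A.filter (fun g => D.len g ≤ x * n)).card ≤ {g | D.len g ≤ x * n}.ncard := by
        rw [← Set.ncard_coe_finset]
        refine Set.ncard_le_ncard (fun g hg => ?_) hcf
        exact (Finset.mem_filter.1 (Finset.mem_coe.1 hg)).2
      exact_mod_cast this
    calc ∑ g ∈ A.filter (fun g => D.len g ≤ x * n), |I g| * (C1 * Real.exp (-(D.len g)))
        ≤ ∑ g ∈ A.filter (fun g => D.len g ≤ x * n), ρ ^ (2 * n) * S * C1 :=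
          Finset.sum_le_sum h1
      _ = ((A.filter (fun g => D.len g ≤ x * n)).card : ℝ) * (ρ ^ (2 * n) * S * C1) := by
          rw [Finset.sum_const, nsmul_eq_mul]
      _ ≤ (K0 * Real.exp (K0 * (x * n))) * (ρ ^ (2 * n) * S * C1) :=
          mul_le_mul_of_nonneg_right h2 (by positivity)
      _ = K0 * C1 * S * ρ ^ n := by
          have h3 : Real.exp (K0 * (x * n)) = (Real.exp (K0 * x)) ^ n := by
            rw [← Real.exp_nat_mul]; ring_nf
          have h4 : (Real.exp (K0 * x)) ^ n * ρ ^ n = 1 := by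
            rw [← mul_pow, hx, one_pow]
          rw [h3, show ρ ^ (2 * n) = ρ ^ n * ρ ^ n by rw [two_mul, pow_add]]
          calc K0 * Real.exp (K0 * x) ^ n * (ρ ^ n * ρ ^ n * S * C1)
              = K0 * C1 * S * ρ ^ n * (Real.exp (K0 * x) ^ n * ρ ^ n) := by ring
            _ = K0 * C1 * S * ρ ^ n := by rw [h4, mul_one]
  have hp2 : ∑ g ∈ A.filter (fun g => ¬ D.len g ≤ x * n),
      |I g| * (C1 * Real.exp (-(D.len g))) ≤ C1 * C2 * T * Real.exp (-x) ^ n := by
    have h1 : ∀ g ∈ A.filter (fun g => ¬ D.len g ≤ x * n),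
        |I g| * (C1 * Real.exp (-(D.len g))) ≤ |I g| * (C1 * Real.exp (-x) ^ n) := by
      intro g hg
      have hg2 := not_le.1 (Finset.mem_filter.1 hg).2
      refine mul_le_mul_of_nonneg_left (mul_le_mul_of_nonneg_left ?_ hC1n) (abs_nonneg _)
      rw [← Real.exp_nat_mul]
      exact Real.exp_le_exp.2 (by nlinarith)
    calc ∑ g ∈ A.filter (fun g => ¬ D.len g ≤ x * n), |I g| * (C1 * Real.exp (-(D.len g)))
        ≤ ∑ g ∈ A.filter (fun g => ¬ D.len g ≤ x * n), |I g| * (C1 * Real.exp (-x) ^ n) :=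
          Finset.sum_le_sum h1
      _ = (∑ g ∈ A.filter (fun g => ¬ D.len g ≤ x * n), |I g|) * (C1 * Real.exp (-x) ^ n) :=
          (Finset.sum_mul _ _ _).symm
      _ ≤ (C2 * T) * (C1 * Real.exp (-x) ^ n) :=
          mul_le_mul_of_nonneg_right (hIb _) (by positivity)
      _ = _ := by ring
  have hm1 : ρ ^ n ≤ max ρ (Real.exp (-x)) ^ n :=
    pow_le_pow_left₀ hρ0.le (le_max_left _ _) n
  have hm2 : Real.exp (-x) ^ n ≤ max ρ (Real.exp (-x)) ^ n :=
    pow_le_pow_left₀ (Real.exp_pos _).le (le_max_right _ _) n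
  calc |∑ g ∈ A, I g * ⟪ξ, pi g η⟫_ℝ| ≤ ∑ g ∈ A, |I g * ⟪ξ, pi g η⟫_ℝ| :=
        Finset.abs_sum_le_sum_abs _ _
    _ ≤ ∑ g ∈ A, |I g| * (C1 * Real.exp (-(D.len g))) := Finset.sum_le_sum fun g _ => hterm g
    _ ≤ K0 * C1 * S * ρ ^ n + C1 * C2 * T * Real.exp (-x) ^ n := by
        rw [hsplit]; exact add_le_add hp1 hp2
    _ ≤ K0 * C1 * S * max ρ (Real.exp (-x)) ^ n +
        C1 * C2 * T * max ρ (Real.exp (-x)) ^ n :=
        add_le_add (mul_le_mul_of_nonneg_left hm1 (by positivity))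
          (mul_le_mul_of_nonneg_left hm2 (by positivity))
    _ = _ := by ring

private theorem it_sec [CompleteSpace H] (n : ℕ) {s : E → H} (hs : ContinuousOn s Om)
    (h : IsSec V pi s) : IsSec V pi ((Ao V M)^[n] s) := by
  induction n with
  | zero => exact h
  | succ n ih =>
    rw [Function.iterate_succ_apply']
    exact Ao_sec V pi (it_cont V n hs) ih

private theorem it_symm [CompleteSpace H] (hχ : IsChi V χ) {s : E → H}
    (hs : ContinuousOn s Om) (hs' : IsSec V pi s) (k m : ℕ) :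
    ∀ t : E → H, ContinuousOn t Om → IsSec V pi t →
      B V χ ((Ao V M)^[k + m] s) t = B V χ ((Ao V M)^[k] s) ((Ao V M)^[m] t) := by
  induction m with
  | zero => intro t _ _; rfl
  | succ m ih =>
    intro t ht ht'
    rw [← add_assoc, Function.iterate_succ_apply', Function.iterate_succ_apply,
      Ao_symm V pi hχ (it_cont V (k + m) hs) ht (it_sec V pi (k + m) hs hs') ht',
      ih _ (Ao_cont V ht) (Ao_sec V pi ht ht')]

private theorem it_fty [CompleteSpace H] {n : ℕ} {f : Fin n → E → ℝ} {ξ : Fin n → H}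
    (hf : ∀ i, ContinuousOn (f i) Om ∧ CS (f i)) {s : E → H}
    (hs : ∀ p ∈ Om, s p = ∑ i, theta V pi (fun q => f i q • ξ i) p) (m : ℕ) :
    ∀ p ∈ Om, (Ao V M)^[m] s p =
      ∑ i, theta V pi (fun q => ((Ao V M)^[m] (f i)) q • ξ i) p := by
  induction m with
  | zero => exact hs
  | succ m ih =>
    intro p hp
    rw [Function.iterate_succ_apply', Ao_congr V ih p hp]
    have hc : ∀ i, ContinuousOn (theta V pi (fun q => ((Ao V M)^[m] (f i)) q • ξ i)) Om := by
      intro i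
      have c1 : ContinuousOn (fun q => ((Ao V M)^[m] (f i)) q • ξ i) Om :=
        (it_cont V m (hf i).1).smul continuousOn_const
      have c3 : CS (fun q => ((Ao V M)^[m] (f i)) q • ξ i) := CS.smul_left (it_cs V m (hf i).2)
      exact (theta_sec V pi c1 c3).1
    rw [Ao_sum V Finset.univ (fun i _ => hc i) p hp]
    refine Finset.sum_congr rfl fun i _ => ?_
    rw [Function.iterate_succ_apply']
    exact Ao_theta V pi (it_cont V m (hf i).1) (it_cs V m (hf i).2) (ξ i) p hp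

private theorem B_sum (hχ : IsChi V χ) {ι : Type*} (A : Finset ι) {u : ι → E → H} {t : E → H}
    (hu : ∀ i ∈ A, ContinuousOn (u i) Om) (ht : ContinuousOn t Om) :
    B V χ (fun p => ∑ i ∈ A, u i p) t = ∑ i ∈ A, B V χ (u i) t := by
  classical
  induction A using Finset.induction_on with
  | empty =>
    simp only [Finset.sum_empty]
    unfold B
    simp
  | insert a A ha ih =>
    have h1 : B V χ (fun p => ∑ i ∈ insert a A, u i p) t =
        B V χ (fun p => u a p + ∑ i ∈ A, u i p) t :=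
      B_congr V (fun p _ => Finset.sum_insert ha) (fun p _ => rfl)
    rw [h1, B_add V hχ (hu a (Finset.mem_insert_self _ _))
      (continuousOn_finset_sum A fun i hi => hu i (Finset.mem_insert_of_mem hi)) ht,
      ih (fun i hi => hu i (Finset.mem_insert_of_mem hi)), Finset.sum_insert ha]

/-- exponential decay on the dense subspace -/
theorem dec_bd [CompleteSpace H] (hχ : IsChi V χ) (D : Decay pi) (hM : MOK V M) :
    ∃ r : ℝ, 0 < r ∧ r < 1 ∧ ∀ s : E → H, Fty V pi D s → ContinuousOn s Om → IsSec V pi s →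
      ∃ C : ℝ, ∀ n : ℕ, B V χ ((Ao V M)^[n] s) ((Ao V M)^[n] s) ≤ C * r ^ n := by
  obtain ⟨r, hr0, hr1, hr⟩ := dec_pair V pi hχ D hM
  refine ⟨r, hr0, hr1, ?_⟩
  rintro s ⟨N, f, ξ, hf, hξ, hs⟩ hsc hss
  choose C hC using fun i j => hr (f i) (f j) (hf i).1 (hf i).2 (hf j).1 (hf j).2 (ξ i) (hξ i)
    (ξ j) (hξ j)
  refine ⟨∑ i, ∑ j, C i j, fun n => ?_⟩
  have h1 : B V χ ((Ao V M)^[n] s) ((Ao V M)^[n] s) = B V χ ((Ao V M)^[2 * n] s) s := by
    rw [two_mul, it_symm V pi hχ hsc hss n n s hsc hss]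
  have hcu : ∀ i, ContinuousOn
      (theta V pi (fun q => ((Ao V M)^[2 * n] (f i)) q • ξ i)) Om := fun i =>
    (theta_sec V pi ((it_cont V (2 * n) (hf i).1).smul continuousOn_const)
        (CS.smul_left (it_cs V (2 * n) (hf i).2))).1
  have hcv : ∀ i, ContinuousOn (theta V pi (fun q => f i q • ξ i)) Om := fun i =>
    (theta_sec V pi ((hf i).1.smul continuousOn_const) (CS.smul_left (hf i).2)).1
  have h2 : B V χ ((Ao V M)^[2 * n] s) s =
      B V χ (fun p => ∑ i, theta V pi (fun q => ((Ao V M)^[2 * n] (f i)) q • ξ i) p)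
        (fun p => ∑ i, theta V pi (fun q => f i q • ξ i) p) :=
    B_congr V (it_fty V pi hf hs (2 * n)) hs
  rw [h1, h2, B_sum V hχ Finset.univ (fun i _ => hcu i)
    (continuousOn_finset_sum _ fun i _ => hcv i), Finset.sum_mul]
  refine Finset.sum_le_sum fun i _ => ?_
  rw [B_symm, B_sum V hχ Finset.univ (fun j _ => hcv j) (hcu i), Finset.sum_mul]
  refine Finset.sum_le_sum fun j _ => ?_
  rw [B_symm]
  exact (le_abs_self _).trans (hC i j n)

end Pool.Agent.MPd01a95.LN
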