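import Mathlib
import Pool.Agent.Lib.MP_d01a95_gt_L.LDefs
import Pool.Agent.Lib.MP_d01a95_gt_L.LBas
import Pool.Agent.Lib.MP_d01a95_gt_L.LCs
import Pool.Agent.Lib.MP_d01a95_gt_L.LAlg
import Pool.Agent.Lib.MP_d01a95_gt_L.LGrn
import Pool.Agent.Lib.MP_d01a95_gt_L.LInv
import Pool.Agent.Lib.MP_d01a95_gt_L.LUnf
import Pool.Agent.Lib.MP_d01a95_gt_L.LBf
import Pool.Agent.Lib.MP_d01a95_gt_L.LChi
import Pool.Agent.Lib.MP_d01a95_gt_L.LGq
import Pool.Agent.Lib.MP_d01a95_gt_L.LKer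
import Pool.Agent.Lib.MP_d01a95_gt_L.LSmk
import Pool.Agent.Lib.MP_d01a95_gt_L.LSg
import Pool.Agent.Lib.MP_d01a95_gt_L.LMar
import Pool.Agent.Lib.MP_d01a95_gt_L.LDec

/-!
# Module Den: density of the finite sums of averages of simple tensors
-/

set_option autoImplicit false
set_option linter.all false

open MeasureTheory Filter Topology
open scoped ContDiff InnerProductSpace ENNReal

namespace Pool.Agent.MPd01a95.LN

variable {G : Type} [Group G] (V : VG G) {χ : E → ℝ} {M : ℝ}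
variable {H : Type} [NormedAddCommGroup H] [InnerProductSpace ℝ H]
variable (pi : G →* (H ≃ₗᵢ[ℝ] H))

/-- approximation of a continuous function with compact support by simple tensors -/
private theorem LDen_approx {u : E → H} (hu : UniformContinuous u) {K K1 : Set E}
    (hK : IsCompact K) (h0 : ∀ p, p ∉ K → u p = 0) (hK1 : K ⊆ interior K1) {S : Set H}
    (hS : Dense S) {e : ℝ} (he : 0 < e) :
    ∃ (T : Finset E) (f : E → E → ℝ) (ξ : E → H), (∀ x, Continuous (f x)) ∧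
      (∀ x ∈ T, ∀ p, p ∉ K1 → f x p = 0) ∧ (∀ x, ξ x ∈ S) ∧
      ∀ p, ‖u p - ∑ x ∈ T, f x p • ξ x‖ ≤ e := by
  classical
  obtain ⟨d1, hd1, hd1'⟩ := Metric.uniformContinuous_iff.1 hu (e / 2) (by positivity)
  obtain ⟨d2, hd2, hd2'⟩ := hK.exists_thickening_subset_open isOpen_interior hK1
  obtain ⟨d, hd, hdd1, hdd2⟩ : ∃ d : ℝ, 0 < d ∧ d ≤ d1 ∧ d ≤ d2 :=
    ⟨min d1 d2, lt_min hd1 hd2, min_le_left _ _, min_le_right _ _⟩
  obtain ⟨t, htK, htf, hcov⟩ := hK.finite_cover_balls hd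
  obtain ⟨T, hT⟩ : ∃ T : Finset E, ∀ x, x ∈ T ↔ x ∈ t := ⟨htf.toFinset, fun x => by simp⟩
  obtain ⟨g, hg⟩ : ∃ g : E → E → ℝ, g = fun x p => max (d - dist p x) 0 := ⟨_, rfl⟩
  have hgc : ∀ x, Continuous (g x) := fun x => by
    rw [hg]
    exact (continuous_const.sub (continuous_id.dist continuous_const)).max continuous_const
  have hg0 : ∀ x p, 0 ≤ g x p := fun x p => by rw [hg]; exact le_max_right _ _
  have hgz : ∀ x p, d ≤ dist p x → g x p = 0 := fun x p h => by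
    rw [hg]
    exact max_eq_right (by linarith)
  have hgp : ∀ x p, dist p x < d → 0 < g x p := fun x p h => by
    rw [hg]
    exact lt_max_of_lt_left (by linarith)
  obtain ⟨Sg, hSg⟩ : ∃ s : E → ℝ, s = fun p => ∑ x ∈ T, g x p := ⟨_, rfl⟩
  have hSgc : Continuous Sg := by
    rw [hSg]
    exact continuous_finset_sum _ fun x _ => hgc x
  have hSg0 : ∀ p, 0 ≤ Sg p := fun p => by rw [hSg]; exact Finset.sum_nonneg fun x _ => hg0 x p
  have hSgp : ∀ p ∈ K, 0 < Sg p := by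
    intro p hp
    obtain ⟨x, hx, hpx⟩ := Set.mem_iUnion₂.1 (hcov hp)
    rw [hSg]
    exact Finset.sum_pos' (fun x _ => hg0 x p) ⟨x, (hT x).2 hx, hgp x p hpx⟩
  obtain ⟨w, hw, hwK⟩ : ∃ w : ℝ, 0 < w ∧ ∀ p ∈ K, w ≤ Sg p := by
    rcases K.eq_empty_or_nonempty with h | h
    · exact ⟨1, one_pos, fun p hp => by rw [h] at hp; exact hp.elim⟩
    · obtain ⟨p0, hp0, hmin⟩ := hK.exists_isMinOn h hSgc.continuousOn
      exact ⟨Sg p0, hSgp p0 hp0, fun p hp => hmin hp⟩
  have hmp : ∀ p, 0 < max (Sg p) w := fun p => lt_max_of_lt_right hw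
  obtain ⟨f, hf⟩ : ∃ f : E → E → ℝ, f = fun x p => g x p / max (Sg p) w := ⟨_, rfl⟩
  have hf0 : ∀ x p, 0 ≤ f x p := fun x p => by
    rw [hf]
    exact div_nonneg (hg0 x p) (hmp p).le
  have hsum : ∀ p, ∑ x ∈ T, f x p = Sg p / max (Sg p) w := fun p => by
    rw [hf, hSg]
    exact (Finset.sum_div _ _ _).symm
  have hsum1 : ∀ p, ∑ x ∈ T, f x p ≤ 1 := fun p => by
    rw [hsum, div_le_one (hmp p)]
    exact le_max_left _ _
  have hsumK : ∀ p ∈ K, ∑ x ∈ T, f x p = 1 := fun p hp => by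
    rw [hsum, max_eq_left (hwK p hp), div_self (hSgp p hp).ne']
  have hξ : ∀ x, ∃ ξ ∈ S, ‖u x - ξ‖ ≤ e / 2 := by
    intro x
    obtain ⟨y, hy, hyS⟩ := hS.exists_dist_lt (u x) (ε := e / 2) (by positivity)
    exact ⟨y, hy, by rw [← dist_eq_norm]; exact hyS.le⟩
  choose ξ hξS hξd using hξ
  refine ⟨T, f, ξ, fun x => ?_, fun x hx p hp => ?_, hξS, fun p => ?_⟩
  · rw [hf]
    exact (hgc x).div (hSgc.max continuous_const) fun p => (hmp p).ne'
  · have h1 : g x p = 0 := by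
      refine hgz x p ?_
      by_contra hlt
      rw [not_le] at hlt
      refine hp (interior_subset (hd2' ?_))
      exact Metric.mem_thickening_iff.2 ⟨x, htK ((hT x).1 hx), hlt.trans_le hdd2⟩
    rw [hf]
    show g x p / _ = 0
    rw [h1, zero_div]
  · have h1 : u p - ∑ x ∈ T, f x p • ξ x = ∑ x ∈ T, f x p • (u p - ξ x) := by
      have h2 : (∑ x ∈ T, f x p) • u p = u p := by
        by_cases hp : p ∈ K
        · rw [hsumK p hp, one_smul]
        · rw [h0 p hp, smul_zero]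
      simp only [smul_sub, Finset.sum_sub_distrib]
      rw [← Finset.sum_smul, h2]
    rw [h1]
    refine (norm_sum_le _ _).trans ?_
    have h3 : ∀ x ∈ T, ‖f x p • (u p - ξ x)‖ ≤ f x p * e := by
      intro x hx
      rw [norm_smul, Real.norm_of_nonneg (hf0 x p)]
      by_cases hxp : dist p x < d
      · refine mul_le_mul_of_nonneg_left ?_ (hf0 x p)
        have h4 : ‖u p - u x‖ ≤ e / 2 := by
          rw [← dist_eq_norm]
          exact (hd1' (hxp.trans_le hdd1)).le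
        have h5 : u p - ξ x = (u p - u x) + (u x - ξ x) := by abel
        rw [h5]
        refine (norm_add_le _ _).trans ?_
        linarith [hξd x]
      · have h4 : f x p = 0 := by
          rw [hf]
          show g x p / _ = 0
          rw [hgz x p (not_lt.1 hxp), zero_div]
        rw [h4, zero_mul, zero_mul]
    refine (Finset.sum_le_sum h3).trans ?_
    rw [← Finset.sum_mul]
    exact (mul_le_mul_of_nonneg_right (hsum1 p) he.le).trans (one_mul e).le

private theorem LDen_sum {ι : Type} (T : Finset ι) {u : ι → E → H} (hu : ∀ i, CS (u i)) :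
    ∀ p ∈ Om, theta V pi (fun q => ∑ i ∈ T, u i q) p = ∑ i ∈ T, theta V pi (u i) p := by
  classical
  induction T using Finset.induction_on with
  | empty =>
    intro p _
    simp [theta]
  | insert a s ha ih =>
    intro p hp
    have h1 := theta_add V pi (hu a) (CS.sum s (fun i _ => hu i)) p hp
    have h2 : (fun q => ∑ i ∈ insert a s, u i q) = fun q => u a q + ∑ i ∈ s, u i q := by
      funext q
      rw [Finset.sum_insert ha]
    rw [h2, h1, ih p hp, Finset.sum_insert ha]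

/-- density of the finite sums -/
theorem Fty_dense [CompleteSpace H] (hχ : IsChi V χ) (D : Decay pi) {s : E → H}
    (hs : ContinuousOn s Om) (hs' : IsSec V pi s) {δ : ℝ} (hδ : 0 < δ) :
    ∃ t : E → H, Fty V pi D t ∧ ContinuousOn t Om ∧ IsSec V pi t ∧
      B V χ (fun p => s p - t p) (fun p => s p - t p) ≤ δ := by
  classical
  obtain ⟨τ, hτ⟩ : ∃ τ : E → H, τ = fun q => χ q • s q := ⟨_, rfl⟩
  have hτc : ContinuousOn τ Om := by
    rw [hτ]
    exact hχ.smo.cont.smul hs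
  have hτs : CS τ := by
    rw [hτ]
    exact CS.smul_left hχ.cs
  have hτt : ∀ p ∈ Om, theta V pi τ p = s p := by
    rw [hτ]
    exact theta_chi V pi hχ hs'
  obtain ⟨K, hK, hO, h0⟩ := id hτs
  obtain ⟨K1, hK1, hO1, hK1'⟩ := exists_nhd hK hO
  obtain ⟨C, hC, hCb⟩ := theta_bd V pi hχ hK1 hO1
  obtain ⟨e, he, heC⟩ : ∃ e : ℝ, 0 < e ∧ C * e ^ 2 ≤ δ := by
    refine ⟨Real.sqrt (δ / C), Real.sqrt_pos.2 (by positivity), ?_⟩
    rw [Real.sq_sqrt (by positivity), mul_div_cancel₀ _ hC.ne']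
  obtain ⟨h1, h2, h3⟩ := CS.indicator_cont hτc hτs
  have hu : UniformContinuous (Om.indicator τ) := by
    exact h2.uniformContinuous_of_continuous h1
  have h0' : ∀ p, p ∉ K → Om.indicator τ p = 0 := by
    intro p hp
    by_cases hpO : p ∈ Om
    · rw [Set.indicator_of_mem hpO, h0 p hpO hp]
    · exact Set.indicator_of_notMem hpO _
  obtain ⟨T, f, ξ, hfc, hfz, hξ, hb⟩ := LDen_approx hu hK h0' hK1' D.dense he
  have hfs : ∀ x ∈ T, CS (f x) := fun x hx => ⟨K1, hK1, hO1, fun p _ hp => hfz x hx p hp⟩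
  obtain ⟨n, φ⟩ : ∃ n : ℕ, Nonempty (Fin n ≃ T) := ⟨T.card, ⟨T.equivFin.symm⟩⟩
  obtain ⟨φ⟩ := φ
  have hcs : ∀ i, CS (fun q => f (φ i) q • ξ (φ i)) := fun i =>
    CS.smul_left (hfs (φ i) (φ i).2)
  have hcc : ∀ i, ContinuousOn (fun q => f (φ i) q • ξ (φ i)) Om := fun i =>
    ((hfc (φ i)).smul continuous_const).continuousOn
  obtain ⟨t, ht⟩ : ∃ t : E → H, t = fun p => ∑ i, theta V pi (fun q => f (φ i) q • ξ (φ i)) p :=
    ⟨_, rfl⟩
  refine ⟨t, ⟨n, fun i => f (φ i), fun i => ξ (φ i), fun i => ⟨(hfc _).continuousOn,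
    hfs (φ i) (φ i).2⟩, fun i => hξ _, fun p _ => by rw [ht]⟩, ?_, ?_, ?_⟩
  · rw [ht]
    exact continuousOn_finset_sum _ fun i _ => (theta_sec V pi (hcc i) (hcs i)).1
  · intro g p hp
    rw [ht]
    show ∑ i, theta V pi (fun q => f (φ i) q • ξ (φ i)) (V.act g p) =
      pi g (∑ i, theta V pi (fun q => f (φ i) q • ξ (φ i)) p)
    rw [map_sum]
    exact Finset.sum_congr rfl fun i _ => (theta_sec V pi (hcc i) (hcs i)).2 g p hp
  · obtain ⟨σ, hσ⟩ : ∃ σ : E → H, σ = fun q => τ q - ∑ i, f (φ i) q • ξ (φ i) := ⟨_, rfl⟩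
    have hSgc : ContinuousOn (fun q => ∑ i, f (φ i) q • ξ (φ i)) Om :=
      continuousOn_finset_sum _ fun i _ => hcc i
    have hσc : ContinuousOn σ Om := by
      rw [hσ]
      exact hτc.sub hSgc
    have hσ0 : ∀ p ∈ Om, p ∉ K1 → σ p = 0 := by
      intro p hp hpK
      rw [hσ]
      show τ p - ∑ i, f (φ i) p • ξ (φ i) = 0
      rw [h0 p hp (fun h => hpK (interior_subset (hK1' h))), zero_sub, neg_eq_zero]
      exact Finset.sum_eq_zero fun i _ => by rw [hfz _ (φ i).2 p hpK, zero_smul]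
    have hsumT : ∀ p, ∑ i, f (φ i) p • ξ (φ i) = ∑ x ∈ T, f x p • ξ x := by
      intro p
      rw [Equiv.sum_comp φ (fun x : T => f x p • ξ x)]
      exact (Finset.sum_coe_sort T (fun x => f x p • ξ x))
    have hσb : ∀ p ∈ Om, ‖σ p‖ ≤ e := by
      intro p hp
      have h4 := hb p
      rw [Set.indicator_of_mem hp, ← hsumT] at h4
      rw [hσ]
      exact h4
    have hσt : ∀ p ∈ Om, s p - t p = theta V pi σ p := by
      intro p hp
      have h4 := theta_add V pi (τ := σ) (τ' := fun q => ∑ i, f (φ i) q • ξ (φ i))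
        ⟨K1, hK1, hO1, hσ0⟩ (CS.sum _ fun i _ => hcs i) p hp
      have h5 : (fun q => σ q + ∑ i, f (φ i) q • ξ (φ i)) = τ := by
        funext q
        rw [hσ]
        exact sub_add_cancel _ _
      rw [h5, hτt p hp, LDen_sum V pi Finset.univ hcs p hp] at h4
      rw [h4, ht]
      exact add_sub_cancel_right _ _
    have h6 : B V χ (fun p => s p - t p) (fun p => s p - t p) =
        B V χ (theta V pi σ) (theta V pi σ) := by
      unfold B
      refine integral_congr_ae (ae_mu V.toEll fun p hp => ?_)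
      show χ p * ⟪s p - t p, s p - t p⟫_ℝ = χ p * ⟪theta V pi σ p, theta V pi σ p⟫_ℝ
      rw [hσt p hp]
    rw [h6]
    exact (hCb σ hσc hσ0 e hσb).trans heC

end Pool.Agent.MPd01a95.LN
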