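import Mathlib
import Pool.Agent.Lib.MP_d01a95_gt_L.LDefs
import Pool.Agent.Lib.MP_d01a95_gt_L.LBas
import Pool.Agent.Lib.MP_d01a95_gt_L.LCs
import Pool.Agent.Lib.MP_d01a95_gt_L.LAlg
import Pool.Agent.Lib.MP_d01a95_gt_L.LGrn
import Pool.Agent.Lib.MP_d01a95_gt_L.LInv
import Pool.Agent.Lib.MP_d01a95_gt_L.LUnf
import Pool.Agent.Lib.MP_d01a95_gt_L.LBf
import Pool.Agent.Lib.MP_d01a95_gt_L.LChi
import Pool.Agent.Lib.MP_d01a95_gt_L.LGq
import Pool.Agent.Lib.MP_d01a95_gt_L.LKer
import Pool.Agent.Lib.MP_d01a95_gt_L.LSmk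
import Pool.Agent.Lib.MP_d01a95_gt_L.LSg
import Pool.Agent.Lib.MP_d01a95_gt_L.LMar
import Pool.Agent.Lib.MP_d01a95_gt_L.LDec
import Pool.Agent.Lib.MP_d01a95_gt_L.LDen

/-!
# Module Nrm: the norm of the Markov operator on sections is smaller than one
-/

set_option autoImplicit false
set_option linter.all false

open MeasureTheory Filter Topology
open scoped ContDiff InnerProductSpace ENNReal

namespace Pool.Agent.MPd01a95.LN

variable {G : Type} [Group G] (V : VG G) {χ : E → ℝ} {M : ℝ}
variable {H : Type} [NormedAddCommGroup H] [InnerProductSpace ℝ H]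
variable (pi : G →* (H ≃ₗᵢ[ℝ] H))

/-- log convexity: a symmetric operator with exponentially decaying powers -/
theorem log_convex {x : ℕ → ℝ} (h0 : ∀ n, 0 ≤ x n) (hc : ∀ n, x (n + 1) ^ 2 ≤ x n * x (n + 2))
    {r C : ℝ} (hr : 0 < r) (hb : ∀ n, x n ≤ C * r ^ n) : x 1 ≤ r * x 0 := by
  by_contra hlt
  have hlt : r * x 0 < x 1 := not_le.1 hlt
  have hx0 : 0 < x 0 := by
    rcases (h0 0).lt_or_eq with h | h
    · exact h
    · exfalso
      have h1 := hc 0
      rw [← h] at h1 hlt
      have h2 : 0 < x 1 := by simpa using hlt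
      have h3 : 0 < x 1 ^ 2 := pow_pos h2 2
      simp only [zero_add, zero_mul] at h1
      linarith
  set q : ℝ := x 1 / x 0 with hq
  have hqr : r < q := by
    rw [hq, lt_div_iff₀ hx0]
    exact hlt
  have hq0 : 0 < q := hr.trans hqr
  have hstep : ∀ n, 0 < x n ∧ q * x n ≤ x (n + 1) := by
    intro n
    induction n with
    | zero =>
      refine ⟨hx0, ?_⟩
      rw [hq, div_mul_cancel₀ _ hx0.ne']
    | succ n ih =>
      obtain ⟨h1, h2⟩ := ih
      have h3 : 0 < x (n + 1) := lt_of_lt_of_le (mul_pos hq0 h1) h2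
      refine ⟨h3, ?_⟩
      have h4 := hc n
      have h5 : x (n + 1) * (q * x n) ≤ x (n + 1) * x (n + 1) :=
        mul_le_mul_of_nonneg_left h2 h3.le
      have h6 : x n * (q * x (n + 1)) ≤ x n * x (n + 2) := by
        calc x n * (q * x (n + 1)) = x (n + 1) * (q * x n) := by ring
          _ ≤ x (n + 1) * x (n + 1) := h5
          _ = x (n + 1) ^ 2 := by ring
          _ ≤ x n * x (n + 2) := h4
      exact le_of_mul_le_mul_left h6 h1
  have hlow : ∀ n, x 0 * q ^ n ≤ x n := by
    intro n
    induction n with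
    | zero => simp
    | succ n ih =>
      calc x 0 * q ^ (n + 1) = q * (x 0 * q ^ n) := by ring
        _ ≤ q * x n := mul_le_mul_of_nonneg_left ih hq0.le
        _ ≤ x (n + 1) := (hstep n).2
  have hbig : ∀ n : ℕ, (q / r) ^ n ≤ C / x 0 := by
    intro n
    rw [div_pow, div_le_div_iff₀ (pow_pos hr n) hx0]
    calc q ^ n * x 0 = x 0 * q ^ n := by ring
      _ ≤ x n := hlow n
      _ ≤ C * r ^ n := hb n
  have h1 : 1 < q / r := by
    rw [one_lt_div hr]
    exact hqr
  have h2 := tendsto_pow_atTop_atTop_of_one_lt h1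
  obtain ⟨n, hn⟩ := (h2.eventually_gt_atTop (C / x 0)).exists
  exact absurd (hbig n) (not_le.2 hn)

private theorem Ao_add' {s t : E → H} (hs : ContinuousOn s Om) (ht : ContinuousOn t Om) {p : E}
    (hp : p ∈ Om) : Ao V M (fun q => s q + t q) p = Ao V M s p + Ao V M t p := by
  have hk := (kk_ker V 2).1
  have e : Ko V (kk V 2) (fun q => s q + t q) p = Ko V (kk V 2) s p + Ko V (kk V 2) t p := by
    unfold Ko
    rw [← integral_add (Ker.integrable V hk hs hp) (Ker.integrable V hk ht hp)]
    refine integral_congr_ae (Eventually.of_forall fun q => ?_)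
    simp only [smul_add]
  unfold Ao
  rw [e, smul_add, smul_add]
  abel

private theorem Ao_smul' (a : ℝ) (s : E → H) (p : E) :
    Ao V M (fun q => a • s q) p = a • Ao V M s p := by
  have e : Ko V (kk V 2) (fun q => a • s q) p = a • Ko V (kk V 2) s p := by
    unfold Ko
    rw [← integral_smul]
    refine integral_congr_ae (Eventually.of_forall fun q => ?_)
    simp only [smul_smul, mul_comm]
  unfold Ao
  rw [e, smul_add, smul_comm a, smul_comm a]

private theorem sec_add {s t : E → H} (hs : IsSec V pi s) (ht : IsSec V pi t) :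
    IsSec V pi (fun q => s q + t q) := by
  intro g p hp
  simp only [hs g p hp, ht g p hp, map_add]

private theorem sec_smul (a : ℝ) {s : E → H} (hs : IsSec V pi s) :
    IsSec V pi (fun q => a • s q) := by
  intro g p hp
  simp only [hs g p hp, map_smul]

private theorem B_sq' (hχ : IsChi V χ) {s t : E → H} (hs : ContinuousOn s Om)
    (ht : ContinuousOn t Om) :
    B V χ (fun p => s p + t p) (fun p => s p + t p)
      = B V χ s s + 2 * B V χ s t + B V χ t t := by
  have hst : ContinuousOn (fun p => s p + t p) Om := hs.add ht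
  have e1 := B_add V hχ hs ht hst
  have e2 := B_add V hχ hs ht hs
  have e3 := B_add V hχ hs ht ht
  have e4 := B_symm V (χ := χ) s (fun p => s p + t p)
  have e5 := B_symm V (χ := χ) t (fun p => s p + t p)
  have e6 := B_symm V (χ := χ) s t
  linarith

private theorem B_tri (hχ : IsChi V χ) {s t : E → H} (hs : ContinuousOn s Om)
    (ht : ContinuousOn t Om) :
    Real.sqrt (B V χ (fun p => s p + t p) (fun p => s p + t p)) ≤
      Real.sqrt (B V χ s s) + Real.sqrt (B V χ t t) := by
  have h1 := B_nonneg V hχ s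
  have h2 := B_nonneg V hχ t
  have h3 := B_cs V hχ hs ht
  have h4 : B V χ s t ≤ Real.sqrt (B V χ s s) * Real.sqrt (B V χ t t) := by
    rw [← Real.sqrt_mul h1]
    exact Real.le_sqrt_of_sq_le h3
  rw [Real.sqrt_le_left (by positivity), B_sq' V hχ hs ht]
  have h5 := Real.sq_sqrt h1
  have h6 := Real.sq_sqrt h2
  nlinarith

/-- contraction on sections -/
private theorem Ao_contr [CompleteSpace H] (hχ : IsChi V χ) (hM : MOK V M) {u : E → H}
    (hu : ContinuousOn u Om) (hu' : IsSec V pi u) :
    B V χ (Ao V M u) (Ao V M u) ≤ B V χ u u := by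
  have hv : ContinuousOn (Ao V M u) Om := Ao_cont V hu
  have hv' : IsSec V pi (Ao V M u) := Ao_sec V pi hu hu'
  have key : ∀ x : ℝ, 0 ≤ B V χ (Ao V M (Ao V M u)) (Ao V M u) * (x * x)
      + (2 * B V χ (Ao V M u) (Ao V M u)) * x + B V χ (Ao V M u) u := by
    intro x
    have hxv : ContinuousOn (fun q => x • Ao V M u q) Om := hv.const_smul x
    have hw : ContinuousOn (fun q => u q + x • Ao V M u q) Om := hu.add hxv
    have hw' : IsSec V pi (fun q => u q + x • Ao V M u q) :=
      sec_add V pi hu' (sec_smul V pi x hv')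
    have h0 := (Ao_pos V pi hχ hM hw hw').1
    have hav : ContinuousOn (Ao V M (Ao V M u)) Om := Ao_cont V hv
    have e1 : B V χ (Ao V M (fun q => u q + x • Ao V M u q)) (fun q => u q + x • Ao V M u q) =
        B V χ (fun p => Ao V M u p + x • Ao V M (Ao V M u) p)
          (fun q => u q + x • Ao V M u q) := by
      refine B_congr V (fun p hp => ?_) (fun p hp => rfl)
      rw [Ao_add' V hu hxv hp, Ao_smul' V x (Ao V M u) p]
    have hxav : ContinuousOn (fun q => x • Ao V M (Ao V M u) q) Om := hav.const_smul x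
    have e2 := B_add V hχ hv hxav hw
    have e3 := B_symm V (χ := χ) (Ao V M u) (fun q => u q + x • Ao V M u q)
    have e4 := B_add V hχ hu hxv hv
    have e5 := B_smul V (χ := χ) x (Ao V M u) (Ao V M u)
    have e6 := B_smul V (χ := χ) x (Ao V M (Ao V M u)) (fun q => u q + x • Ao V M u q)
    have e7 := B_symm V (χ := χ) (Ao V M (Ao V M u)) (fun q => u q + x • Ao V M u q)
    have e8 := B_add V hχ hu hxv hav
    have e9 := B_smul V (χ := χ) x (Ao V M u) (Ao V M (Ao V M u))
    have e10 := Ao_symm V (M := M) pi hχ hu hv hu' hv'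
    have e11 := B_symm V (χ := χ) u (Ao V M u)
    have e12 := B_symm V (χ := χ) (Ao V M u) (Ao V M (Ao V M u))
    rw [e1, e2, e3, e4, e5, e6, e7, e8, e9, ← e10, e11, e12] at h0
    linarith
  have h1 := discrim_le_zero key
  unfold discrim at h1
  have h2 := (Ao_pos V pi hχ hM hu hu').2
  have h3 := (Ao_pos V pi hχ hM hv hv').2
  have h4 := (Ao_pos V pi hχ hM hu hu').1
  have h5 := (Ao_pos V pi hχ hM hv hv').1
  have h6 := B_nonneg V hχ (Ao V M u)
  have h7 := B_nonneg V hχ u
  have h8 : B V χ (Ao V M u) (Ao V M u) ^ 2 ≤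
      B V χ (Ao V M u) (Ao V M u) * B V χ u u := by
    have : B V χ (Ao V M (Ao V M u)) (Ao V M u) * B V χ (Ao V M u) u ≤
        B V χ (Ao V M u) (Ao V M u) * B V χ u u := mul_le_mul h3 h2 h4 h6
    nlinarith
  rcases h6.lt_or_eq with h9 | h9
  · have : B V χ (Ao V M u) (Ao V M u) * B V χ (Ao V M u) (Ao V M u) ≤
        B V χ (Ao V M u) (Ao V M u) * B V χ u u := by
      rw [← sq]
      exact h8
    exact le_of_mul_le_mul_left this h9
  · rw [← h9]
    exact h7

/-- the norm of the Markov operator on sections is smaller than one -/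
theorem Ao_norm [CompleteSpace H] (hχ : IsChi V χ) (D : Decay pi) (hM : MOK V M) :
    ∃ r : ℝ, 0 < r ∧ r < 1 ∧ ∀ s : E → H, ContinuousOn s Om → IsSec V pi s →
      B V χ (Ao V M s) (Ao V M s) ≤ r * B V χ s s := by
  obtain ⟨r, hr0, hr1, hdec⟩ := dec_bd V pi hχ D hM
  refine ⟨r, hr0, hr1, fun s hs hs' => ?_⟩
  -- the finite sums
  have hF : ∀ t : E → H, Fty V pi D t → ContinuousOn t Om → IsSec V pi t →
      B V χ (Ao V M t) (Ao V M t) ≤ r * B V χ t t := by
    intro t hFt ht ht'
    have hcont : ∀ n, ContinuousOn ((Ao V M)^[n] t) Om := by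
      intro n
      induction n with
      | zero => simpa using ht
      | succ n ih =>
        rw [Function.iterate_succ_apply']
        exact Ao_cont V ih
    have hsec : ∀ n, IsSec V pi ((Ao V M)^[n] t) := by
      intro n
      induction n with
      | zero => simpa using ht'
      | succ n ih =>
        rw [Function.iterate_succ_apply']
        exact Ao_sec V pi (hcont n) ih
    obtain ⟨C, hC⟩ := hdec t hFt ht ht'
    have := log_convex (x := fun n => B V χ ((Ao V M)^[n] t) ((Ao V M)^[n] t))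
      (fun n => B_nonneg V hχ _) (fun n => ?_) hr0 hC
    · simpa using this
    · show B V χ ((Ao V M)^[n + 1] t) ((Ao V M)^[n + 1] t) ^ 2 ≤
        B V χ ((Ao V M)^[n] t) ((Ao V M)^[n] t) *
          B V χ ((Ao V M)^[n + 2] t) ((Ao V M)^[n + 2] t)
      have e1 : B V χ ((Ao V M)^[n + 1] t) ((Ao V M)^[n + 1] t) =
          B V χ ((Ao V M)^[n] t) ((Ao V M)^[n + 2] t) := by
        have e2 := Ao_symm V (M := M) pi hχ (hcont n) (hcont (n + 1)) (hsec n) (hsec (n + 1))
        rw [← Function.iterate_succ_apply' (Ao V M) n t,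
          ← Function.iterate_succ_apply' (Ao V M) (n + 1) t] at e2
        exact e2
      rw [e1]
      exact B_cs V hχ (hcont n) (hcont (n + 2))
  have hmain : ∀ ε : ℝ, 0 < ε → Real.sqrt (B V χ (Ao V M s) (Ao V M s)) ≤
      Real.sqrt r * Real.sqrt (B V χ s s) + ε := by
    intro ε hε
    obtain ⟨t, hFt, ht, ht', hδ⟩ := Fty_dense V pi hχ D hs hs' (δ := (ε / 2) ^ 2) (by positivity)
    have hmt : ContinuousOn (fun p => (-1 : ℝ) • t p) Om := ht.const_smul (-1 : ℝ)
    have hu : ContinuousOn (fun p => s p - t p) Om := hs.sub ht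
    have hu' : IsSec V pi (fun p => s p - t p) := by
      intro g p hp
      simp only [hs' g p hp, ht' g p hp, map_sub]
    have hmu : ContinuousOn (fun p => (-1 : ℝ) • (s p - t p)) Om := hu.const_smul (-1 : ℝ)
    have h1 : Real.sqrt (B V χ (fun p => s p - t p) (fun p => s p - t p)) ≤ ε / 2 := by
      rw [Real.sqrt_le_left (by positivity)]
      exact hδ
    have h2 : Real.sqrt (B V χ (Ao V M (fun p => s p - t p)) (Ao V M (fun p => s p - t p)))
        ≤ ε / 2 :=
      (Real.sqrt_le_sqrt (Ao_contr V pi hχ hM hu hu')).trans h1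
    have h3 : Real.sqrt (B V χ (Ao V M t) (Ao V M t)) ≤ Real.sqrt r * Real.sqrt (B V χ t t) := by
      rw [← Real.sqrt_mul hr0.le]
      exact Real.sqrt_le_sqrt (hF t hFt ht ht')
    have h4 : Real.sqrt (B V χ t t) ≤ Real.sqrt (B V χ s s) + ε / 2 := by
      have e1 : B V χ t t = B V χ (fun p => s p + (-1 : ℝ) • (s p - t p))
          (fun p => s p + (-1 : ℝ) • (s p - t p)) := by
        refine B_congr V (fun p hp => ?_) (fun p hp => ?_) <;>
        · simp only [neg_smul, one_smul]
          abel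
      have e2 : B V χ (fun p => (-1 : ℝ) • (s p - t p)) (fun p => (-1 : ℝ) • (s p - t p)) =
          B V χ (fun p => s p - t p) (fun p => s p - t p) := by
        have e3 := B_smul V (χ := χ) (-1 : ℝ) (fun p => s p - t p)
          (fun p => (-1 : ℝ) • (s p - t p))
        have e4 := B_symm V (χ := χ) (fun p => s p - t p) (fun p => (-1 : ℝ) • (s p - t p))
        have e5 := B_smul V (χ := χ) (-1 : ℝ) (fun p => s p - t p) (fun p => s p - t p)
        rw [e3, e4, e5]
        ring
      rw [e1]
      refine (B_tri V hχ hs hmu).trans ?_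
      rw [e2]
      linarith
    have h5 : Real.sqrt (B V χ (Ao V M s) (Ao V M s)) ≤
        Real.sqrt (B V χ (Ao V M t) (Ao V M t)) +
          Real.sqrt (B V χ (Ao V M (fun p => s p - t p)) (Ao V M (fun p => s p - t p))) := by
      have e1 : B V χ (Ao V M s) (Ao V M s) =
          B V χ (fun p => Ao V M t p + Ao V M (fun p => s p - t p) p)
            (fun p => Ao V M t p + Ao V M (fun p => s p - t p) p) := by
        have e2 : ∀ p ∈ Om, Ao V M s p = Ao V M t p + Ao V M (fun p => s p - t p) p := by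
          intro p hp
          rw [← Ao_add' V ht hu hp]
          congr 1
          funext q
          abel
        exact B_congr V e2 e2
      rw [e1]
      exact B_tri V hχ (Ao_cont V ht) (Ao_cont V hu)
    have h6 : Real.sqrt r ≤ 1 := by
      rw [Real.sqrt_le_one]
      exact hr1.le
    have h7 : 0 ≤ Real.sqrt r := Real.sqrt_nonneg _
    have h8 : Real.sqrt r * Real.sqrt (B V χ t t) ≤
        Real.sqrt r * (Real.sqrt (B V χ s s) + ε / 2) := mul_le_mul_of_nonneg_left h4 h7
    nlinarith
  have h9 : Real.sqrt (B V χ (Ao V M s) (Ao V M s)) ≤ Real.sqrt r * Real.sqrt (B V χ s s) :=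
    le_of_forall_pos_le_add hmain
  rw [← Real.sqrt_mul hr0.le] at h9
  exact (Real.sqrt_le_sqrt_iff (mul_nonneg hr0.le (B_nonneg V hχ s))).1 h9

end Pool.Agent.MPd01a95.LN
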