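import Mathlib
import Pool.Agent.Lib.MP_d01a95_gt_L.LDefs
import Pool.Agent.Lib.MP_d01a95_gt_L.LBas
import Pool.Agent.Lib.MP_d01a95_gt_L.LCs
import Pool.Agent.Lib.MP_d01a95_gt_L.LAlg
import Pool.Agent.Lib.MP_d01a95_gt_L.LGrn
import Pool.Agent.Lib.MP_d01a95_gt_L.LInv
import Pool.Agent.Lib.MP_d01a95_gt_L.LUnf
import Pool.Agent.Lib.MP_d01a95_gt_L.LBf
import Pool.Agent.Lib.MP_d01a95_gt_L.LChi
import Pool.Agent.Lib.MP_d01a95_gt_L.LGq
import Pool.Agent.Lib.MP_d01a95_gt_L.LKer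
import Pool.Agent.Lib.MP_d01a95_gt_L.LSmk

/-!
# Module Poi: Poincare inequality for smooth sections
-/

set_option autoImplicit false
set_option linter.all false

open MeasureTheory Filter Topology
open scoped ContDiff InnerProductSpace ENNReal

namespace Pool.Agent.MPd01a95.LN

private theorem frE : Module.finrank ℝ E = 4 := by
  have h : Module.finrank ℝ E = ∑ _i : Fin 2, Module.finrank ℝ ℂ :=
    Module.finrank_pi_fintype ℝ
  rw [h, Complex.finrank_real_complex]
  rfl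

/-- change of variables -/
private theorem lint_aff {g : E → ℝ≥0∞} (hg : Measurable g) {a : ℝ} (ha : 1 / 2 ≤ a) (b : E) :
    ∫⁻ x, g (a • x + b) ≤ 16 * ∫⁻ x, g x := by
  have ha0 : a ≠ 0 := by linarith
  have h1 : ∫⁻ x, g (a • x + b) = ∫⁻ y, g (y + b) ∂(Measure.map (fun x : E => a • x) volume) := by
    have h0 : Measurable fun y : E => g (y + b) := hg.comp (measurable_id.add_const b)
    rw [lintegral_map h0 (measurable_const_smul a)]
  rw [h1, Measure.map_addHaar_smul volume ha0, lintegral_smul_measure,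
    lintegral_add_right_eq_self g b, frE, smul_eq_mul]
  gcongr
  have h2 : |(a ^ 4)⁻¹| ≤ 16 := by
    rw [abs_of_nonneg (by positivity)]
    have h3 : (1 / 2 : ℝ) ^ 4 ≤ a ^ 4 := pow_le_pow_left₀ (by norm_num) ha 4
    have h4 : (a ^ 4)⁻¹ ≤ ((1 / 2 : ℝ) ^ 4)⁻¹ := inv_anti₀ (by norm_num) h3
    refine h4.trans ?_
    norm_num
  calc ENNReal.ofReal |(a ^ 4)⁻¹| ≤ ENNReal.ofReal 16 := ENNReal.ofReal_le_ofReal h2
    _ = 16 := by norm_num

/-- the triple integral over segments -/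
private theorem lint_seg {g : E → ℝ≥0∞} (hg : Measurable g) (K : Set E) :
    ∫⁻ p in K, ∫⁻ q in K, ∫⁻ t in Set.Ioc (0 : ℝ) 1, g (p + t • (q - p)) ≤
      16 * (∫⁻ x, g x) * volume K := by
  have hm : Measurable (fun z : (E × E) × ℝ => g (z.1.1 + z.2 • (z.1.2 - z.1.1))) :=
    hg.comp (by fun_prop)
  have h1 : ∀ p : E, ∫⁻ q in K, ∫⁻ t in Set.Ioc (0 : ℝ) 1, g (p + t • (q - p)) =
      ∫⁻ t in Set.Ioc (0 : ℝ) 1, ∫⁻ q in K, g (p + t • (q - p)) := by
    intro p
    refine lintegral_lintegral_swap (f := fun q t => g (p + t • (q - p))) ?_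
    refine Measurable.aemeasurable ?_
    exact hg.comp (by fun_prop)
  simp_rw [h1]
  have h2 : ∫⁻ p in K, ∫⁻ t in Set.Ioc (0 : ℝ) 1, ∫⁻ q in K, g (p + t • (q - p)) =
      ∫⁻ t in Set.Ioc (0 : ℝ) 1, ∫⁻ p in K, ∫⁻ q in K, g (p + t • (q - p)) := by
    refine lintegral_lintegral_swap (f := fun p t => ∫⁻ q in K, g (p + t • (q - p))) ?_
    refine Measurable.aemeasurable ?_
    have : Measurable (fun z : (E × ℝ) × E => g (z.1.1 + z.1.2 • (z.2 - z.1.1))) :=
      hg.comp (by fun_prop)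
    exact this.lintegral_prod_right'
  rw [h2]
  have h3 : ∀ t ∈ Set.Ioc (0 : ℝ) 1, ∫⁻ p in K, ∫⁻ q in K, g (p + t • (q - p)) ≤
      16 * (∫⁻ x, g x) * volume K := by
    intro t ht
    rcases le_total t (1 / 2) with h | h
    · have h4 : ∫⁻ p in K, ∫⁻ q in K, g (p + t • (q - p)) =
          ∫⁻ q in K, ∫⁻ p in K, g (p + t • (q - p)) := by
        refine lintegral_lintegral_swap (f := fun p q => g (p + t • (q - p))) ?_
        refine Measurable.aemeasurable ?_
        exact hg.comp (by fun_prop)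
      rw [h4]
      calc ∫⁻ q in K, ∫⁻ p in K, g (p + t • (q - p))
          ≤ ∫⁻ q in K, 16 * ∫⁻ x, g x := by
            refine lintegral_mono fun q => ?_
            calc ∫⁻ p in K, g (p + t • (q - p)) ≤ ∫⁻ p, g (p + t • (q - p)) :=
                  setLIntegral_le_lintegral _ _
              _ = ∫⁻ p, g ((1 - t) • p + t • q) := by
                  refine lintegral_congr fun p => ?_
                  congr 1
                  module
              _ ≤ 16 * ∫⁻ x, g x := lint_aff hg (by linarith) _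
        _ = 16 * (∫⁻ x, g x) * volume K := setLIntegral_const _ _
    · calc ∫⁻ p in K, ∫⁻ q in K, g (p + t • (q - p))
          ≤ ∫⁻ p in K, 16 * ∫⁻ x, g x := by
            refine lintegral_mono fun p => ?_
            calc ∫⁻ q in K, g (p + t • (q - p)) ≤ ∫⁻ q, g (p + t • (q - p)) :=
                  setLIntegral_le_lintegral _ _
              _ = ∫⁻ q, g (t • q + (1 - t) • p) := by
                  refine lintegral_congr fun q => ?_
                  congr 1
                  module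
              _ ≤ 16 * ∫⁻ x, g x := lint_aff hg h _
        _ = 16 * (∫⁻ x, g x) * volume K := setLIntegral_const _ _
  calc ∫⁻ t in Set.Ioc (0 : ℝ) 1, ∫⁻ p in K, ∫⁻ q in K, g (p + t • (q - p))
      ≤ ∫⁻ t in Set.Ioc (0 : ℝ) 1, 16 * (∫⁻ x, g x) * volume K :=
        setLIntegral_mono' measurableSet_Ioc h3
    _ = 16 * (∫⁻ x, g x) * volume K := by
        rw [setLIntegral_const, Real.volume_Ioc]
        simp

/-- the measure is dominated by the Lebesgue measure on compact sets -/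
private theorem mu_le (V : Ell) {K : Set E} (hK : IsCompact K) (hO : K ⊆ Om) :
    ∃ C : ℝ≥0∞, C ≠ ⊤ ∧ V.mu.restrict K ≤ C • volume.restrict K := by
  obtain ⟨C, hC⟩ := hK.exists_bound_of_continuousOn ((V.rho_smo.cont).mono hO)
  refine ⟨ENNReal.ofReal C, ENNReal.ofReal_ne_top, ?_⟩
  refine Measure.le_iff.2 fun A hA => ?_
  rw [Measure.restrict_apply hA, Measure.smul_apply, Measure.restrict_apply hA, Ell.mu,
    withDensity_apply _ (hA.inter hK.measurableSet), smul_eq_mul]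
  calc ∫⁻ p in A ∩ K, ENNReal.ofReal (V.rho p) ∂(volume.restrict Om)
      ≤ ∫⁻ p in A ∩ K, ENNReal.ofReal C ∂(volume.restrict Om) := by
        refine setLIntegral_mono' (hA.inter hK.measurableSet) fun p hp => ?_
        exact ENNReal.ofReal_le_ofReal ((le_abs_self _).trans (hC p hp.2))
    _ = ENNReal.ofReal C * (volume.restrict Om) (A ∩ K) := setLIntegral_const _ _
    _ ≤ ENNReal.ofReal C * volume (A ∩ K) := by
        gcongr
        exact Measure.restrict_le_self

/-- Cauchy and Schwarz on the unit interval -/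
private theorem cs_int {f g : ℝ → ℝ} (hf : IntervalIntegrable f volume 0 1)
    (hg : IntervalIntegrable g volume 0 1) (h0 : ∀ t ∈ Set.Icc (0 : ℝ) 1, f t ^ 2 ≤ g t) :
    (∫ t in (0 : ℝ)..1, f t) ^ 2 ≤ ∫ t in (0 : ℝ)..1, g t := by
  set lam := ∫ t in (0 : ℝ)..1, f t with hlam
  have h1 : ∫ t in (0 : ℝ)..1, (2 * lam * f t - lam ^ 2) ≤ ∫ t in (0 : ℝ)..1, g t := by
    refine intervalIntegral.integral_mono_on (by norm_num) ?_ hg fun t ht => ?_
    · exact (hf.const_mul (2 * lam)).sub intervalIntegrable_const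
    · nlinarith [h0 t ht, sq_nonneg (f t - lam)]
  have h2 : ∫ t in (0 : ℝ)..1, (2 * lam * f t - lam ^ 2) = 2 * lam * lam - lam ^ 2 := by
    rw [intervalIntegral.integral_sub (hf.const_mul (2 * lam)) intervalIntegrable_const,
      intervalIntegral.integral_const_mul, intervalIntegral.integral_const]
    simp [hlam]
  rw [h2] at h1
  nlinarith [h1]

/-- differences are controlled by the gradient along segments -/
private theorem pt_seg {K K1 : Set E} (hKK : K ⊆ K1) (hO1 : K1 ⊆ Om) (hcv : Convex ℝ K1)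
    {η : E → ℝ} (hη : Smo η) (hηc : CS η) (hη1 : ∀ p ∈ K1, η p = 1) (hη0 : ∀ p, 0 ≤ η p)
    {d : ℝ} (hd : ∀ p ∈ K, ∀ q ∈ K, ‖q - p‖ ≤ d)
    {H : Type} [NormedAddCommGroup H] [InnerProductSpace ℝ H] [CompleteSpace H] {s : E → H}
    (hs : Smo s) {p q : E} (hp : p ∈ K) (hq : q ∈ K) :
    ENNReal.ofReal (‖s p - s q‖ ^ 2) ≤ ENNReal.ofReal (4 * d ^ 2) *
      ∫⁻ t in Set.Ioc (0 : ℝ) 1, ENNReal.ofReal
        (Om.indicator (fun x => η x * ∑ i, ‖dr i s x‖ ^ 2) (p + t • (q - p))) := by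
  have hGc : ContinuousOn (fun x => η x * ∑ i, ‖dr i s x‖ ^ 2) Om :=
    hη.cont.mul (continuousOn_finset_sum _ fun i _ => ((hs.dr i).cont.norm.pow 2))
  have hGs : CS (fun x => η x * ∑ i, ‖dr i s x‖ ^ 2) :=
    CS.of_imp hηc fun x _ h => by rw [h, zero_mul]
  obtain ⟨hc1, hc2, -⟩ := CS.indicator_cont hGc hGs
  set G : E → ℝ := Om.indicator (fun x => η x * ∑ i, ‖dr i s x‖ ^ 2) with hG
  have hG0 : ∀ x, 0 ≤ G x := by
    intro x
    refine Set.indicator_nonneg (fun x _ => ?_) x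
    exact mul_nonneg (hη0 x) (Finset.sum_nonneg fun i _ => by positivity)
  set v : E := q - p with hv
  have hmem : ∀ t ∈ Set.Icc (0 : ℝ) 1, p + t • v ∈ K1 := by
    intro t ht
    have := hcv (hKK hp) (hKK hq) (by linarith [ht.2] : (0 : ℝ) ≤ 1 - t) ht.1 (by ring)
    have e : p + t • v = (1 - t) • p + t • q := by
      rw [hv]
      module
    rw [e]
    exact this
  have hd0 : ‖v‖ ≤ d := hd p hp q hq
  set D : ℝ → H := fun t => ∑ i, co v i • dr i s (p + t • v) with hD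
  have hγ : Continuous fun t : ℝ => p + t • v := by fun_prop
  have hDc : ContinuousOn D (Set.Icc 0 1) := by
    refine continuousOn_finset_sum _ fun i _ => ContinuousOn.const_smul ?_ _
    exact (hs.dr i).cont.comp hγ.continuousOn fun t ht => hO1 (hmem t ht)
  have hder : ∀ t ∈ Set.uIcc (0 : ℝ) 1, HasDerivAt (fun t : ℝ => s (p + t • v)) (D t) t := by
    intro t ht
    rw [Set.uIcc_of_le zero_le_one] at ht
    have hx : p + t • v ∈ Om := hO1 (hmem t ht)
    have h1 : HasFDerivAt s (fderiv ℝ s (p + t • v)) (p + t • v) := (hs.diff hx).hasFDerivAt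
    have h2 : HasDerivAt (fun t : ℝ => p + t • v) v t := by
      have := ((hasDerivAt_id t).smul_const v).const_add p
      simpa using this
    have h3 := h1.comp_hasDerivAt t h2
    rw [fderiv_eq] at h3
    exact h3
  have hDi : IntervalIntegrable D volume 0 1 := by
    refine ContinuousOn.intervalIntegrable ?_
    rwa [Set.uIcc_of_le zero_le_one]
  have hFT := intervalIntegral.integral_eq_sub_of_hasDerivAt hder hDi
  simp only [one_smul, zero_smul, add_zero] at hFT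
  have hpq : p + v = q := by rw [hv]; abel
  rw [hpq] at hFT
  have h4 : ‖s p - s q‖ ≤ ∫ t in (0 : ℝ)..1, ‖D t‖ := by
    rw [norm_sub_rev, ← hFT]
    exact intervalIntegral.norm_integral_le_integral_norm zero_le_one
  have hGi : IntervalIntegrable (fun t => 4 * d ^ 2 * G (p + t • v)) volume 0 1 :=
    (Continuous.intervalIntegrable (by fun_prop) 0 1)
  have h5 : ∀ t ∈ Set.Icc (0 : ℝ) 1, ‖D t‖ ^ 2 ≤ 4 * d ^ 2 * G (p + t • v) := by
    intro t ht
    have hx1 : p + t • v ∈ K1 := hmem t ht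
    have hx : p + t • v ∈ Om := hO1 hx1
    have h6 : G (p + t • v) = ∑ i, ‖dr i s (p + t • v)‖ ^ 2 := by
      rw [hG, Set.indicator_of_mem hx, hη1 _ hx1, one_mul]
    rw [h6]
    have h7 : ‖D t‖ ≤ d * ∑ i, ‖dr i s (p + t • v)‖ := by
      rw [hD, Finset.mul_sum]
      refine (norm_sum_le _ _).trans (Finset.sum_le_sum fun i _ => ?_)
      rw [norm_smul, Real.norm_eq_abs]
      exact mul_le_mul_of_nonneg_right ((abs_co_le v i).trans hd0) (norm_nonneg _)
    have h8 : (∑ i, ‖dr i s (p + t • v)‖) ^ 2 ≤ 4 * ∑ i, ‖dr i s (p + t • v)‖ ^ 2 := by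
      have := sq_sum_le_card_mul_sum_sq (s := Finset.univ)
        (f := fun i : Fin 4 => ‖dr i s (p + t • v)‖)
      simpa using this
    calc ‖D t‖ ^ 2 ≤ (d * ∑ i, ‖dr i s (p + t • v)‖) ^ 2 :=
          pow_le_pow_left₀ (norm_nonneg _) h7 2
      _ = d ^ 2 * (∑ i, ‖dr i s (p + t • v)‖) ^ 2 := by ring
      _ ≤ d ^ 2 * (4 * ∑ i, ‖dr i s (p + t • v)‖ ^ 2) :=
          mul_le_mul_of_nonneg_left h8 (sq_nonneg d)
      _ = 4 * d ^ 2 * ∑ i, ‖dr i s (p + t • v)‖ ^ 2 := by ring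
  have h9 : ‖s p - s q‖ ^ 2 ≤ 4 * d ^ 2 * ∫ t in Set.Ioc (0 : ℝ) 1, G (p + t • v) := by
    calc ‖s p - s q‖ ^ 2 ≤ (∫ t in (0 : ℝ)..1, ‖D t‖) ^ 2 :=
          pow_le_pow_left₀ (norm_nonneg _) h4 2
      _ ≤ ∫ t in (0 : ℝ)..1, 4 * d ^ 2 * G (p + t • v) := cs_int hDi.norm hGi h5
      _ = 4 * d ^ 2 * ∫ t in Set.Ioc (0 : ℝ) 1, G (p + t • v) := by
          rw [intervalIntegral.integral_const_mul, intervalIntegral.integral_of_le zero_le_one]
  have hGi2 : Integrable (fun t => G (p + t • v)) (volume.restrict (Set.Ioc (0 : ℝ) 1)) := by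
    have : IntervalIntegrable (fun t => G (p + t • v)) volume 0 1 :=
      (Continuous.intervalIntegrable (by fun_prop) 0 1)
    exact this.1
  rw [← ofReal_integral_eq_lintegral_ofReal hGi2 (Eventually.of_forall fun t => hG0 _),
    ← ENNReal.ofReal_mul (by positivity)]
  exact ENNReal.ofReal_le_ofReal h9

/-- the integral of the gradient -/
private theorem int_grad (V : Ell) {η : E → ℝ} (hη : Smo η) (hηc : CS η) (hη0 : ∀ p, 0 ≤ η p) :
    ∃ C : ℝ, 0 < C ∧ ∀ (H : Type) [NormedAddCommGroup H] [InnerProductSpace ℝ H] (s : E → H),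
      Smo s → ∫ x, Om.indicator (fun x => η x * ∑ i, ‖dr i s x‖ ^ 2) x ≤
        C * ∫ p, η p * V.Gam s s p ∂V.mu := by
  obtain ⟨K2, hK2, hO2, hz⟩ := id hηc
  obtain ⟨c, hc, hlow⟩ := Gam_low V hK2 hO2
  obtain ⟨m, hm⟩ := hK2.exists_bound_of_continuousOn
    (f := fun p => (V.rho p)⁻¹) (((V.rho_smo.cont).mono hO2).inv₀ fun p hp =>
      (V.rho_pos p (hO2 hp)).ne')
  refine ⟨(|m| + 1) * c⁻¹, by positivity, fun H _ _ s hs => ?_⟩
  have hGc : ContinuousOn (fun x => η x * ∑ i, ‖dr i s x‖ ^ 2) Om :=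
    hη.cont.mul (continuousOn_finset_sum _ fun i _ => ((hs.dr i).cont.norm.pow 2))
  have hGs : CS (fun x => η x * ∑ i, ‖dr i s x‖ ^ 2) :=
    CS.of_imp hηc fun x _ h => by rw [h, zero_mul]
  obtain ⟨hc1, hc2, -⟩ := CS.indicator_cont hGc hGs
  have hRc : ContinuousOn (fun x => V.rho x • (η x * V.Gam s s x)) Om :=
    (V.rho_smo.cont).smul (hη.cont.mul (Gam_smo V hs hs).cont)
  have hRs : CS (fun x => V.rho x • (η x * V.Gam s s x)) :=
    CS.of_imp hηc fun x _ h => by rw [h, zero_mul, smul_zero]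
  obtain ⟨hd1, hd2, -⟩ := CS.indicator_cont hRc hRs
  have i1 : IntegrableOn (fun x => η x * ∑ i, ‖dr i s x‖ ^ 2) Om :=
    (integrable_indicator_iff measurableSet_Om).1 (hc1.integrable_of_hasCompactSupport hc2)
  have i2 : IntegrableOn (fun x => V.rho x • (η x * V.Gam s s x)) Om :=
    (integrable_indicator_iff measurableSet_Om).1 (hd1.integrable_of_hasCompactSupport hd2)
  rw [integral_indicator measurableSet_Om, int_mu, ← integral_const_mul]
  refine setIntegral_mono_on i1 (i2.const_mul _) measurableSet_Om fun x hx => ?_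
  by_cases hx2 : x ∈ K2
  · have h1 : c * ∑ i, ‖dr i s x‖ ^ 2 ≤ V.Gam s s x := hlow H s x hx2
    have h2 : 1 ≤ (|m| + 1) * V.rho x := by
      have h3 := hm x hx2
      have hr := V.rho_pos x hx
      rw [Real.norm_eq_abs, abs_of_pos (inv_pos.2 hr)] at h3
      have h4 : (V.rho x)⁻¹ ≤ |m| + 1 := by linarith [le_abs_self m]
      calc (1 : ℝ) = (V.rho x)⁻¹ * V.rho x := (inv_mul_cancel₀ hr.ne').symm
        _ ≤ (|m| + 1) * V.rho x := mul_le_mul_of_nonneg_right h4 hr.le
    have h5 : ∑ i, ‖dr i s x‖ ^ 2 ≤ c⁻¹ * V.Gam s s x := by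
      calc ∑ i, ‖dr i s x‖ ^ 2 = c⁻¹ * (c * ∑ i, ‖dr i s x‖ ^ 2) := by
            rw [← mul_assoc, inv_mul_cancel₀ hc.ne', one_mul]
        _ ≤ c⁻¹ * V.Gam s s x := mul_le_mul_of_nonneg_left h1 (inv_pos.2 hc).le
    have h6 : 0 ≤ η x * (c⁻¹ * V.Gam s s x) :=
      mul_nonneg (hη0 x) (mul_nonneg (inv_pos.2 hc).le (Gam_nonneg V s hx))
    calc η x * ∑ i, ‖dr i s x‖ ^ 2 ≤ η x * (c⁻¹ * V.Gam s s x) :=
          mul_le_mul_of_nonneg_left h5 (hη0 x)
      _ = 1 * (η x * (c⁻¹ * V.Gam s s x)) := (one_mul _).symm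
      _ ≤ ((|m| + 1) * V.rho x) * (η x * (c⁻¹ * V.Gam s s x)) :=
          mul_le_mul_of_nonneg_right h2 h6
      _ = (|m| + 1) * c⁻¹ * V.rho x • (η x * V.Gam s s x) := by
          rw [smul_eq_mul]
          ring
  · have h0 := hz x hx hx2
    simp only [h0, zero_mul, smul_zero, mul_zero, le_refl]

variable {G : Type} [Group G] (V : VG G) {χ : E → ℝ}
variable {H : Type} [NormedAddCommGroup H] [InnerProductSpace ℝ H]
variable (pi : G →* (H ≃ₗᵢ[ℝ] H))

/-- segments: differences are controlled by the gradient, on compact sets -/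
theorem seg_int {K : Set E} (hK : IsCompact K) (hO : K ⊆ Om) :
    ∃ (C : ℝ) (η : E → ℝ), 0 < C ∧ Smo η ∧ CS η ∧ (∀ p ∈ Om, 0 ≤ η p) ∧
      ∀ (H : Type) [NormedAddCommGroup H] [InnerProductSpace ℝ H] [CompleteSpace H] (s : E → H),
        Smo s →
        ∫ p in K, ∫ q in K, ‖s p - s q‖ ^ 2 ∂V.mu ∂V.mu ≤
          C * ∫ p, η p * V.Gam s s p ∂V.mu := by
  obtain ⟨K1, hK1, hO1, hKK, hcv⟩ := exists_hull hK hO
  obtain ⟨η, hη, -, hηc, hη0, -, hη1⟩ := exists_cut hK1 hO1
  obtain ⟨c2, hc2, hmu⟩ := mu_le V.toEll hK hO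
  obtain ⟨C3, hC3, hgrad⟩ := int_grad V.toEll hη hηc hη0
  obtain ⟨d0, hd0⟩ := hK.isBounded.exists_norm_le
  set d : ℝ := 2 * d0 with hd
  have hdd : ∀ p ∈ K, ∀ q ∈ K, ‖q - p‖ ≤ d := by
    intro p hp q hq
    have := norm_sub_le q p
    linarith [hd0 p hp, hd0 q hq]
  set A : ℝ := (c2 * c2 * ENNReal.ofReal (4 * d ^ 2) * 16 * volume K).toReal with hA
  have hA0 : 0 ≤ A := ENNReal.toReal_nonneg
  refine ⟨(A + 1) * C3, η, by positivity, hη, hηc, fun p _ => hη0 p, ?_⟩
  intro H _ _ _ s hs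
  have hI0 : 0 ≤ ∫ p, η p * V.Gam s s p ∂V.mu := by
    refine integral_nonneg_of_ae (ae_mu V.toEll fun p hp => ?_)
    exact mul_nonneg (hη0 p) (Gam_nonneg V.toEll s hp)
  have hGc : ContinuousOn (fun x => η x * ∑ i, ‖dr i s x‖ ^ 2) Om :=
    hη.cont.mul (continuousOn_finset_sum _ fun i _ => ((hs.dr i).cont.norm.pow 2))
  have hGs : CS (fun x => η x * ∑ i, ‖dr i s x‖ ^ 2) :=
    CS.of_imp hηc fun x _ h => by rw [h, zero_mul]
  obtain ⟨hcc, hcs, -⟩ := CS.indicator_cont hGc hGs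
  set F : E → ℝ := Om.indicator (fun x => η x * ∑ i, ‖dr i s x‖ ^ 2) with hF
  have hF0 : ∀ x, 0 ≤ F x := by
    intro x
    refine Set.indicator_nonneg (fun x _ => ?_) x
    exact mul_nonneg (hη0 x) (Finset.sum_nonneg fun i _ => by positivity)
  have hFi : Integrable F := hcc.integrable_of_hasCompactSupport hcs
  have hFI0 : 0 ≤ ∫ x, F x := integral_nonneg hF0
  set g : E → ℝ≥0∞ := fun x => ENNReal.ofReal (F x) with hg
  have hgm : Measurable g := hcc.measurable.ennreal_ofReal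
  have hgi : ∫⁻ x, g x = ENNReal.ofReal (∫ x, F x) :=
    (ofReal_integral_eq_lintegral_ofReal hFi (Eventually.of_forall hF0)).symm
  set LHS : ℝ := ∫ p in K, ∫ q in K, ‖s p - s q‖ ^ 2 ∂V.mu ∂V.mu with hL
  have hL0 : 0 ≤ LHS := by
    refine integral_nonneg fun p => integral_nonneg fun q => ?_
    exact sq_nonneg _
  have key : ENNReal.ofReal LHS ≤
      (c2 * c2 * ENNReal.ofReal (4 * d ^ 2) * 16 * volume K) * ENNReal.ofReal (∫ x, F x) := by
    calc ENNReal.ofReal LHS = ‖LHS‖ₑ := (Real.enorm_of_nonneg hL0).symm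
      _ ≤ ∫⁻ p in K, ‖∫ q in K, ‖s p - s q‖ ^ 2 ∂V.mu‖ₑ ∂V.mu :=
          enorm_integral_le_lintegral_enorm _
      _ ≤ ∫⁻ p in K, ∫⁻ q in K, ‖‖s p - s q‖ ^ 2‖ₑ ∂V.mu ∂V.mu :=
          lintegral_mono fun p => enorm_integral_le_lintegral_enorm _
      _ ≤ ∫⁻ p in K, ∫⁻ q in K, (ENNReal.ofReal (4 * d ^ 2) *
            ∫⁻ t in Set.Ioc (0 : ℝ) 1, g (p + t • (q - p))) ∂V.mu ∂V.mu := by
          refine setLIntegral_mono' hK.measurableSet fun p hp => ?_
          refine setLIntegral_mono' hK.measurableSet fun q hq => ?_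
          rw [Real.enorm_of_nonneg (sq_nonneg _)]
          exact pt_seg hKK hO1 hcv hη hηc hη1 hη0 hdd hs hp hq
      _ ≤ ∫⁻ p, ∫⁻ q, (ENNReal.ofReal (4 * d ^ 2) *
            ∫⁻ t in Set.Ioc (0 : ℝ) 1, g (p + t • (q - p))) ∂(c2 • volume.restrict K)
            ∂(c2 • volume.restrict K) :=
          lintegral_mono' hmu fun p => lintegral_mono' hmu fun q => le_rfl
      _ = c2 * (c2 * (ENNReal.ofReal (4 * d ^ 2) * ∫⁻ p in K, ∫⁻ q in K,
            ∫⁻ t in Set.Ioc (0 : ℝ) 1, g (p + t • (q - p)))) := by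
          simp_rw [lintegral_smul_measure, smul_eq_mul]
          rw [lintegral_const_mul' _ _ hc2]
          congr 2
          have : ∀ p : E, ∫⁻ q in K, (ENNReal.ofReal (4 * d ^ 2) *
              ∫⁻ t in Set.Ioc (0 : ℝ) 1, g (p + t • (q - p))) =
              ENNReal.ofReal (4 * d ^ 2) * ∫⁻ q in K,
                ∫⁻ t in Set.Ioc (0 : ℝ) 1, g (p + t • (q - p)) := fun p =>
            lintegral_const_mul' _ _ ENNReal.ofReal_ne_top
          simp_rw [this]
          rw [lintegral_const_mul' _ _ ENNReal.ofReal_ne_top]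
      _ ≤ c2 * (c2 * (ENNReal.ofReal (4 * d ^ 2) * (16 * (∫⁻ x, g x) * volume K))) := by
          gcongr
          exact lint_seg hgm K
      _ = (c2 * c2 * ENNReal.ofReal (4 * d ^ 2) * 16 * volume K) *
            ENNReal.ofReal (∫ x, F x) := by
          rw [hgi]
          ring
  have hfin : c2 * c2 * ENNReal.ofReal (4 * d ^ 2) * 16 * volume K ≠ ⊤ := by
    refine ENNReal.mul_ne_top (ENNReal.mul_ne_top (ENNReal.mul_ne_top (ENNReal.mul_ne_top hc2 hc2)
      ENNReal.ofReal_ne_top) ?_) hK.measure_lt_top.ne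
    norm_num
  have h1 : LHS ≤ A * ∫ x, F x := by
    rw [← ENNReal.ofReal_toReal hfin, ← ENNReal.ofReal_mul ENNReal.toReal_nonneg] at key
    exact (ENNReal.ofReal_le_ofReal_iff (mul_nonneg hA0 hFI0)).1 key
  have h2 : ∫ x, F x ≤ C3 * ∫ p, η p * V.Gam s s p ∂V.mu := hgrad H s hs
  calc LHS ≤ A * ∫ x, F x := h1
    _ ≤ (A + 1) * ∫ x, F x := mul_le_mul_of_nonneg_right (by linarith) hFI0
    _ ≤ (A + 1) * (C3 * ∫ p, η p * V.Gam s s p ∂V.mu) :=
        mul_le_mul_of_nonneg_left h2 (by linarith)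
    _ = (A + 1) * C3 * ∫ p, η p * V.Gam s s p ∂V.mu := by ring

/-- Poincare inequality for the kernel `kk V 2` -/
theorem poin [CompleteSpace H] (hχ : IsChi V χ) : ∃ C : ℝ, 0 < C ∧ ∀ s : E → H, Smo s → IsSec V pi s →
    ∫ p, χ p * ∫ q, kk V 2 p q * ‖s p - s q‖ ^ 2 ∂V.mu ∂V.mu ≤ C * En V χ s s := by
  obtain ⟨Kc, hKc, hOc, hz⟩ := hχ.cs
  obtain ⟨K', hK', hO', hY⟩ := V.Y_proper Kc hKc hOc 3
  have hK : IsCompact (Kc ∪ K') := hKc.union hK'
  have hO : Kc ∪ K' ⊆ Om := Set.union_subset hOc hO'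
  set K : Set E := Kc ∪ K' with hKd
  obtain ⟨M, hM⟩ := hKc.exists_bound_of_continuousOn ((hχ.smo.cont).mono hOc)
  obtain ⟨C, η, hC, hη, hηc, hη0, hseg⟩ := seg_int V hK hO
  obtain ⟨N, hN, hinv⟩ := inv_int_le V hχ hη.cont hηc hη0
  refine ⟨(|M| + 1) * C * N, by positivity, fun s hs hsec => ?_⟩
  haveI hfin : IsFiniteMeasure (V.mu.restrict K) :=
    ⟨by rw [Measure.restrict_apply_univ]; exact mu_lt_top V.toEll hK hO⟩
  -- boundedness of the section on the compact set
  obtain ⟨b, hb⟩ := hK.exists_bound_of_continuousOn ((hs.cont).mono hO)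
  have hbd : ∀ p ∈ K, ∀ q ∈ K, ‖‖s p - s q‖ ^ 2‖ ≤ (2 * b) ^ 2 := by
    intro p hp q hq
    rw [Real.norm_eq_abs, abs_of_nonneg (sq_nonneg _)]
    refine pow_le_pow_left₀ (norm_nonneg _) ?_ 2
    have := norm_sub_le (s p) (s q)
    linarith [hb p hp, hb q hq]
  have hsm : AEStronglyMeasurable s (V.mu.restrict K) := (aesm V.toEll hs.cont).restrict
  have hmemK : ∀ᵐ p ∂(V.mu.restrict K), p ∈ K := ae_restrict_mem hK.measurableSet
  -- integrability in the second variable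
  have hq1 : ∀ p ∈ K, Integrable (fun q => ‖s p - s q‖ ^ 2) (V.mu.restrict K) := by
    intro p hp
    refine Integrable.of_bound ((aestronglyMeasurable_const.sub hsm).norm.pow 2) ((2 * b) ^ 2) ?_
    exact hmemK.mono fun q hq => hbd p hp q hq
  -- integrability of the inner integral
  set F : E → ℝ := fun p => ∫ q in K, ‖s p - s q‖ ^ 2 ∂V.mu with hF
  have hF0 : ∀ p, 0 ≤ F p := fun p => integral_nonneg fun q => sq_nonneg _
  have hFi : Integrable F (V.mu.restrict K) := by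
    have h1 : AEStronglyMeasurable (fun z : E × E => ‖s z.1 - s z.2‖ ^ 2)
        ((V.mu.restrict K).prod (V.mu.restrict K)) :=
      ((hsm.comp_fst.sub hsm.comp_snd).norm.pow 2)
    have h2 : AEStronglyMeasurable F (V.mu.restrict K) := h1.integral_prod_right'
    refine Integrable.of_bound h2 ((2 * b) ^ 2 * (V.mu.restrict K).real Set.univ) ?_
    refine hmemK.mono fun p hp => ?_
    exact norm_integral_le_of_norm_le_const (hmemK.mono fun q hq => hbd p hp q hq)
  -- comparison of the integrands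
  have hle : ∫ p, χ p * ∫ q, kk V 2 p q * ‖s p - s q‖ ^ 2 ∂V.mu ∂V.mu ≤
      ∫ p, K.indicator (fun p => (|M| + 1) * F p) p ∂V.mu := by
    refine integral_mono_of_nonneg ?_ ?_ ?_
    · refine ae_mu V.toEll fun p hp => ?_
      refine mul_nonneg (hχ.nn p hp) (integral_nonneg_of_ae (ae_mu V.toEll fun q hq => ?_))
      exact mul_nonneg (kk_prop V (R := 2) (by norm_num) hp hq).2.1 (sq_nonneg _)
    · exact (integrable_indicator_iff hK.measurableSet).2 (hFi.const_mul _)
    · refine ae_mu V.toEll fun p hp => ?_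
      by_cases hpc : p ∈ Kc
      · have hpK : p ∈ K := Or.inl hpc
        rw [Set.indicator_of_mem hpK]
        have h1 : χ p ≤ |M| + 1 := by
          have := hM p hpc
          rw [Real.norm_eq_abs] at this
          linarith [le_abs_self (χ p), le_abs_self M]
        have h2 : ∫ q, kk V 2 p q * ‖s p - s q‖ ^ 2 ∂V.mu ≤ F p := by
          have e : F p = ∫ q, K.indicator (fun q => ‖s p - s q‖ ^ 2) q ∂V.mu :=
            (integral_indicator hK.measurableSet).symm
          rw [e]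
          refine integral_mono_of_nonneg ?_ ?_ ?_
          · refine ae_mu V.toEll fun q hq => ?_
            exact mul_nonneg (kk_prop V (R := 2) (by norm_num) hp hq).2.1 (sq_nonneg _)
          · exact (integrable_indicator_iff hK.measurableSet).2 (hq1 p hpK)
          · refine ae_mu V.toEll fun q hq => ?_
            obtain ⟨-, h0, h1', -, h3⟩ := kk_prop V (R := 2) (by norm_num) hp hq
            by_cases hqK : q ∈ K
            · rw [Set.indicator_of_mem hqK]
              calc kk V 2 p q * ‖s p - s q‖ ^ 2 ≤ 1 * ‖s p - s q‖ ^ 2 :=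
                    mul_le_mul_of_nonneg_right h1' (sq_nonneg _)
                _ = ‖s p - s q‖ ^ 2 := one_mul _
            · rw [Set.indicator_of_notMem hqK]
              have h4 : 3 < V.Y p q := by
                by_contra hcon
                exact hqK (Or.inr (hY p hpc q hq (not_lt.1 hcon)))
              have h5 : kk V 2 p q * ‖s p - s q‖ ^ 2 ≤ 0 := by rw [h3 (by linarith), zero_mul]
              exact h5
        have h3 : 0 ≤ ∫ q, kk V 2 p q * ‖s p - s q‖ ^ 2 ∂V.mu := by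
          refine integral_nonneg_of_ae (ae_mu V.toEll fun q hq => ?_)
          exact mul_nonneg (kk_prop V (R := 2) (by norm_num) hp hq).2.1 (sq_nonneg _)
        exact mul_le_mul h1 h2 h3 (by positivity)
      · have h6 : χ p * ∫ q, kk V 2 p q * ‖s p - s q‖ ^ 2 ∂V.mu ≤ 0 := by
          rw [hz p hp hpc, zero_mul]
        exact h6.trans (Set.indicator_nonneg (fun p _ => mul_nonneg (by positivity) (hF0 p)) p)
  have hfi : ∫ p, η p * V.Gam s s p ∂V.mu ≤ N * ∫ p, χ p * V.Gam s s p ∂V.mu := by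
    refine hinv (V.Gam s s) (Gam_smo V.toEll hs hs).cont (fun p hp => Gam_nonneg V.toEll s hp) ?_
    intro g p hp
    exact Gam_aff V pi hs hs (hsec.aff V pi) (hsec.aff V pi) g hp
  calc ∫ p, χ p * ∫ q, kk V 2 p q * ‖s p - s q‖ ^ 2 ∂V.mu ∂V.mu
      ≤ ∫ p, K.indicator (fun p => (|M| + 1) * F p) p ∂V.mu := hle
    _ = (|M| + 1) * ∫ p in K, F p ∂V.mu := by
        rw [integral_indicator hK.measurableSet, integral_const_mul]
    _ ≤ (|M| + 1) * (C * ∫ p, η p * V.Gam s s p ∂V.mu) :=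
        mul_le_mul_of_nonneg_left (hseg H s hs) (by positivity)
    _ ≤ (|M| + 1) * (C * (N * ∫ p, χ p * V.Gam s s p ∂V.mu)) := by
        refine mul_le_mul_of_nonneg_left (mul_le_mul_of_nonneg_left hfi hC.le) (by positivity)
    _ = (|M| + 1) * C * N * En V χ s s := by
        unfold En
        ring

end Pool.Agent.MPd01a95.LN
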