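import Mathlib
import Pool.Agent.Lib.MP_d01a95_gt_L.LDefs
import Pool.Agent.Lib.MP_d01a95_gt_L.LBas
import Pool.Agent.Lib.MP_d01a95_gt_L.LCs
import Pool.Agent.Lib.MP_d01a95_gt_L.LAlg
import Pool.Agent.Lib.MP_d01a95_gt_L.LGrn
import Pool.Agent.Lib.MP_d01a95_gt_L.LInv
import Pool.Agent.Lib.MP_d01a95_gt_L.LUnf
import Pool.Agent.Lib.MP_d01a95_gt_L.LBf
import Pool.Agent.Lib.MP_d01a95_gt_L.LChi
import Pool.Agent.Lib.MP_d01a95_gt_L.LGq
import Pool.Agent.Lib.MP_d01a95_gt_L.LKer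
import Pool.Agent.Lib.MP_d01a95_gt_L.LSmk
import Pool.Agent.Lib.MP_d01a95_gt_L.LSg
import Pool.Agent.Lib.MP_d01a95_gt_L.LMar
import Pool.Agent.Lib.MP_d01a95_gt_L.LDec
import Pool.Agent.Lib.MP_d01a95_gt_L.LDen
import Pool.Agent.Lib.MP_d01a95_gt_L.LNrm
import Pool.Agent.Lib.MP_d01a95_gt_L.LPoi

/-!
# Module Gap: spectral gap for smooth sections
-/

set_option autoImplicit false
set_option linter.all false

open MeasureTheory Filter Topology
open scoped ContDiff InnerProductSpace ENNReal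

namespace Pool.Agent.MPd01a95.LN

variable {G : Type} [Group G] (V : VG G) {χ : E → ℝ}
variable {H : Type} [NormedAddCommGroup H] [InnerProductSpace ℝ H]
variable (pi : G →* (H ≃ₗᵢ[ℝ] H))

/-- SPECTRAL GAP for smooth sections -/
theorem gap_sec [CompleteSpace H] (hχ : IsChi V χ) (D : Decay pi) : ∃ C : ℝ, 0 < C ∧
    ∀ s : E → H, Smo s → IsSec V pi s → B V χ s s ≤ C * En V χ s s := by
  obtain ⟨M, hM⟩ := exists_MOK V
  obtain ⟨r, hr0, hr1, hr⟩ := Ao_norm V pi hχ D hM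
  obtain ⟨C, hC0, hC⟩ := poin V pi hχ
  have hM0 : 0 < M := hM.1
  have hq1 : Real.sqrt r < 1 := by
    rw [Real.sqrt_lt' one_pos]
    linarith
  have hq0 : 0 ≤ Real.sqrt r := Real.sqrt_nonneg r
  have h1q : 0 < 1 - Real.sqrt r := by linarith
  refine ⟨1 / (4 * M) * C / (1 - Real.sqrt r), by positivity, fun s hs hsec => ?_⟩
  have hsc : ContinuousOn s Om := hs.cont
  have hx : 0 ≤ B V χ s s := B_nonneg V hχ s
  have hcs := B_cs V hχ (Ao_cont V (M := M) hsc) hsc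
  have hn := hr s hsc hsec
  have hform := Ao_form V pi hχ hM hsc hsec
  have hp := hC s hs hsec
  have hy : |B V χ (Ao V M s) s| ≤ Real.sqrt r * B V χ s s := by
    refine abs_le_of_sq_le_sq ?_ (by positivity)
    rw [mul_pow, Real.sq_sqrt hr0.le]
    have h2 := mul_le_mul_of_nonneg_right hn hx
    have h3 : r * B V χ s s * B V χ s s = r * B V χ s s ^ 2 := by ring
    linarith
  have hy' := (le_abs_self _).trans hy
  have h4 : 1 / (4 * M) * ∫ p, χ p * ∫ q, kk V 2 p q * ‖s p - s q‖ ^ 2 ∂V.mu ∂V.mu ≤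
      1 / (4 * M) * (C * En V χ s s) := mul_le_mul_of_nonneg_left hp (by positivity)
  rw [div_mul_eq_mul_div, le_div_iff₀ h1q]
  have h5 : B V χ s s * (1 - Real.sqrt r) = B V χ s s - Real.sqrt r * B V χ s s := by ring
  have h6 : 1 / (4 * M) * C * En V χ s s = 1 / (4 * M) * (C * En V χ s s) := by ring
  rw [h5, h6]
  linarith

/-- spectral gap for the operator -/
theorem gap_secL [CompleteSpace H] (hχ : IsChi V χ) (D : Decay pi) : ∃ C : ℝ, 0 < C ∧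
    ∀ s : E → H, Smo s → IsSec V pi s → B V χ s s ≤ C * B V χ (V.L s) (V.L s) := by
  obtain ⟨C, hC0, hC⟩ := gap_sec V pi hχ D
  refine ⟨C ^ 2, by positivity, fun s hs hsec => ?_⟩
  have h1 := hC s hs hsec
  have h2 := green_quot V pi hχ hs (hsec.aff V pi) hs hsec
  have h3 := B_cs V hχ (L_smo V.toEll hs).cont hs.cont
  have hx : 0 ≤ B V χ s s := B_nonneg V hχ s
  have hw : 0 ≤ B V χ (V.L s) (V.L s) := B_nonneg V hχ _
  obtain ⟨x, hx'⟩ : ∃ x : ℝ, x = B V χ s s := ⟨_, rfl⟩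
  obtain ⟨w, hw'⟩ : ∃ w : ℝ, w = B V χ (V.L s) (V.L s) := ⟨_, rfl⟩
  obtain ⟨y, hy'⟩ : ∃ y : ℝ, y = B V χ (V.L s) s := ⟨_, rfl⟩
  obtain ⟨e, he'⟩ : ∃ e : ℝ, e = En V χ s s := ⟨_, rfl⟩
  rw [← hx', ← he'] at h1
  rw [← hy', ← he'] at h2
  rw [← hy', ← hw', ← hx'] at h3
  rw [← hx'] at hx
  rw [← hw'] at hw
  rw [← hx', ← hw']
  rcases hx.eq_or_lt with h0 | h0
  · rw [← h0]
    positivity
  · have h4 : x ^ 2 ≤ (C * e) ^ 2 := pow_le_pow_left₀ hx h1 2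
    have h5 : (C * e) ^ 2 = C ^ 2 * y ^ 2 := by
      rw [h2]
      ring
    have h6 : C ^ 2 * y ^ 2 ≤ C ^ 2 * (w * x) := mul_le_mul_of_nonneg_left h3 (by positivity)
    have h7 : x * x ≤ (C ^ 2 * w) * x := by
      have h8 : x * x = x ^ 2 := by ring
      have h9 : (C ^ 2 * w) * x = C ^ 2 * (w * x) := by ring
      rw [h8, h9]
      linarith
    exact le_of_mul_le_mul_right h7 h0

end Pool.Agent.MPd01a95.LN
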