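import Mathlib
import Pool.Agent.Lib.MP_d01a95_gt_L.LDefs
import Pool.Agent.Lib.MP_d01a95_gt_L.LBas
import Pool.Agent.Lib.MP_d01a95_gt_L.LCs
import Pool.Agent.Lib.MP_d01a95_gt_L.LAlg
import Pool.Agent.Lib.MP_d01a95_gt_L.LGrn
import Pool.Agent.Lib.MP_d01a95_gt_L.LInv
import Pool.Agent.Lib.MP_d01a95_gt_L.LUnf

/-!
# Module Vol: local comparison of `Y - 1` with the Euclidean distance, volume of balls
-/

set_option autoImplicit false
set_option linter.all false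

open MeasureTheory Filter Topology
open scoped ContDiff InnerProductSpace ENNReal

namespace Pool.Agent.MPd01a95.LN

variable {G : Type} [Group G] (V : VG G)

private theorem co_smul (t : ℝ) (x : E) (i : Fin 4) : co (t • x) i = t * co x i := by
  fin_cases i <;> simp [co]

private theorem co_cont (i : Fin 4) : Continuous (fun x : E => co x i) := by
  fin_cases i
  · exact Complex.continuous_re.comp (continuous_apply (0 : Fin 2))
  · exact Complex.continuous_im.comp (continuous_apply (0 : Fin 2))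
  · exact Complex.continuous_re.comp (continuous_apply (1 : Fin 2))
  · exact Complex.continuous_im.comp (continuous_apply (1 : Fin 2))

private theorem dist_bd {K : Set E} (hK : IsCompact K) :
    ∃ D : ℝ, 0 < D ∧ ∀ p ∈ K, ∀ q ∈ K, ‖q - p‖ ≤ D := by
  obtain ⟨R, hR⟩ := hK.isBounded.exists_norm_le
  refine ⟨2 * |R| + 1, by positivity, fun p hp q hq => ?_⟩
  have h1 := hR p hp
  have h2 := hR q hq
  have h3 := norm_sub_le q p
  have h4 := le_abs_self R
  linarith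

private theorem qf_low {K : Set E} (hK : IsCompact K) (hO : K ⊆ Om) :
    ∃ c : ℝ, 0 < c ∧ ∀ p ∈ K, ∀ x : E,
      c * ‖x‖ ^ 2 ≤ ∑ i, ∑ j, V.qf i j p * co x i * co x j := by
  have hS : IsCompact (K ×ˢ Metric.sphere (0 : E) 1) := hK.prod (isCompact_sphere 0 1)
  have hc : ContinuousOn (fun z : E × E => ∑ i, ∑ j, V.qf i j z.1 * co z.2 i * co z.2 j)
      (K ×ˢ Metric.sphere (0 : E) 1) := by
    refine continuousOn_finset_sum _ fun i _ => continuousOn_finset_sum _ fun j _ => ?_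
    refine ContinuousOn.mul (ContinuousOn.mul ?_ ?_) ?_
    · exact ((V.qf_cont i j).mono hO).comp continuousOn_fst (fun z hz => hz.1)
    · exact ((co_cont i).comp continuous_snd).continuousOn
    · exact ((co_cont j).comp continuous_snd).continuousOn
  have hpos : ∀ z ∈ K ×ˢ Metric.sphere (0 : E) 1,
      (0 : ℝ) < ∑ i, ∑ j, V.qf i j z.1 * co z.2 i * co z.2 j := by
    rintro ⟨p, x⟩ ⟨hp, hx⟩
    refine V.qf_pos p (hO hp) (co x) fun h0 => ?_
    have h1 : x = 0 := by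
      rw [← sum_co x, h0]
      simp
    have h2 : ‖x‖ = 1 := by simpa using hx
    rw [h1] at h2
    simp at h2
  obtain ⟨c, hc0, hcle⟩ := hS.exists_forall_le' hc hpos
  refine ⟨c, hc0, fun p hp x => ?_⟩
  rcases eq_or_ne x 0 with rfl | hx
  · have h0 : ∀ i, co (0 : E) i = 0 := fun i => by fin_cases i <;> simp [co]
    simp [h0]
  · have hn : 0 < ‖x‖ := norm_pos_iff.2 hx
    have hy : (‖x‖⁻¹ • x) ∈ Metric.sphere (0 : E) 1 := by
      rw [mem_sphere_zero_iff_norm, norm_smul, norm_inv, norm_norm, inv_mul_cancel₀ hn.ne']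
    have h1 := hcle (p, ‖x‖⁻¹ • x) ⟨hp, hy⟩
    have h2 : ∑ i, ∑ j, V.qf i j p * co (‖x‖⁻¹ • x) i * co (‖x‖⁻¹ • x) j =
        (‖x‖⁻¹) ^ 2 * ∑ i, ∑ j, V.qf i j p * co x i * co x j := by
      simp only [co_smul, Finset.mul_sum]
      refine Finset.sum_congr rfl fun i _ => Finset.sum_congr rfl fun j _ => ?_
      ring
    simp only at h1
    rw [h2] at h1
    have h3 : c * ‖x‖ ^ 2 ≤ ((‖x‖⁻¹) ^ 2 * ∑ i, ∑ j, V.qf i j p * co x i * co x j) * ‖x‖ ^ 2 :=
      mul_le_mul_of_nonneg_right h1 (by positivity)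
    have h4 : ((‖x‖⁻¹) ^ 2 * ∑ i, ∑ j, V.qf i j p * co x i * co x j) * ‖x‖ ^ 2 =
        ∑ i, ∑ j, V.qf i j p * co x i * co x j := by
      field_simp
    linarith

private theorem Y_contOn {K : Set E} (hO : K ⊆ Om) :
    ContinuousOn (fun z : E × E => V.Y z.1 z.2) (K ×ˢ K) :=
  V.Y_smo.continuousOn.mono (Set.prod_mono hO hO)

theorem Y_low {K : Set E} (hK : IsCompact K) (hO : K ⊆ Om) :
    ∃ c : ℝ, 0 < c ∧ ∀ p ∈ K, ∀ q ∈ K, c * ‖q - p‖ ^ 2 ≤ V.Y p q - 1 := by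
  obtain ⟨c1, hc1, hq⟩ := qf_low V hK hO
  obtain ⟨C3, hC3⟩ := V.Y_quad K hK hO
  obtain ⟨D, hD, hDK⟩ := dist_bd hK
  set C : ℝ := |C3| with hC
  have hC0 : 0 ≤ C := abs_nonneg _
  set d : ℝ := c1 / (2 * (C + 1)) with hd
  have hd0 : 0 < d := by positivity
  have hS : IsCompact ((K ×ˢ K) ∩ {z : E × E | d ≤ ‖z.2 - z.1‖}) := by
    refine (hK.prod hK).inter_right ?_
    exact isClosed_le continuous_const (continuous_snd.sub continuous_fst).norm
  have hpos : ∀ z ∈ (K ×ˢ K) ∩ {z : E × E | d ≤ ‖z.2 - z.1‖}, (0 : ℝ) < V.Y z.1 z.2 - 1 := by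
    rintro ⟨p, q⟩ ⟨⟨hp, hq'⟩, hdd⟩
    have h1 := V.Y_ge p (hO hp) q (hO hq')
    have h2 : V.Y p q ≠ 1 := fun h => by
      have h3 := V.Y_sep p (hO hp) q (hO hq') h
      simp only [Set.mem_setOf_eq] at hdd
      rw [h3, sub_self, norm_zero] at hdd
      linarith
    have h4 : 1 < V.Y p q := lt_of_le_of_ne h1 (Ne.symm h2)
    simpa using h4
  obtain ⟨c2, hc2, hle⟩ := hS.exists_forall_le'
    (((Y_contOn V hO).sub continuousOn_const).mono Set.inter_subset_left) hpos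
  refine ⟨min (c1 / 2) (c2 / D ^ 2), lt_min (by positivity) (by positivity), fun p hp q hq' => ?_⟩
  rcases le_or_gt d ‖q - p‖ with hdx | hdx
  · have h1 : c2 ≤ V.Y p q - 1 := hle (p, q) ⟨⟨hp, hq'⟩, hdx⟩
    have h2 : min (c1 / 2) (c2 / D ^ 2) * ‖q - p‖ ^ 2 ≤ c2 / D ^ 2 * D ^ 2 := by
      refine mul_le_mul (min_le_right _ _) ?_ (by positivity) (by positivity)
      exact pow_le_pow_left₀ (norm_nonneg _) (hDK p hp q hq') 2
    have h3 : c2 / D ^ 2 * D ^ 2 = c2 := by field_simp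
    linarith
  · have h1 := abs_le.1 (hC3 p hp q hq')
    have h2 := hq p hp (q - p)
    have h3 : C3 * ‖q - p‖ ^ 3 ≤ C * ‖q - p‖ ^ 3 :=
      mul_le_mul_of_nonneg_right (le_abs_self _) (by positivity)
    have h4 : C * ‖q - p‖ ^ 3 ≤ c1 / 2 * ‖q - p‖ ^ 2 := by
      have h5 : C * ‖q - p‖ ≤ c1 / 2 := by
        have h6 : C * ‖q - p‖ ≤ (C + 1) * d :=
          mul_le_mul (by linarith) hdx.le (norm_nonneg _) (by positivity)
        have h7 : (C + 1) * d = c1 / 2 := by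
          rw [hd]
          field_simp
        linarith
      calc C * ‖q - p‖ ^ 3 = C * ‖q - p‖ * ‖q - p‖ ^ 2 := by ring
        _ ≤ c1 / 2 * ‖q - p‖ ^ 2 := mul_le_mul_of_nonneg_right h5 (by positivity)
    have h8 : min (c1 / 2) (c2 / D ^ 2) * ‖q - p‖ ^ 2 ≤ c1 / 2 * ‖q - p‖ ^ 2 :=
      mul_le_mul_of_nonneg_right (min_le_left _ _) (by positivity)
    linarith [h1.1]

theorem Y_up {K : Set E} (hK : IsCompact K) (hO : K ⊆ Om) :
    ∃ C : ℝ, 0 < C ∧ ∀ p ∈ K, ∀ q ∈ K, V.Y p q - 1 ≤ C * ‖q - p‖ ^ 2 := by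
  obtain ⟨C3, hC3⟩ := V.Y_quad K hK hO
  obtain ⟨D, hD, hDK⟩ := dist_bd hK
  have hc : ContinuousOn (fun p : E => ∑ i, ∑ j, |V.qf i j p|) K :=
    continuousOn_finset_sum _ fun i _ => continuousOn_finset_sum _ fun j _ =>
      ((V.qf_cont i j).mono hO).abs
  obtain ⟨B, hB⟩ := hK.exists_bound_of_continuousOn hc
  refine ⟨|B| + |C3| * D + 1, by positivity, fun p hp q hq => ?_⟩
  have h1 := abs_le.1 (hC3 p hp q hq)
  have h2 : ∑ i, ∑ j, V.qf i j p * co (q - p) i * co (q - p) j ≤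
      (∑ i, ∑ j, |V.qf i j p|) * ‖q - p‖ ^ 2 := by
    rw [Finset.sum_mul]
    refine Finset.sum_le_sum fun i _ => ?_
    rw [Finset.sum_mul]
    refine Finset.sum_le_sum fun j _ => ?_
    calc V.qf i j p * co (q - p) i * co (q - p) j
        ≤ |V.qf i j p * co (q - p) i * co (q - p) j| := le_abs_self _
      _ = |V.qf i j p| * (|co (q - p) i| * |co (q - p) j|) := by
          rw [abs_mul, abs_mul, mul_assoc]
      _ ≤ |V.qf i j p| * (‖q - p‖ * ‖q - p‖) := by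
          refine mul_le_mul_of_nonneg_left ?_ (abs_nonneg _)
          exact mul_le_mul (abs_co_le _ _) (abs_co_le _ _) (abs_nonneg _) (norm_nonneg _)
      _ = |V.qf i j p| * ‖q - p‖ ^ 2 := by ring
  have h3 : (∑ i, ∑ j, |V.qf i j p|) ≤ |B| := by
    have h4 := hB p hp
    rw [Real.norm_eq_abs] at h4
    exact (le_abs_self _).trans (h4.trans (le_abs_self B))
  have h5 : (∑ i, ∑ j, |V.qf i j p|) * ‖q - p‖ ^ 2 ≤ |B| * ‖q - p‖ ^ 2 :=
    mul_le_mul_of_nonneg_right h3 (by positivity)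
  have h6 : C3 * ‖q - p‖ ^ 3 ≤ |C3| * D * ‖q - p‖ ^ 2 := by
    calc C3 * ‖q - p‖ ^ 3 ≤ |C3| * ‖q - p‖ ^ 3 :=
          mul_le_mul_of_nonneg_right (le_abs_self _) (by positivity)
      _ = |C3| * ‖q - p‖ * ‖q - p‖ ^ 2 := by ring
      _ ≤ |C3| * D * ‖q - p‖ ^ 2 := by
          refine mul_le_mul_of_nonneg_right ?_ (by positivity)
          exact mul_le_mul_of_nonneg_left (hDK p hp q hq) (abs_nonneg _)
  have h7 : (0 : ℝ) ≤ ‖q - p‖ ^ 2 := by positivity
  have h8 : (|B| + |C3| * D + 1) * ‖q - p‖ ^ 2 =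
      |B| * ‖q - p‖ ^ 2 + |C3| * D * ‖q - p‖ ^ 2 + ‖q - p‖ ^ 2 := by ring
  linarith [h1.2]

/-- the ball of radius `ε` -/
private def Sb (ε : ℝ) (p : E) : Set E := {q | q ∈ Om ∧ V.Y p q - 1 ≤ ε ^ 2}

private theorem Sb_meas (ε : ℝ) {p : E} (hp : p ∈ Om) : MeasurableSet (Sb V ε p) := by
  have hc : ContinuousOn (fun q => V.Y p q - 1) Om := by
    have h1 : ContinuousOn (fun q => V.Y p q) Om :=
      V.Y_smo.continuousOn.comp (f := fun q : E => ((p, q) : E × E))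
        (continuous_const.prodMk continuous_id).continuousOn (fun q hq => ⟨hp, hq⟩)
    exact h1.sub continuousOn_const
  have h2 : IsOpen (Om ∩ (fun q => V.Y p q - 1) ⁻¹' Set.Ioi (ε ^ 2)) :=
    hc.isOpen_inter_preimage isOpen_Om isOpen_Ioi
  have h3 : Sb V ε p = Om \ (Om ∩ (fun q => V.Y p q - 1) ⁻¹' Set.Ioi (ε ^ 2)) := by
    ext q
    simp only [Sb, Set.mem_setOf_eq, Set.mem_diff, Set.mem_inter_iff, Set.mem_preimage,
      Set.mem_Ioi, not_and, not_lt]
    exact ⟨fun h => ⟨h.1, fun _ => h.2⟩, fun h => ⟨h.1, h.2 h.1⟩⟩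
  rw [h3]
  exact isOpen_Om.measurableSet.diff h2.measurableSet

private theorem Sb_inv (ε : ℝ) {p : E} (hp : p ∈ Om) (g : G) :
    (V.mu (Sb V ε p)).toReal = (V.mu (Sb V ε (V.act g p))).toReal := by
  have hg := V.act_mem g p hp
  have h1 : ∫ q, (Sb V ε p).indicator (1 : E → ℝ) q ∂V.mu = (V.mu (Sb V ε p)).toReal :=
    integral_indicator_one (Sb_meas V ε hp)
  have h2 : ∫ q, (Sb V ε (V.act g p)).indicator (1 : E → ℝ) q ∂V.mu =
      (V.mu (Sb V ε (V.act g p))).toReal :=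
    integral_indicator_one (Sb_meas V ε hg)
  rw [← h1, ← h2, ← int_act V g ((Sb V ε (V.act g p)).indicator (1 : E → ℝ))]
  refine integral_congr_ae (ae_mu V.toEll fun q hq => ?_)
  have h3 : q ∈ Sb V ε p ↔ V.act g q ∈ Sb V ε (V.act g p) := by
    simp only [Sb, Set.mem_setOf_eq]
    rw [V.Y_inv g p hp q hq]
    exact ⟨fun h => ⟨V.act_mem g q hq, h.2⟩, fun h => ⟨hq, h.2⟩⟩
  show (Sb V ε p).indicator (1 : E → ℝ) q = (Sb V ε (V.act g p)).indicator (1 : E → ℝ) (V.act g q)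
  by_cases h4 : q ∈ Sb V ε p
  · rw [Set.indicator_of_mem h4, Set.indicator_of_mem (h3.1 h4)]
    rfl
  · rw [Set.indicator_of_notMem h4, Set.indicator_of_notMem (fun h => h4 (h3.2 h))]

/-- volume of small balls, uniformly over the domain -/
theorem ball_vol : ∃ C : ℝ, 0 < C ∧ ∀ ε : ℝ, 0 < ε → ε ≤ 1 → ∀ p ∈ Om,
    (V.mu {q | q ∈ Om ∧ V.Y p q - 1 ≤ ε ^ 2}).toReal ≤ C * ε ^ 4 := by
  obtain ⟨K, hK, hO, hcov⟩ := V.cocpt
  obtain ⟨K', hK', hO', hpr⟩ := V.Y_proper K hK hO 2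
  obtain ⟨c, hc, hlow⟩ := Y_low V (hK.union hK') (Set.union_subset hO hO')
  obtain ⟨R, hR⟩ := hK'.exists_bound_of_continuousOn
    ((V.rho_smo.continuousOn : ContinuousOn V.rho Om).mono hO')
  set w : ℝ≥0∞ := volume (Metric.ball (0 : E) 1) with hw
  have hwt : w ≠ ⊤ := measure_ball_lt_top.ne
  have hsc : 0 < Real.sqrt c := Real.sqrt_pos.2 hc
  refine ⟨|R| * ((Real.sqrt c)⁻¹ ^ 4 * w.toReal) + 1, by positivity, fun ε hε hε1 p hp => ?_⟩
  obtain ⟨g, hg⟩ := hcov p hp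
  have h0 : (V.mu {q | q ∈ Om ∧ V.Y p q - 1 ≤ ε ^ 2}).toReal =
      (V.mu (Sb V ε (V.act g p))).toReal := Sb_inv V ε hp g
  rw [h0]
  generalize V.act g p = p' at hg
  set r : ℝ := ε * (Real.sqrt c)⁻¹ with hr
  have hr0 : 0 ≤ r := by positivity
  have hsub : Sb V ε p' ⊆ K' ∩ Metric.closedBall p' r := by
    rintro q ⟨hq, hY⟩
    have he : ε ^ 2 ≤ 1 := by nlinarith
    have hqK : q ∈ K' := hpr p' hg q hq (by linarith)
    refine ⟨hqK, ?_⟩
    have h1 := hlow p' (Or.inl hg) q (Or.inr hqK)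
    rw [mem_closedBall_iff_norm]
    have h2 : (Real.sqrt c * ‖q - p'‖) ^ 2 ≤ ε ^ 2 := by
      rw [mul_pow, Real.sq_sqrt hc.le]
      linarith
    have h3 : Real.sqrt c * ‖q - p'‖ ≤ ε :=
      abs_le_of_sq_le_sq' h2 hε.le |>.2
    rw [hr, ← div_eq_mul_inv, le_div_iff₀ hsc]
    linarith
  have hT : MeasurableSet (K' ∩ Metric.closedBall p' r) :=
    hK'.measurableSet.inter Metric.isClosed_closedBall.measurableSet
  have hmu : V.mu (Sb V ε p') ≤ ENNReal.ofReal |R| * (ENNReal.ofReal (r ^ 4) * w) := by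
    calc V.mu (Sb V ε p') ≤ V.mu (K' ∩ Metric.closedBall p' r) := measure_mono hsub
      _ = ∫⁻ q in K' ∩ Metric.closedBall p' r, ENNReal.ofReal (V.rho q)
            ∂(volume.restrict Om) := by
          rw [Ell.mu, withDensity_apply _ hT]
      _ ≤ ∫⁻ q in K' ∩ Metric.closedBall p' r, ENNReal.ofReal |R| ∂(volume.restrict Om) := by
          refine setLIntegral_mono' hT fun q hq => ?_
          refine ENNReal.ofReal_le_ofReal ?_
          have h1 := hR q hq.1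
          rw [Real.norm_eq_abs] at h1
          exact (le_abs_self _).trans (h1.trans (le_abs_self R))
      _ = ENNReal.ofReal |R| * (volume.restrict Om) (K' ∩ Metric.closedBall p' r) := by
          rw [setLIntegral_const]
      _ ≤ ENNReal.ofReal |R| * volume (Metric.closedBall p' r) := by
          refine mul_le_mul_right ?_ _
          exact (Measure.restrict_le_self _).trans (measure_mono Set.inter_subset_right)
      _ = ENNReal.ofReal |R| * (ENNReal.ofReal (r ^ 4) * w) := by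
          rw [Measure.addHaar_closedBall _ _ hr0]
          have hf : Module.finrank ℝ E = 4 := by
            simp [E, Module.finrank_pi_fintype, Complex.finrank_real_complex]
          rw [hf]
  have hfin : ENNReal.ofReal |R| * (ENNReal.ofReal (r ^ 4) * w) ≠ ⊤ :=
    ENNReal.mul_ne_top ENNReal.ofReal_ne_top (ENNReal.mul_ne_top ENNReal.ofReal_ne_top hwt)
  have h5 := ENNReal.toReal_mono hfin hmu
  rw [ENNReal.toReal_mul, ENNReal.toReal_mul, ENNReal.toReal_ofReal (abs_nonneg _),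
    ENNReal.toReal_ofReal (by positivity)] at h5
  have h6 : r ^ 4 = ε ^ 4 * (Real.sqrt c)⁻¹ ^ 4 := by rw [hr, mul_pow]
  have h7 : (0 : ℝ) ≤ ε ^ 4 := by positivity
  rw [h6] at h5
  have h8 : (|R| * ((Real.sqrt c)⁻¹ ^ 4 * w.toReal) + 1) * ε ^ 4 =
      |R| * (ε ^ 4 * (Real.sqrt c)⁻¹ ^ 4 * w.toReal) + ε ^ 4 := by ring
  linarith

end Pool.Agent.MPd01a95.LN
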