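import Mathlib
import Pool.Agent.Lib.MP_d01a95_gt_L.LDefs
import Pool.Agent.Lib.MP_d01a95_gt_L.LBas
import Pool.Agent.Lib.MP_d01a95_gt_L.LCs
import Pool.Agent.Lib.MP_d01a95_gt_L.LAlg
import Pool.Agent.Lib.MP_d01a95_gt_L.LGrn
import Pool.Agent.Lib.MP_d01a95_gt_L.LInv
import Pool.Agent.Lib.MP_d01a95_gt_L.LUnf
import Pool.Agent.Lib.MP_d01a95_gt_L.LVol

/-!
# Module Mas: mass of the mollifier
-/

set_option autoImplicit false
set_option linter.all false

open MeasureTheory Filter Topology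
open scoped ContDiff InnerProductSpace ENNReal

namespace Pool.Agent.MPd01a95.LN

variable {G : Type} [Group G] (V : VG G)

/-- the profile -/
private noncomputable def Ph (y : ℝ) : ℝ := Real.smoothTransition (1 - y)

private theorem Ph_cont : Continuous Ph :=
  Real.smoothTransition.continuous.comp (continuous_const.sub continuous_id)

private theorem Ph_nonneg (y : ℝ) : 0 ≤ Ph y := Real.smoothTransition.nonneg _

private theorem Ph_le_one (y : ℝ) : Ph y ≤ 1 := Real.smoothTransition.le_one _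

private theorem Ph_zero {y : ℝ} (h : 1 ≤ y) : Ph y = 0 :=
  Real.smoothTransition.zero_of_nonpos (by linarith)

private theorem co_smul' (t : ℝ) (x : E) (i : Fin 4) : co (t • x) i = t * co x i := by
  fin_cases i <;> simp [co]

private theorem co_add' (x y : E) (i : Fin 4) : co (x + y) i = co x i + co y i := by
  fin_cases i <;> simp [co]

private theorem co_cont' (i : Fin 4) : Continuous (fun x : E => co x i) := by
  fin_cases i
  · exact Complex.continuous_re.comp (continuous_apply (0 : Fin 2))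
  · exact Complex.continuous_im.comp (continuous_apply (0 : Fin 2))
  · exact Complex.continuous_re.comp (continuous_apply (1 : Fin 2))
  · exact Complex.continuous_im.comp (continuous_apply (1 : Fin 2))

/-- real coordinates as a linear equivalence -/
private noncomputable def coL : E ≃ₗ[ℝ] (Fin 4 → ℝ) where
  toFun := co
  map_add' x y := funext fun i => co_add' x y i
  map_smul' t x := funext fun i => co_smul' t x i
  invFun y := ![⟨y 0, y 1⟩, ⟨y 2, y 3⟩]
  left_inv x := by
    funext i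
    fin_cases i <;> simp [co]
  right_inv y := by
    funext i
    fin_cases i <;> simp [co]

private noncomputable def J1 : ℝ := ∫ x : E, Ph (∑ i, co x i ^ 2)

private theorem g_cont : Continuous (fun x : E => Ph (∑ i, co x i ^ 2)) :=
  Ph_cont.comp (continuous_finset_sum _ fun i _ => (co_cont' i).pow 2)

private theorem J1_pos : 0 < J1 := by
  unfold J1
  refine Continuous.integral_pos_of_hasCompactSupport_nonneg_nonzero (x := (0 : E)) g_cont ?_
    (fun x => Ph_nonneg _) ?_
  · refine HasCompactSupport.intro (isCompact_closedBall (0 : E) 1) fun x hx => ?_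
    rw [mem_closedBall_zero_iff, not_le] at hx
    refine Ph_zero ?_
    have h1 := norm_le_co x
    nlinarith
  · have h0 : ∀ i, co (0 : E) i = 0 := fun i => by fin_cases i <;> simp [co]
    simp [h0, Ph]

open scoped MatrixOrder in
private theorem exists_sq {Q : Matrix (Fin 4) (Fin 4) ℝ} (hs : ∀ i j, Q i j = Q j i)
    (hp : ∀ x : Fin 4 → ℝ, 0 ≤ ∑ i, ∑ j, Q i j * x i * x j) :
    ∃ S : Matrix (Fin 4) (Fin 4) ℝ, S.transpose * S = Q := by
  have h1 : Q.PosSemidef := by
    refine Matrix.PosSemidef.of_dotProduct_mulVec_nonneg ?_ fun x => ?_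
    · ext i j
      simp [hs i j]
    · have := hp x
      simp only [dotProduct, Matrix.mulVec, star_trivial, Finset.mul_sum]
      refine this.trans (le_of_eq ?_)
      refine Finset.sum_congr rfl fun i _ => Finset.sum_congr rfl fun j _ => ?_
      ring
  have h2 : (0 : Matrix (Fin 4) (Fin 4) ℝ) ≤ Q := h1.nonneg
  refine ⟨CFC.sqrt Q, ?_⟩
  have h3 : (CFC.sqrt Q).PosSemidef := Matrix.nonneg_iff_posSemidef.1 (CFC.sqrt_nonneg Q)
  have h4 : (CFC.sqrt Q).transpose = CFC.sqrt Q := by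
    have := h3.1
    rw [Matrix.IsHermitian, Matrix.conjTranspose_eq_transpose_of_trivial] at this
    exact this
  rw [h4]
  exact CFC.sqrt_mul_sqrt_self Q h2

/-- linear change of variables -/
private theorem int_quad {Q : Fin 4 → Fin 4 → ℝ} (hs : ∀ i j, Q i j = Q j i)
    (hp : ∀ x : Fin 4 → ℝ, x ≠ 0 → 0 < ∑ i, ∑ j, Q i j * x i * x j)
    (hd : 0 < (Matrix.of fun i j => Q i j).det) :
    ∫ x : E, Ph (∑ i, ∑ j, Q i j * co x i * co x j) =
      J1 / Real.sqrt ((Matrix.of fun i j => Q i j).det) := by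
  obtain ⟨S, hS⟩ := exists_sq (Q := Matrix.of fun i j => Q i j) hs (fun x => by
    rcases eq_or_ne x 0 with rfl | hx
    · simp
    · exact (hp x hx).le)
  have hdet : S.det ^ 2 = (Matrix.of fun i j => Q i j).det := by
    rw [← hS, Matrix.det_mul, Matrix.det_transpose]
    ring
  have hS0 : S.det ≠ 0 := by
    intro h
    rw [h] at hdet
    rw [← hdet] at hd
    norm_num at hd
  set T : E →ₗ[ℝ] E := (coL.symm : (Fin 4 → ℝ) →ₗ[ℝ] E) ∘ₗ (Matrix.toLin' S) ∘ₗ
    (coL.symm.symm : E →ₗ[ℝ] (Fin 4 → ℝ)) with hT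
  have hTd : LinearMap.det T = S.det := by
    rw [hT, LinearMap.det_conj, LinearMap.det_toLin']
  have hco : ∀ x i, co (T x) i = ∑ j, S i j * co x j := by
    intro x i
    have h1 : co (T x) = S.mulVec (co x) := by
      have : coL (T x) = Matrix.toLin' S (coL x) := by
        simp [hT]
      simpa [coL] using this
    rw [h1]
    rfl
  have hq : ∀ x : E, ∑ i, ∑ j, Q i j * co x i * co x j = ∑ i, co (T x) i ^ 2 := by
    intro x
    have h1 : ∀ i j, Q i j = ∑ k, S k i * S k j := by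
      intro i j
      have := congrFun (congrFun hS i) j
      rw [Matrix.mul_apply] at this
      simpa using this.symm
    have h2 : ∀ k, co (T x) k ^ 2 = ∑ i, ∑ j, S k i * S k j * co x i * co x j := by
      intro k
      rw [hco, sq, Finset.sum_mul_sum]
      refine Finset.sum_congr rfl fun i _ => Finset.sum_congr rfl fun j _ => ?_
      ring
    simp_rw [h1, h2, Finset.sum_mul]
    rw [Finset.sum_comm' (s := Finset.univ) (t := fun _ => Finset.univ) (t' := Finset.univ)
      (s' := fun _ => Finset.univ) (by simp)]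
    conv_rhs => rw [Finset.sum_comm]
    rw [Finset.sum_comm]
    refine Finset.sum_congr rfl fun i _ => ?_
    rw [Finset.sum_comm]
  have h3 : ∫ x : E, Ph (∑ i, ∑ j, Q i j * co x i * co x j) = |S.det|⁻¹ * J1 := by
    simp_rw [hq]
    have hm := Measure.map_linearMap_addHaar_eq_smul_addHaar (volume : Measure E)
      (f := T) (by rw [hTd]; exact hS0)
    have hTc : Continuous T := T.continuous_of_finiteDimensional
    have h4 : ∫ x : E, Ph (∑ i, co (T x) i ^ 2) =
        ∫ y, Ph (∑ i, co y i ^ 2) ∂(Measure.map T volume) := by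
      rw [integral_map hTc.aemeasurable g_cont.aestronglyMeasurable]
    rw [h4, hm, integral_smul_measure, hTd, ENNReal.toReal_ofReal (abs_nonneg _), abs_inv]
    rfl
  rw [h3, ← hdet, Real.sqrt_sq_eq_abs, div_eq_inv_mul]

private theorem rho_J {p : E} (hp : p ∈ Om) :
    V.rho p * ∫ x : E, Ph (∑ i, ∑ j, V.qf i j p * co x i * co x j) = J1 / Real.sqrt V.kap := by
  have hr := V.rho_pos p hp
  have hk := V.kap_pos
  have hd := V.qf_det p hp
  have hdp : 0 < (Matrix.of fun i j => V.qf i j p).det := by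
    rw [hd]
    positivity
  rw [int_quad (Q := fun i j => V.qf i j p) (fun i j => V.qf_symm i j p hp) (V.qf_pos p hp) hdp,
    hd, Real.sqrt_mul hk.le, Real.sqrt_sq hr.le]
  have hsk : 0 < Real.sqrt V.kap := Real.sqrt_pos.2 hk
  field_simp

/-- the integrand -/
private noncomputable def Hf (ε : ℝ) (p q : E) : ℝ :=
  Om.indicator (fun q => V.rho q * Ph ((V.Y p q - 1) / ε ^ 2)) q

private theorem Y_cont_right {p : E} (hp : p ∈ Om) : ContinuousOn (fun q => V.Y p q) Om :=
  V.Y_smo.continuousOn.comp (f := fun q : E => ((p, q) : E × E))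
    (continuous_const.prodMk continuous_id).continuousOn (fun q hq => ⟨hp, hq⟩)

private theorem Hf_meas (ε : ℝ) {p : E} (hp : p ∈ Om) : Measurable (Hf V ε p) := by
  classical
  have h1 : ContinuousOn (fun q => V.rho q * Ph ((V.Y p q - 1) / ε ^ 2)) Om := by
    refine (V.rho_smo.continuousOn).mul (Ph_cont.comp_continuousOn ?_)
    exact ((Y_cont_right V hp).sub continuousOn_const).div_const _
  have h2 : Measurable (Om.piecewise (fun q => V.rho q * Ph ((V.Y p q - 1) / ε ^ 2)) 0) :=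
    ContinuousOn.measurable_piecewise h1 continuous_zero.continuousOn measurableSet_Om
  rw [Set.piecewise_eq_indicator] at h2
  exact h2

private theorem finrank_E : Module.finrank ℝ E = 4 := by
  simp [E, Module.finrank_pi_fintype, Complex.finrank_real_complex]

/-- substitution `q = p + ε x` -/
private theorem mk_eq {ε : ℝ} (hε : 0 < ε) (c : ℝ) (p : E) :
    mk V (ke V c ε) p = c⁻¹ * ∫ x : E, Hf V ε p (p + ε • x) := by
  have h1 : mk V (ke V c ε) p = (c * ε ^ 4)⁻¹ * ∫ q, Hf V ε p q := by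
    unfold mk ke
    rw [integral_const_mul]
    congr 1
    rw [int_mu, ← integral_indicator measurableSet_Om]
    rfl
  have h2 : ∫ x : E, Hf V ε p (p + ε • x) = (ε ^ 4)⁻¹ * ∫ q, Hf V ε p q := by
    have h3 := Measure.integral_comp_smul (volume : Measure E) (fun y => Hf V ε p (p + y)) ε
    have h4 : ∫ y, Hf V ε p (p + y) = ∫ q, Hf V ε p q := integral_add_left_eq_self _ p
    rw [h3, h4, finrank_E, smul_eq_mul, abs_inv, abs_of_pos (by positivity)]
  rw [h1, h2, mul_inv, mul_assoc]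

private theorem lim_pt {p0 : E} (hp0 : p0 ∈ Om) (x : E) :
    Tendsto (fun z : ℝ × E => Hf V z.1 z.2 (z.2 + z.1 • x)) (𝓝[{z | 0 < z.1}] ((0 : ℝ), p0))
      (𝓝 (V.rho p0 * Ph (∑ i, ∑ j, V.qf i j p0 * co x i * co x j))) := by
  set l := 𝓝[{z : ℝ × E | 0 < z.1}] ((0 : ℝ), p0) with hl
  have hfst : Tendsto (fun z : ℝ × E => z.1) l (𝓝 0) :=
    (continuous_fst.tendsto ((0 : ℝ), p0)).mono_left nhdsWithin_le_nhds
  have hsnd : Tendsto (fun z : ℝ × E => z.2) l (𝓝 p0) :=
    (continuous_snd.tendsto ((0 : ℝ), p0)).mono_left nhdsWithin_le_nhds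
  have hq : Tendsto (fun z : ℝ × E => z.2 + z.1 • x) l (𝓝 p0) := by
    have := hsnd.add (hfst.smul_const x)
    simpa using this
  have hOm : Om ∈ 𝓝 p0 := isOpen_Om.mem_nhds hp0
  have e1 : ∀ᶠ z in l, z.2 + z.1 • x ∈ Om := hq.eventually hOm
  have hpos : ∀ᶠ z : ℝ × E in l, 0 < z.1 := self_mem_nhdsWithin
  have hrho : Tendsto (fun z : ℝ × E => V.rho (z.2 + z.1 • x)) l (𝓝 (V.rho p0)) :=
    ((V.rho_smo.continuousOn).continuousAt hOm).tendsto.comp hq
  obtain ⟨K, hK, hKO, hKn⟩ := exists_nhd (K := {p0}) isCompact_singleton (by simpa using hp0)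
  have hKn' : K ∈ 𝓝 p0 := mem_interior_iff_mem_nhds.1 (hKn rfl)
  obtain ⟨C, hC⟩ := V.Y_quad K hK hKO
  have hqf : ∀ i j, Tendsto (fun z : ℝ × E => V.qf i j z.2) l (𝓝 (V.qf i j p0)) := fun i j =>
    ((V.qf_cont i j).continuousAt hOm).tendsto.comp hsnd
  have hQ : Tendsto (fun z : ℝ × E => ∑ i, ∑ j, V.qf i j z.2 * co x i * co x j) l
      (𝓝 (∑ i, ∑ j, V.qf i j p0 * co x i * co x j)) :=
    tendsto_finset_sum _ fun i _ => tendsto_finset_sum _ fun j _ =>
      ((hqf i j).mul_const _).mul_const _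
  have hY : Tendsto (fun z : ℝ × E => (V.Y z.2 (z.2 + z.1 • x) - 1) / z.1 ^ 2) l
      (𝓝 (∑ i, ∑ j, V.qf i j p0 * co x i * co x j)) := by
    have hdiff : Tendsto (fun z : ℝ × E => (V.Y z.2 (z.2 + z.1 • x) - 1) / z.1 ^ 2 -
        ∑ i, ∑ j, V.qf i j z.2 * co x i * co x j) l (𝓝 0) := by
      have hb : Tendsto (fun z : ℝ × E => |C| * (z.1 * ‖x‖ ^ 3)) l (𝓝 0) := by
        have := (hfst.mul_const (‖x‖ ^ 3)).const_mul |C|
        simpa using this
      refine squeeze_zero_norm' ?_ hb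
      filter_upwards [hpos, hsnd.eventually hKn', hq.eventually hKn'] with z hz h1 h2
      have h3 := hC z.2 h1 _ h2
      rw [add_sub_cancel_left] at h3
      have h4 : ∑ i, ∑ j, V.qf i j z.2 * co (z.1 • x) i * co (z.1 • x) j =
          z.1 ^ 2 * ∑ i, ∑ j, V.qf i j z.2 * co x i * co x j := by
        simp only [co_smul', Finset.mul_sum]
        refine Finset.sum_congr rfl fun i _ => Finset.sum_congr rfl fun j _ => ?_
        ring
      rw [h4, norm_smul, Real.norm_of_nonneg hz.le] at h3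
      have h5 : (V.Y z.2 (z.2 + z.1 • x) - 1) / z.1 ^ 2 -
          ∑ i, ∑ j, V.qf i j z.2 * co x i * co x j =
          (V.Y z.2 (z.2 + z.1 • x) - 1 - z.1 ^ 2 * ∑ i, ∑ j, V.qf i j z.2 * co x i * co x j) /
            z.1 ^ 2 := by
        field_simp
      rw [h5, Real.norm_eq_abs, abs_div, abs_of_pos (show (0 : ℝ) < z.1 ^ 2 by positivity),
        div_le_iff₀ (by positivity)]
      refine h3.trans ?_
      have h6 : C * (z.1 * ‖x‖) ^ 3 ≤ |C| * (z.1 * ‖x‖) ^ 3 :=
        mul_le_mul_of_nonneg_right (le_abs_self C) (by positivity)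
      refine h6.trans (le_of_eq ?_)
      ring
    have := hdiff.add hQ
    simpa using this
  have hmain : Tendsto (fun z : ℝ × E => V.rho (z.2 + z.1 • x) *
      Ph ((V.Y z.2 (z.2 + z.1 • x) - 1) / z.1 ^ 2)) l
      (𝓝 (V.rho p0 * Ph (∑ i, ∑ j, V.qf i j p0 * co x i * co x j))) :=
    hrho.mul ((Ph_cont.tendsto _).comp hY)
  refine hmain.congr' ?_
  filter_upwards [e1] with z hz
  have h0 : Hf V z.1 z.2 (z.2 + z.1 • x) = V.rho (z.2 + z.1 • x) *
    Ph ((V.Y z.2 (z.2 + z.1 • x) - 1) / z.1 ^ 2) := Set.indicator_of_mem hz _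
  exact h0.symm

private theorem lim_int {p0 : E} (hp0 : p0 ∈ Om) :
    Tendsto (fun z : ℝ × E => ∫ x : E, Hf V z.1 z.2 (z.2 + z.1 • x))
      (𝓝[{z | 0 < z.1}] ((0 : ℝ), p0)) (𝓝 (J1 / Real.sqrt V.kap)) := by
  set l := 𝓝[{z : ℝ × E | 0 < z.1}] ((0 : ℝ), p0) with hl
  have hfst : Tendsto (fun z : ℝ × E => z.1) l (𝓝 0) :=
    (continuous_fst.tendsto ((0 : ℝ), p0)).mono_left nhdsWithin_le_nhds
  have hsnd : Tendsto (fun z : ℝ × E => z.2) l (𝓝 p0) :=
    (continuous_snd.tendsto ((0 : ℝ), p0)).mono_left nhdsWithin_le_nhds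
  have hpos : ∀ᶠ z : ℝ × E in l, 0 < z.1 := self_mem_nhdsWithin
  have hle : ∀ᶠ z : ℝ × E in l, z.1 ≤ 1 := by
    have h1 : ∀ᶠ z : ℝ × E in l, z.1 < 1 :=
      hfst.eventually (gt_mem_nhds (show (0 : ℝ) < 1 by norm_num))
    filter_upwards [h1] with z hz
    exact hz.le
  obtain ⟨K, hK, hKO, hKn⟩ := exists_nhd (K := {p0}) isCompact_singleton (by simpa using hp0)
  have hKn' : K ∈ 𝓝 p0 := mem_interior_iff_mem_nhds.1 (hKn rfl)
  obtain ⟨K', hK', hKO', hpr⟩ := V.Y_proper K hK hKO 2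
  obtain ⟨c, hc, hlow⟩ := Y_low V (hK.union hK') (Set.union_subset hKO hKO')
  obtain ⟨R, hR⟩ := hK'.exists_bound_of_continuousOn
    ((V.rho_smo.continuousOn : ContinuousOn V.rho Om).mono hKO')
  set r : ℝ := c⁻¹ + 1 with hr
  have hr1 : 0 < c⁻¹ := by positivity
  rw [← rho_J V hp0, ← integral_const_mul]
  refine tendsto_integral_filter_of_dominated_convergence
    ((Metric.closedBall (0 : E) r).indicator fun _ => |R|) ?_ ?_ ?_ ?_
  · filter_upwards [hsnd.eventually hKn'] with z hz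
    have h1 : Measurable fun x : E => z.2 + z.1 • x :=
      (continuous_const.add (continuous_const_smul z.1)).measurable
    exact ((Hf_meas V z.1 (hKO hz)).comp h1).aestronglyMeasurable
  · filter_upwards [hpos, hle, hsnd.eventually hKn'] with z hz hz1 hzK
    refine Eventually.of_forall fun x => ?_
    by_cases hq : z.2 + z.1 • x ∈ Om
    · have h0 : Hf V z.1 z.2 (z.2 + z.1 • x) = V.rho (z.2 + z.1 • x) *
        Ph ((V.Y z.2 (z.2 + z.1 • x) - 1) / z.1 ^ 2) := Set.indicator_of_mem hq _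
      rw [h0]
      rcases le_or_gt 1 ((V.Y z.2 (z.2 + z.1 • x) - 1) / z.1 ^ 2) with h1 | h1
      · rw [Ph_zero h1, mul_zero, norm_zero]
        exact Set.indicator_nonneg (fun _ _ => abs_nonneg _) _
      · rw [div_lt_one (by positivity)] at h1
        have h2 : z.1 ^ 2 ≤ 1 := by nlinarith
        have hqK : z.2 + z.1 • x ∈ K' := hpr z.2 hzK _ hq (by linarith)
        have h3 := hlow z.2 (Or.inl hzK) _ (Or.inr hqK)
        rw [add_sub_cancel_left, norm_smul, Real.norm_of_nonneg hz.le] at h3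
        have h4 : c * ‖x‖ ^ 2 < 1 := by
          have h5 : z.1 ^ 2 * (c * ‖x‖ ^ 2) < z.1 ^ 2 * 1 := by
            calc z.1 ^ 2 * (c * ‖x‖ ^ 2) = c * (z.1 * ‖x‖) ^ 2 := by ring
              _ ≤ V.Y z.2 (z.2 + z.1 • x) - 1 := h3
              _ < z.1 ^ 2 * 1 := by linarith
          exact lt_of_mul_lt_mul_left h5 (by positivity)
        have h6 : x ∈ Metric.closedBall (0 : E) r := by
          rw [mem_closedBall_zero_iff]
          by_contra h7
          rw [not_le] at h7
          have h8 : ‖x‖ ^ 2 < c⁻¹ := by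
            rw [← one_div]
            exact (lt_div_iff₀' hc).2 h4
          nlinarith
        rw [Set.indicator_of_mem h6, norm_mul, Real.norm_eq_abs, Real.norm_eq_abs,
          abs_of_nonneg (Ph_nonneg _)]
        have h9 := hR _ hqK
        rw [Real.norm_eq_abs] at h9
        calc |V.rho (z.2 + z.1 • x)| * Ph ((V.Y z.2 (z.2 + z.1 • x) - 1) / z.1 ^ 2)
            ≤ |V.rho (z.2 + z.1 • x)| * 1 :=
              mul_le_mul_of_nonneg_left (Ph_le_one _) (abs_nonneg _)
          _ ≤ |R| := by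
              rw [mul_one]
              exact h9.trans (le_abs_self R)
    · have h0 : Hf V z.1 z.2 (z.2 + z.1 • x) = 0 := Set.indicator_of_notMem hq _
      rw [h0, norm_zero]
      exact Set.indicator_nonneg (fun _ _ => abs_nonneg _) _
  · rw [integrable_indicator_iff Metric.isClosed_closedBall.measurableSet]
    exact integrableOn_const (measure_closedBall_lt_top.ne)
  · exact Eventually.of_forall fun x => lim_pt V hp0 x

private theorem mk_inv (c ε : ℝ) (g : G) {p : E} (hp : p ∈ Om) :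
    mk V (ke V c ε) (V.act g p) = mk V (ke V c ε) p := by
  unfold mk
  rw [← int_act V g (fun q => ke V c ε (V.act g p) q)]
  refine integral_congr_ae (ae_mu V.toEll fun q hq => ?_)
  show ke V c ε (V.act g p) (V.act g q) = ke V c ε p q
  unfold ke
  rw [V.Y_inv g p hp q hq]

/-- the mass of the mollifier tends to one, uniformly over the domain, for the right constant -/
theorem exists_mass : ∃ c : ℝ, 0 < c ∧ ∀ δ : ℝ, 0 < δ → ∃ ε₀ : ℝ, 0 < ε₀ ∧
    ∀ ε : ℝ, 0 < ε → ε ≤ ε₀ → ∀ p ∈ Om, |mk V (ke V c ε) p - 1| ≤ δ := by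
  obtain ⟨K, hK, hKO, hcov⟩ := V.cocpt
  have hc : 0 < J1 / Real.sqrt V.kap := div_pos J1_pos (Real.sqrt_pos.2 V.kap_pos)
  refine ⟨J1 / Real.sqrt V.kap, hc, fun δ hδ => ?_⟩
  set c := J1 / Real.sqrt V.kap with hcdef
  have key : ∀ᶠ ε in 𝓝 (0 : ℝ), ∀ p ∈ K, (0 < ε → |mk V (ke V c ε) p - 1| ≤ δ) := by
    refine hK.eventually_forall_of_forall_eventually
      (P := fun ε p => 0 < ε → |mk V (ke V c ε) p - 1| ≤ δ) fun p0 hp0 => ?_
    have h1 : ∀ᶠ z in 𝓝[{z : ℝ × E | 0 < z.1}] ((0 : ℝ), p0),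
        |(∫ x : E, Hf V z.1 z.2 (z.2 + z.1 • x)) - c| < c * δ := by
      have := (Metric.tendsto_nhds.1 (lim_int V (hKO hp0))) (c * δ) (by positivity)
      filter_upwards [this] with z hz
      rwa [Real.dist_eq] at hz
    rw [eventually_nhdsWithin_iff] at h1
    filter_upwards [h1] with z hz hpos
    have h2 := hz hpos
    rw [mk_eq V hpos c z.2]
    have h3 : c⁻¹ * (∫ x : E, Hf V z.1 z.2 (z.2 + z.1 • x)) - 1 =
        c⁻¹ * ((∫ x : E, Hf V z.1 z.2 (z.2 + z.1 • x)) - c) := by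
      field_simp
    rw [h3, abs_mul, abs_of_pos (inv_pos.2 hc)]
    calc c⁻¹ * |(∫ x : E, Hf V z.1 z.2 (z.2 + z.1 • x)) - c| ≤ c⁻¹ * (c * δ) :=
          mul_le_mul_of_nonneg_left h2.le (inv_pos.2 hc).le
      _ = δ := by field_simp
  obtain ⟨ε₁, hε₁, h1⟩ := Metric.eventually_nhds_iff.1 key
  refine ⟨ε₁ / 2, by positivity, fun ε hε hle p hp => ?_⟩
  obtain ⟨g, hg⟩ := hcov p hp
  rw [← mk_inv V c ε g hp]
  refine h1 ?_ _ hg hε
  rw [Real.dist_eq, sub_zero, abs_of_pos hε]
  linarith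

end Pool.Agent.MPd01a95.LN
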