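import Mathlib
import Pool.Agent.Lib.MP_d01a95_gt_L.LDefs
import Pool.Agent.Lib.MP_d01a95_gt_L.LBas
import Pool.Agent.Lib.MP_d01a95_gt_L.LCs
import Pool.Agent.Lib.MP_d01a95_gt_L.LAlg
import Pool.Agent.Lib.MP_d01a95_gt_L.LGrn
import Pool.Agent.Lib.MP_d01a95_gt_L.LInv
import Pool.Agent.Lib.MP_d01a95_gt_L.LUnf
import Pool.Agent.Lib.MP_d01a95_gt_L.LBf
import Pool.Agent.Lib.MP_d01a95_gt_L.LChi
import Pool.Agent.Lib.MP_d01a95_gt_L.LGq
import Pool.Agent.Lib.MP_d01a95_gt_L.LKer
import Pool.Agent.Lib.MP_d01a95_gt_L.LSmk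

/-!
# Module Min: minimising sequence among smooth affine maps
-/

set_option autoImplicit false
set_option linter.all false

open MeasureTheory Filter Topology
open scoped ContDiff InnerProductSpace ENNReal

namespace Pool.Agent.MPd01a95.LN

variable {G : Type} [Group G] (V : VG G) {χ : E → ℝ}
variable {H : Type} [NormedAddCommGroup H] [InnerProductSpace ℝ H]
variable (pi : G →* (H ≃ₗᵢ[ℝ] H)) {c : G → H}

private theorem en_int (hχ : IsChi V χ) {s t : E → H} (hs : Smo s) (ht : Smo t) :
    Integrable (fun p => χ p * V.Gam s t p) V.mu := by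
  have hG : Smo (V.Gam s t) := Gam_smo V.toEll hs ht
  have h1 : ContinuousOn (fun p => χ p * V.Gam s t p) Om :=
    hχ.smo.cont.mul hG.cont
  have h2 : CS (fun p => χ p • V.Gam s t p) := CS.smul_left hχ.cs
  exact integrable_cs V.toEll h1 h2

private theorem en_nonneg (hχ : IsChi V χ) (s : E → H) : 0 ≤ En V χ s s := by
  unfold En
  refine integral_nonneg_of_ae ?_
  exact ae_mu V.toEll fun p hp => mul_nonneg (hχ.nn p hp) (Gam_nonneg V.toEll s hp)

private theorem en_symm (s t : E → H) : En V χ s t = En V χ t s := by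
  unfold En
  refine integral_congr_ae ?_
  refine ae_mu V.toEll fun p hp => ?_
  show χ p * V.Gam s t p = χ p * V.Gam t s p
  rw [Gam_symm V.toEll s t hp]

private theorem en_add (hχ : IsChi V χ) {s s' t : E → H} (hs : Smo s) (hs' : Smo s')
    (ht : Smo t) : En V χ (fun p => s p + s' p) t = En V χ s t + En V χ s' t := by
  have h1 : En V χ (fun p => s p + s' p) t
      = ∫ p, (χ p * V.Gam s t p + χ p * V.Gam s' t p) ∂V.mu := by
    unfold En
    refine integral_congr_ae ?_
    refine ae_mu V.toEll fun p hp => ?_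
    show χ p * V.Gam (fun p => s p + s' p) t p = χ p * V.Gam s t p + χ p * V.Gam s' t p
    rw [Gam_add V.toEll hs hs' hp]
    ring
  rw [h1, integral_add (en_int V hχ hs ht) (en_int V hχ hs' ht)]
  rfl

private theorem en_smul (a : ℝ) {s t : E → H} (hs : Smo s) :
    En V χ (fun p => a • s p) t = a * En V χ s t := by
  have h1 : En V χ (fun p => a • s p) t = ∫ p, a * (χ p * V.Gam s t p) ∂V.mu := by
    unfold En
    refine integral_congr_ae ?_
    refine ae_mu V.toEll fun p hp => ?_
    show χ p * V.Gam (fun p => a • s p) t p = a * (χ p * V.Gam s t p)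
    rw [Gam_smul V.toEll a hs hp]
    ring
  rw [h1, integral_const_mul]
  rfl

private theorem smo_smul (a : ℝ) {s : E → H} (hs : Smo s) : Smo (fun p => a • s p) :=
  Smo.smul (Smo.const a) hs

private theorem en_sq (hχ : IsChi V χ) {f t : E → H} (hf : Smo f) (ht : Smo t) (x : ℝ) :
    En V χ (fun p => f p + x • t p) (fun p => f p + x • t p)
      = En V χ f f + 2 * x * En V χ f t + x ^ 2 * En V χ t t := by
  have hxt : Smo (fun p => x • t p) := smo_smul x ht
  have hsum : Smo (fun p => f p + x • t p) := Smo.add hf hxt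
  have e1 : ∀ {w : E → H}, Smo w →
      En V χ (fun p => f p + x • t p) w = En V χ f w + x * En V χ t w := by
    intro w hw
    have h := en_add V hχ hf hxt hw
    rw [en_smul V x ht] at h
    exact h
  rw [e1 hsum, en_symm V f, e1 hf, en_symm V t (fun p => f p + x • t p), e1 ht,
    en_symm V t f]
  ring

theorem min_seq (hχ : IsChi V χ) {h₀ : E → H} (hh : Smo h₀) (ha : IsAff V pi c h₀) :
    ∃ (s : ℕ → E → H) (C : ℝ) (e : ℕ → ℝ), (∀ n, Smo (s n) ∧ IsSec V pi (s n)) ∧
      (∀ n, En V χ (s n) (s n) ≤ C) ∧ (∀ n, 0 ≤ e n) ∧ Tendsto e atTop (𝓝 0) ∧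
      ∀ n, ∀ t : E → H, Smo t → IsSec V pi t →
        En V χ (fun p => h₀ p + s n p) t ^ 2 ≤ e n * En V χ t t := by
  -- the set of energies
  set S : Set ℝ := {y | ∃ s : E → H, Smo s ∧ IsSec V pi s ∧
    En V χ (fun p => h₀ p + s p) (fun p => h₀ p + s p) = y} with hS
  have hne : S.Nonempty := by
    refine ⟨_, fun _ => 0, Smo.const 0, ?_, rfl⟩
    intro g p hp
    simp
  have hbdd : BddBelow S := by
    refine ⟨0, ?_⟩
    rintro y ⟨s, hs, -, rfl⟩
    exact en_nonneg V hχ _
  have hch : ∀ n : ℕ, ∃ s : E → H, Smo s ∧ IsSec V pi s ∧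
      En V χ (fun p => h₀ p + s p) (fun p => h₀ p + s p) < sInf S + 1 / ((n : ℝ) + 1) := by
    intro n
    have hpos : (0 : ℝ) < 1 / ((n : ℝ) + 1) := by positivity
    obtain ⟨y, ⟨s, hs, hs', rfl⟩, hy⟩ := exists_lt_of_csInf_lt hne
      (show sInf S < sInf S + 1 / ((n : ℝ) + 1) by linarith)
    exact ⟨s, hs, hs', hy⟩
  choose s hs hsec hlt using hch
  have hf : ∀ n, Smo (fun p => h₀ p + s n p) := fun n => Smo.add hh (hs n)
  have hle : ∀ n, sInf S ≤ En V χ (fun p => h₀ p + s n p) (fun p => h₀ p + s n p) :=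
    fun n => csInf_le hbdd ⟨s n, hs n, hsec n, rfl⟩
  refine ⟨s, 2 * (sInf S + 1) + 2 * En V χ h₀ h₀,
    fun n => En V χ (fun p => h₀ p + s n p) (fun p => h₀ p + s n p) - sInf S,
    fun n => ⟨hs n, hsec n⟩, ?_, ?_, ?_, ?_⟩
  · intro n
    have h1 := en_sq V hχ (hf n) hh (-1)
    have h2 := en_sq V hχ (hf n) hh 1
    have h3 := en_nonneg V hχ (fun p => (h₀ p + s n p) + (1 : ℝ) • h₀ p)
    have h4 : (fun p => (h₀ p + s n p) + (-1 : ℝ) • h₀ p) = s n := by
      funext p
      rw [neg_one_smul]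
      abel
    rw [h4] at h1
    have h5 := hlt n
    have h6 : (1 : ℝ) / ((n : ℝ) + 1) ≤ 1 := by
      rw [div_le_one (by positivity)]
      have : (0 : ℝ) ≤ (n : ℝ) := Nat.cast_nonneg n
      linarith
    rw [h2] at h3
    rw [h1]
    nlinarith [h3, h5, h6]
  · intro n
    have := hle n
    show 0 ≤ En V χ (fun p => h₀ p + s n p) (fun p => h₀ p + s n p) - sInf S
    linarith
  · refine squeeze_zero (g := fun n : ℕ => 1 / ((n : ℝ) + 1)) ?_ ?_
      tendsto_one_div_add_atTop_nhds_zero_nat
    · intro n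
      have := hle n
      show 0 ≤ En V χ (fun p => h₀ p + s n p) (fun p => h₀ p + s n p) - sInf S
      linarith
    · intro n
      have := hlt n
      show En V χ (fun p => h₀ p + s n p) (fun p => h₀ p + s n p) - sInf S ≤ 1 / ((n : ℝ) + 1)
      linarith
  · intro n t ht hts
    set a : ℝ := En V χ t t with ha'
    set b : ℝ := En V χ (fun p => h₀ p + s n p) t with hb'
    set e : ℝ := En V χ (fun p => h₀ p + s n p) (fun p => h₀ p + s n p) - sInf S with he'
    have key : ∀ x : ℝ, 0 ≤ a * (x * x) + (2 * b) * x + e := by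
      intro x
      have h1 := en_sq V hχ (hf n) ht x
      have hmem : En V χ (fun p => (h₀ p + s n p) + x • t p)
          (fun p => (h₀ p + s n p) + x • t p) ∈ S := by
        refine ⟨fun p => s n p + x • t p, Smo.add (hs n) (smo_smul x ht), ?_, ?_⟩
        · intro g p hp
          show s n (V.act g p) + x • t (V.act g p) = pi g (s n p + x • t p)
          rw [hsec n g p hp, hts g p hp, map_add, map_smul]
        · have h4 : (fun p => h₀ p + (s n p + x • t p)) = fun p => (h₀ p + s n p) + x • t p := by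
            funext p
            rw [add_assoc]
          show En V χ (fun p => h₀ p + (s n p + x • t p)) (fun p => h₀ p + (s n p + x • t p)) = _
          rw [h4]
      have h2 := csInf_le hbdd hmem
      rw [h1] at h2
      nlinarith [h2]
    have hd := discrim_le_zero key
    unfold discrim at hd
    nlinarith [hd]

end Pool.Agent.MPd01a95.LN
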