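import Mathlib
import Pool.Agent.Lib.MP_d01a95_gt_L.LDefs
import Pool.Agent.Lib.MP_d01a95_gt_L.LBas
import Pool.Agent.Lib.MP_d01a95_gt_L.LCs
import Pool.Agent.Lib.MP_d01a95_gt_L.LAlg
import Pool.Agent.Lib.MP_d01a95_gt_L.LGrn
import Pool.Agent.Lib.MP_d01a95_gt_L.LInv
import Pool.Agent.Lib.MP_d01a95_gt_L.LUnf
import Pool.Agent.Lib.MP_d01a95_gt_L.LBf
import Pool.Agent.Lib.MP_d01a95_gt_L.LChi
import Pool.Agent.Lib.MP_d01a95_gt_L.LGq
import Pool.Agent.Lib.MP_d01a95_gt_L.LKer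
import Pool.Agent.Lib.MP_d01a95_gt_L.LSmk
import Pool.Agent.Lib.MP_d01a95_gt_L.LVol
import Pool.Agent.Lib.MP_d01a95_gt_L.LMas

/-!
# Module Mol: the mollifier, the commutator kernel
-/

set_option autoImplicit false
set_option linter.all false

open MeasureTheory Filter Topology
open scoped ContDiff InnerProductSpace ENNReal

namespace Pool.Agent.MPd01a95.LN

variable {G : Type} [Group G] (V : VG G) {χ : E → ℝ}
variable {H : Type} [NormedAddCommGroup H] [InnerProductSpace ℝ H]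
variable (pi : G →* (H ≃ₗᵢ[ℝ] H)) {cc : ℝ}

/-! ### auxiliary: derivatives of the smooth transition -/

private theorem st_smooth : ContDiff ℝ ∞ Real.smoothTransition := Real.smoothTransition.contDiff

private theorem st_d1_smooth : ContDiff ℝ ∞ (deriv Real.smoothTransition) := by
  simpa using st_smooth.iterate_deriv 1

private theorem st_d2_smooth : ContDiff ℝ ∞ (deriv (deriv Real.smoothTransition)) := by
  simpa using st_smooth.iterate_deriv 2

private theorem st_ev_neg {x : ℝ} (hx : x < 0) :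
    Real.smoothTransition =ᶠ[𝓝 x] fun _ => (0 : ℝ) := by
  filter_upwards [Iio_mem_nhds hx] with y hy
  exact Real.smoothTransition.zero_of_nonpos (le_of_lt hy)

private theorem st_ev_gt {x : ℝ} (hx : 1 < x) :
    Real.smoothTransition =ᶠ[𝓝 x] fun _ => (1 : ℝ) := by
  filter_upwards [Ioi_mem_nhds hx] with y hy
  exact Real.smoothTransition.one_of_one_le (le_of_lt hy)

private theorem st_d1_neg {x : ℝ} (hx : x < 0) : deriv Real.smoothTransition x = 0 := by
  rw [(st_ev_neg hx).deriv_eq]; simp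

private theorem st_d1_gt {x : ℝ} (hx : 1 < x) : deriv Real.smoothTransition x = 0 := by
  rw [(st_ev_gt hx).deriv_eq]; simp

private theorem st_d2_neg {x : ℝ} (hx : x < 0) :
    deriv (deriv Real.smoothTransition) x = 0 := by
  rw [(st_ev_neg hx).deriv.deriv_eq]; simp

private theorem st_d2_gt {x : ℝ} (hx : 1 < x) :
    deriv (deriv Real.smoothTransition) x = 0 := by
  rw [(st_ev_gt hx).deriv.deriv_eq]; simp

private theorem bd_of_zero {f : ℝ → ℝ} (hf : Continuous f) (h0 : ∀ x, x < 0 → f x = 0)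
    (h1 : ∀ x, 1 < x → f x = 0) : ∃ A : ℝ, 0 < A ∧ ∀ x, |f x| ≤ A := by
  obtain ⟨C, hC⟩ := (isCompact_Icc (a := (0 : ℝ)) (b := 1)).exists_bound_of_continuousOn
    hf.continuousOn
  refine ⟨|C| + 1, by positivity, fun x => ?_⟩
  by_cases hx : x < 0
  · rw [h0 x hx, abs_zero]; positivity
  by_cases hx' : 1 < x
  · rw [h1 x hx', abs_zero]; positivity
  · have := hC x ⟨not_lt.mp hx, not_lt.mp hx'⟩
    rw [Real.norm_eq_abs] at this
    have := le_abs_self C
    linarith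

/-- the profile of the mollifier -/
private noncomputable def ph (c ε : ℝ) (y : ℝ) : ℝ :=
  (c * ε ^ 4)⁻¹ * Real.smoothTransition (1 - (y - 1) / ε ^ 2)

private theorem ke_eq (c ε : ℝ) (p q : E) : ke V c ε p q = ph c ε (V.Y p q) := rfl

private theorem ph_smooth (c ε : ℝ) : ContDiff ℝ ∞ (ph c ε) := by
  have h : ContDiff ℝ ∞ (fun y : ℝ => 1 - (y - 1) / ε ^ 2) :=
    contDiff_const.sub ((contDiff_id.sub contDiff_const).div_const _)
  exact contDiff_const.mul (st_smooth.comp h)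

private theorem in_deriv (ε y : ℝ) :
    HasDerivAt (fun y : ℝ => 1 - (y - 1) / ε ^ 2) (-(1 / ε ^ 2)) y := by
  have h : HasDerivAt (fun y : ℝ => (y - 1) / ε ^ 2) (1 / ε ^ 2) y :=
    ((hasDerivAt_id y).sub_const 1).div_const _
  simpa using h.const_sub 1

private theorem ph_d1 (c ε : ℝ) : deriv (ph c ε) = fun y =>
    (c * ε ^ 4)⁻¹ * (deriv Real.smoothTransition (1 - (y - 1) / ε ^ 2) * (-(1 / ε ^ 2))) := by
  funext y
  have hd : DifferentiableAt ℝ Real.smoothTransition (1 - (y - 1) / ε ^ 2) :=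
    (st_smooth.differentiable (by simp)).differentiableAt
  have h := (hd.hasDerivAt.comp y (in_deriv ε y)).const_mul ((c * ε ^ 4)⁻¹)
  exact h.deriv

private theorem ph_d2 (c ε : ℝ) : deriv (deriv (ph c ε)) = fun y =>
    (c * ε ^ 4)⁻¹ * (deriv (deriv Real.smoothTransition) (1 - (y - 1) / ε ^ 2)
      * (-(1 / ε ^ 2)) * (-(1 / ε ^ 2))) := by
  rw [ph_d1]
  funext y
  have hd : DifferentiableAt ℝ (deriv Real.smoothTransition) (1 - (y - 1) / ε ^ 2) :=
    (st_d1_smooth.differentiable (by simp)).differentiableAt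
  have h := ((hd.hasDerivAt.comp y (in_deriv ε y)).mul_const (-(1 / ε ^ 2))).const_mul
    ((c * ε ^ 4)⁻¹)
  exact h.deriv

/-! ### the mollifier -/

theorem ke_ker (hc : 0 < cc) {ε : ℝ} (hε : 0 < ε) : Ker V (ke V cc ε) ∧ SmoK (ke V cc ε) ∧
    (∀ p ∈ Om, ∀ q ∈ Om, ke V cc ε p q = ke V cc ε q p ∧ 0 ≤ ke V cc ε p q ∧
      (ε ^ 2 ≤ V.Y p q - 1 → ke V cc ε p q = 0)) := by
  have hε2 : 0 < ε ^ 2 := by positivity
  have hs : SmoK (ke V cc ε) := by
    show ContDiffOn ℝ ∞ (fun x : E × E => ke V cc ε x.1 x.2) (Om ×ˢ Om)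
    exact (ph_smooth cc ε).comp_contDiffOn V.Y_smo
  have h0 : ∀ p q, ε ^ 2 ≤ V.Y p q - 1 → ke V cc ε p q = 0 := by
    intro p q h
    have h1 : 1 ≤ (V.Y p q - 1) / ε ^ 2 := by
      rw [le_div_iff₀ hε2]; linarith
    show (cc * ε ^ 4)⁻¹ * Real.smoothTransition (1 - (V.Y p q - 1) / ε ^ 2) = 0
    rw [Real.smoothTransition.zero_of_nonpos (by linarith), mul_zero]
  refine ⟨⟨hs.continuousOn, ?_, ⟨1 + ε ^ 2, ?_⟩⟩, hs, ?_⟩
  · intro g p hp q hq
    rw [ke_eq, ke_eq, V.Y_inv g p hp q hq]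
  · intro p _ q _ h
    exact h0 p q (by linarith)
  · intro p hp q hq
    refine ⟨?_, ?_, h0 p q⟩
    · rw [ke_eq, ke_eq, V.Y_symm p hp q hq]
    · show 0 ≤ (cc * ε ^ 4)⁻¹ * Real.smoothTransition (1 - (V.Y p q - 1) / ε ^ 2)
      have := Real.smoothTransition.nonneg (1 - (V.Y p q - 1) / ε ^ 2)
      positivity

private theorem te_eq (hc : 0 < cc) {ε : ℝ} (hε : 0 < ε) {p : E} (hp : p ∈ Om) {q : E}
    (hq : q ∈ Om) : te V cc ε p q =
      V.L (fun x => ke V cc ε x q) p - V.L (fun x => ke V cc ε x p) q := by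
  have h : V.L (fun x => ke V cc ε p x) q = V.L (fun x => ke V cc ε x p) q :=
    L_congr V.toEll (fun x hx => ((ke_ker V hc hε).2.2 p hp x hx).1) hq
  show V.L (fun x => ke V cc ε x q) p - V.L (fun x => ke V cc ε p x) q = _
  rw [h]

theorem te_ker (hc : 0 < cc) {ε : ℝ} (hε : 0 < ε) : Ker V (te V cc ε) ∧
    ∀ p ∈ Om, ∀ q ∈ Om, te V cc ε q p = - te V cc ε p q := by
  obtain ⟨hk, hs, -⟩ := ke_ker V hc hε
  have hA := Ker_L V hk hs
  have hB := Ker.swap V hA
  refine ⟨⟨?_, ?_, ?_⟩, ?_⟩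
  · refine (hA.cont.sub hB.cont).congr ?_
    rintro ⟨p, q⟩ ⟨hp, hq⟩
    exact te_eq V hc hε hp hq
  · intro g p hp q hq
    rw [te_eq V hc hε (V.act_mem g p hp) (V.act_mem g q hq), te_eq V hc hε hp hq]
    have h1 := hA.inv g p hp q hq
    have h2 := hA.inv g q hq p hp
    rw [h1, h2]
  · obtain ⟨R, hR⟩ := hA.ran
    obtain ⟨R', hR'⟩ := hB.ran
    refine ⟨max R R', fun p hp q hq h => ?_⟩
    rw [te_eq V hc hε hp hq]
    have h1 := hR p hp q hq ((le_max_left _ _).trans h)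
    have h2 := hR' p hp q hq ((le_max_right _ _).trans h)
    rw [h1, h2, sub_zero]
  · intro p hp q hq
    rw [te_eq V hc hε hp hq, te_eq V hc hε hq hp]
    ring

/-- pointwise bound of the commutator kernel by the defect of symmetry -/
private theorem te_pt (hc : 0 < cc) : ∃ A : ℝ, 0 < A ∧ ∀ ε : ℝ, 0 < ε → ε ≤ 1 → ∀ p ∈ Om,
    ∀ q ∈ Om, (ε ^ 2 < V.Y p q - 1 → te V cc ε p q = 0) ∧
      (V.Y p q - 1 ≤ ε ^ 2 → |te V cc ε p q| ≤ A / ε ^ 8 * |V.beta p q|) := by
  obtain ⟨A₁, hA₁, hb₁⟩ := bd_of_zero st_d1_smooth.continuous (fun x => st_d1_neg)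
    (fun x => st_d1_gt)
  obtain ⟨A₂, hA₂, hb₂⟩ := bd_of_zero st_d2_smooth.continuous (fun x => st_d2_neg)
    (fun x => st_d2_gt)
  refine ⟨(A₁ + 2 * A₂) / cc, by positivity, ?_⟩
  intro ε hε hε1 p hp q hq
  have hε2 : 0 < ε ^ 2 := by positivity
  have hY : te V cc ε p q = (deriv (ph cc ε) (V.Y p q) +
      V.Y p q * deriv (deriv (ph cc ε)) (V.Y p q)) * V.beta p q :=
    V.Y_comm (ph cc ε) (ph_smooth cc ε) p hp q hq
  rw [ph_d2, ph_d1] at hY
  simp only at hY
  constructor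
  · intro h
    have h1 : 1 - (V.Y p q - 1) / ε ^ 2 < 0 := by
      have : 1 < (V.Y p q - 1) / ε ^ 2 := by
        rw [lt_div_iff₀ hε2]; linarith
      linarith
    rw [hY, st_d1_neg h1, st_d2_neg h1]
    ring
  · intro h
    rw [hY, abs_mul]
    refine mul_le_mul_of_nonneg_right ?_ (abs_nonneg _)
    set z := 1 - (V.Y p q - 1) / ε ^ 2 with hz
    have hY1 : 1 ≤ V.Y p q := V.Y_ge p hp q hq
    have hε21 : ε ^ 2 ≤ 1 := by
      nlinarith
    have hY2 : V.Y p q ≤ 2 := by linarith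
    have e1 : (cc * ε ^ 4)⁻¹ * (deriv Real.smoothTransition z * -(1 / ε ^ 2)) +
        V.Y p q * ((cc * ε ^ 4)⁻¹ * (deriv (deriv Real.smoothTransition) z * -(1 / ε ^ 2) *
          -(1 / ε ^ 2))) =
        (cc * ε ^ 8)⁻¹ * (- (deriv Real.smoothTransition z * ε ^ 2) +
          V.Y p q * deriv (deriv Real.smoothTransition) z) := by
      field_simp
    rw [e1, abs_mul, abs_of_pos (by positivity : 0 < (cc * ε ^ 8)⁻¹)]
    have e2 : (A₁ + 2 * A₂) / cc / ε ^ 8 = (cc * ε ^ 8)⁻¹ * (A₁ + 2 * A₂) := by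
      field_simp
    rw [e2]
    refine mul_le_mul_of_nonneg_left ?_ (by positivity)
    refine (abs_add_le _ _).trans (add_le_add ?_ ?_)
    · rw [abs_neg, abs_mul, abs_of_pos hε2]
      calc |deriv Real.smoothTransition z| * ε ^ 2 ≤ A₁ * 1 :=
            mul_le_mul (hb₁ z) hε21 hε2.le hA₁.le
        _ = A₁ := mul_one _
    · rw [abs_mul, abs_of_pos (by linarith : 0 < V.Y p q)]
      exact mul_le_mul hY2 (hb₂ z) (abs_nonneg _) (by norm_num)

/-- the commutator kernel is small -/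
theorem te_small (hc : 0 < cc) : ∃ C : ℝ, 0 < C ∧ ∀ ε : ℝ, 0 < ε → ε ≤ 1 → ∀ p ∈ Om,
    ∫ q, |te V cc ε p q| ∂V.mu ≤ C * ε := by
  obtain ⟨A, hA, hte⟩ := te_pt V hc
  obtain ⟨K, hK, hKO, hKc⟩ := V.cocpt
  obtain ⟨K', hK', hKO', hKp⟩ := V.Y_proper K hK hKO 2
  have hU : IsCompact (K ∪ K') := hK.union hK'
  have hUO : K ∪ K' ⊆ Om := Set.union_subset hKO hKO'
  obtain ⟨B, hB⟩ := V.beta_bd (K ∪ K') hU hUO
  obtain ⟨d, hd, hlow⟩ := Y_low V hU hUO
  obtain ⟨W, hW, hvol⟩ := ball_vol V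
  set r := Real.sqrt d with hr
  have hr0 : 0 < r := Real.sqrt_pos.mpr hd
  have hrd : r ^ 2 = d := Real.sq_sqrt hd.le
  -- the bound on the cocompact set
  have key : ∀ ε : ℝ, 0 < ε → ε ≤ 1 → ∀ p ∈ K,
      ∫ q, |te V cc ε p q| ∂V.mu ≤ (A * (|B| + 1) / r ^ 5 * W) * ε := by
    intro ε hε hε1 p hp
    have hpO : p ∈ Om := hKO hp
    have hε21 : ε ^ 2 ≤ 1 := by nlinarith
    set S : Set E := {q | q ∈ Om ∧ V.Y p q - 1 ≤ ε ^ 2} with hS
    have hSK : S ⊆ K' := by
      rintro q ⟨hq, hqY⟩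
      exact hKp p hp q hq (by linarith)
    have hcont : ContinuousOn (fun q => V.Y p q) Om := by
      have h1 : ContinuousOn (fun x : E × E => V.Y x.1 x.2) (Om ×ˢ Om) := V.Y_smo.continuousOn
      have h2 : ContinuousOn (fun q : E => ((p, q) : E × E)) Om :=
        (continuous_const.prodMk continuous_id).continuousOn
      exact h1.comp h2 (fun q hq => ⟨hpO, hq⟩)
    have hSm : MeasurableSet S := by
      have h1 : IsOpen (Om ∩ (fun q => V.Y p q) ⁻¹' Set.Ioi (1 + ε ^ 2)) :=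
        hcont.isOpen_inter_preimage isOpen_Om isOpen_Ioi
      have h2 : S = Om \ (Om ∩ (fun q => V.Y p q) ⁻¹' Set.Ioi (1 + ε ^ 2)) := by
        ext q
        simp only [hS, Set.mem_setOf_eq, Set.mem_diff, Set.mem_inter_iff, Set.mem_preimage,
          Set.mem_Ioi, not_and, not_lt]
        constructor
        · rintro ⟨h, h'⟩
          exact ⟨h, fun _ => by linarith⟩
        · rintro ⟨h, h'⟩
          exact ⟨h, by linarith [h' h]⟩
      rw [h2]
      exact measurableSet_Om.diff h1.measurableSet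
    have hSf : V.mu S ≠ ⊤ :=
      ((measure_mono hSK).trans_lt (mu_lt_top V.toEll hK' hKO')).ne
    set M : ℝ := A * (|B| + 1) / r ^ 5 / ε ^ 3 with hM
    have hM0 : 0 ≤ M := by positivity
    have hle : ∀ q ∈ Om, |te V cc ε p q| ≤ S.indicator (fun _ => M) q := by
      intro q hq
      obtain ⟨h0, h1⟩ := hte ε hε hε1 p hpO q hq
      by_cases hqS : q ∈ S
      · rw [Set.indicator_of_mem hqS]
        have hqY : V.Y p q - 1 ≤ ε ^ 2 := hqS.2
        have hpU : p ∈ K ∪ K' := Or.inl hp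
        have hqU : q ∈ K ∪ K' := Or.inr (hSK hqS)
        have hn : r * ‖q - p‖ ≤ ε := by
          have h2 : (r * ‖q - p‖) ^ 2 ≤ ε ^ 2 := by
            rw [mul_pow, hrd]
            exact (hlow p hpU q hqU).trans hqY
          exact (le_abs_self _).trans (abs_le_of_sq_le_sq h2 hε.le)
        have hb : |V.beta p q| ≤ (|B| + 1) * (ε ^ 5 / r ^ 5) := by
          refine (hB p hpU q hqU).trans ?_
          have h3 : ‖q - p‖ ≤ ε / r := by
            rw [le_div_iff₀ hr0]; linarith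
          have h4 : ‖q - p‖ ^ 5 ≤ ε ^ 5 / r ^ 5 := by
            rw [← div_pow]
            exact pow_le_pow_left₀ (norm_nonneg _) h3 5
          have h5 : B ≤ |B| + 1 := by linarith [le_abs_self B]
          exact mul_le_mul h5 h4 (by positivity) (by positivity)
        calc |te V cc ε p q| ≤ A / ε ^ 8 * |V.beta p q| := h1 hqY
          _ ≤ A / ε ^ 8 * ((|B| + 1) * (ε ^ 5 / r ^ 5)) :=
              mul_le_mul_of_nonneg_left hb (by positivity)
          _ = M := by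
              rw [hM]
              field_simp
      · rw [Set.indicator_of_notMem hqS]
        have h2 : ε ^ 2 < V.Y p q - 1 := by
          by_contra h3
          exact hqS ⟨hq, not_lt.mp h3⟩
        rw [h0 h2, abs_zero]
    have hint : Integrable (S.indicator fun _ => M) V.mu :=
      (integrable_indicator_iff hSm).mpr (integrableOn_const hSf (by simp))
    calc ∫ q, |te V cc ε p q| ∂V.mu ≤ ∫ q, S.indicator (fun _ => M) q ∂V.mu :=
          integral_mono_of_nonneg (Eventually.of_forall fun q => abs_nonneg _) hint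
            (ae_mu V.toEll hle)
      _ = (V.mu S).toReal * M := by
          rw [integral_indicator_const M hSm]
          rfl
      _ ≤ (W * ε ^ 4) * M := mul_le_mul_of_nonneg_right (hvol ε hε hε1 p hpO) hM0
      _ = (A * (|B| + 1) / r ^ 5 * W) * ε := by
          rw [hM]
          field_simp
  refine ⟨A * (|B| + 1) / r ^ 5 * W, by positivity, ?_⟩
  intro ε hε hε1 p hp
  obtain ⟨g, hg⟩ := hKc p hp
  have h1 : ∫ q, |te V cc ε p q| ∂V.mu = ∫ q, |te V cc ε (V.act g p) (V.act g q)| ∂V.mu := by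
    refine integral_congr_ae (ae_mu V.toEll fun q hq => ?_)
    show |te V cc ε p q| = |te V cc ε (V.act g p) (V.act g q)|
    rw [(te_ker V hc hε).1.inv g p hp q hq]
  rw [h1, int_act V g (fun q => |te V cc ε (V.act g p) q|)]
  exact key ε hε hε1 _ hg

end Pool.Agent.MPd01a95.LN
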