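import Mathlib
import Pool.Agent.Lib.MP_d01a95_gt_L.LDefs
import Pool.Agent.Lib.MP_d01a95_gt_L.LBas
import Pool.Agent.Lib.MP_d01a95_gt_L.LCs
import Pool.Agent.Lib.MP_d01a95_gt_L.LAlg
import Pool.Agent.Lib.MP_d01a95_gt_L.LGrn
import Pool.Agent.Lib.MP_d01a95_gt_L.LInv
import Pool.Agent.Lib.MP_d01a95_gt_L.LUnf
import Pool.Agent.Lib.MP_d01a95_gt_L.LBf
import Pool.Agent.Lib.MP_d01a95_gt_L.LChi
import Pool.Agent.Lib.MP_d01a95_gt_L.LGq
import Pool.Agent.Lib.MP_d01a95_gt_L.LKer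
import Pool.Agent.Lib.MP_d01a95_gt_L.LSmk
import Pool.Agent.Lib.MP_d01a95_gt_L.LVol
import Pool.Agent.Lib.MP_d01a95_gt_L.LMas
import Pool.Agent.Lib.MP_d01a95_gt_L.LMol

/-!
# Module Res: commutator, convergence, mollified residue
-/

set_option autoImplicit false
set_option linter.all false

open MeasureTheory Filter Topology
open scoped ContDiff InnerProductSpace ENNReal

namespace Pool.Agent.MPd01a95.LN

variable {G : Type} [Group G] (V : VG G) {χ : E → ℝ}
variable {H : Type} [NormedAddCommGroup H] [InnerProductSpace ℝ H]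
variable (pi : G →* (H ≃ₗᵢ[ℝ] H)) {cc : ℝ}

/-- the commutator -/
theorem comm_ke [CompleteSpace H] (hc : 0 < cc) {ε : ℝ} (hε : 0 < ε) {s : E → H} (hs : Smo s)
    {p : E} (hp : p ∈ Om) :
    V.L (Ko V (ke V cc ε) s) p = Ko V (ke V cc ε) (V.L s) p + Ko V (te V cc ε) s p := by
  obtain ⟨hk, hsk, -⟩ := ke_ker V hc hε
  obtain ⟨hkt, -⟩ := te_ker V hc hε
  rw [L_Ko V hk hsk hs.cont hp]
  have hu : Smo (fun q => ke V cc ε p q) := hsk.right hp
  have hcs : CS (fun q => ke V cc ε p q) := by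
    obtain ⟨K', hK', hO', h⟩ := hk.fr V (K := {p}) isCompact_singleton
      (Set.singleton_subset_iff.2 hp)
    exact ⟨K', hK', hO', fun q hq hqK => (h p rfl q hq hqK).1⟩
  have hLs : Smo (V.L (fun q => ke V cc ε p q)) := L_smo V.toEll hu
  have hLc : CS (V.L (fun q => ke V cc ε p q)) := L_cs V.toEll hcs
  have h1 : ∫ q, V.L (fun y => ke V cc ε p y) q • s q ∂V.mu = Ko V (ke V cc ε) (V.L s) p :=
    green_smul V.toEll hu hs hcs
  have hi1 : Integrable (fun q => V.L (fun y => ke V cc ε p y) q • s q) V.mu :=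
    integrable_cs V.toEll (hLs.cont.smul hs.cont) hLc.smul_left
  have hi2 : Integrable (fun q => te V cc ε p q • s q) V.mu := hkt.integrable V hs.cont hp
  rw [← h1]
  show ∫ q, V.L (fun y => ke V cc ε y q) p • s q ∂V.mu = _ + ∫ q, te V cc ε p q • s q ∂V.mu
  rw [← integral_add hi1 hi2]
  refine integral_congr_ae (Eventually.of_forall fun q => ?_)
  show V.L (fun y => ke V cc ε y q) p • s q =
    V.L (fun y => ke V cc ε p y) q • s q + te V cc ε p q • s q
  rw [← add_smul]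
  congr 1
  unfold te
  ring

/-- the commutator is small on sections -/
theorem te_norm [CompleteSpace H] (hχ : IsChi V χ) (hc : 0 < cc) : ∃ C : ℝ, 0 < C ∧
    ∀ ε : ℝ, 0 < ε → ε ≤ 1 → ∀ s : E → H, ContinuousOn s Om → IsSec V pi s →
      B V χ (Ko V (te V cc ε) s) (Ko V (te V cc ε) s) ≤ (C * ε) ^ 2 * B V χ s s := by
  obtain ⟨C, hC, h⟩ := te_small V hc
  refine ⟨C, hC, fun ε hε hε1 s hs hsec => ?_⟩
  obtain ⟨hkt, hanti⟩ := te_ker V hc hε
  have h0 : 0 ≤ C * ε := by positivity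
  have h1 : ∀ q ∈ Om, ∫ p, |te V cc ε p q| ∂V.mu ≤ C * ε := by
    intro q hq
    refine le_trans (le_of_eq ?_) (h ε hε hε1 q hq)
    refine integral_congr_ae ?_
    filter_upwards [ae_mu V.toEll (P := fun p => p ∈ Om) fun p hp => hp] with p hp
    rw [hanti q hq p hp, abs_neg]
  have h2 := schur V pi hχ hkt h0 h0 (h ε hε hε1) h1 hs hsec
  calc _ ≤ _ := h2
    _ = _ := by ring

/-- the mollifier converges -/
theorem ke_conv [CompleteSpace H] (hχ : IsChi V χ) (hc : 0 < cc)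
    (hm : ∀ δ : ℝ, 0 < δ → ∃ ε₀ : ℝ, 0 < ε₀ ∧
      ∀ ε : ℝ, 0 < ε → ε ≤ ε₀ → ∀ p ∈ Om, |mk V (ke V cc ε) p - 1| ≤ δ)
    {s : E → H} (hs : ContinuousOn s Om) {δ : ℝ} (hδ : 0 < δ) :
    ∃ ε₀ : ℝ, 0 < ε₀ ∧ ∀ ε : ℝ, 0 < ε → ε ≤ ε₀ →
      B V χ (fun p => s p - Ko V (ke V cc ε) s p) (fun p => s p - Ko V (ke V cc ε) s p) ≤ δ := by
  obtain ⟨Kx, hKx, hOx, hx⟩ := hχ.cs
  obtain ⟨K1, hK1, hO1, h1⟩ := V.Y_proper Kx hKx hOx 2
  have hKu : IsCompact (Kx ∪ K1) := hKx.union hK1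
  have hOu : Kx ∪ K1 ⊆ Om := Set.union_subset hOx hO1
  -- bound of s on the support of χ
  obtain ⟨S, hS⟩ : ∃ S : ℝ, ∀ p ∈ Kx, ‖s p‖ ≤ S := by
    obtain ⟨S, hS⟩ := hKx.exists_bound_of_continuousOn (hs.mono hOx)
    exact ⟨S, hS⟩
  have hS0 : 0 ≤ max S 0 := le_max_right _ _
  obtain ⟨c, hc0, hlow⟩ := Y_low V hKu hOu
  have hI : 0 ≤ ∫ p, χ p ∂V.mu := by
    refine integral_nonneg_of_ae ?_
    exact ae_mu V.toEll fun p hp => hχ.nn p hp
  have hχi : Integrable χ V.mu := integrable_cs V.toEll hχ.smo.cont hχ.cs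
  set I : ℝ := ∫ p, χ p ∂V.mu with hIdef
  obtain ⟨e, he0, he⟩ : ∃ e : ℝ, 0 < e ∧ (3 * e) ^ 2 * I ≤ δ := by
    refine ⟨Real.sqrt (δ / (9 * (I + 1))), Real.sqrt_pos.2 (by positivity), ?_⟩
    rw [mul_pow, Real.sq_sqrt (by positivity)]
    have h2 : (3:ℝ) ^ 2 * (δ / (9 * (I + 1))) * I = δ * (I / (I + 1)) := by
      field_simp
      ring
    rw [h2]
    refine mul_le_of_le_one_right hδ.le ?_
    rw [div_le_one (by positivity)]
    linarith
  have huc := hKu.uniformContinuousOn_of_continuous (hs.mono hOu)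
  rw [Metric.uniformContinuousOn_iff] at huc
  obtain ⟨d, hd0, hd⟩ := huc e he0
  obtain ⟨ε₁, hε₁, hmass⟩ := hm (min 1 (e / (max S 0 + 1))) (lt_min one_pos (by positivity))
  refine ⟨min (min 1 ε₁) (Real.sqrt (c * d ^ 2) / 2), lt_min (lt_min one_pos hε₁)
    (half_pos (Real.sqrt_pos.2 (by positivity))), fun ε hε hle => ?_⟩
  have hε1 : ε ≤ 1 := hle.trans ((min_le_left _ _).trans (min_le_left _ _))
  have hεm : ε ≤ ε₁ := hle.trans ((min_le_left _ _).trans (min_le_right _ _))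
  have hεd : ε ≤ Real.sqrt (c * d ^ 2) / 2 := hle.trans (min_le_right _ _)
  obtain ⟨hk, hsk, hprop⟩ := ke_ker V hc hε
  -- pointwise bound
  have hpt : ∀ p ∈ Kx, ‖s p - Ko V (ke V cc ε) s p‖ ≤ 3 * e := by
    intro p hpK
    have hp : p ∈ Om := hOx hpK
    have hi1 : Integrable (fun q => ke V cc ε p q • s q) V.mu := hk.integrable V hs hp
    have hi2 : Integrable (fun q => ke V cc ε p q • s p) V.mu :=
      hk.integrable V continuousOn_const hp
    have hi0 : Integrable (fun q => ke V cc ε p q) V.mu := by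
      have := hk.integrable V (F := ℝ) (s := fun _ => (1:ℝ)) continuousOn_const hp
      simpa using this
    have e1 : s p - Ko V (ke V cc ε) s p = (1 - mk V (ke V cc ε) p) • s p -
        ∫ q, ke V cc ε p q • (s q - s p) ∂V.mu := by
      have e2 : ∫ q, ke V cc ε p q • (s q - s p) ∂V.mu =
          Ko V (ke V cc ε) s p - mk V (ke V cc ε) p • s p := by
        simp only [smul_sub]
        rw [integral_sub hi1 hi2, integral_smul_const]
        rfl
      rw [e2, sub_smul, one_smul]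
      abel
    have hmp := hmass ε hε hεm p hp
    have hmp1 : |mk V (ke V cc ε) p - 1| ≤ 1 := hmp.trans (min_le_left _ _)
    have hmp2 : |mk V (ke V cc ε) p - 1| ≤ e / (max S 0 + 1) := hmp.trans (min_le_right _ _)
    have b1 : ‖(1 - mk V (ke V cc ε) p) • s p‖ ≤ e := by
      rw [norm_smul, Real.norm_eq_abs, abs_sub_comm]
      calc |mk V (ke V cc ε) p - 1| * ‖s p‖ ≤ e / (max S 0 + 1) * (max S 0 + 1) := by
            refine mul_le_mul hmp2 ?_ (norm_nonneg _) (by positivity)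
            exact (hS p hpK).trans ((le_max_left S 0).trans (by linarith))
        _ = e := div_mul_cancel₀ _ (by positivity)
    have b2 : ‖∫ q, ke V cc ε p q • (s q - s p) ∂V.mu‖ ≤ ∫ q, ke V cc ε p q * e ∂V.mu := by
      refine norm_integral_le_of_norm_le (hi0.mul_const e) ?_
      filter_upwards [ae_mu V.toEll (P := fun q => q ∈ Om) fun q hq => hq] with q hq
      obtain ⟨-, hnn, hz⟩ := hprop p hp q hq
      rw [norm_smul, Real.norm_eq_abs, abs_of_nonneg hnn]
      by_cases hcase : ε ^ 2 ≤ V.Y p q - 1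
      · rw [hz hcase, zero_mul, zero_mul]
      · push Not at hcase
        refine mul_le_mul_of_nonneg_left ?_ hnn
        have h2 : V.Y p q ≤ 2 := by nlinarith
        have hqK : q ∈ Kx ∪ K1 := Or.inr (h1 p hpK q hq h2)
        have hpK' : p ∈ Kx ∪ K1 := Or.inl hpK
        have h3 := hlow p hpK' q hqK
        have h4 : dist q p < d := by
          rw [dist_eq_norm]
          have h5 : c * ‖q - p‖ ^ 2 < c * d ^ 2 := by
            have h6 : ε ^ 2 ≤ (Real.sqrt (c * d ^ 2) / 2) ^ 2 := by gcongr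
            rw [div_pow, Real.sq_sqrt (by positivity)] at h6
            have h7 : 0 < c * d ^ 2 := by positivity
            linarith
          have h8 : ‖q - p‖ ^ 2 < d ^ 2 := lt_of_mul_lt_mul_left h5 hc0.le
          exact lt_of_pow_lt_pow_left₀ 2 hd0.le h8
        have h9 := hd q hqK p hpK' h4
        rw [dist_eq_norm] at h9
        exact h9.le
    have b3 : ∫ q, ke V cc ε p q * e ∂V.mu ≤ 2 * e := by
      rw [integral_mul_const]
      refine mul_le_mul_of_nonneg_right ?_ he0.le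
      have := (abs_le.1 hmp1).2
      show mk V (ke V cc ε) p ≤ 2
      linarith
    rw [e1]
    calc _ ≤ ‖(1 - mk V (ke V cc ε) p) • s p‖ + ‖∫ q, ke V cc ε p q • (s q - s p) ∂V.mu‖ :=
          norm_sub_le _ _
      _ ≤ 3 * e := by linarith
  -- integrate
  unfold B
  calc ∫ p, χ p * ⟪s p - Ko V (ke V cc ε) s p, s p - Ko V (ke V cc ε) s p⟫_ℝ ∂V.mu
      ≤ ∫ p, χ p * (3 * e) ^ 2 ∂V.mu := by
        refine integral_mono_of_nonneg ?_ (hχi.mul_const _) ?_
        · exact ae_mu V.toEll fun p hp => mul_nonneg (hχ.nn p hp) real_inner_self_nonneg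
        · refine ae_mu V.toEll fun p hp => ?_
          by_cases hpK : p ∈ Kx
          · refine mul_le_mul_of_nonneg_left ?_ (hχ.nn p hp)
            rw [real_inner_self_eq_norm_sq]
            exact pow_le_pow_left₀ (norm_nonneg _) (hpt p hpK) 2
          · show χ p * _ ≤ χ p * _
            rw [hx p hp hpK, zero_mul, zero_mul]
    _ = (3 * e) ^ 2 * I := by rw [integral_mul_const, mul_comm]
    _ ≤ δ := he

/-- the mollified residue of an almost minimiser is small -/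
theorem res_small [CompleteSpace H] (hχ : IsChi V χ) (hc : 0 < cc) {ε : ℝ} (hε : 0 < ε) :
    ∃ C : ℝ, 0 < C ∧ ∀ (c : G → H) (h : E → H) (e : ℝ), 0 ≤ e → Smo h → IsAff V pi c h →
      (∀ t : E → H, Smo t → IsSec V pi t → En V χ h t ^ 2 ≤ e * En V χ t t) →
      B V χ (Ko V (ke V cc ε) (V.L h)) (Ko V (ke V cc ε) (V.L h)) ≤ C * e := by
  obtain ⟨hk, hsk, hprop⟩ := ke_ker V hc hε
  have hkL : Ker V (fun p q => V.L (fun x => ke V cc ε x q) p) := Ker_L V hk hsk
  obtain ⟨C1, hC1, h1⟩ := hkL.int_bd V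
  obtain ⟨C1', hC1', h1'⟩ := (hkL.swap V).int_bd V
  obtain ⟨C2, hC2, h2⟩ := hk.int_bd V
  obtain ⟨C2', hC2', h2'⟩ := (hk.swap V).int_bd V
  set P : ℝ := (C1 * C1') * (C2 * C2') with hP
  have hP0 : 0 < P := by positivity
  refine ⟨1 + P, by positivity, fun c h e he0 hh ha hmin => ?_⟩
  have hLh : Smo (V.L h) := L_smo V.toEll hh
  have hLs : IsSec V pi (V.L h) := L_aff V pi hh ha
  set R : E → H := Ko V (ke V cc ε) (V.L h) with hR
  have hRs : Smo R := Ko_smo V hk hsk hLh.cont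
  have hRsec : IsSec V pi R := Ko_sec V pi hk hLh.cont hLs
  set J : E → H := Ko V (ke V cc ε) R with hJ
  have hJs : Smo J := Ko_smo V hk hsk hRs.cont
  have hJsec : IsSec V pi J := Ko_sec V pi hk hRs.cont hRsec
  have hB0 : 0 ≤ B V χ R R := B_nonneg V hχ R
  have e1 : B V χ R R = - En V χ h J := by
    rw [← green_quot V pi hχ hh ha hJs hJsec]
    exact Ko_symm V pi hχ hk (fun p hp q hq => (hprop p hp q hq).1) hLh.cont hRs.cont hLs hRsec
  have e2 : En V χ J J = - B V χ (V.L J) J := by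
    rw [green_quot V pi hχ hJs (IsSec.aff V pi hJsec) hJs hJsec, neg_neg]
  have e3 : B V χ (V.L J) (V.L J) ≤ C1 * C1' * B V χ R R := by
    have := schur V pi hχ hkL hC1.le hC1'.le h1 h1' hRs.cont hRsec
    refine le_trans (le_of_eq ?_) this
    exact B_congr V (fun p hp => L_Ko V hk hsk hRs.cont hp)
      (fun p hp => L_Ko V hk hsk hRs.cont hp)
  have e4 : B V χ J J ≤ C2 * C2' * B V χ R R :=
    schur V pi hχ hk hC2.le hC2'.le h2 h2' hRs.cont hRsec
  have e5 : En V χ J J ^ 2 ≤ P * B V χ R R ^ 2 := by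
    have e6 := B_cs V hχ (s := V.L J) (t := J) (L_smo V.toEll hJs).cont hJs.cont
    calc En V χ J J ^ 2 = B V χ (V.L J) J ^ 2 := by rw [e2, neg_sq]
      _ ≤ B V χ (V.L J) (V.L J) * B V χ J J := e6
      _ ≤ (C1 * C1' * B V χ R R) * (C2 * C2' * B V χ R R) :=
          mul_le_mul e3 e4 (B_nonneg V hχ J) (by positivity)
      _ = P * B V χ R R ^ 2 := by rw [hP]; ring
  have e7 : En V χ J J ≤ (1 + P) * B V χ R R := by
    have e8 : En V χ J J ^ 2 ≤ ((1 + P) * B V χ R R) ^ 2 := by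
      refine e5.trans ?_
      rw [mul_pow]
      refine mul_le_mul_of_nonneg_right ?_ (sq_nonneg _)
      nlinarith
    exact (abs_le_of_sq_le_sq' e8 (by positivity)).2
  have e9 : B V χ R R ^ 2 ≤ e * ((1 + P) * B V χ R R) := by
    rw [e1, neg_sq]
    rw [← e1]
    exact (hmin J hJs hJsec).trans (mul_le_mul_of_nonneg_left e7 he0)
  rcases hB0.eq_or_lt with h0 | h0
  · rw [← h0]
    positivity
  · have e10 : B V χ R R * B V χ R R ≤ ((1 + P) * e) * B V χ R R := by
      calc _ = B V χ R R ^ 2 := by ring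
        _ ≤ _ := e9
        _ = _ := by ring
    exact le_of_mul_le_mul_right e10 h0

end Pool.Agent.MPd01a95.LN
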