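import Mathlib
import Pool.Agent.Lib.MP_d01a95_gt_L.LDefs
import Pool.Agent.Lib.MP_d01a95_gt_L.LBas
import Pool.Agent.Lib.MP_d01a95_gt_L.LCs
import Pool.Agent.Lib.MP_d01a95_gt_L.LAlg
import Pool.Agent.Lib.MP_d01a95_gt_L.LGrn
import Pool.Agent.Lib.MP_d01a95_gt_L.LInv
import Pool.Agent.Lib.MP_d01a95_gt_L.LUnf
import Pool.Agent.Lib.MP_d01a95_gt_L.LBf
import Pool.Agent.Lib.MP_d01a95_gt_L.LChi
import Pool.Agent.Lib.MP_d01a95_gt_L.LGq
import Pool.Agent.Lib.MP_d01a95_gt_L.LKer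
import Pool.Agent.Lib.MP_d01a95_gt_L.LSmk
import Pool.Agent.Lib.MP_d01a95_gt_L.LGap
import Pool.Agent.Lib.MP_d01a95_gt_L.LMin
import Pool.Agent.Lib.MP_d01a95_gt_L.LVol
import Pool.Agent.Lib.MP_d01a95_gt_L.LMas
import Pool.Agent.Lib.MP_d01a95_gt_L.LMol
import Pool.Agent.Lib.MP_d01a95_gt_L.LRes

/-!
# Module Fin: almost harmonic smooth affine maps
-/

set_option autoImplicit false
set_option linter.all false

open MeasureTheory Filter Topology
open scoped ContDiff InnerProductSpace ENNReal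

namespace Pool.Agent.MPd01a95.LN

variable {G : Type} [Group G] (V : VG G) {χ : E → ℝ}
variable {H : Type} [NormedAddCommGroup H] [InnerProductSpace ℝ H]
variable (pi : G →* (H ≃ₗᵢ[ℝ] H)) {c : G → H}

private theorem Ko_congr_h {F : Type*} [NormedAddCommGroup F] [NormedSpace ℝ F]
    (k : E → E → ℝ) {s t : E → F} (e : ∀ p ∈ Om, s p = t p) (p : E) :
    Ko V k s p = Ko V k t p := by
  unfold Ko
  apply integral_congr_ae
  have := ae_mu V.toEll (P := fun q => s q = t q) e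
  filter_upwards [this] with q hq
  rw [hq]

private theorem Ko_add_h {F : Type*} [NormedAddCommGroup F] [NormedSpace ℝ F]
    {k : E → E → ℝ} (hk : Ker V k) {s t : E → F} (hs : ContinuousOn s Om)
    (ht : ContinuousOn t Om) {p : E} (hp : p ∈ Om) :
    Ko V k (fun q => s q + t q) p = Ko V k s p + Ko V k t p := by
  unfold Ko
  rw [← integral_add (Ker.integrable V hk hs hp) (Ker.integrable V hk ht hp)]
  congr 1
  funext q
  rw [smul_add]

/-- smooth affine maps with small `L h` exist -/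
theorem small_L [CompleteSpace H] (hχ : IsChi V χ) (D : Decay pi) (hc : IsCoc pi c) {δ : ℝ}
    (hδ : 0 < δ) : ∃ h : E → H, Smo h ∧ IsAff V pi c h ∧ B V χ (V.L h) (V.L h) ≤ δ := by
  obtain ⟨h₀, hh₀, ha₀⟩ := exists_aff V pi hχ hc
  have hL₀ : Smo (V.L h₀) := L_smo V.toEll hh₀
  obtain ⟨cc, hcc, hm⟩ := exists_mass V
  obtain ⟨s, C, e, hs, hE, he0, he, hmin⟩ := min_seq V pi hχ hh₀ ha₀
  obtain ⟨C1, hC1, hgap⟩ := gap_sec V pi hχ D
  obtain ⟨Ct, hCt, hte⟩ := te_norm V pi hχ hcc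
  obtain ⟨ε₀, hε₀, hke⟩ := ke_conv V hχ hcc hm hL₀.cont (δ := δ / 6) (by positivity)
  set C2 : ℝ := |C1 * C| + 1 with hC2
  have hC2p : 0 < C2 := by positivity
  have hB2 : ∀ n, B V χ (s n) (s n) ≤ C2 := by
    intro n
    calc B V χ (s n) (s n) ≤ C1 * En V χ (s n) (s n) := hgap _ (hs n).1 (hs n).2
      _ ≤ C1 * C := mul_le_mul_of_nonneg_left (hE n) hC1.le
      _ ≤ |C1 * C| := le_abs_self _
      _ ≤ C2 := by rw [hC2]; linarith
  obtain ⟨ε, hε, hε1, hεε, hεs⟩ : ∃ ε : ℝ, 0 < ε ∧ ε ≤ 1 ∧ ε ≤ ε₀ ∧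
      (Ct * ε) ^ 2 * C2 ≤ δ / 12 := by
    refine ⟨min (min 1 ε₀) (δ / (12 * (Ct ^ 2 * C2))), by positivity, ?_, ?_, ?_⟩
    · exact (min_le_left _ _).trans (min_le_left _ _)
    · exact (min_le_left _ _).trans (min_le_right _ _)
    · set ε : ℝ := min (min 1 ε₀) (δ / (12 * (Ct ^ 2 * C2))) with hεd
      have h1 : ε ≤ 1 := (min_le_left _ _).trans (min_le_left _ _)
      have h0 : 0 < ε := by rw [hεd]; positivity
      have h2 : ε ≤ δ / (12 * (Ct ^ 2 * C2)) := min_le_right _ _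
      have h3 : ε ^ 2 ≤ ε := by nlinarith
      have h4 : 0 < Ct ^ 2 * C2 := by positivity
      calc (Ct * ε) ^ 2 * C2 = (Ct ^ 2 * C2) * ε ^ 2 := by ring
        _ ≤ (Ct ^ 2 * C2) * ε := mul_le_mul_of_nonneg_left h3 h4.le
        _ ≤ (Ct ^ 2 * C2) * (δ / (12 * (Ct ^ 2 * C2))) := mul_le_mul_of_nonneg_left h2 h4.le
        _ = δ / 12 := by field_simp
  obtain ⟨Cr, hCr, hres⟩ := res_small V pi hχ hcc hε
  obtain ⟨n, hn⟩ : ∃ n, e n ≤ δ / (12 * Cr) := by
    have h5 : (0 : ℝ) < δ / (12 * Cr) := by positivity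
    obtain ⟨n, hn⟩ := ((tendsto_order.1 he).2 _ h5).exists
    exact ⟨n, hn.le⟩
  have hkk := (ke_ker V hcc hε).1
  have hks := (ke_ker V hcc hε).2.1
  have hsn : Smo (s n) := (hs n).1
  have hsn' : IsSec V pi (s n) := (hs n).2
  have hLn : Smo (V.L (s n)) := L_smo V.toEll hsn
  have htk : Ker V (te V cc ε) := (te_ker V hcc hε).1
  have hKs : Smo (Ko V (ke V cc ε) (s n)) := Ko_smo V hkk hks hsn.cont
  have hKa : IsSec V pi (Ko V (ke V cc ε) (s n)) := Ko_sec V pi hkk hsn.cont hsn'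
  have hsum : Smo (fun p => h₀ p + s n p) := hh₀.add hsn
  have hsum' : IsAff V pi c (fun p => h₀ p + s n p) := IsAff.add V pi ha₀ hsn'
  have hLs : Smo (V.L (fun p => h₀ p + s n p)) := L_smo V.toEll hsum
  refine ⟨fun p => h₀ p + Ko V (ke V cc ε) (s n) p, hh₀.add hKs, IsAff.add V pi ha₀ hKa, ?_⟩
  have key : ∀ p ∈ Om, V.L (fun q => h₀ q + Ko V (ke V cc ε) (s n) q) p =
      (V.L h₀ p - Ko V (ke V cc ε) (V.L h₀) p) +
        (Ko V (ke V cc ε) (V.L (fun q => h₀ q + s n q)) p + Ko V (te V cc ε) (s n) p) := by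
    intro p hp
    rw [L_add V.toEll hh₀ hKs hp, comm_ke V hcc hε hsn hp,
      Ko_congr_h V (ke V cc ε) (s := V.L (fun q => h₀ q + s n q))
        (t := fun q => V.L h₀ q + V.L (s n) q) (fun q hq => L_add V.toEll hh₀ hsn hq) p,
      Ko_add_h V hkk hL₀.cont hLn.cont hp]
    abel
  rw [B_congr V key key]
  have cA : ContinuousOn (fun p => V.L h₀ p - Ko V (ke V cc ε) (V.L h₀) p) Om :=
    hL₀.cont.sub (Ko_cont V hkk hL₀.cont)
  have cB : ContinuousOn (Ko V (ke V cc ε) (V.L (fun q => h₀ q + s n q))) Om :=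
    Ko_cont V hkk hLs.cont
  have cC : ContinuousOn (Ko V (te V cc ε) (s n)) Om := Ko_cont V htk hsn.cont
  have b1 := B_add_le V hχ cA (cB.add cC)
  have b2 := B_add_le V hχ cB cC
  have b3 := hke ε hε hεε
  have b4 := hres c _ (e n) (he0 n) hsum hsum' (hmin n)
  have b5 := hte ε hε hε1 (s n) hsn.cont hsn'
  have b6 : (Ct * ε) ^ 2 * B V χ (s n) (s n) ≤ δ / 12 :=
    (mul_le_mul_of_nonneg_left (hB2 n) (by positivity)).trans hεs
  have b7 : Cr * e n ≤ δ / 12 := by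
    calc Cr * e n ≤ Cr * (δ / (12 * Cr)) := mul_le_mul_of_nonneg_left hn hCr.le
      _ = δ / 12 := by field_simp
  have b1' : B V χ (fun p => (V.L h₀ p - Ko V (ke V cc ε) (V.L h₀) p) +
        (Ko V (ke V cc ε) (V.L (fun q => h₀ q + s n q)) p + Ko V (te V cc ε) (s n) p))
      (fun p => (V.L h₀ p - Ko V (ke V cc ε) (V.L h₀) p) +
        (Ko V (ke V cc ε) (V.L (fun q => h₀ q + s n q)) p + Ko V (te V cc ε) (s n) p)) ≤
      2 * B V χ (fun p => V.L h₀ p - Ko V (ke V cc ε) (V.L h₀) p)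
        (fun p => V.L h₀ p - Ko V (ke V cc ε) (V.L h₀) p) +
      2 * B V χ (fun p => Ko V (ke V cc ε) (V.L (fun q => h₀ q + s n q)) p +
        Ko V (te V cc ε) (s n) p) (fun p => Ko V (ke V cc ε) (V.L (fun q => h₀ q + s n q)) p +
        Ko V (te V cc ε) (s n) p) := b1
  linarith

/-- OUTPUT of sections 1 and 2: a sequence of smooth affine maps, Cauchy in `L^2` of the
quotient, with `L h_n → 0` in `L^2` of the quotient -/
theorem main_seq [CompleteSpace H] (hχ : IsChi V χ) (D : Decay pi) (hc : IsCoc pi c) :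
    ∃ h : ℕ → E → H, (∀ n, Smo (h n) ∧ IsAff V pi c (h n)) ∧
      Tendsto (fun n => B V χ (V.L (h n)) (V.L (h n))) atTop (𝓝 0) ∧
      ∀ δ : ℝ, 0 < δ → ∃ N : ℕ, ∀ m ≥ N, ∀ n ≥ N,
        B V χ (fun p => h m p - h n p) (fun p => h m p - h n p) ≤ δ := by
  have hex : ∀ n : ℕ, ∃ h : E → H, Smo h ∧ IsAff V pi c h ∧
      B V χ (V.L h) (V.L h) ≤ 1 / ((n : ℝ) + 1) :=
    fun n => small_L V pi hχ D hc (by positivity)
  choose h h1 h2 h3 using hex
  obtain ⟨C, hC, hgap⟩ := gap_secL V pi hχ D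
  refine ⟨h, fun n => ⟨h1 n, h2 n⟩, ?_, ?_⟩
  · exact squeeze_zero (fun n => B_nonneg V hχ _) h3 tendsto_one_div_add_atTop_nhds_zero_nat
  · intro δ hδ
    obtain ⟨N, hN⟩ : ∃ N : ℕ, 1 / ((N : ℝ) + 1) < δ / (4 * C) :=
      exists_nat_one_div_lt (by positivity)
    have hle : ∀ m ≥ N, 1 / ((m : ℝ) + 1) ≤ δ / (4 * C) := by
      intro m hm
      have : (N : ℝ) ≤ m := by exact_mod_cast hm
      exact (one_div_le_one_div_of_le (by positivity) (by linarith)).trans hN.le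
    refine ⟨N, fun m hm n hn => ?_⟩
    have g1 := hgap (fun p => h m p - h n p) ((h1 m).sub (h1 n)) (IsAff.sub V pi (h2 m) (h2 n))
    have e1 : ∀ p ∈ Om, V.L (fun p => h m p - h n p) p =
        V.L (h m) p + (-1 : ℝ) • V.L (h n) p := by
      intro p hp
      rw [L_sub V.toEll (h1 m) (h1 n) hp, neg_smul, one_smul, sub_eq_add_neg]
    have c1 : ContinuousOn (V.L (h m)) Om := (L_smo V.toEll (h1 m)).cont
    have c2 : ContinuousOn (fun p => (-1 : ℝ) • V.L (h n) p) Om :=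
      (L_smo V.toEll (h1 n)).cont.const_smul (-1 : ℝ)
    rw [B_congr V e1 e1] at g1
    have g2 := B_add_le V hχ c1 c2
    have g3 : B V χ (fun p => (-1 : ℝ) • V.L (h n) p) (fun p => (-1 : ℝ) • V.L (h n) p) =
        B V χ (V.L (h n)) (V.L (h n)) := by
      rw [B_smul, B_symm, B_smul]
      ring
    rw [g3] at g2
    have g4 := h3 m
    have g5 := h3 n
    have g6 := hle m hm
    have g7 := hle n hn
    have g8 : C * B V χ (fun p => V.L (h m) p + (-1 : ℝ) • V.L (h n) p)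
        (fun p => V.L (h m) p + (-1 : ℝ) • V.L (h n) p) ≤ C * (δ / C) := by
      apply mul_le_mul_of_nonneg_left _ hC.le
      have : δ / C = 4 * (δ / (4 * C)) := by field_simp
      rw [this]
      linarith
    have g9 : C * (δ / C) = δ := by field_simp
    linarith

end Pool.Agent.MPd01a95.LN
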