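import Mathlib
import Pool.Agent.Lib.MP_d01a95_gt_S.SDefs
import Pool.Agent.Lib.MP_d01a95_gt_S.SDefs2
import Pool.Agent.Lib.MP_d01a95_gt_L.LDefs

/-!
# Passage to the limit: definitions
-/

set_option autoImplicit false
set_option linter.all false

open MeasureTheory Filter Topology
open scoped ContDiff InnerProductSpace ENNReal NNReal

namespace Pool.Agent.MPd01a95.LP

/-- restriction of scalars of a unitary map -/
noncomputable def re1 {H : Type} [NormedAddCommGroup H] [InnerProductSpace ℂ H]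
    (e : H ≃ₗᵢ[ℂ] H) : H ≃ₗᵢ[ℝ] H :=
  { e.toLinearEquiv.restrictScalars ℝ with norm_map' := e.norm_map }

theorem re1_apply {H : Type} [NormedAddCommGroup H] [InnerProductSpace ℂ H]
    (e : H ≃ₗᵢ[ℂ] H) (x : H) : re1 e x = e x := rfl

/-- the real orthogonal representation attached to a unitary representation -/
noncomputable def reR {G : Type} [Group G] {H : Type} [NormedAddCommGroup H]
    [InnerProductSpace ℂ H] (pi : G →* (H ≃ₗᵢ[ℂ] H)) : G →* (H ≃ₗᵢ[ℝ] H) where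
  toFun g := re1 (pi g)
  map_one' := by
    ext x
    rw [re1_apply, map_one]
    rfl
  map_mul' g h := by
    ext x
    rw [re1_apply, map_mul]
    rfl

theorem reR_apply {G : Type} [Group G] {H : Type} [NormedAddCommGroup H]
    [InnerProductSpace ℂ H] (pi : G →* (H ≃ₗᵢ[ℂ] H)) (g : G) (x : H) :
    reR pi g x = pi g x := rfl

/-- the data of section 1 come from the surface -/
structure KV {G : Type} [Group G] {σ : G →* GU (Fin 2)} (K : Kerr σ) (V : LN.VG G) : Prop where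
  act : ∀ g, ∀ x ∈ Up, V.act g x = K.al g x
  rho : ∀ x ∈ Up, V.rho x = wA K.A x
  Y : ∀ x ∈ Up, ∀ y ∈ Up, V.Y x y = ps K.A x y + 1
  L : ∀ (F : Type) [NormedAddCommGroup F] [NormedSpace ℂ F] (u : C2 → F), ContDiffOn ℝ ∞ u Up →
    ∀ x ∈ Up, V.L u x = LV K.A u x

/-- a radial mollifier and the potential of its first moment -/
structure RM (ρ σ : C2 → ℝ) : Prop where
  rs : ContDiff ℝ ∞ ρ
  ss : ContDiff ℝ ∞ σ
  nn : ∀ y, 0 ≤ ρ y
  rc : ∀ y, 1 ≤ ‖y‖ → ρ y = 0
  sc : ∀ y, 1 ≤ ‖y‖ → σ y = 0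
  int : ∫ y, ρ y = 1
  grad : ∀ y i, LN.dr i σ y = LN.co y i * ρ y

/-- square integral -/
noncomputable def Q {F : Type*} [NormedAddCommGroup F] (C : Set C2) (u : C2 → F) : ℝ≥0∞ :=
  ∫⁻ z in C, ‖u z‖ₑ ^ 2

end Pool.Agent.MPd01a95.LP
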