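import Mathlib
import Pool.Agent.Lib.MP_d01a95_gt_S.Vcalc
import Pool.Agent.Lib.MP_d01a95_gt_S.Vlaw
import Pool.Agent.Lib.MP_d01a95_gt_S.Vcht
import Pool.Agent.Lib.MP_d01a95_gt_L.LDefs
import Pool.Agent.Lib.MP_d01a95_gt_L.PDefs

/-!
# Module PCht: the complex Hessian and integrals in holomorphic charts
-/

set_option autoImplicit false
set_option linter.all false

open MeasureTheory Filter Topology
open scoped ContDiff InnerProductSpace ENNReal NNReal

namespace Pool.Agent.MPd01a95.LP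

variable {F : Type} [NormedAddCommGroup F] [NormedSpace ℂ F] {A : C2 → ℂ} {ζ : C2} {r s : ℝ}
variable {Ψ Φ : C2 → C2}

private theorem PCht_W (g : C2 → F) (c : Fin 2) (z : C2) : WV (fun _ => 0) c g z = dbV g c z := by
  unfold WV
  fin_cases c <;> simp

private theorem PCht_Wb (g : C2 → F) (c : Fin 2) (z : C2) : WbV (fun _ => 0) c g z = ddV g c z := by
  unfold WbV
  fin_cases c <;> simp

theorem flat_HV (f : C2 → F) (a c : Fin 2) (z : C2) :
    HV (fun _ => 0) a c f z = dbV (fun w => ddV f a w) c z := by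
  unfold HV
  have h : Ga (fun _ => 0) c a z = 0 := by
    unfold Ga dd
    simp
  rw [h, zero_smul, add_zero, PCht_W]
  simp only [PCht_Wb]

private theorem PCht_BA (Ω : Set C2) : BA Ω (fun _ => 0) where
  sm := contDiffOn_const
  h1 := fun x _ => by
    unfold db
    simp
  h0 := fun x _ => by
    unfold db dd
    simp

private theorem PCht_Up : IsOpen Up := by
  unfold Up
  exact isOpen_lt continuous_const (Complex.continuous_im.comp (continuous_apply 1))

private theorem PCht_MM (h : Cht A ζ r Ψ) (a' a : Fin 2) :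
    ContinuousOn (fun z => MM (fun _ => 0) Ψ a' a z) (Metric.ball ζ r) := by
  have h1 : ContDiffOn ℝ 2 (fun y => Ψ y a') (Metric.ball ζ r) :=
    ((contDiff_apply ℝ ℂ a').comp_contDiffOn h.sm).of_le
      (WithTop.coe_le_coe.2 (le_top : (2 : ℕ∞) ≤ ⊤))
  have h2 := (WV_contDiffOn Metric.isOpen_ball (PCht_BA (Metric.ball ζ r)).sm (m := 1) h1
    (by norm_num) (by exact_mod_cast le_top) a).2
  refine h2.continuousOn.congr fun y hy => ?_
  exact (Wb_eq (fun _ => 0) (fun y => Ψ y a') y a).symm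

/-- the flat Hessian in the chart from the Hessian of the surface -/
theorem chart_back (hA : BA Up A) (h : Cht A ζ r Ψ) (hs : 0 < s) (hsr : s < r) :
    ∃ C : ℝ≥0, ∀ (F : Type) [NormedAddCommGroup F] [NormedSpace ℂ F] (u : C2 → F),
      ContDiffOn ℝ ∞ u Up → ∀ z ∈ Metric.ball ζ s, ∀ a c,
      ‖dbV (fun w => ddV (fun y => u (Ψ y)) a w) c z‖ ≤
        C * ∑ a', ∑ c', ‖HV A a' c' u (Ψ z)‖ := by
  have hsub : Metric.closedBall ζ s ⊆ Metric.ball ζ r := Metric.closedBall_subset_ball hsr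
  have hcon : ContinuousOn (fun z => ∑ a', ∑ a, ‖MM (fun _ => 0) Ψ a' a z‖)
      (Metric.closedBall ζ s) :=
    continuousOn_finset_sum _ fun a' _ => continuousOn_finset_sum _ fun a _ =>
      ((PCht_MM h a' a).mono hsub).norm
  obtain ⟨B, hB⟩ := (isCompact_closedBall ζ s).exists_bound_of_continuousOn hcon
  have hB0 : 0 ≤ B := (norm_nonneg _).trans (hB ζ (Metric.mem_closedBall_self hs.le))
  have hMB : ∀ z ∈ Metric.ball ζ s, ∀ a' a, ‖MM (fun _ => 0) Ψ a' a z‖ ≤ B := by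
    intro z hz a' a
    have h1 := hB z (Metric.ball_subset_closedBall hz)
    rw [Real.norm_of_nonneg (Finset.sum_nonneg fun _ _ => Finset.sum_nonneg fun _ _ =>
      norm_nonneg _)] at h1
    refine le_trans ?_ h1
    calc ‖MM (fun _ => 0) Ψ a' a z‖ ≤ ∑ a, ‖MM (fun _ => 0) Ψ a' a z‖ :=
          Finset.single_le_sum (f := fun a => ‖MM (fun _ => 0) Ψ a' a z‖)
            (fun _ _ => norm_nonneg _) (Finset.mem_univ a)
      _ ≤ _ := Finset.single_le_sum (f := fun a' => ∑ a, ‖MM (fun _ => 0) Ψ a' a z‖)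
            (fun _ _ => Finset.sum_nonneg fun _ _ => norm_nonneg _) (Finset.mem_univ a')
  refine ⟨(B * B).toNNReal, fun F _ _ u hu z hz a c => ?_⟩
  rw [Real.coe_toNNReal _ (mul_nonneg hB0 hB0)]
  have hzr : z ∈ Metric.ball ζ r := hsub (Metric.ball_subset_closedBall hz)
  have hl := law2 Metric.isOpen_ball PCht_Up (PCht_BA (Metric.ball ζ r)) hA h.sm h.maps h.hol
    (hu.of_le (WithTop.coe_le_coe.2 (le_top : (2 : ℕ∞) ≤ ⊤))) z hzr a c
  rw [flat_HV] at hl
  rw [hl, Finset.mul_sum]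
  refine (norm_sum_le _ _).trans (Finset.sum_le_sum fun a' _ => ?_)
  rw [Finset.mul_sum]
  refine (norm_sum_le _ _).trans (Finset.sum_le_sum fun c' _ => ?_)
  rw [norm_smul, norm_mul, norm_star]
  exact mul_le_mul_of_nonneg_right (mul_le_mul (hMB z hz a' a) (hMB z hz c' c) (norm_nonneg _) hB0)
    (norm_nonneg _)

/-- vanishing of the Hessian is transported by the inverse of the chart -/
theorem chart_zero (hA : BA Up A) (h : Cht A ζ r Ψ) (hsr : s ≤ r) {g : C2 → F}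
    (hg : ContDiffOn ℝ ∞ g (Metric.ball ζ s))
    (h0 : ∀ z ∈ Metric.ball ζ s, ∀ a c, dbV (fun w => ddV g a w) c z = 0)
    (hΦ : ContDiffOn ℝ ∞ Φ (Ψ '' Metric.ball ζ r)) (hi : ∀ z ∈ Metric.ball ζ r, Φ (Ψ z) = z)
    (hh : HolM A (fun _ => 0) (Ψ '' Metric.ball ζ r) Φ) :
    IsOpen (Ψ '' Metric.ball ζ s) ∧
    ContDiffOn ℝ ∞ (fun y => g (Φ y)) (Ψ '' Metric.ball ζ s) ∧
      ∀ y ∈ Ψ '' Metric.ball ζ s, ∀ a c, HV A a c (fun y => g (Φ y)) y = 0 := by
  have hsub : Metric.ball ζ s ⊆ Metric.ball ζ r := Metric.ball_subset_ball hsr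
  have hop : IsOpen (Ψ '' Metric.ball ζ s) := by
    rw [isOpen_iff_mem_nhds]
    rintro y ⟨z, hz, rfl⟩
    have hp : 0 < s - dist z ζ := by
      have := Metric.mem_ball.1 hz
      linarith
    refine Filter.mem_of_superset (h.opn z (hsub hz) _ hp) ?_
    refine Set.image_mono ?_
    rintro w ⟨hw, -⟩
    rw [Metric.mem_ball] at hw ⊢
    linarith [dist_triangle w z ζ]
  have hmap : ∀ y ∈ Ψ '' Metric.ball ζ s, Φ y ∈ Metric.ball ζ s := by
    rintro y ⟨z, hz, rfl⟩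
    rw [hi z (hsub hz)]
    exact hz
  have hΦ' : ContDiffOn ℝ ∞ Φ (Ψ '' Metric.ball ζ s) := hΦ.mono (Set.image_mono hsub)
  refine ⟨hop, hg.comp hΦ' hmap, fun y hy a c => ?_⟩
  have hUp : Ψ '' Metric.ball ζ s ⊆ Up := by
    rintro y ⟨z, hz, rfl⟩
    exact h.maps z (hsub hz)
  have hA' : BA (Ψ '' Metric.ball ζ s) A :=
    ⟨hA.sm.mono hUp, fun x hx => hA.h1 x (hUp hx), fun x hx => hA.h0 x (hUp hx)⟩
  have hh' : HolM A (fun _ => 0) (Ψ '' Metric.ball ζ s) Φ :=
    fun x hx c => hh x (Set.image_mono hsub hx) c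
  have hl := law2 hop Metric.isOpen_ball hA' (PCht_BA (Metric.ball ζ s)) hΦ' hmap hh'
    (hg.of_le (WithTop.coe_le_coe.2 (le_top : (2 : ℕ∞) ≤ ⊤))) y hy a c
  rw [hl]
  refine Finset.sum_eq_zero fun a' _ => Finset.sum_eq_zero fun c' _ => ?_
  rw [flat_HV, h0 _ (hmap y hy), smul_zero]

private theorem PCht_det (h : Cht A ζ r Ψ) {z : C2} (hz : z ∈ Metric.ball ζ r) :
    HasFDerivAt Ψ (fderiv ℝ Ψ z) z ∧
    |(fderiv ℝ Ψ z).det| = ‖MM (fun _ => 0) Ψ 0 0 z * MM (fun _ => 0) Ψ 1 1 z -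
      MM (fun _ => 0) Ψ 0 1 z * MM (fun _ => 0) Ψ 1 0 z‖ ^ 2 := by
  have hd : DifferentiableAt ℝ Ψ z :=
    (h.sm.contDiffAt (Metric.isOpen_ball.mem_nhds hz)).differentiableAt (by simp)
  exact ⟨hd.hasFDerivAt, law_jac h.hol hz hd⟩

private theorem PCht_con (h : Cht A ζ r Ψ) :
    ContinuousOn (fun z => ‖MM (fun _ => 0) Ψ 0 0 z * MM (fun _ => 0) Ψ 1 1 z -
      MM (fun _ => 0) Ψ 0 1 z * MM (fun _ => 0) Ψ 1 0 z‖ ^ 2) (Metric.ball ζ r) :=
  (((PCht_MM h 0 0).mul (PCht_MM h 1 1)).sub ((PCht_MM h 0 1).mul (PCht_MM h 1 0))).norm.pow 2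

/-- integrals over the chart ball are bounded by integrals over a compact set -/
theorem chart_int (h : Cht A ζ r Ψ) (hs : 0 < s) (hsr : s < r) :
    ∃ C : ℝ≥0, ∃ K ⊆ Up, IsCompact K ∧ ∀ f : C2 → ℝ≥0∞,
      ∫⁻ z in Metric.ball ζ s, f (Ψ z) ≤ C * ∫⁻ y in K, f y := by
  have hsub : Metric.closedBall ζ s ⊆ Metric.ball ζ r := Metric.closedBall_subset_ball hsr
  obtain ⟨z0, hz0, hmin⟩ := (isCompact_closedBall ζ s).exists_isMinOn
    ⟨ζ, Metric.mem_closedBall_self hs.le⟩ ((PCht_con h).mono hsub)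
  set m : ℝ := ‖MM (fun _ => 0) Ψ 0 0 z0 * MM (fun _ => 0) Ψ 1 1 z0 -
      MM (fun _ => 0) Ψ 0 1 z0 * MM (fun _ => 0) Ψ 1 0 z0‖ ^ 2 with hm
  have hm0 : 0 < m := pow_pos (norm_pos_iff.2 (h.det z0 (hsub hz0))) 2
  refine ⟨(m⁻¹).toNNReal, Ψ '' Metric.closedBall ζ s, ?_, ?_, fun f => ?_⟩
  · rintro y ⟨z, hz, rfl⟩
    exact h.maps z (hsub hz)
  · exact (isCompact_closedBall ζ s).image_of_continuousOn (h.sm.continuousOn.mono hsub)
  · have hcv := lintegral_image_eq_lintegral_abs_det_fderiv_mul (volume : Measure C2)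
      (s := Metric.closedBall ζ s) (f := Ψ) (f' := fderiv ℝ Ψ) measurableSet_closedBall
      (fun z hz => (PCht_det h (hsub hz)).1.hasFDerivWithinAt) (h.inj.mono hsub) f
    have h1 : ∫⁻ z in Metric.ball ζ s, f (Ψ z) =
        ENNReal.ofReal m⁻¹ * ∫⁻ z in Metric.ball ζ s, ENNReal.ofReal m * f (Ψ z) := by
      rw [lintegral_const_mul' _ _ ENNReal.ofReal_ne_top, ← mul_assoc,
        ← ENNReal.ofReal_mul (inv_nonneg.2 hm0.le), inv_mul_cancel₀ hm0.ne', ENNReal.ofReal_one,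
        one_mul]
    rw [h1, hcv]
    refine mul_le_mul' le_rfl ?_
    calc ∫⁻ z in Metric.ball ζ s, ENNReal.ofReal m * f (Ψ z)
        ≤ ∫⁻ z in Metric.closedBall ζ s, ENNReal.ofReal m * f (Ψ z) :=
          lintegral_mono_set Metric.ball_subset_closedBall
      _ ≤ ∫⁻ z in Metric.closedBall ζ s, ENNReal.ofReal |(fderiv ℝ Ψ z).det| * f (Ψ z) := by
          refine setLIntegral_mono' measurableSet_closedBall fun z hz => ?_
          rw [(PCht_det h (hsub hz)).2]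
          gcongr
          exact hmin hz

/-- integrals over a neighbourhood in the surface are bounded by integrals in the chart -/
theorem chart_int' (h : Cht A ζ r Ψ) (hs : 0 < s) (hsr : s < r) : ∃ C : ℝ≥0,
    ∀ f : C2 → ℝ≥0∞, ∫⁻ y in Ψ '' Metric.ball ζ s, f y ≤
      C * ∫⁻ z in Metric.ball ζ s, f (Ψ z) := by
  have hsub : Metric.closedBall ζ s ⊆ Metric.ball ζ r := Metric.closedBall_subset_ball hsr
  have hsub' : Metric.ball ζ s ⊆ Metric.ball ζ r := Metric.ball_subset_ball hsr.le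
  obtain ⟨B, hB⟩ := (isCompact_closedBall ζ s).exists_bound_of_continuousOn
    ((PCht_con h).mono hsub)
  refine ⟨B.toNNReal, fun f => ?_⟩
  have hcv := lintegral_image_eq_lintegral_abs_det_fderiv_mul (volume : Measure C2)
    (s := Metric.ball ζ s) (f := Ψ) (f' := fderiv ℝ Ψ) measurableSet_ball
    (fun z hz => (PCht_det h (hsub' hz)).1.hasFDerivWithinAt) (h.inj.mono hsub') f
  rw [hcv]
  change _ ≤ ENNReal.ofReal B * _
  rw [← lintegral_const_mul' _ _ ENNReal.ofReal_ne_top]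
  refine setLIntegral_mono' measurableSet_ball fun z hz => ?_
  rw [(PCht_det h (hsub' hz)).2]
  gcongr
  have h1 := hB z (Metric.ball_subset_closedBall hz)
  exact (le_abs_self _).trans h1

end Pool.Agent.MPd01a95.LP
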