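import Mathlib
import Pool.Agent.Lib.MP_d01a95_gt_L.LDefs
import Pool.Agent.Lib.MP_d01a95_gt_L.LBas
import Pool.Agent.Lib.MP_d01a95_gt_L.PDefs

/-!
# Module PMol: a radial mollifier
-/

set_option autoImplicit false
set_option linter.all false

open MeasureTheory Filter Topology
open scoped ContDiff InnerProductSpace ENNReal NNReal

namespace Pool.Agent.MPd01a95.LP

/-- the real coordinates as continuous linear maps -/
private noncomputable def coL : Fin 4 → (C2 →L[ℝ] ℝ) :=
  ![Complex.reCLM.comp ((ContinuousLinearMap.proj (R := ℂ) (φ := fun _ : Fin 2 => ℂ) 0).restrictScalars ℝ),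
    Complex.imCLM.comp ((ContinuousLinearMap.proj (R := ℂ) (φ := fun _ : Fin 2 => ℂ) 0).restrictScalars ℝ),
    Complex.reCLM.comp ((ContinuousLinearMap.proj (R := ℂ) (φ := fun _ : Fin 2 => ℂ) 1).restrictScalars ℝ),
    Complex.imCLM.comp ((ContinuousLinearMap.proj (R := ℂ) (φ := fun _ : Fin 2 => ℂ) 1).restrictScalars ℝ)]

private theorem coL_apply (i : Fin 4) (x : C2) : coL i x = LN.co x i := by
  fin_cases i <;> rfl

private theorem co_bs (i j : Fin 4) : LN.co (LN.bs i) j = if j = i then 1 else 0 := by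
  fin_cases i <;> fin_cases j <;> simp [LN.co, LN.bs]

private noncomputable def NN (y : C2) : ℝ := ∑ i, LN.co y i ^ 2

private theorem NN_eq : NN = fun y => ∑ i, coL i y ^ 2 := by
  funext y
  simp only [NN, coL_apply]

private theorem NN_smooth : ContDiff ℝ ∞ NN := by
  rw [NN_eq]
  exact ContDiff.sum fun i _ => (coL i).contDiff.pow 2

private theorem NN_one {y : C2} (h : 1 ≤ ‖y‖) : 1 ≤ NN y :=
  le_trans (by nlinarith) (LN.norm_le_co y)

private theorem NN_fderiv (y : C2) (i : Fin 4) : fderiv ℝ NN y (LN.bs i) = 2 * LN.co y i := by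
  have h : HasFDerivAt NN (∑ j, (2 * coL j y) • coL j) y := by
    rw [NN_eq]
    exact HasFDerivAt.fun_sum fun j _ => by
      have := ((coL j).hasFDerivAt (x := y)).pow 2
      refine this.congr_fderiv ?_
      ext z
      simp
  rw [h.fderiv]
  simp only [ContinuousLinearMap.coe_sum', Finset.sum_apply, ContinuousLinearMap.coe_smul', Pi.smul_apply, smul_eq_mul,
    coL_apply, co_bs]
  simp

private theorem T_deriv_zero {x : ℝ} (h : x ≤ 0) : deriv Real.smoothTransition x = 0 := by
  have : IsLocalMin Real.smoothTransition x := by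
    refine Filter.Eventually.of_forall fun z => ?_
    rw [Real.smoothTransition.zero_of_nonpos h]
    exact Real.smoothTransition.nonneg z
  exact this.deriv_eq_zero

private theorem T_smooth : ContDiff ℝ ∞ Real.smoothTransition := Real.smoothTransition.contDiff

private theorem T'_smooth : ContDiff ℝ ∞ (deriv Real.smoothTransition) :=
  (contDiff_infty_iff_deriv.1 T_smooth).2

theorem exists_rm : ∃ ρ σ : C2 → ℝ, RM ρ σ := by
  set r0 : C2 → ℝ := fun y => 2 * deriv Real.smoothTransition (1 - NN y) with hr0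
  have hs0 : ContDiff ℝ ∞ r0 := contDiff_const.mul (T'_smooth.comp (contDiff_const.sub NN_smooth))
  have hn0 : ∀ y, 0 ≤ r0 y := fun y =>
    mul_nonneg zero_le_two (Real.smoothTransition.monotone.deriv_nonneg)
  have hc0 : ∀ y, 1 ≤ ‖y‖ → r0 y = 0 := by
    intro y hy
    simp only [hr0]
    rw [T_deriv_zero (by linarith [NN_one hy]), mul_zero]
  have hcs : HasCompactSupport r0 := by
    refine HasCompactSupport.intro (isCompact_closedBall (0 : C2) 1) fun y hy => hc0 y ?_
    rw [Metric.mem_closedBall, dist_zero_right, not_le] at hy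
    exact hy.le
  have hpos : 0 < ∫ y, r0 y := by
    obtain ⟨t, ht, hT⟩ := exists_deriv_eq_slope Real.smoothTransition (zero_lt_one)
      Real.smoothTransition.continuous.continuousOn
      (T_smooth.differentiable (by simp)).differentiableOn
    rw [Real.smoothTransition.one, Real.smoothTransition.zero] at hT
    refine hs0.continuous.integral_pos_of_hasCompactSupport_nonneg_nonzero hcs hn0
      (x := Pi.single 0 ((Real.sqrt (1 - t) : ℝ) : ℂ)) ?_
    have : NN (Pi.single 0 ((Real.sqrt (1 - t) : ℝ) : ℂ)) = 1 - t := by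
      simp only [NN, Fin.sum_univ_four, LN.co]
      simp
      rw [Real.sq_sqrt (by linarith [ht.2])]
    simp only [hr0]
    rw [this, sub_sub_cancel, hT]
    norm_num
  set k : ℝ := (∫ y, r0 y)⁻¹ with hk
  refine ⟨fun y => k * r0 y, fun y => -(k * Real.smoothTransition (1 - NN y)), ?_⟩
  refine ⟨contDiff_const.mul hs0, (contDiff_const.mul (T_smooth.comp
    (contDiff_const.sub NN_smooth))).neg, fun y => mul_nonneg (inv_nonneg.2 hpos.le) (hn0 y),
    fun y hy => by simp only [hc0 y hy, mul_zero], fun y hy => ?_, ?_, fun y i => ?_⟩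
  · rw [Real.smoothTransition.zero_of_nonpos (by linarith [NN_one hy])]
    simp
  · rw [integral_const_mul]
    exact inv_mul_cancel₀ hpos.ne'
  · simp only [LN.dr]
    have h1 : HasFDerivAt NN (fderiv ℝ NN y) y :=
      (NN_smooth.differentiable (by simp) y).hasFDerivAt
    have h2 : HasDerivAt Real.smoothTransition (deriv Real.smoothTransition (1 - NN y)) (1 - NN y) :=
      (T_smooth.differentiable (by simp) _).hasDerivAt
    have h3 := ((h2.comp_hasFDerivAt y (h1.const_sub 1)).const_mul k).neg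
    have h4 : HasFDerivAt (fun y => -(k * Real.smoothTransition (1 - NN y))) _ y := h3
    rw [h4.fderiv]
    simp only [ContinuousLinearMap.neg_apply, ContinuousLinearMap.coe_smul', Pi.smul_apply, smul_eq_mul, NN_fderiv, hr0]
    ring

variable {F : Type} [NormedAddCommGroup F] [NormedSpace ℝ F] [CompleteSpace F] {ρ σ : C2 → ℝ}

private theorem rcs (h : RM ρ σ) : HasCompactSupport ρ := by
  refine HasCompactSupport.intro (isCompact_closedBall (0 : C2) 1) fun y hy => h.rc y ?_
  rw [Metric.mem_closedBall, dist_zero_right, not_le] at hy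
  exact hy.le

private theorem scs (h : RM ρ σ) : HasCompactSupport σ := by
  refine HasCompactSupport.intro (isCompact_closedBall (0 : C2) 1) fun y hy => h.sc y ?_
  rw [Metric.mem_closedBall, dist_zero_right, not_le] at hy
  exact hy.le

private theorem dr_smooth {U : C2 → F} (hU : ContDiff ℝ ∞ U) (i : Fin 4) :
    ContDiff ℝ ∞ (LN.dr i U) := by
  have : ContDiff ℝ ∞ (fderiv ℝ U) := hU.fderiv_right (by simp)
  exact this.clm_apply contDiff_const

private theorem sub_smooth (x : C2) (t : ℝ) : ContDiff ℝ ∞ (fun y : C2 => x - t • y) :=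
  contDiff_const.sub (contDiff_id.const_smul t)

private theorem line_deriv {U : C2 → F} (hU : ContDiff ℝ ∞ U) (x : C2) (t : ℝ) (v y : C2) :
    fderiv ℝ (fun y => U (x - t • y)) y v = -(t • fderiv ℝ U (x - t • y) v) := by
  have h1 : HasFDerivAt (fun y : C2 => x - t • y) (-(t • ContinuousLinearMap.id ℝ C2)) y :=
    ((hasFDerivAt_id y).const_smul t).const_sub x
  have h2 : HasFDerivAt U (fderiv ℝ U (x - t • y)) (x - t • y) :=
    (hU.differentiable (by simp) _).hasFDerivAt
  have h3 : HasFDerivAt (fun y => U (x - t • y)) _ y := h2.comp y h1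
  rw [h3.fderiv]
  simp

private theorem ibp (h : RM ρ σ) {w : C2 → F} (hw : ContDiff ℝ ∞ w) (i : Fin 4) :
    ∫ y, LN.dr i σ y • w y = -∫ y, σ y • LN.dr i w y := by
  have hc := scs h
  have hσ' : Continuous (fun y => fderiv ℝ σ y (LN.bs i)) := (dr_smooth h.ss i).continuous
  have := integral_smul_fderiv_eq_neg_fderiv_smul_of_integrable (μ := (volume : Measure C2))
    (f := σ) (g := w) (v := LN.bs i)
    ((hσ'.smul hw.continuous).integrable_of_hasCompactSupport
      ((hc.fderiv_apply ℝ (LN.bs i)).smul_right))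
    ((h.ss.continuous.smul (dr_smooth hw i).continuous).integrable_of_hasCompactSupport
      hc.smul_right)
    ((h.ss.continuous.smul hw.continuous).integrable_of_hasCompactSupport hc.smul_right)
    (fun x _ => h.ss.differentiable (by simp) x) (fun x _ => hw.differentiable (by simp) x)
  simp only [LN.dr]
  rw [this, neg_neg]

private theorem globA (h : RM ρ σ) {U : C2 → F} (hU : ContDiff ℝ ∞ U) (x : C2) (t : ℝ) :
    HasDerivAt (fun t : ℝ => ∫ y, ρ y • U (x - t • y))
      (-(t • ∫ y, σ y • ∑ i, LN.dr i (LN.dr i U) (x - t • y))) t := by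
  have hUc : Continuous (fderiv ℝ U) := hU.continuous_fderiv (by simp)
  obtain ⟨M, hM⟩ := (isCompact_closedBall x (|t| + 1)).exists_bound_of_continuousOn
    hUc.continuousOn
  have hint : ∀ {g : C2 → F}, Continuous g → Integrable (fun y => ρ y • g y) volume := fun hg =>
    (h.rs.continuous.smul hg).integrable_of_hasCompactSupport (rcs h).smul_right
  have hcx : ∀ s : ℝ, Continuous (fun y : C2 => x - s • y) := fun s => (sub_smooth x s).continuous
  have key := hasDerivAt_integral_of_dominated_loc_of_deriv_le (μ := (volume : Measure C2))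
    (F := fun (s : ℝ) y => ρ y • U (x - s • y))
    (F' := fun (s : ℝ) y => ρ y • fderiv ℝ U (x - s • y) (-y)) (x₀ := t)
    (s := Metric.ball t 1) (bound := fun y => ρ y * M) (Metric.ball_mem_nhds t one_pos)
    (Eventually.of_forall fun s => (hint (hU.continuous.comp (hcx s))).aestronglyMeasurable)
    (hint (hU.continuous.comp (hcx t)))
    (hint ((hUc.comp (hcx t)).clm_apply continuous_neg)).aestronglyMeasurable
    (Eventually.of_forall fun y s hs => by
      rw [norm_smul, Real.norm_of_nonneg (h.nn y)]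
      by_cases hy : 1 ≤ ‖y‖
      · rw [h.rc y hy, zero_mul, zero_mul]
      · push Not at hy
        refine mul_le_mul_of_nonneg_left ?_ (h.nn y)
        have hs' : |s| ≤ |t| + 1 := by
          rw [Metric.mem_ball, Real.dist_eq] at hs
          have := abs_sub_abs_le_abs_sub s t
          linarith
        have h1 : x - s • y ∈ Metric.closedBall x (|t| + 1) := by
          rw [Metric.mem_closedBall, dist_eq_norm, sub_sub_cancel_left, norm_neg, norm_smul,
            Real.norm_eq_abs]
          calc |s| * ‖y‖ ≤ |s| * 1 := by gcongr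
            _ ≤ _ := by linarith
        have h2 := hM _ h1
        calc ‖fderiv ℝ U (x - s • y) (-y)‖ ≤ ‖fderiv ℝ U (x - s • y)‖ * ‖-y‖ :=
              ContinuousLinearMap.le_opNorm _ _
          _ ≤ M * 1 := by
              rw [norm_neg]
              have : 0 ≤ M := (norm_nonneg _).trans h2
              gcongr
          _ = M := mul_one M)
    ((h.rs.continuous.integrable_of_hasCompactSupport (rcs h)).mul_const M)
    (Eventually.of_forall fun y s _ => by
      have h1 : HasDerivAt (fun s : ℝ => x - s • y) (-y) s := by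
        have := ((hasDerivAt_id s).smul_const y).const_sub x
        simpa using this
      have h2 : HasFDerivAt U (fderiv ℝ U (x - s • y)) (x - s • y) :=
        (hU.differentiable (by simp) _).hasFDerivAt
      exact (h2.comp_hasDerivAt s h1).const_smul (ρ y))
  refine key.2.congr_deriv ?_
  have e1 : ∀ y, ρ y • fderiv ℝ U (x - t • y) (-y) =
      -∑ i, LN.dr i σ y • LN.dr i U (x - t • y) := by
    intro y
    rw [map_neg, smul_neg, LN.fderiv_eq U (x - t • y) y, Finset.smul_sum]
    congr 1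
    refine Finset.sum_congr rfl fun i _ => ?_
    rw [h.grad, smul_smul, mul_comm]
  simp only [e1]
  rw [integral_neg, integral_finset_sum]
  · have e2 : ∀ i : Fin 4, ∫ y, LN.dr i σ y • LN.dr i U (x - t • y) =
        t • ∫ y, σ y • LN.dr i (LN.dr i U) (x - t • y) := by
      intro i
      have e3 := ibp h (w := fun y => LN.dr i U (x - t • y)) ((dr_smooth hU i).comp (sub_smooth x t)) i
      refine e3.trans ?_
      rw [← integral_smul, ← integral_neg]
      refine integral_congr_ae (Eventually.of_forall fun y => ?_)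
      simp only [LN.dr]
      rw [show (fun y => fderiv ℝ U (x - t • y) (LN.bs i)) =
        fun y => (LN.dr i U) (x - t • y) from rfl, line_deriv (dr_smooth hU i), smul_neg, neg_neg, smul_comm]
    simp only [e2]
    rw [← Finset.smul_sum, ← integral_finset_sum]
    · simp only [Finset.smul_sum]
    · intro i _
      exact (h.ss.continuous.smul ((dr_smooth (dr_smooth hU i) i).continuous.comp
        (hcx t))).integrable_of_hasCompactSupport (scs h).smul_right
  · intro i _
    exact (((dr_smooth h.ss i).continuous).smul ((dr_smooth hU i).continuous.comp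
        (hcx t))).integrable_of_hasCompactSupport ((scs h).fderiv_apply ℝ (LN.bs i)).smul_right

private theorem cutoff {u : C2 → F} {ζ : C2} {R R' : ℝ} (h0 : 0 < R') (hR : R' < R)
    (hu : ContDiffOn ℝ ∞ u (Metric.ball ζ R)) :
    ∃ U : C2 → F, ContDiff ℝ ∞ U ∧ ∀ z ∈ Metric.ball ζ R', U z = u z := by
  let f : ContDiffBump ζ := ⟨R', (R' + R) / 2, h0, by linarith⟩
  refine ⟨fun z => f z • u z, ?_, fun z hz => ?_⟩
  · rw [contDiff_iff_contDiffAt]
    intro z
    by_cases hz : z ∈ Metric.ball ζ R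
    · exact f.contDiff.contDiffAt.smul (hu.contDiffAt (Metric.isOpen_ball.mem_nhds hz))
    · have h1 : z ∈ (Metric.closedBall ζ ((R' + R) / 2))ᶜ := by
        rw [Set.mem_compl_iff, Metric.mem_closedBall, not_le]
        rw [Metric.mem_ball, not_lt] at hz
        linarith
      have h2 : (fun z => f z • u z) =ᶠ[𝓝 z] fun _ => 0 := by
        filter_upwards [Metric.isClosed_closedBall.isOpen_compl.mem_nhds h1] with w hw
        rw [Set.mem_compl_iff, Metric.mem_closedBall, not_le] at hw
        rw [f.zero_of_le_dist hw.le, zero_smul]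
      exact (contDiffAt_const (c := (0 : F))).congr_of_eventuallyEq h2
  · show f z • u z = u z
    rw [f.one_of_mem_closedBall (Metric.ball_subset_closedBall hz), one_smul]

private theorem drdr_congr {u U : C2 → F} {ζ : C2} {R' : ℝ}
    (h : ∀ z ∈ Metric.ball ζ R', U z = u z) {z : C2} (hz : z ∈ Metric.ball ζ R') (i : Fin 4) :
    LN.dr i (LN.dr i U) z = LN.dr i (LN.dr i u) z := by
  have h1 : U =ᶠ[𝓝 z] u := by
    filter_upwards [Metric.isOpen_ball.mem_nhds hz] with w hw using h w hw
  have h2 : LN.dr i U =ᶠ[𝓝 z] LN.dr i u := by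
    filter_upwards [h1.fderiv (𝕜 := ℝ)] with w hw
    simp only [LN.dr, hw]
  simp only [LN.dr]
  exact congrArg (fun A => A (LN.bs i)) (Filter.EventuallyEq.fderiv_eq (𝕜 := ℝ) h2)

private theorem mem_of {x ζ y : C2} {s r1 : ℝ} (hs : |s| < r1) (hy : ‖y‖ ≤ 1) :
    x - s • y ∈ Metric.ball ζ (dist x ζ + r1) := by
  rw [Metric.mem_ball]
  calc dist (x - s • y) ζ ≤ dist (x - s • y) x + dist x ζ := dist_triangle _ _ _
    _ = |s| * ‖y‖ + dist x ζ := by
        rw [dist_eq_norm (x - s • y) x, sub_sub_cancel_left, norm_neg, norm_smul, Real.norm_eq_abs]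
    _ ≤ |s| * 1 + dist x ζ := by gcongr
    _ < _ := by linarith

/-- derivative of the mollification with respect to the radius -/
theorem rm_deriv (h : RM ρ σ) {u : C2 → F} {ζ x : C2} {R r t : ℝ} (hr : 0 < r) (hR : r < R)
    (hu : ContDiffOn ℝ ∞ u (Metric.ball ζ R)) (hx : x ∈ Metric.ball ζ (R - r))
    (ht : t ∈ Set.Ioo (-r) r) :
    HasDerivAt (fun t : ℝ => ∫ y, ρ y • u (x - t • y))
      (-(t • ∫ y, σ y • ∑ i, LN.dr i (LN.dr i u) (x - t • y))) t := by
  rw [Metric.mem_ball] at hx
  obtain ⟨U, hU, hUu⟩ := cutoff (u := u) (ζ := ζ) (R := R) (R' := dist x ζ + r)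
    (by positivity) (by linarith) hu
  have h1 := globA h hU x t
  have h2 : (fun t : ℝ => ∫ y, ρ y • u (x - t • y)) =ᶠ[𝓝 t]
      fun t : ℝ => ∫ y, ρ y • U (x - t • y) := by
    filter_upwards [isOpen_Ioo.mem_nhds ht] with s hs
    refine integral_congr_ae (Eventually.of_forall fun y => ?_)
    simp only
    by_cases hy : 1 ≤ ‖y‖
    · rw [h.rc y hy, zero_smul, zero_smul]
    · push Not at hy
      rw [hUu _ (mem_of (abs_lt.2 hs) hy.le)]
  refine (h1.congr_of_eventuallyEq h2).congr_deriv ?_
  congr 2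
  refine integral_congr_ae (Eventually.of_forall fun y => ?_)
  simp only
  by_cases hy : 1 ≤ ‖y‖
  · rw [h.sc y hy, zero_smul, zero_smul]
  · push Not at hy
    congr 1
    exact Finset.sum_congr rfl fun i _ => drdr_congr hUu (mem_of (abs_lt.2 ht) hy.le) i

private theorem cont_par (h : RM ρ σ) {V : C2 → F} (hV : Continuous V) (x : C2) :
    Continuous fun s : ℝ => ∫ y, σ y • V (x - s • y) := by
  have h1 : Continuous (Function.uncurry fun (s : ℝ) (y : C2) => σ y • V (x - s • y)) := by
    have := h.ss.continuous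
    fun_prop
  have h2 := continuous_parametric_integral_of_continuous (μ := (volume : Measure C2)) h1
    (isCompact_closedBall (0 : C2) 1)
  convert h2 using 2 with s
  refine (setIntegral_eq_integral_of_forall_compl_eq_zero fun y hy => ?_).symm
  rw [Metric.mem_closedBall, dist_zero_right, not_le] at hy
  rw [h.sc y hy.le, zero_smul]

private theorem core (h : RM ρ σ) {u : C2 → F} {ζ x : C2} {R r : ℝ} (hr : 0 < r) (hR : r < R)
    (hu : ContDiffOn ℝ ∞ u (Metric.ball ζ R)) (hx : x ∈ Metric.ball ζ (R - r)) (f : C2 → ℝ≥0∞)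
    (hf : Measurable f)
    (hfu : ∀ z ∈ Metric.ball ζ R, f z = ‖∑ i, LN.dr i (LN.dr i u) z‖ₑ) :
    ‖u x - ∫ y, ρ y • u (x - r • y)‖ₑ ≤
      ∫⁻ p : ℝ × C2, (ENNReal.ofReal p.1 * ‖σ p.2‖ₑ) * f (x - p.1 • p.2)
        ∂((volume.restrict (Set.Ioc 0 r)).prod volume) := by
  rw [Metric.mem_ball] at hx
  set r1 : ℝ := (r + (R - dist x ζ)) / 2 with hr1
  have hr1' : r < r1 := by linarith
  have hr1'' : dist x ζ + r1 < R := by linarith
  obtain ⟨U, hU, hUu⟩ := cutoff (u := u) (ζ := ζ) (R := R) (R' := dist x ζ + r1)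
    (by have := dist_nonneg (x := x) (y := ζ); linarith) hr1'' hu
  have hV : Continuous (fun z => ∑ i, LN.dr i (LN.dr i U) z) :=
    continuous_finset_sum _ fun i _ => (dr_smooth (dr_smooth hU i) i).continuous
  have hG : ∀ s, HasDerivAt (fun t : ℝ => ∫ y, ρ y • U (x - t • y))
      (-(s • ∫ y, σ y • ∑ i, LN.dr i (LN.dr i U) (x - s • y))) s := fun s => globA h hU x s
  have hc : Continuous fun s : ℝ => -(s • ∫ y, σ y • ∑ i, LN.dr i (LN.dr i U) (x - s • y)) :=
    (continuous_id.smul (cont_par h hV x)).neg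
  have hF := intervalIntegral.integral_eq_sub_of_hasDerivAt (a := 0) (b := r)
    (fun s _ => hG s) (hc.intervalIntegrable 0 r)
  have hx0 : x ∈ Metric.ball ζ (dist x ζ + r1) := by
    rw [Metric.mem_ball]; linarith
  have e0 : ∫ y, ρ y • U (x - (0 : ℝ) • y) = u x := by
    simp only [zero_smul, sub_zero]
    rw [integral_smul_const, h.int, one_smul, hUu x hx0]
  have er : ∫ y, ρ y • U (x - r • y) = ∫ y, ρ y • u (x - r • y) := by
    refine integral_congr_ae (Eventually.of_forall fun y => ?_)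
    simp only
    by_cases hy : 1 ≤ ‖y‖
    · rw [h.rc y hy, zero_smul, zero_smul]
    · push Not at hy
      rw [hUu _ (mem_of (by rw [abs_of_pos hr]; exact hr1') hy.le)]
  rw [e0, er] at hF
  have e1 : u x - ∫ y, ρ y • u (x - r • y) =
      ∫ s in Set.Ioc 0 r, s • ∫ y, σ y • ∑ i, LN.dr i (LN.dr i U) (x - s • y) := by
    rw [← neg_sub, ← hF, intervalIntegral.integral_of_le hr.le, integral_neg, neg_neg]
  rw [e1]
  refine (enorm_integral_le_lintegral_enorm _).trans ?_
  have hmeas : Measurable fun p : ℝ × C2 =>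
      (ENNReal.ofReal p.1 * ‖σ p.2‖ₑ) * f (x - p.1 • p.2) := by
    have h1 : Measurable fun p : ℝ × C2 => x - p.1 • p.2 := by
      have : Continuous fun p : ℝ × C2 => x - p.1 • p.2 := by fun_prop
      exact this.measurable
    have h2 : Measurable fun p : ℝ × C2 => ‖σ p.2‖ₑ :=
      (h.ss.continuous.measurable.comp measurable_snd).enorm
    exact ((ENNReal.measurable_ofReal.comp measurable_fst).mul h2).mul (hf.comp h1)
  rw [lintegral_prod _ hmeas.aemeasurable]
  refine setLIntegral_mono' measurableSet_Ioc fun s hs => ?_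
  rw [enorm_smul, Real.enorm_eq_ofReal hs.1.le]
  calc ENNReal.ofReal s * ‖∫ y, σ y • ∑ i, LN.dr i (LN.dr i U) (x - s • y)‖ₑ
      ≤ ENNReal.ofReal s * ∫⁻ y, ‖σ y • ∑ i, LN.dr i (LN.dr i U) (x - s • y)‖ₑ := by
        gcongr
        exact enorm_integral_le_lintegral_enorm _
    _ = ∫⁻ y, ENNReal.ofReal s * ‖σ y • ∑ i, LN.dr i (LN.dr i U) (x - s • y)‖ₑ :=
        (lintegral_const_mul' _ _ ENNReal.ofReal_ne_top).symm
    _ = ∫⁻ y, (ENNReal.ofReal s * ‖σ y‖ₑ) * f (x - s • y) := by
        refine lintegral_congr fun y => ?_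
        by_cases hy : 1 ≤ ‖y‖
        · rw [h.sc y hy, zero_smul, enorm_zero, enorm_zero, mul_zero, zero_mul]
        · push Not at hy
          have hm : x - s • y ∈ Metric.ball ζ (dist x ζ + r1) :=
            mem_of (by rw [abs_of_pos hs.1]; exact hs.2.trans_lt hr1') hy.le
          have hm' : x - s • y ∈ Metric.ball ζ R :=
            Metric.ball_subset_ball hr1''.le hm
          have he : ∑ i, LN.dr i (LN.dr i U) (x - s • y) = ∑ i, LN.dr i (LN.dr i u) (x - s • y) :=
            Finset.sum_congr rfl fun i _ => drdr_congr hUu hm i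
          rw [hfu _ hm', enorm_smul, mul_assoc, he]

private theorem cs {α : Type} [MeasurableSpace α] (m : Measure α) {w f : α → ℝ≥0∞}
    (hw : Measurable w) (hf : Measurable f) :
    (∫⁻ p, w p * f p ∂m) ^ 2 ≤ (∫⁻ p, w p ∂m) * ∫⁻ p, w p * f p ^ 2 ∂m := by
  have h := ENNReal.lintegral_mul_le_Lp_mul_Lq m Real.HolderConjugate.two_two
    (f := fun p => w p ^ (1 / 2 : ℝ)) (g := fun p => w p ^ (1 / 2 : ℝ) * f p)
    (hw.pow_const _).aemeasurable ((hw.pow_const _).mul hf).aemeasurable
  have hh : ∀ a : ℝ≥0∞, (a ^ (1 / 2 : ℝ)) ^ (2 : ℝ) = a := fun a => by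
    rw [← ENNReal.rpow_mul]; norm_num
  have hh' : ∀ a : ℝ≥0∞, (a ^ (1 / 2 : ℝ)) ^ 2 = a := fun a => by
    have := hh a
    rwa [ENNReal.rpow_two] at this
  have e1 : ∀ p, ((fun p => w p ^ (1 / 2 : ℝ)) * fun p => w p ^ (1 / 2 : ℝ) * f p) p =
      w p * f p := by
    intro p
    simp only [Pi.mul_apply]
    rw [← mul_assoc, ← sq, hh']
  simp only [e1, hh, ENNReal.mul_rpow_of_nonneg _ _ (zero_le_two), ENNReal.rpow_two, hh'] at h
  calc (∫⁻ p, w p * f p ∂m) ^ 2
      ≤ ((∫⁻ p, w p ∂m) ^ (1 / 2 : ℝ) * (∫⁻ p, w p * f p ^ 2 ∂m) ^ (1 / 2 : ℝ)) ^ 2 := by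
        gcongr
    _ = _ := by rw [mul_pow, hh', hh']

/-- the mollification error in the mean square -/
theorem rm_est (h : RM ρ σ) : ∃ C : ℝ≥0, ∀ (F : Type) [NormedAddCommGroup F] [NormedSpace ℝ F]
    [CompleteSpace F] (u : C2 → F) (ζ : C2) (R r : ℝ), 0 < r → r < R →
    ContDiffOn ℝ ∞ u (Metric.ball ζ R) →
    Q (Metric.ball ζ (R - r)) (fun x => u x - ∫ y, ρ y • u (x - r • y)) ≤
      C * ENNReal.ofReal (r ^ 4) * Q (Metric.ball ζ R) (fun x => ∑ i, LN.dr i (LN.dr i u) x) := by
  have hσ : Integrable σ volume := h.ss.continuous.integrable_of_hasCompactSupport (scs h)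
  set S : ℝ≥0∞ := ∫⁻ y, ‖σ y‖ₑ with hS
  have hSt : S ≠ ⊤ := hσ.2.ne
  refine ⟨(S ^ 2 / 4).toNNReal, fun F _ _ _ u ζ R r hr hR hu => ?_⟩
  rw [ENNReal.coe_toNNReal (ENNReal.div_ne_top (ENNReal.pow_ne_top hSt) (by norm_num))]
  classical
  set D : C2 → F := fun x => ∑ i, LN.dr i (LN.dr i u) x with hD
  have hDc : ContinuousOn D (Metric.ball ζ R) := by
    have h1 : ∀ i, ContDiffOn ℝ ∞ (LN.dr i (LN.dr i u)) (Metric.ball ζ R) := by
      intro i
      have h2 : ∀ {v : C2 → F}, ContDiffOn ℝ ∞ v (Metric.ball ζ R) →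
          ContDiffOn ℝ ∞ (LN.dr i v) (Metric.ball ζ R) := fun hv =>
        (hv.fderiv_of_isOpen Metric.isOpen_ball (by simp)).clm_apply contDiffOn_const
      exact h2 (h2 hu)
    exact continuousOn_finset_sum _ fun i _ => (h1 i).continuousOn
  set f : C2 → ℝ≥0∞ := (Metric.ball ζ R).piecewise (fun z => ‖D z‖ₑ) (fun _ => 0) with hf
  have hfm : Measurable f :=
    ContinuousOn.measurable_piecewise hDc.enorm continuousOn_const measurableSet_ball
  have hfb : ∀ z ∈ Metric.ball ζ R, f z = ‖D z‖ₑ := fun z hz => by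
    simp only [hf, Set.piecewise_eq_of_mem _ _ _ hz]
  have hJ : ∫⁻ x, f x ^ 2 = Q (Metric.ball ζ R) D := by
    rw [Q, ← lintegral_indicator measurableSet_ball]
    refine lintegral_congr fun z => ?_
    by_cases hz : z ∈ Metric.ball ζ R
    · rw [hfb z hz, Set.indicator_of_mem hz]
    · rw [Set.indicator_of_notMem hz]
      simp only [hf, Set.piecewise_eq_of_notMem _ _ _ hz]
      simp
  set m : Measure (ℝ × C2) := (volume.restrict (Set.Ioc 0 r)).prod volume with hm
  set w : ℝ × C2 → ℝ≥0∞ := fun p => ENNReal.ofReal p.1 * ‖σ p.2‖ₑ with hw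
  have hwm : Measurable w :=
    (ENNReal.measurable_ofReal.comp measurable_fst).mul
      (h.ss.continuous.measurable.comp measurable_snd).enorm
  have hW : ∫⁻ p, w p ∂m = ENNReal.ofReal (r ^ 2 / 2) * S := by
    rw [hw, hm, lintegral_prod_mul ENNReal.measurable_ofReal.aemeasurable
      h.ss.continuous.measurable.enorm.aemeasurable]
    congr 1
    rw [← ofReal_integral_eq_lintegral_ofReal]
    · congr 1
      rw [← intervalIntegral.integral_of_le hr.le, integral_id]
      ring
    · exact (continuous_id.integrableOn_Icc (a := 0) (b := r)).mono_set Set.Ioc_subset_Icc_self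
    · filter_upwards [ae_restrict_mem measurableSet_Ioc] with s hs using hs.1.le
  have hcont : Continuous fun q : C2 × (ℝ × C2) => q.1 - q.2.1 • q.2.2 := by fun_prop
  have hmx : ∀ x : C2, Measurable fun p : ℝ × C2 => f (x - p.1 • p.2) := fun x =>
    hfm.comp (hcont.comp (Continuous.prodMk_right x)).measurable
  calc Q (Metric.ball ζ (R - r)) (fun x => u x - ∫ y, ρ y • u (x - r • y))
      ≤ ∫⁻ x in Metric.ball ζ (R - r), (∫⁻ p, w p ∂m) * ∫⁻ p, w p * f (x - p.1 • p.2) ^ 2 ∂m := by
        refine setLIntegral_mono' measurableSet_ball fun x hx => ?_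
        refine le_trans (pow_le_pow_left' (core h hr hR hu hx f hfm hfb) 2) ?_
        exact cs m hwm (hmx x)
    _ ≤ ∫⁻ x, (∫⁻ p, w p ∂m) * ∫⁻ p, w p * f (x - p.1 • p.2) ^ 2 ∂m :=
        setLIntegral_le_lintegral _ _
    _ = (∫⁻ p, w p ∂m) * ∫⁻ x, ∫⁻ p, w p * f (x - p.1 • p.2) ^ 2 ∂m := by
        rw [lintegral_const_mul']
        rw [hW]
        exact ENNReal.mul_ne_top ENNReal.ofReal_ne_top hSt
    _ = (∫⁻ p, w p ∂m) * ∫⁻ p, ∫⁻ x, w p * f (x - p.1 • p.2) ^ 2 ∂volume ∂m := by
        rw [lintegral_lintegral_swap]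
        exact ((hwm.comp measurable_snd).mul
          ((hfm.comp hcont.measurable).pow_const 2)).aemeasurable
    _ = (∫⁻ p, w p ∂m) * ∫⁻ p, w p * Q (Metric.ball ζ R) D ∂m := by
        congr 1
        refine lintegral_congr fun p => ?_
        have hmm : Measurable fun x : C2 => f (x - p.1 • p.2) ^ 2 :=
          (hfm.comp (measurable_id.sub_const _)).pow_const 2
        rw [lintegral_const_mul _ hmm]
        rw [lintegral_sub_right_eq_self (fun x => f x ^ 2) (p.1 • p.2), hJ]
    _ = (∫⁻ p, w p ∂m) * ((∫⁻ p, w p ∂m) * Q (Metric.ball ζ R) D) := by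
        rw [lintegral_mul_const _ hwm]
    _ = S ^ 2 / 4 * ENNReal.ofReal (r ^ 4) * Q (Metric.ball ζ R) D := by
        rw [← mul_assoc, hW]
        congr 1
        rw [show r ^ 4 = (r ^ 2 / 2) * (r ^ 2 / 2) * 4 by ring,
          ENNReal.ofReal_mul (by positivity), ENNReal.ofReal_mul (by positivity)]
        rw [show ENNReal.ofReal 4 = 4 by norm_num]
        rw [mul_comm (ENNReal.ofReal (r ^ 2 / 2) * ENNReal.ofReal (r ^ 2 / 2)) 4,
          ← mul_assoc (S ^ 2 / 4) 4, ENNReal.div_mul_cancel (by norm_num) (by norm_num)]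
        ring

end Pool.Agent.MPd01a95.LP
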