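import Mathlib
import Pool.Agent.Lib.MP_d01a95_gt_L.LDefs
import Pool.Agent.Lib.MP_d01a95_gt_L.LBas
import Pool.Agent.Lib.MP_d01a95_gt_L.PDefs
import Pool.Agent.Lib.MP_d01a95_gt_L.PMol

/-!
# Module PLoc: local regularity of limits of almost pluriharmonic maps
-/

set_option autoImplicit false
set_option linter.all false

open MeasureTheory Filter Topology
open scoped ContDiff InnerProductSpace ENNReal NNReal

namespace Pool.Agent.MPd01a95.LP

variable {H : Type} [NormedAddCommGroup H] [InnerProductSpace ℂ H] [CompleteSpace H]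

section aux

open scoped Convolution

private theorem pl_D2 {u : C2 → H} {z : C2} (hu : ContDiffAt ℝ 2 u z) (e : C2) :
    HasFDerivAt (fun p => fderiv ℝ u p e) ((fderiv ℝ (fderiv ℝ u) z).flip e) z := by
  have h1 : DifferentiableAt ℝ (fderiv ℝ u) z :=
    (hu.fderiv_right (m := 1) (by norm_num)).differentiableAt (by norm_num)
  have := h1.hasFDerivAt.clm_apply (hasFDerivAt_const e z)
  simpa using this

private theorem pl_exp {u : C2 → H} {z : C2} (hu : ContDiffAt ℝ 2 u z) (a c : Fin 2) :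
    dbV (fun y => ddV u a y) c z = (1 / 2 : ℂ) •
      ((1 / 2 : ℂ) • (fderiv ℝ (fderiv ℝ u) z (Pi.single c 1) (Pi.single a 1) -
          Complex.I • fderiv ℝ (fderiv ℝ u) z (Pi.single c 1) (Pi.single a Complex.I)) +
        Complex.I • ((1 / 2 : ℂ) •
          (fderiv ℝ (fderiv ℝ u) z (Pi.single c Complex.I) (Pi.single a 1) -
          Complex.I • fderiv ℝ (fderiv ℝ u) z (Pi.single c Complex.I)
            (Pi.single a Complex.I)))) := by
  have h := ((pl_D2 hu (Pi.single a 1)).sub
    ((pl_D2 hu (Pi.single a Complex.I)).const_smul Complex.I)).const_smul (1 / 2 : ℂ)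
  have h2 : fderiv ℝ (fun y => ddV u a y) z = _ := h.fderiv
  unfold dbV
  rw [h2]
  simp

private noncomputable def cv (k : C2 → ℝ) (f : C2 → H) (x : C2) : H := ∫ y, k y • f (x - y)

private theorem cv_eq (k : C2 → ℝ) (f : C2 → H) :
    cv k f = (k ⋆[ContinuousLinearMap.lsmul ℝ ℝ, volume] f) := rfl

private theorem cv_eq' (k : C2 → ℝ) (f : C2 → H) :
    cv k f = (f ⋆[(ContinuousLinearMap.lsmul ℝ ℝ : ℝ →L[ℝ] H →L[ℝ] H).flip, volume] k) := by
  rw [convolution_flip]
  rfl

private theorem cv_right {k : C2 → ℝ} {f : C2 → H} (hk : Continuous k) (hf : ContDiff ℝ 1 f)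
    (hc : HasCompactSupport f) (e x : C2) :
    fderiv ℝ (cv k f) x e = cv k (fun y => fderiv ℝ f y e) x := by
  have h := hc.hasFDerivAt_convolution_right (ContinuousLinearMap.lsmul ℝ ℝ)
    (hk.locallyIntegrable (μ := volume)) hf x
  rw [cv_eq, h.fderiv, convolution_precompR_apply _ hk.locallyIntegrable (hc.fderiv ℝ)
    (hf.continuous_fderiv one_ne_zero)]
  rfl

private theorem cv_left {k : C2 → ℝ} {f : C2 → H} (hk : ContDiff ℝ 1 k)
    (hkc : HasCompactSupport k) (hf : LocallyIntegrable f) (e x : C2) :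
    fderiv ℝ (cv k f) x e = cv (fun y => fderiv ℝ k y e) f x := by
  have h := hkc.hasFDerivAt_convolution_right
    (ContinuousLinearMap.lsmul ℝ ℝ : ℝ →L[ℝ] H →L[ℝ] H).flip hf hk x
  rw [cv_eq', h.fderiv, convolution_precompR_apply _ hf (hkc.fderiv ℝ)
    (hk.continuous_fderiv one_ne_zero), cv_eq']

private theorem cv_smooth {k : C2 → ℝ} {f : C2 → H} (hk : ContDiff ℝ ∞ k)
    (hkc : HasCompactSupport k) (hf : LocallyIntegrable f) : ContDiff ℝ ∞ (cv k f) := by
  rw [cv_eq]
  exact hkc.contDiff_convolution_left _ hk hf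

private theorem cv_int {k : C2 → ℝ} {f : C2 → H} (hk : Continuous k) (hf : Continuous f)
    (hc : HasCompactSupport f) (x : C2) : Integrable (fun y => k y • f (x - y)) :=
  hc.convolutionExists_right (ContinuousLinearMap.lsmul ℝ ℝ) hk.locallyIntegrable hf x

private theorem cv_int' {k : C2 → ℝ} {f : C2 → H} (hk : Continuous k) (hkc : HasCompactSupport k)
    (hf : LocallyIntegrable f) (x : C2) : Integrable (fun y => k y • f (x - y)) :=
  hkc.convolutionExists_left (ContinuousLinearMap.lsmul ℝ ℝ) hk hf x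

private theorem cv_sub {k : C2 → ℝ} {f g : C2 → H} {x : C2}
    (hf : Integrable (fun y => k y • f (x - y))) (hg : Integrable (fun y => k y • g (x - y))) :
    cv k f x - cv k g x = cv k (fun y => f y - g y) x := by
  unfold cv
  rw [← integral_sub hf hg]
  refine integral_congr_ae (Eventually.of_forall fun y => ?_)
  simp only [smul_sub]

private theorem cv_smul (c : ℂ) (k : C2 → ℝ) (f : C2 → H) (x : C2) :
    c • cv k f x = cv k (fun y => c • f y) x := by
  unfold cv
  rw [← integral_smul]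
  refine integral_congr_ae (Eventually.of_forall fun y => ?_)
  simp only [smul_comm c (k y)]

private theorem cv_add {k : C2 → ℝ} {f g : C2 → H} {x : C2}
    (hf : Integrable (fun y => k y • f (x - y))) (hg : Integrable (fun y => k y • g (x - y))) :
    cv k f x + cv k g x = cv k (fun y => f y + g y) x := by
  unfold cv
  rw [← integral_add hf hg]
  refine integral_congr_ae (Eventually.of_forall fun y => ?_)
  simp only [smul_add]

private theorem fd_smooth {f : C2 → H} (hf : ContDiff ℝ ∞ f) (e : C2) :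
    ContDiff ℝ ∞ (fun y => fderiv ℝ f y e) :=
  (hf.fderiv_right (m := ∞) (by norm_cast)).clm_apply contDiff_const

private theorem fd_cpt {f : C2 → H} (hf : HasCompactSupport f) (e : C2) :
    HasCompactSupport (fun y => fderiv ℝ f y e) :=
  (hf.fderiv ℝ).comp_left (g := fun T : C2 →L[ℝ] H => T e) (by simp)

private theorem ddV_smooth {f : C2 → H} (hf : ContDiff ℝ ∞ f) (a : Fin 2) :
    ContDiff ℝ ∞ (ddV f a) :=
  ((fd_smooth hf _).sub ((fd_smooth hf _).const_smul Complex.I)).const_smul (1 / 2 : ℂ)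

private theorem dbV_smooth {f : C2 → H} (hf : ContDiff ℝ ∞ f) (a : Fin 2) :
    ContDiff ℝ ∞ (dbV f a) :=
  ((fd_smooth hf _).add ((fd_smooth hf _).const_smul Complex.I)).const_smul (1 / 2 : ℂ)

private theorem ddV_cpt {f : C2 → H} (hf : HasCompactSupport f) (a : Fin 2) :
    HasCompactSupport (ddV f a) :=
  (hf.fderiv ℝ).comp_left (g := fun T : C2 →L[ℝ] H =>
    (1 / 2 : ℂ) • (T (Pi.single a 1) - Complex.I • T (Pi.single a Complex.I))) (by simp)

private theorem cv_ddV {k : C2 → ℝ} {f : C2 → H} (hk : Continuous k) (hf : ContDiff ℝ ∞ f)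
    (hc : HasCompactSupport f) (a : Fin 2) : ddV (cv k f) a = cv k (ddV f a) := by
  have h1 : ContDiff ℝ 1 f := hf.of_le (by norm_cast)
  funext x
  have i1 := cv_int hk (fd_smooth hf (Pi.single a 1)).continuous (fd_cpt hc (Pi.single a 1)) x
  have i2 := cv_int (f := fun y => Complex.I • fderiv ℝ f y (Pi.single a Complex.I)) hk
    ((fd_smooth hf (Pi.single a Complex.I)).continuous.const_smul Complex.I)
    ((fd_cpt hc (Pi.single a Complex.I)).comp_left (g := fun v : H => Complex.I • v) (by simp)) x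
  unfold ddV
  rw [cv_right hk h1 hc, cv_right hk h1 hc, cv_smul, cv_sub i1 i2, cv_smul]

private theorem cv_dbV {k : C2 → ℝ} {f : C2 → H} (hk : Continuous k) (hf : ContDiff ℝ ∞ f)
    (hc : HasCompactSupport f) (a : Fin 2) : dbV (cv k f) a = cv k (dbV f a) := by
  have h1 : ContDiff ℝ 1 f := hf.of_le (by norm_cast)
  funext x
  have i1 := cv_int hk (fd_smooth hf (Pi.single a 1)).continuous (fd_cpt hc (Pi.single a 1)) x
  have i2 := cv_int (f := fun y => Complex.I • fderiv ℝ f y (Pi.single a Complex.I)) hk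
    ((fd_smooth hf (Pi.single a Complex.I)).continuous.const_smul Complex.I)
    ((fd_cpt hc (Pi.single a Complex.I)).comp_left (g := fun v : H => Complex.I • v) (by simp)) x
  unfold dbV
  rw [cv_right hk h1 hc, cv_right hk h1 hc, cv_smul, cv_add i1 i2, cv_smul]

/-- the mollification of an almost pluriharmonic function -/
private theorem cv_hess {k : C2 → ℝ} {f : C2 → H} (hk : Continuous k) (hf : ContDiff ℝ ∞ f)
    (hc : HasCompactSupport f) (a c : Fin 2) (x : C2) :
    dbV (fun y => ddV (cv k f) a y) c x = cv k (fun z => dbV (fun y => ddV f a y) c z) x := by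
  have e : (fun y => ddV (cv k f) a y) = cv k (ddV f a) := cv_ddV hk hf hc a
  rw [e, cv_dbV hk (ddV_smooth hf a) (ddV_cpt hc a)]

private theorem cv_bd {k : C2 → ℝ} {M : ℝ≥0} (hM : ∀ y, ‖k y‖ₑ ≤ M) (hk : Continuous k)
    (hkc : HasCompactSupport k) {f g : C2 → H} (hf : Integrable f) (hg : Integrable g) (x : C2) :
    ‖cv k f x - cv k g x‖ₑ ≤ M * ∫⁻ y, ‖f y - g y‖ₑ := by
  rw [cv_sub (cv_int' hk hkc hf.locallyIntegrable x) (cv_int' hk hkc hg.locallyIntegrable x)]
  unfold cv
  calc ‖∫ y, k y • (f (x - y) - g (x - y))‖ₑ ≤ ∫⁻ y, ‖k y • (f (x - y) - g (x - y))‖ₑ :=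
        enorm_integral_le_lintegral_enorm _
    _ ≤ ∫⁻ y, M * ‖f (x - y) - g (x - y)‖ₑ := by
        refine lintegral_mono fun y => ?_
        rw [enorm_smul]
        gcongr
        exact hM y
    _ = M * ∫⁻ y, ‖f (x - y) - g (x - y)‖ₑ := lintegral_const_mul' _ _ ENNReal.coe_ne_top
    _ = M * ∫⁻ y, ‖f y - g y‖ₑ := by
        rw [lintegral_sub_left_eq_self (fun y => ‖f y - g y‖ₑ) x]

private theorem cv_small {k : C2 → ℝ} {M : ℝ≥0} (hM : ∀ y, ‖k y‖ₑ ≤ M) {ζ : C2} {t : ℝ}
    (hk : ∀ y, t ≤ ‖y‖ → k y = 0) (f : C2 → H) {x : C2} (hx : x ∈ Metric.ball ζ t) :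
    ‖cv k f x‖ₑ ≤ M * ∫⁻ y in Metric.ball ζ (2 * t), ‖f y‖ₑ := by
  unfold cv
  calc ‖∫ y, k y • f (x - y)‖ₑ ≤ ∫⁻ y, ‖k y • f (x - y)‖ₑ :=
        enorm_integral_le_lintegral_enorm _
    _ ≤ ∫⁻ y, M * (Metric.ball ζ (2 * t)).indicator (fun z => ‖f z‖ₑ) (x - y) := by
        refine lintegral_mono fun y => ?_
        rw [enorm_smul]
        by_cases hy : t ≤ ‖y‖
        · simp [hk y hy]
        · have : x - y ∈ Metric.ball ζ (2 * t) := by
            rw [mem_ball_iff_norm] at hx ⊢
            have : ‖x - y - ζ‖ ≤ ‖x - ζ‖ + ‖y‖ := by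
              rw [show x - y - ζ = (x - ζ) - y by abel]
              exact norm_sub_le _ _
            push Not at hy
            linarith
          rw [Set.indicator_of_mem this]
          gcongr
          exact hM y
    _ = M * ∫⁻ y, (Metric.ball ζ (2 * t)).indicator (fun z => ‖f z‖ₑ) (x - y) :=
        lintegral_const_mul' _ _ ENNReal.coe_ne_top
    _ = M * ∫⁻ y in Metric.ball ζ (2 * t), ‖f y‖ₑ := by
        rw [lintegral_sub_left_eq_self ((Metric.ball ζ (2 * t)).indicator (fun z => ‖f z‖ₑ)) x,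
          lintegral_indicator measurableSet_ball]

private theorem l1_le {C : Set C2} {f : C2 → H}
    (hf : AEStronglyMeasurable f (volume.restrict C)) :
    ∫⁻ z in C, ‖f z‖ₑ ≤ (Q C f) ^ (1 / 2 : ℝ) * (volume C) ^ (1 / 2 : ℝ) := by
  have h := ENNReal.lintegral_mul_le_Lp_mul_Lq (volume.restrict C) Real.HolderConjugate.two_two
    hf.enorm (aemeasurable_const (b := (1 : ℝ≥0∞)))
  simpa [Q] using h

private theorem l1_lim {g : ℕ → C2 → H} (hg : ∀ n, Integrable (g n))
    (hc : ∀ ε : ℝ≥0∞, 0 < ε → ∃ N, ∀ m ≥ N, ∀ n ≥ N, ∫⁻ z, ‖g m z - g n z‖ₑ < ε) :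
    ∃ w : C2 → H, Integrable w ∧ Tendsto (fun n => ∫⁻ z, ‖g n z - w z‖ₑ) atTop (𝓝 0) := by
  have hC : CauchySeq (fun n => (hg n).toL1 (g n)) := by
    rw [EMetric.cauchySeq_iff]
    intro ε hε
    obtain ⟨N, hN⟩ := hc ε hε
    refine ⟨N, fun m hm n hn => ?_⟩
    rw [Integrable.edist_toL1_toL1]
    simpa [edist_eq_enorm_sub] using hN m hm n hn
  obtain ⟨W, hW⟩ := cauchySeq_tendsto_of_complete hC
  refine ⟨W, L1.integrable_coeFn W, ?_⟩
  rw [EMetric.tendsto_nhds] at hW
  rw [ENNReal.tendsto_nhds_zero]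
  intro ε hε
  filter_upwards [hW ε hε] with n hn
  rw [← Integrable.toL1_coeFn W (L1.integrable_coeFn W), Integrable.edist_toL1_toL1] at hn
  simpa [edist_eq_enorm_sub] using hn.le

private theorem k_fd {k : C2 → ℝ} (hk : ContDiff ℝ ∞ k) (e : C2) :
    ContDiff ℝ ∞ (fun y => fderiv ℝ k y e) :=
  (hk.fderiv_right (m := ∞) (by norm_cast)).clm_apply contDiff_const

private theorem k_cpt {k : C2 → ℝ} (hk : HasCompactSupport k) (e : C2) :
    HasCompactSupport (fun y => fderiv ℝ k y e) :=
  (hk.fderiv ℝ).comp_left (g := fun T : C2 →L[ℝ] ℝ => T e) (by simp)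

private theorem k_bd {k : C2 → ℝ} (hk : Continuous k) (hkc : HasCompactSupport k) :
    ∃ M : ℝ≥0, ∀ y, ‖k y‖ₑ ≤ M := by
  obtain ⟨C, hC⟩ := hkc.exists_bound_of_continuous hk
  refine ⟨C.toNNReal, fun y => ?_⟩
  rw [← ofReal_norm_eq_enorm]
  exact ENNReal.ofReal_le_ofReal (hC y)

/-- second derivatives of mollifications converge -/
private theorem hess_lim {k : C2 → ℝ} (hk : ContDiff ℝ ∞ k) (hkc : HasCompactSupport k)
    {g : ℕ → C2 → H} {w : C2 → H} (hg : ∀ n, Integrable (g n)) (hw : Integrable w)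
    (hl : Tendsto (fun n => ∫⁻ z, ‖g n z - w z‖ₑ) atTop (𝓝 0)) (a c : Fin 2) (x : C2) :
    Tendsto (fun n => dbV (fun y => ddV (cv k (g n)) a y) c x) atTop
      (𝓝 (dbV (fun y => ddV (cv k w) a y) c x)) := by
  have h2 : ∀ (f : C2 → H), Integrable f → ContDiffAt ℝ 2 (cv k f) x := fun f hf =>
    (cv_smooth hk hkc hf.locallyIntegrable).contDiffAt.of_le (by norm_cast)
  have k1 : ContDiff ℝ 1 k := hk.of_le (by norm_cast)
  have hD : ∀ (f : C2 → H), Integrable f → ∀ e e' : C2,
      fderiv ℝ (fderiv ℝ (cv k f)) x e e' =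
        cv (fun y => fderiv ℝ (fun z => fderiv ℝ k z e') y e) f x := by
    intro f hf e e'
    have e1 : fderiv ℝ (fderiv ℝ (cv k f)) x e e' =
        fderiv ℝ (fun p => fderiv ℝ (cv k f) p e') x e := by
      rw [(pl_D2 (h2 f hf) e').fderiv]
      rfl
    have e2 : (fun p => fderiv ℝ (cv k f) p e') = cv (fun y => fderiv ℝ k y e') f := by
      funext p
      exact cv_left k1 hkc hf.locallyIntegrable e' p
    rw [e1, e2, cv_left ((k_fd hk e').of_le (by norm_cast)) (k_cpt hkc e') hf.locallyIntegrable]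
  have hT : ∀ e e' : C2, Tendsto (fun n => fderiv ℝ (fderiv ℝ (cv k (g n))) x e e') atTop
      (𝓝 (fderiv ℝ (fderiv ℝ (cv k w)) x e e')) := by
    intro e e'
    have kc : Continuous (fun y => fderiv ℝ (fun z => fderiv ℝ k z e') y e) :=
      (k_fd (k_fd hk e') e).continuous
    have kk := k_cpt (k_cpt hkc e') e
    obtain ⟨M, hM⟩ := k_bd kc kk
    rw [tendsto_iff_edist_tendsto_0]
    have hb : Tendsto (fun n => (M : ℝ≥0∞) * ∫⁻ z, ‖g n z - w z‖ₑ) atTop (𝓝 0) := by
      have := ENNReal.Tendsto.const_mul (a := (M : ℝ≥0∞)) hl (Or.inr ENNReal.coe_ne_top)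
      simpa using this
    refine tendsto_of_tendsto_of_tendsto_of_le_of_le tendsto_const_nhds hb
      (fun _ => zero_le) fun n => ?_
    rw [edist_eq_enorm_sub, hD _ (hg n), hD _ hw]
    exact cv_bd hM kc kk (hg n) hw x
  simp only [pl_exp (h2 _ (hg _)), pl_exp (h2 w hw)]
  exact ((((hT _ _).sub ((hT _ _).const_smul _)).const_smul _).add
    ((((hT _ _).sub ((hT _ _).const_smul _)).const_smul _).const_smul _)).const_smul _

private theorem hess_congr {f g : C2 → H} {z : C2} (h : f =ᶠ[𝓝 z] g) (a c : Fin 2) :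
    dbV (fun y => ddV f a y) c z = dbV (fun y => ddV g a y) c z := by
  have h1 : (fun y => ddV f a y) =ᶠ[𝓝 z] (fun y => ddV g a y) := by
    filter_upwards [h.fderiv (𝕜 := ℝ)] with y hy
    simp only [ddV, hy]
  unfold dbV
  rw [h1.fderiv_eq]

private theorem en_add (a b : H) : ‖a + b‖ₑ ^ 2 ≤ 2 * (‖a‖ₑ ^ 2 + ‖b‖ₑ ^ 2) := by
  have h : ‖a + b‖₊ ^ 2 ≤ 2 * (‖a‖₊ ^ 2 + ‖b‖₊ ^ 2) := by
    rw [← NNReal.coe_le_coe]
    push_cast
    have := norm_add_le a b
    nlinarith [sq_nonneg (‖a‖ - ‖b‖), norm_nonneg (a + b)]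
  simp only [enorm_eq_nnnorm]
  exact_mod_cast h

private theorem Q_mono {C D : Set C2} (h : C ⊆ D) (f : C2 → H) : Q C f ≤ Q D f :=
  lintegral_mono_set h

private theorem Q_congr {C : Set C2} (hC : MeasurableSet C) {f g : C2 → H}
    (h : ∀ z ∈ C, f z = g z) : Q C f = Q C g :=
  setLIntegral_congr_fun hC fun z hz => by simp only [h z hz]

private theorem Q_add {C : Set C2} {f g : C2 → H}
    (hg : AEStronglyMeasurable g (volume.restrict C)) :
    Q C (fun z => f z + g z) ≤ 2 * (Q C f + Q C g) := by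
  unfold Q
  rw [← lintegral_add_right' _ (hg.enorm.pow_const 2), ← lintegral_const_mul' _ _ (by simp)]
  exact lintegral_mono fun z => en_add _ _

private theorem half_tendsto {ι : Type} {l : Filter ι} {F : ι → ℝ≥0∞} (hF : Tendsto F l (𝓝 0))
    {V : ℝ≥0∞} (hV : V ≠ ⊤) :
    Tendsto (fun i => F i ^ (1 / 2 : ℝ) * V ^ (1 / 2 : ℝ)) l (𝓝 0) := by
  have h1 := hF.ennrpow_const (1 / 2 : ℝ)
  rw [ENNReal.zero_rpow_of_pos (by norm_num)] at h1
  have h2 := ENNReal.Tendsto.mul_const (b := V ^ (1 / 2 : ℝ)) h1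
    (Or.inr (ENNReal.rpow_ne_top_of_nonneg (by norm_num) hV))
  simpa using h2

end aux

/-- the Laplacian in complex notation -/
theorem lap_eq {Ω : Set C2} (hΩ : IsOpen Ω) {u : C2 → H} (hu : ContDiffOn ℝ ∞ u Ω) {z : C2}
    (hz : z ∈ Ω) : ∑ i, LN.dr i (LN.dr i u) z = (4 : ℂ) • ∑ a, dbV (fun y => ddV u a y) a z := by
  have h2 : ContDiffAt ℝ 2 u z := (hu.contDiffAt (hΩ.mem_nhds hz)).of_le (by norm_cast)
  have hd : ∀ i, LN.dr i (LN.dr i u) z = fderiv ℝ (fderiv ℝ u) z (LN.bs i) (LN.bs i) := by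
    intro i
    have : LN.dr i (LN.dr i u) z = fderiv ℝ (fun p => fderiv ℝ u p (LN.bs i)) z (LN.bs i) := rfl
    rw [this, (pl_D2 h2 (LN.bs i)).fderiv]
    rfl
  have hs : IsSymmSndFDerivAt ℝ u z := h2.isSymmSndFDerivAt (by simp)
  simp only [hd, pl_exp h2]
  rw [Fin.sum_univ_four, Fin.sum_univ_two]
  have e0 := hs.eq (Pi.single 0 1 : C2) (Pi.single 0 Complex.I)
  have e1 := hs.eq (Pi.single 1 1 : C2) (Pi.single 1 Complex.I)
  rw [e0, e1]
  have hb : (LN.bs 0 = Pi.single 0 1) ∧ (LN.bs 1 = Pi.single 0 Complex.I) ∧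
    (LN.bs 2 = Pi.single 1 1) ∧ (LN.bs 3 = Pi.single 1 Complex.I) := ⟨rfl, rfl, rfl, rfl⟩
  rw [hb.1, hb.2.1, hb.2.2.1, hb.2.2.2]
  generalize fderiv ℝ (fderiv ℝ u) z = B
  have hI : ∀ x : H, Complex.I • Complex.I • x = -x := by
    intro x
    rw [smul_smul, Complex.I_mul_I, neg_one_smul]
  match_scalars <;> ring_nf <;> simp [Complex.I_sq] <;> ring_nf

theorem loc_reg {ζ : C2} {r : ℝ} (hr : 0 < r) {u : ℕ → C2 → H}
    (hs : ∀ n, ContDiffOn ℝ ∞ (u n) (Metric.ball ζ r))
    (hd : ∀ a c, Tendsto (fun n => Q (Metric.ball ζ r) (fun z => dbV (fun y => ddV (u n) a y) c z))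
      atTop (𝓝 0))
    (hC : ∀ ε : ℝ≥0∞, 0 < ε → ∃ N, ∀ m ≥ N, ∀ n ≥ N,
      Q (Metric.ball ζ r) (fun z => u m z - u n z) ≤ ε) :
    ∃ v : C2 → H, ContDiff ℝ ∞ v ∧
      (∀ z ∈ Metric.ball ζ (r / 4), ∀ a c, dbV (fun y => ddV v a y) c z = 0) ∧
      Tendsto (fun n => Q (Metric.ball ζ (r / 4)) (fun z => u n z - v z)) atTop (𝓝 0) := by
  obtain ⟨ρ, σ, hR⟩ := exists_rm
  obtain ⟨C, hCe⟩ := rm_est hR
  obtain ⟨t, rfl⟩ : ∃ t, r = 4 * t := ⟨r / 4, by ring⟩
  have ht : 0 < t := by linarith
  have e4 : 4 * t / 4 = t := by ring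
  rw [e4]
  -- the scaled mollifier
  let k : C2 → ℝ := fun y => (t ^ 4)⁻¹ * ρ (t⁻¹ • y)
  have hk : ContDiff ℝ ∞ k := contDiff_const.mul (hR.rs.comp (contDiff_const_smul _))
  have hk0 : ∀ y, t ≤ ‖y‖ → k y = 0 := by
    intro y hy
    have : ρ (t⁻¹ • y) = 0 := by
      apply hR.rc
      rw [norm_smul, norm_inv, Real.norm_of_nonneg ht.le, ← div_eq_inv_mul, one_le_div ht]
      exact hy
    simp [k, this]
  have hkc : HasCompactSupport k := by
    refine HasCompactSupport.intro (isCompact_closedBall (0 : C2) t) fun y hy => hk0 y ?_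
    rw [mem_closedBall_zero_iff, not_le] at hy
    exact hy.le
  obtain ⟨M, hM⟩ := k_bd hk.continuous hkc
  -- the cutoff
  let χ : ContDiffBump ζ := ⟨2 * t, 3 * t, by linarith, by linarith⟩
  have hχo : ∀ z, z ∉ Metric.ball ζ (4 * t) → z ∉ tsupport χ := by
    intro z hz
    rw [χ.tsupport_eq]
    intro h
    apply hz
    rw [Metric.mem_closedBall] at h
    rw [Metric.mem_ball]
    have : χ.rOut = 3 * t := rfl
    linarith
  let g : ℕ → C2 → H := fun n z => χ z • u n z
  have hgs : ∀ n, ContDiff ℝ ∞ (g n) := by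
    intro n
    rw [contDiff_iff_contDiffAt]
    intro z
    by_cases hz : z ∈ Metric.ball ζ (4 * t)
    · exact χ.contDiff.contDiffAt.smul ((hs n).contDiffAt (Metric.isOpen_ball.mem_nhds hz))
    · refine (contDiffAt_const (c := (0 : H))).congr_of_eventuallyEq ?_
      filter_upwards [(isClosed_tsupport χ).isOpen_compl.mem_nhds (hχo z hz)] with y hy
      have : χ y = 0 := image_eq_zero_of_notMem_tsupport hy
      simp [g, this]
  have hgc : ∀ n, HasCompactSupport (g n) := fun n => χ.hasCompactSupport.smul_right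
  have hgu : ∀ n, ∀ z ∈ Metric.ball ζ (2 * t), g n z = u n z := by
    intro n z hz
    have : χ z = 1 := χ.one_of_mem_closedBall (Metric.ball_subset_closedBall hz)
    simp [g, this]
  have hgi : ∀ n, Integrable (g n) := fun n =>
    (hgs n).continuous.integrable_of_hasCompactSupport (hgc n)
  -- the limit
  have hV : ∀ s : ℝ, volume (Metric.ball ζ s) ≠ ⊤ := fun s => measure_ball_lt_top.ne
  have hcau : ∀ ε : ℝ≥0∞, 0 < ε → ∃ N, ∀ m ≥ N, ∀ n ≥ N, ∫⁻ z, ‖g m z - g n z‖ₑ < ε := by
    have hT : Tendsto (fun p : ℕ × ℕ => Q (Metric.ball ζ (4 * t)) (fun z => u p.1 z - u p.2 z))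
        atTop (𝓝 0) := by
      rw [ENNReal.tendsto_nhds_zero]
      intro ε hε
      obtain ⟨N, hN⟩ := hC ε hε
      rw [eventually_atTop]
      exact ⟨(N, N), fun p hp => hN p.1 hp.1 p.2 hp.2⟩
    intro ε hε
    have h := (tendsto_order.1 (half_tendsto hT (hV (4 * t)))).2 ε hε
    rw [eventually_atTop] at h
    obtain ⟨p, hp⟩ := h
    refine ⟨max p.1 p.2, fun m hm n hn => ?_⟩
    refine lt_of_le_of_lt ?_ (hp (m, n) ⟨le_trans (le_max_left _ _) hm,
      le_trans (le_max_right _ _) hn⟩)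
    refine le_trans ?_ (l1_le ?_)
    · rw [← lintegral_indicator measurableSet_ball]
      refine lintegral_mono fun z => ?_
      by_cases hz : z ∈ Metric.ball ζ (4 * t)
      · rw [Set.indicator_of_mem hz]
        change ‖χ z • u m z - χ z • u n z‖ₑ ≤ _
        rw [← smul_sub, enorm_smul]
        refine mul_le_of_le_one_left (zero_le) ?_
        rw [← ofReal_norm_eq_enorm, Real.norm_of_nonneg χ.nonneg, ENNReal.ofReal_le_one]
        exact χ.le_one
      · have : χ z = 0 := image_eq_zero_of_notMem_tsupport (hχo z hz)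
        simp [g, this]
    · exact (((hs m).continuousOn).sub ((hs n).continuousOn)).aestronglyMeasurable
        measurableSet_ball
  obtain ⟨w, hw, hl⟩ := l1_lim hgi hcau
  refine ⟨cv k w, cv_smooth hk hkc hw.locallyIntegrable, ?_, ?_⟩
  · -- the hessian of the limit
    intro z hz a c
    refine tendsto_nhds_unique (hess_lim hk hkc hgi hw hl a c z) ?_
    rw [tendsto_iff_edist_tendsto_0]
    have hb := ENNReal.Tendsto.const_mul (a := (M : ℝ≥0∞)) (half_tendsto (hd a c) (hV (2 * t)))
      (Or.inr ENNReal.coe_ne_top)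
    rw [mul_zero] at hb
    refine tendsto_of_tendsto_of_tendsto_of_le_of_le tendsto_const_nhds hb
      (fun _ => zero_le) fun n => ?_
    rw [edist_zero_right, cv_hess hk.continuous (hgs n) (hgc n)]
    refine (cv_small hM hk0 _ hz).trans ?_
    gcongr
    refine (l1_le (dbV_smooth (ddV_smooth (hgs n) a) c).continuous.aestronglyMeasurable).trans ?_
    gcongr
    rw [Q_congr measurableSet_ball (g := fun z => dbV (fun y => ddV (u n) a y) c z)]
    · exact Q_mono (Metric.ball_subset_ball (by linarith)) _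
    · intro y hy
      refine hess_congr ?_ a c
      filter_upwards [Metric.isOpen_ball.mem_nhds hy] with x hx
      exact hgu n x hx
  · -- convergence
    have hm : ∀ n, ∀ x ∈ Metric.ball ζ t, ∫ y, ρ y • u n (x - t • y) = cv k (g n) x := by
      intro n x hx
      have e1 : ∫ y, ρ y • u n (x - t • y) = ∫ y, ρ y • g n (x - t • y) := by
        refine integral_congr_ae (Eventually.of_forall fun y => ?_)
        by_cases hy : 1 ≤ ‖y‖
        · simp [hR.rc y hy]
        · push Not at hy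
          have : x - t • y ∈ Metric.ball ζ (2 * t) := by
            rw [mem_ball_iff_norm] at hx ⊢
            have h1 : ‖x - t • y - ζ‖ ≤ ‖x - ζ‖ + ‖t • y‖ := by
              rw [show x - t • y - ζ = (x - ζ) - t • y by abel]
              exact norm_sub_le _ _
            rw [norm_smul, Real.norm_of_nonneg ht.le] at h1
            nlinarith
          simp only [hgu n _ this]
      rw [e1]
      have h := Measure.integral_comp_smul (volume : Measure C2)
        (fun y => ρ y • g n (x - t • y)) t⁻¹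
      have hfr : Module.finrank ℝ C2 = 4 := by
        rw [Module.finrank_pi_fintype]
        simp [Complex.finrank_real_complex]
      rw [hfr] at h
      unfold cv
      have e2 : ∫ y, k y • g n (x - y) =
          (t ^ 4)⁻¹ • ∫ y, ρ (t⁻¹ • y) • g n (x - t • t⁻¹ • y) := by
        rw [← integral_smul]
        refine integral_congr_ae (Eventually.of_forall fun y => ?_)
        simp only [k, smul_smul, mul_inv_cancel₀ ht.ne', one_smul]
      rw [e2, h, smul_smul, inv_pow, inv_inv, abs_of_pos (by positivity),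
        inv_mul_cancel₀ (by positivity), one_smul]
    have hq : ∀ n, Q (Metric.ball ζ t) (fun z => u n z - cv k w z) ≤
        2 * (C * ENNReal.ofReal (t ^ 4) * (32 *
          (Q (Metric.ball ζ (4 * t)) (fun z => dbV (fun y => ddV (u n) 0 y) 0 z) +
          Q (Metric.ball ζ (4 * t)) (fun z => dbV (fun y => ddV (u n) 1 y) 1 z))) +
          (M * ∫⁻ z, ‖g n z - w z‖ₑ) ^ 2 * volume (Metric.ball ζ t)) := by
      intro n
      have e1 : Q (Metric.ball ζ t) (fun z => u n z - cv k w z) =
          Q (Metric.ball ζ t) (fun z => (u n z - ∫ y, ρ y • u n (z - t • y)) +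
            (cv k (g n) z - cv k w z)) := by
        refine Q_congr measurableSet_ball fun z hz => ?_
        rw [hm n z hz]
        abel
      rw [e1]
      refine (Q_add (((cv_smooth hk hkc (hgi n).locallyIntegrable).continuous.sub
        (cv_smooth hk hkc hw.locallyIntegrable).continuous).aestronglyMeasurable)).trans ?_
      gcongr
      · have h := hCe H (u n) ζ (2 * t) t ht (by linarith)
          ((hs n).mono (Metric.ball_subset_ball (by linarith)))
        rw [show 2 * t - t = t by ring] at h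
        refine h.trans ?_
        gcongr
        have hsub : Metric.ball ζ (2 * t) ⊆ Metric.ball ζ (4 * t) :=
          Metric.ball_subset_ball (by linarith)
        have e2 : Q (Metric.ball ζ (2 * t)) (fun x => ∑ i, LN.dr i (LN.dr i (u n)) x) =
            Q (Metric.ball ζ (2 * t)) (fun x => (4 : ℂ) •
              (dbV (fun y => ddV (u n) 0 y) 0 x + dbV (fun y => ddV (u n) 1 y) 1 x)) := by
          refine Q_congr measurableSet_ball fun z hz => ?_
          rw [lap_eq Metric.isOpen_ball (hs n) (hsub hz), Fin.sum_univ_two]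
        rw [e2]
        have e3 : Q (Metric.ball ζ (2 * t)) (fun x => (4 : ℂ) •
              (dbV (fun y => ddV (u n) 0 y) 0 x + dbV (fun y => ddV (u n) 1 y) 1 x)) =
            16 * Q (Metric.ball ζ (2 * t)) (fun x =>
              (dbV (fun y => ddV (u n) 0 y) 0 x + dbV (fun y => ddV (u n) 1 y) 1 x)) := by
          unfold Q
          rw [← lintegral_const_mul' _ _ (by simp)]
          refine lintegral_congr fun z => ?_
          rw [enorm_smul, mul_pow]
          congr 1
          rw [← ofReal_norm_eq_enorm]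
          norm_num
        rw [e3]
        have e4 : AEStronglyMeasurable (fun x => dbV (fun y => ddV (u n) 1 y) 1 x)
            (volume.restrict (Metric.ball ζ (2 * t))) := by
          have h1 : AEStronglyMeasurable (dbV (ddV (g n) 1) 1)
              (volume.restrict (Metric.ball ζ (2 * t))) :=
            (dbV_smooth (ddV_smooth (hgs n) 1) 1).continuous.aestronglyMeasurable
          refine h1.congr ?_
          rw [Filter.EventuallyEq, ae_restrict_iff' measurableSet_ball]
          refine Eventually.of_forall fun y hy => ?_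
          refine hess_congr ?_ 1 1
          filter_upwards [Metric.isOpen_ball.mem_nhds hy] with x hx
          exact hgu n x hx
        calc 16 * Q (Metric.ball ζ (2 * t)) (fun x =>
              (dbV (fun y => ddV (u n) 0 y) 0 x + dbV (fun y => ddV (u n) 1 y) 1 x)) ≤
            16 * (2 * (Q (Metric.ball ζ (2 * t)) (fun x => dbV (fun y => ddV (u n) 0 y) 0 x) +
              Q (Metric.ball ζ (2 * t)) (fun x => dbV (fun y => ddV (u n) 1 y) 1 x))) := by
              gcongr
              exact Q_add e4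
          _ = 32 * (Q (Metric.ball ζ (2 * t)) (fun x => dbV (fun y => ddV (u n) 0 y) 0 x) +
              Q (Metric.ball ζ (2 * t)) (fun x => dbV (fun y => ddV (u n) 1 y) 1 x)) := by
              rw [← mul_assoc]
              norm_num
          _ ≤ _ := by
              gcongr
              · exact Q_mono hsub _
              · exact Q_mono hsub _
      · unfold Q
        calc ∫⁻ z in Metric.ball ζ t, ‖cv k (g n) z - cv k w z‖ₑ ^ 2 ≤
            ∫⁻ z in Metric.ball ζ t, (M * ∫⁻ z, ‖g n z - w z‖ₑ) ^ 2 := by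
              refine lintegral_mono fun z => ?_
              gcongr
              exact cv_bd hM hk.continuous hkc (hgi n) hw z
          _ = _ := by rw [setLIntegral_const]
    refine tendsto_of_tendsto_of_tendsto_of_le_of_le tendsto_const_nhds ?_
      (fun _ => zero_le) hq
    have a1 := ENNReal.Tendsto.const_mul (a := (32 : ℝ≥0∞)) ((hd 0 0).add (hd 1 1))
      (Or.inr (by simp))
    have a2 := ENNReal.Tendsto.const_mul (a := C * ENNReal.ofReal (t ^ 4)) a1
      (Or.inr (ENNReal.mul_ne_top ENNReal.coe_ne_top ENNReal.ofReal_ne_top))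
    have a3 := ENNReal.Tendsto.const_mul (a := (M : ℝ≥0∞)) hl (Or.inr ENNReal.coe_ne_top)
    have a4 := ENNReal.Tendsto.mul_const (b := volume (Metric.ball ζ t))
      (ENNReal.Tendsto.pow (n := 2) a3) (Or.inr (hV t))
    have a5 := ENNReal.Tendsto.const_mul (a := (2 : ℝ≥0∞)) (a2.add a4) (Or.inr (by simp))
    simpa using a5

end Pool.Agent.MPd01a95.LP
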