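import Mathlib
import Pool.Agent.Lib.MP_d01a95_gt_S.Vcalc
import Pool.Agent.Lib.MP_d01a95_gt_S.Vlaw
import Pool.Agent.Lib.MP_d01a95_gt_S.Vcht
import Pool.Agent.Lib.MP_d01a95_gt_L.LDefs
import Pool.Agent.Lib.MP_d01a95_gt_L.LBas
import Pool.Agent.Lib.MP_d01a95_gt_L.PDefs
import Pool.Agent.Lib.MP_d01a95_gt_L.PMol
import Pool.Agent.Lib.MP_d01a95_gt_L.PLoc
import Pool.Agent.Lib.MP_d01a95_gt_L.PCht

/-!
# Module PGlue: the limit of a sequence of almost pluriharmonic maps on the surface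
-/

set_option autoImplicit false
set_option linter.all false

open MeasureTheory Filter Topology
open scoped ContDiff InnerProductSpace ENNReal NNReal

namespace Pool.Agent.MPd01a95.LP

variable {H : Type} [NormedAddCommGroup H] [InnerProductSpace ℂ H] [CompleteSpace H]

private theorem up_open : IsOpen Up := by
  have h : Continuous fun x : C2 => (x 1).im := Complex.continuous_im.comp (continuous_apply 1)
  exact isOpen_lt continuous_const h

private theorem sq4 (a b : ℝ≥0∞) : (a + b) ^ 2 ≤ 4 * a ^ 2 + 4 * b ^ 2 := by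
  rcases le_total a b with h | h
  · calc (a + b) ^ 2 ≤ (b + b) ^ 2 := by gcongr
      _ = 4 * b ^ 2 := by ring
      _ ≤ 4 * a ^ 2 + 4 * b ^ 2 := le_add_self
  · calc (a + b) ^ 2 ≤ (a + a) ^ 2 := by gcongr
      _ = 4 * a ^ 2 := by ring
      _ ≤ 4 * a ^ 2 + 4 * b ^ 2 := le_self_add

/-- the triangle inequality for the square integral -/
private theorem Q_tri {F : Type*} [NormedAddCommGroup F] {C : Set C2} {f g k : C2 → F}
    (hC : MeasurableSet C) (hm : AEMeasurable (fun z => ‖f z‖ₑ) (volume.restrict C))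
    (h : ∀ z ∈ C, ‖k z‖ₑ ≤ ‖f z‖ₑ + ‖g z‖ₑ) :
    Q C k ≤ 4 * Q C f + 4 * Q C g := by
  unfold Q
  calc ∫⁻ z in C, ‖k z‖ₑ ^ 2 ≤ ∫⁻ z in C, (4 * ‖f z‖ₑ ^ 2 + 4 * ‖g z‖ₑ ^ 2) := by
        refine setLIntegral_mono' hC fun z hz => ?_
        exact (pow_le_pow_left' (h z hz) 2).trans (sq4 _ _)
    _ = (∫⁻ z in C, 4 * ‖f z‖ₑ ^ 2) + ∫⁻ z in C, 4 * ‖g z‖ₑ ^ 2 :=
        lintegral_add_left' ((hm.pow_const 2).const_mul 4) _
    _ = 4 * (∫⁻ z in C, ‖f z‖ₑ ^ 2) + 4 * ∫⁻ z in C, ‖g z‖ₑ ^ 2 := by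
        rw [lintegral_const_mul' _ _ (by norm_num), lintegral_const_mul' _ _ (by norm_num)]

/-- vanishing square integral of a continuous function on an open set -/
private theorem Q_zero {F : Type*} [NormedAddCommGroup F] {O : Set C2} {f g : C2 → F}
    (hO : IsOpen O) (hf : ContinuousOn f O) (hg : ContinuousOn g O)
    (h : Q O (fun z => f z - g z) = 0) : Set.EqOn f g O := by
  unfold Q at h
  have hm : AEMeasurable (fun z => ‖f z - g z‖ₑ ^ 2) (volume.restrict O) :=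
    (((hf.sub hg).aestronglyMeasurable hO.measurableSet).enorm).pow_const 2
  have h1 := (lintegral_eq_zero_iff' hm).1 h
  refine Measure.eqOn_open_of_ae_eq (μ := volume) ?_ hO hf hg
  filter_upwards [h1] with z hz
  have h2 : ‖f z - g z‖ₑ ^ 2 = 0 := hz
  have h3 : ‖f z - g z‖ₑ = 0 := by simpa using h2
  exact sub_eq_zero.1 (enorm_eq_zero.1 h3)

private theorem HV_cont {A : C2 → ℂ} (hA : BA Up A) {f : C2 → H} (hf : ContDiffOn ℝ ∞ f Up)
    (a c : Fin 2) : ContinuousOn (fun z => HV A a c f z) Up := by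
  have h1 := (WV_contDiffOn up_open hA.sm hf (m := ∞) (k := ∞) (by simp) le_rfl a).2
  have h1' := (WV_contDiffOn up_open hA.sm hf (m := ∞) (k := ∞) (by simp) le_rfl 1).2
  have h2 := (WV_contDiffOn up_open hA.sm h1 (m := ∞) (k := ∞) (by simp) le_rfl c).1
  have h3 : ContinuousOn (fun z => Ga A c a z) Up := by
    unfold Ga
    split_ifs
    · have h4 : ContinuousOn (fderiv ℝ A) Up :=
        hA.sm.continuousOn_fderiv_of_isOpen up_open (by simp)
      have h5 : ∀ v : C2, ContinuousOn (fun y => fderiv ℝ A y v) Up := fun v =>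
        h4.clm_apply continuousOn_const
      unfold dd
      exact continuousOn_const.mul ((h5 _).sub (continuousOn_const.mul (h5 _)))
    · exact continuousOn_const
  unfold HV
  exact h2.continuousOn.add (h3.smul h1'.continuousOn)

/-- the limit in a neighbourhood of a point -/
theorem glue_loc {A : C2 → ℂ} (hA : BA Up A) {u : ℕ → C2 → H}
    (hs : ∀ n, ContDiffOn ℝ ∞ (u n) Up)
    (hd : ∀ C ⊆ Up, IsCompact C → ∀ a c, Tendsto (fun n => Q C (fun z => HV A a c (u n) z))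
      atTop (𝓝 0))
    (hC : ∀ C ⊆ Up, IsCompact C → ∀ ε : ℝ≥0∞, 0 < ε → ∃ N, ∀ m ≥ N, ∀ n ≥ N,
      Q C (fun z => u m z - u n z) ≤ ε) {x : C2} (hx : x ∈ Up) :
    ∃ v : C2 → H, ∃ N : Set C2, IsOpen N ∧ x ∈ N ∧ N ⊆ Up ∧ ContDiffOn ℝ ∞ v N ∧
      (∀ y ∈ N, ∀ a c, HV A a c v y = 0) ∧
      Tendsto (fun n => Q N (fun z => u n z - v z)) atTop (𝓝 0) := by
  obtain ⟨ζ, r, Ψ, h, hx0⟩ := exists_cht hA x hx
  obtain ⟨hop, Φ, hΦs, hΦi, hΦh⟩ := cht_inv h
  have hr := h.rpos
  have hs2 : 0 < r / 2 := by positivity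
  have hs2' : r / 2 < r := by linarith
  obtain ⟨C1, hC1⟩ := chart_back hA h hs2 hs2'
  obtain ⟨C2', K, hK, hKc, hC2⟩ := chart_int h hs2 hs2'
  have hws : ∀ n, ContDiffOn ℝ ∞ (fun z => u n (Ψ z)) (Metric.ball ζ (r / 2)) := fun n =>
    (((hs n).comp h.sm h.maps)).mono (Metric.ball_subset_ball hs2'.le)
  have hwd : ∀ a c, Tendsto (fun n => Q (Metric.ball ζ (r / 2))
      (fun z => dbV (fun y => ddV (fun z => u n (Ψ z)) a y) c z)) atTop (𝓝 0) := by
    intro a c
    have hb : ∀ n, Q (Metric.ball ζ (r / 2))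
        (fun z => dbV (fun y => ddV (fun z => u n (Ψ z)) a y) c z) ≤
        C2' * ((C1 : ℝ≥0∞) ^ 2 * ∑ a', ∑ c', 16 * Q K (fun z => HV A a' c' (u n) z)) := by
      intro n
      have h1 : Q (Metric.ball ζ (r / 2))
          (fun z => dbV (fun y => ddV (fun z => u n (Ψ z)) a y) c z) ≤
          ∫⁻ z in Metric.ball ζ (r / 2), (fun y => (C1 : ℝ≥0∞) ^ 2 *
            ∑ a', ∑ c', 16 * ‖HV A a' c' (u n) y‖ₑ ^ 2) (Ψ z) := by
        unfold Q
        refine setLIntegral_mono' measurableSet_ball fun z hz => ?_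
        have h2 := hC1 H (u n) (hs n) z hz a c
        have h3 : ‖dbV (fun y => ddV (fun z => u n (Ψ z)) a y) c z‖ₑ ≤
            (C1 : ℝ≥0∞) * ∑ a', ∑ c', ‖HV A a' c' (u n) (Ψ z)‖ₑ := by
          rw [← ofReal_norm]
          refine (ENNReal.ofReal_le_ofReal h2).trans ?_
          rw [ENNReal.ofReal_mul (NNReal.coe_nonneg _), ENNReal.ofReal_coe_nnreal]
          gcongr
          rw [ENNReal.ofReal_sum_of_nonneg (fun _ _ => Finset.sum_nonneg fun _ _ => norm_nonneg _)]
          refine Finset.sum_le_sum fun a' _ => ?_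
          rw [ENNReal.ofReal_sum_of_nonneg (fun _ _ => norm_nonneg _)]
          refine Finset.sum_le_sum fun c' _ => ?_
          rw [ofReal_norm]
        refine (pow_le_pow_left' h3 2).trans ?_
        rw [mul_pow]
        change _ ≤ (C1 : ℝ≥0∞) ^ 2 * ∑ a', ∑ c', 16 * ‖HV A a' c' (u n) (Ψ z)‖ₑ ^ 2
        gcongr
        simp only [Fin.sum_univ_two]
        generalize ‖HV A 0 0 (u n) (Ψ z)‖ₑ = p
        generalize ‖HV A 0 1 (u n) (Ψ z)‖ₑ = q
        generalize ‖HV A 1 0 (u n) (Ψ z)‖ₑ = p'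
        generalize ‖HV A 1 1 (u n) (Ψ z)‖ₑ = q'
        calc (p + q + (p' + q')) ^ 2 ≤ 4 * (p + q) ^ 2 + 4 * (p' + q') ^ 2 := sq4 _ _
          _ ≤ 4 * (4 * p ^ 2 + 4 * q ^ 2) + 4 * (4 * p' ^ 2 + 4 * q' ^ 2) := by
              gcongr <;> exact sq4 _ _
          _ = 16 * p ^ 2 + 16 * q ^ 2 + (16 * p' ^ 2 + 16 * q' ^ 2) := by ring
      refine h1.trans ((hC2 (fun y => (C1 : ℝ≥0∞) ^ 2 *
            ∑ a', ∑ c', 16 * ‖HV A a' c' (u n) y‖ₑ ^ 2)).trans ?_)
      gcongr
      rw [lintegral_const_mul' _ _ (by simp)]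
      gcongr
      have hmz : ∀ a' c', AEMeasurable (fun y => 16 * ‖HV A a' c' (u n) y‖ₑ ^ 2)
          (volume.restrict K) := fun a' c' =>
        (((((HV_cont hA (hs n) a' c').mono hK).aestronglyMeasurable
          hKc.measurableSet).enorm).pow_const 2).const_mul 16
      rw [lintegral_finset_sum' _ (fun a' _ => Finset.aemeasurable_fun_sum _ fun c' _ => hmz a' c')]
      refine Finset.sum_le_sum fun a' _ => ?_
      rw [lintegral_finset_sum' _ (fun c' _ => hmz a' c')]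
      refine Finset.sum_le_sum fun c' _ => ?_
      rw [lintegral_const_mul' _ _ (by norm_num)]
      rfl
    have hl : Tendsto (fun n => C2' * ((C1 : ℝ≥0∞) ^ 2 *
        ∑ a', ∑ c', 16 * Q K (fun z => HV A a' c' (u n) z))) atTop
        (𝓝 (C2' * ((C1 : ℝ≥0∞) ^ 2 * ∑ a' : Fin 2, ∑ c' : Fin 2, 16 * 0))) := by
      refine ENNReal.Tendsto.const_mul ?_ (Or.inr (by simp))
      refine ENNReal.Tendsto.const_mul ?_ (Or.inr (by simp))
      refine tendsto_finset_sum _ fun a' _ => tendsto_finset_sum _ fun c' _ => ?_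
      exact ENNReal.Tendsto.const_mul (hd K hK hKc a' c') (Or.inr (by norm_num))
    simp only [mul_zero, Finset.sum_const_zero] at hl
    exact tendsto_of_tendsto_of_tendsto_of_le_of_le tendsto_const_nhds hl (fun _ => zero_le) hb
  have hwc : ∀ ε : ℝ≥0∞, 0 < ε → ∃ N, ∀ m ≥ N, ∀ n ≥ N,
      Q (Metric.ball ζ (r / 2)) (fun z => (fun z => u m (Ψ z)) z - (fun z => u n (Ψ z)) z) ≤ ε := by
    intro ε hε
    have h1 : (0 : ℝ≥0∞) < ε / (C2' + 1) := ENNReal.div_pos hε.ne' (by simp)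
    obtain ⟨N, hN⟩ := hC K hK hKc _ h1
    refine ⟨N, fun m hm n hn => ?_⟩
    have h2 := hC2 (fun y => ‖u m y - u n y‖ₑ ^ 2)
    have h3 := hN m hm n hn
    calc Q (Metric.ball ζ (r / 2)) (fun z => u m (Ψ z) - u n (Ψ z)) ≤
          C2' * Q K (fun z => u m z - u n z) := h2
      _ ≤ (C2' + 1) * (ε / (C2' + 1)) := by
          gcongr
          exact le_self_add
      _ ≤ ε := ENNReal.mul_div_le
  obtain ⟨v0, hv0s, hv0h, hv0l⟩ := loc_reg (u := fun n z => u n (Ψ z)) hs2 hws hwd hwc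
  have hs8 : 0 < r / 2 / 4 := by positivity
  have hs8' : r / 2 / 4 < r := by linarith
  obtain ⟨hNo, hvs, hvh⟩ := chart_zero hA h hs8'.le hv0s.contDiffOn hv0h hΦs hΦi hΦh
  obtain ⟨C3, hC3⟩ := chart_int' h hs8 hs8'
  refine ⟨fun y => v0 (Φ y), Ψ '' Metric.ball ζ (r / 2 / 4), hNo, ⟨ζ, Metric.mem_ball_self hs8, hx0⟩,
    ?_, hvs, hvh, ?_⟩
  · rintro _ ⟨z, hz, rfl⟩
    exact h.maps z (Metric.ball_subset_ball hs8'.le hz)
  · have hb : ∀ n, Q (Ψ '' Metric.ball ζ (r / 2 / 4)) (fun z => u n z - v0 (Φ z)) ≤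
        C3 * Q (Metric.ball ζ (r / 2 / 4)) (fun z => u n (Ψ z) - v0 z) := by
      intro n
      refine (hC3 (fun y => ‖u n y - v0 (Φ y)‖ₑ ^ 2)).trans ?_
      gcongr
      unfold Q
      refine setLIntegral_mono' measurableSet_ball fun z hz => ?_
      rw [hΦi z (Metric.ball_subset_ball hs8'.le hz)]
    have hl : Tendsto (fun n => C3 * Q (Metric.ball ζ (r / 2 / 4)) (fun z => u n (Ψ z) - v0 z))
        atTop (𝓝 (C3 * 0)) := ENNReal.Tendsto.const_mul hv0l (Or.inr (by simp))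
    rw [mul_zero] at hl
    exact tendsto_of_tendsto_of_tendsto_of_le_of_le tendsto_const_nhds hl (fun _ => zero_le) hb

/-- the global limit -/
theorem glue {A : C2 → ℂ} (hA : BA Up A) {u : ℕ → C2 → H}
    (hs : ∀ n, ContDiffOn ℝ ∞ (u n) Up)
    (hd : ∀ C ⊆ Up, IsCompact C → ∀ a c, Tendsto (fun n => Q C (fun z => HV A a c (u n) z))
      atTop (𝓝 0))
    (hC : ∀ C ⊆ Up, IsCompact C → ∀ ε : ℝ≥0∞, 0 < ε → ∃ N, ∀ m ≥ N, ∀ n ≥ N,
      Q C (fun z => u m z - u n z) ≤ ε) :
    ∃ v : C2 → H, ContDiffOn ℝ ∞ v Up ∧ (∀ x ∈ Up, ∀ a c, HV A a c v x = 0) ∧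
      ∀ C ⊆ Up, IsCompact C → Tendsto (fun n => Q C (fun z => u n z - v z)) atTop (𝓝 0) := by
  have hex : ∀ x : C2, ∃ v : C2 → H, ∃ N : Set C2, x ∈ Up → IsOpen N ∧ x ∈ N ∧ N ⊆ Up ∧
      ContDiffOn ℝ ∞ v N ∧ (∀ y ∈ N, ∀ a c, HV A a c v y = 0) ∧
      Tendsto (fun n => Q N (fun z => u n z - v z)) atTop (𝓝 0) := by
    intro x
    by_cases hx : x ∈ Up
    · obtain ⟨v, N, h⟩ := glue_loc hA hs hd hC hx
      exact ⟨v, N, fun _ => h⟩
    · exact ⟨0, ∅, fun h => absurd h hx⟩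
  choose v N hN using hex
  have hcl : ∀ x ∈ Up, ∀ y ∈ N x, v y y = v x y := by
    intro x hx y hy
    obtain ⟨hxo, hxx, hxU, hxs, hxh, hxl⟩ := hN x hx
    have hyU := hxU hy
    obtain ⟨hyo, hyy, hyU', hys, hyh, hyl⟩ := hN y hyU
    have hO : IsOpen (N x ∩ N y) := hxo.inter hyo
    have hfx : ContinuousOn (v x) (N x ∩ N y) := hxs.continuousOn.mono Set.inter_subset_left
    have hfy : ContinuousOn (v y) (N x ∩ N y) := hys.continuousOn.mono Set.inter_subset_right
    have hb : ∀ n, Q (N x ∩ N y) (fun z => v x z - v y z) ≤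
        4 * Q (N x) (fun z => u n z - v x z) + 4 * Q (N y) (fun z => u n z - v y z) := by
      intro n
      have hun : ContinuousOn (u n) (N x ∩ N y) :=
        (hs n).continuousOn.mono (Set.inter_subset_left.trans hxU)
      have h1 : Q (N x ∩ N y) (fun z => v x z - v y z) ≤
          4 * Q (N x ∩ N y) (fun z => u n z - v x z) +
            4 * Q (N x ∩ N y) (fun z => u n z - v y z) := by
        refine Q_tri hO.measurableSet ?_ ?_
        · exact ((hun.sub hfx).aestronglyMeasurable hO.measurableSet).enorm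
        · intro z _
          have e : v x z - v y z = -(u n z - v x z) + (u n z - v y z) := by abel
          rw [e]
          exact (enorm_add_le _ _).trans (by rw [enorm_neg])
      refine h1.trans ?_
      unfold Q
      gcongr
      · exact Set.inter_subset_left
      · exact Set.inter_subset_right
    have hl : Tendsto (fun n => 4 * Q (N x) (fun z => u n z - v x z) +
        4 * Q (N y) (fun z => u n z - v y z)) atTop (𝓝 (4 * 0 + 4 * 0)) :=
      (ENNReal.Tendsto.const_mul hxl (Or.inr (by norm_num))).add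
        (ENNReal.Tendsto.const_mul hyl (Or.inr (by norm_num)))
    have h0 : Q (N x ∩ N y) (fun z => v x z - v y z) ≤ 4 * 0 + 4 * 0 :=
      ge_of_tendsto' hl hb
    have h0' : Q (N x ∩ N y) (fun z => v x z - v y z) = 0 := by simpa using h0
    exact (Q_zero hO hfx hfy h0' ⟨hy, hyy⟩).symm
  have hev : ∀ x ∈ Up, (fun y => v y y) =ᶠ[𝓝 x] v x := by
    intro x hx
    filter_upwards [(hN x hx).1.mem_nhds (hN x hx).2.1] with y hy
    exact hcl x hx y hy
  refine ⟨fun y => v y y, ?_, ?_, ?_⟩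
  · intro x hx
    have h1 : ContDiffAt ℝ ∞ (v x) x :=
      (hN x hx).2.2.2.1.contDiffAt ((hN x hx).1.mem_nhds (hN x hx).2.1)
    exact (h1.congr_of_eventuallyEq (hev x hx)).contDiffWithinAt
  · intro x hx a c
    rw [HV_congr A (hev x hx)]
    exact (hN x hx).2.2.2.2.1 x (hN x hx).2.1 a c
  · intro C hCU hCc
    obtain ⟨t, ht, htc⟩ := hCc.elim_nhds_subcover (fun x => N x) fun x hx =>
      (hN x (hCU hx)).1.mem_nhds (hN x (hCU hx)).2.1
    have hb : ∀ n, Q C (fun z => u n z - v z z) ≤ ∑ x ∈ t, Q (N x) (fun z => u n z - v x z) := by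
      intro n
      have h1 : Q C (fun z => u n z - v z z) ≤ ∫⁻ z in ⋃ x ∈ t, N x, ‖u n z - v z z‖ₑ ^ 2 :=
        lintegral_mono_set htc
      have h2 : ∀ t' : Finset C2, (∀ x ∈ t', x ∈ C) →
          ∫⁻ z in ⋃ x ∈ t', N x, ‖u n z - v z z‖ₑ ^ 2 ≤
            ∑ x ∈ t', Q (N x) (fun z => u n z - v x z) := by
        classical
        intro t'
        induction t' using Finset.induction_on with
        | empty => intro _; simp
        | insert x t' hx ih =>
          intro hh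
          rw [Finset.sum_insert hx, Finset.set_biUnion_insert]
          refine (lintegral_union_le _ _ _).trans ?_
          gcongr
          · have hxC := hCU (hh x (Finset.mem_insert_self _ _))
            unfold Q
            refine setLIntegral_mono' (hN x hxC).1.measurableSet fun z hz => ?_
            rw [hcl x hxC z hz]
          · exact ih fun y hy => hh y (Finset.mem_insert_of_mem hy)
      exact h1.trans (h2 t ht)
    have hl : Tendsto (fun n => ∑ x ∈ t, Q (N x) (fun z => u n z - v x z)) atTop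
        (𝓝 (∑ x ∈ t, 0)) :=
      tendsto_finset_sum _ fun x hx => (hN x (hCU (ht x hx))).2.2.2.2.2
    rw [Finset.sum_const_zero] at hl
    exact tendsto_of_tendsto_of_tendsto_of_le_of_le tendsto_const_nhds hl (fun _ => zero_le) hb

/-- equivariance passes to the limit -/
theorem eqv_lim {u : ℕ → C2 → H} {v : C2 → H} (hs : ∀ n, ContinuousOn (u n) Up)
    (hv : ContinuousOn v Up)
    (hl : ∀ C ⊆ Up, IsCompact C → Tendsto (fun n => Q C (fun z => u n z - v z)) atTop (𝓝 0))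
    {T : C2 → C2} (hT : ContDiffOn ℝ ∞ T Up) (hm : ∀ x ∈ Up, T x ∈ Up)
    (hi : Set.InjOn T Up) (hj : ∀ x ∈ Up, (fderiv ℝ T x).det ≠ 0) (e : H ≃ₗᵢ[ℂ] H) (b : H)
    (he : ∀ n, ∀ x ∈ Up, u n (T x) = e (u n x) + b) : ∀ x ∈ Up, v (T x) = e (v x) + b := by
  intro x0 hx0
  obtain ⟨δ, hδ, hδU⟩ := Metric.nhds_basis_closedBall.mem_iff.1 (up_open.mem_nhds hx0)
  set C := Metric.closedBall x0 δ with hCdef
  have hCc : IsCompact C := isCompact_closedBall _ _
  have hCne : C.Nonempty := ⟨x0, Metric.mem_closedBall_self hδ.le⟩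
  have hTc : ContinuousOn T Up := hT.continuousOn
  have hTC : IsCompact (T '' C) := hCc.image_of_continuousOn (hTc.mono hδU)
  have hTCU : T '' C ⊆ Up := by
    rintro _ ⟨y, hy, rfl⟩
    exact hm y (hδU hy)
  have hfd : ContinuousOn (fderiv ℝ T) Up := hT.continuousOn_fderiv_of_isOpen up_open (by simp)
  have hdet : ContinuousOn (fun x => |(fderiv ℝ T x).det|) Up := by
    have h1 : Continuous fun L : C2 →L[ℝ] C2 => L.det := ContinuousLinearMap.continuous_det
    exact (h1.comp_continuousOn hfd).abs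
  obtain ⟨xm, hxm, hmin⟩ := hCc.exists_isMinOn hCne (hdet.mono hδU)
  set m : ℝ := |(fderiv ℝ T xm).det| with hmdef
  have hmpos : 0 < m := abs_pos.2 (hj xm (hδU hxm))
  have hdiff : ∀ x ∈ C, HasFDerivWithinAt T (fderiv ℝ T x) C x := fun x hx =>
    ((hT.differentiableOn (by simp)).differentiableAt
      (up_open.mem_nhds (hδU hx))).hasFDerivAt.hasFDerivWithinAt
  have hb1 : ∀ n, Q C (fun x => u n (T x) - v (T x)) ≤
      (ENNReal.ofReal m)⁻¹ * Q (T '' C) (fun z => u n z - v z) := by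
    intro n
    have h1 := lintegral_image_eq_lintegral_abs_det_fderiv_mul volume hCc.measurableSet hdiff
      (hi.mono hδU) (fun z => ‖u n z - v z‖ₑ ^ 2)
    unfold Q
    rw [h1]
    have h2 : ENNReal.ofReal m * ∫⁻ x in C, ‖u n (T x) - v (T x)‖ₑ ^ 2 ≤
        ∫⁻ x in C, ENNReal.ofReal |(fderiv ℝ T x).det| * ‖u n (T x) - v (T x)‖ₑ ^ 2 := by
      rw [← lintegral_const_mul' _ _ ENNReal.ofReal_ne_top]
      refine setLIntegral_mono' hCc.measurableSet fun x hx => ?_
      gcongr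
      exact hmin hx
    have hm0 : ENNReal.ofReal m ≠ 0 := by simpa using hmpos
    calc ∫⁻ x in C, ‖u n (T x) - v (T x)‖ₑ ^ 2 = (ENNReal.ofReal m)⁻¹ *
          (ENNReal.ofReal m * ∫⁻ x in C, ‖u n (T x) - v (T x)‖ₑ ^ 2) := by
          rw [← mul_assoc, ENNReal.inv_mul_cancel hm0 ENNReal.ofReal_ne_top, one_mul]
      _ ≤ _ := by gcongr
  have hb : ∀ n, Q C (fun x => v (T x) - (e (v x) + b)) ≤
      4 * ((ENNReal.ofReal m)⁻¹ * Q (T '' C) (fun z => u n z - v z)) +
        4 * Q C (fun z => u n z - v z) := by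
    intro n
    have h1 : Q C (fun x => v (T x) - (e (v x) + b)) ≤
        4 * Q C (fun x => u n (T x) - v (T x)) + 4 * Q C (fun z => u n z - v z) := by
      refine Q_tri hCc.measurableSet ?_ ?_
      · have hc : ContinuousOn (fun x => u n (T x) - v (T x)) C :=
          ((hs n).comp (hTc.mono hδU) fun x hx => hm x (hδU hx)).sub
            (hv.comp (hTc.mono hδU) fun x hx => hm x (hδU hx))
        exact (hc.aestronglyMeasurable hCc.measurableSet).enorm
      · intro x hx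
        have h2 : v (T x) - (e (v x) + b) = -(u n (T x) - v (T x)) + e (u n x - v x) := by
          rw [he n x (hδU hx), map_sub]
          abel
        rw [h2]
        refine (enorm_add_le _ _).trans ?_
        rw [enorm_neg]
        gcongr
        rw [← ofReal_norm, ← ofReal_norm, LinearIsometryEquiv.norm_map]
    refine h1.trans ?_
    gcongr
    exact hb1 n
  have hlim : Tendsto (fun n => 4 * ((ENNReal.ofReal m)⁻¹ * Q (T '' C) (fun z => u n z - v z)) +
        4 * Q C (fun z => u n z - v z)) atTop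
      (𝓝 (4 * ((ENNReal.ofReal m)⁻¹ * 0) + 4 * 0)) := by
    have hm0 : (ENNReal.ofReal m)⁻¹ ≠ ⊤ := by simpa using hmpos
    exact (ENNReal.Tendsto.const_mul (ENNReal.Tendsto.const_mul (hl _ hTCU hTC) (Or.inr hm0))
      (Or.inr (by norm_num))).add (ENNReal.Tendsto.const_mul (hl _ hδU hCc) (Or.inr (by norm_num)))
  have h0 : Q C (fun x => v (T x) - (e (v x) + b)) ≤ 4 * ((ENNReal.ofReal m)⁻¹ * 0) + 4 * 0 :=
    ge_of_tendsto' hlim hb
  have h0' : Q C (fun x => v (T x) - (e (v x) + b)) = 0 := by simpa using h0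
  have h1 : Q (Metric.ball x0 δ) (fun x => v (T x) - (e (v x) + b)) = 0 := by
    refine le_antisymm ?_ zero_le
    rw [← h0']
    exact lintegral_mono_set Metric.ball_subset_closedBall
  have hbU : Metric.ball x0 δ ⊆ Up := Metric.ball_subset_closedBall.trans hδU
  have hc1 : ContinuousOn (fun x => v (T x)) (Metric.ball x0 δ) :=
    hv.comp (hTc.mono hbU) fun x hx => hm x (hbU hx)
  have hc2 : ContinuousOn (fun x => e (v x) + b) (Metric.ball x0 δ) :=
    (e.continuous.comp_continuousOn (hv.mono hbU)).add continuousOn_const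
  exact Q_zero Metric.isOpen_ball hc1 hc2 h1 (Metric.mem_ball_self hδ)

end Pool.Agent.MPd01a95.LP
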