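import Mathlib
import Pool.Agent.Lib.MP_d01a95_gt_L.LDefs
import Pool.Agent.Lib.MP_d01a95_gt_L.LBas
import Pool.Agent.Lib.MP_d01a95_gt_L.LChi
import Pool.Agent.Lib.MP_d01a95_gt_L.LUnf
import Pool.Agent.Lib.MP_d01a95_gt_L.LFin
import Pool.Agent.Lib.MP_d01a95_gt_L.PDefs
import Pool.Agent.Lib.MP_d01a95_gt_L.PMol
import Pool.Agent.Lib.MP_d01a95_gt_L.PLoc
import Pool.Agent.Lib.MP_d01a95_gt_L.PCht
import Pool.Agent.Lib.MP_d01a95_gt_L.PGlue

/-!
# Module PFin: the pluriharmonic equivariant map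
-/

set_option autoImplicit false
set_option linter.all false

open MeasureTheory Filter Topology
open scoped ContDiff InnerProductSpace ENNReal NNReal

namespace Pool.Agent.MPd01a95.LP

attribute [local instance] InnerProductSpace.complexToReal

variable {G : Type} [Group G] {σ : G →* GU (Fin 2)} (K : Kerr σ) {V : LN.VG G}
variable {H : Type} [NormedAddCommGroup H] [InnerProductSpace ℂ H] [CompleteSpace H]

private theorem PFin_intOn {F : Type*} [NormedAddCommGroup F] [NormedSpace ℝ F] {f : C2 → F}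
    (hf : ContinuousOn f LN.Om) (hc : LN.CS f) : IntegrableOn f LN.Om := by
  obtain ⟨h1, h2, h3⟩ := LN.CS.indicator_cont hf hc
  exact (integrable_indicator_iff LN.measurableSet_Om).1 (h1.integrable_of_hasCompactSupport h2)

private theorem PFin_low (V : LN.VG G) {C : Set C2} (hC : C ⊆ Up) (hCc : IsCompact C) :
    ∃ m : ℝ, 0 < m ∧ ∀ p ∈ C, m ≤ V.rho p := by
  rcases C.eq_empty_or_nonempty with he | hne
  · subst he
    exact ⟨1, one_pos, fun p hp => absurd hp (Set.notMem_empty p)⟩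
  · obtain ⟨q, hq, hm⟩ := hCc.exists_isMinOn hne ((V.rho_smo.cont).mono hC)
    exact ⟨V.rho q, V.rho_pos q (hC hq), fun p hp => hm hp⟩

private theorem PFin_Q {F : Type*} [NormedAddCommGroup F] {C : Set C2} (hC : C ⊆ Up)
    (hCc : IsCompact C) {s : C2 → F} (hs : ContinuousOn s Up) :
    Q C s = ENNReal.ofReal (∫ z in C, ‖s z‖ ^ 2) := by
  have hc : ContinuousOn (fun z => ‖s z‖ ^ 2) C := ((hs.mono hC).norm).pow 2
  have hi : IntegrableOn (fun z => ‖s z‖ ^ 2) C := hc.integrableOn_compact hCc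
  rw [ofReal_integral_eq_lintegral_ofReal hi (Eventually.of_forall fun z => by positivity)]
  unfold Q
  refine lintegral_congr fun z => ?_
  rw [ENNReal.ofReal_pow (norm_nonneg _), ofReal_norm_eq_enorm]

/-- comparison of square integrals over compact sets with the norm over the quotient -/
theorem Q_le_B (V : LN.VG G) {χ : C2 → ℝ} (hχ : LN.IsChi V χ) {C : Set C2} (hC : C ⊆ Up)
    (hCc : IsCompact C) : ∃ N : ℝ≥0, ∀ (H : Type) [NormedAddCommGroup H]
      [InnerProductSpace ℝ H] (pi : G →* (H ≃ₗᵢ[ℝ] H)) (s : C2 → H), ContinuousOn s Up →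
      LN.IsSec V pi s → Q C s ≤ N * ENNReal.ofReal (LN.B V χ s s) := by
  have hCO : C ⊆ LN.Om := hC
  obtain ⟨η, h1, h2, h3, h4, h5, h6⟩ := LN.exists_cut hCc hCO
  obtain ⟨N, hN, hle⟩ := LN.inv_int_le V hχ h1.cont h3 (fun p _ => h4 p)
  obtain ⟨m, hm, hml⟩ := PFin_low V hC hCc
  refine ⟨(m⁻¹ * N).toNNReal, fun H _ _ pi s hs hsec => ?_⟩
  have hf : ContinuousOn (fun p => ‖s p‖ ^ 2) LN.Om := (hs.norm).pow 2
  have hB : LN.B V χ s s = ∫ p, χ p * ‖s p‖ ^ 2 ∂V.mu := by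
    unfold LN.B
    refine integral_congr_ae (Eventually.of_forall fun p => ?_)
    simp only [real_inner_self_eq_norm_sq]
  have k1 := hle (fun p => ‖s p‖ ^ 2) hf (fun p _ => by positivity) (fun g p hp => by
    show ‖s (V.act g p)‖ ^ 2 = ‖s p‖ ^ 2
    rw [LN.norm_sec V pi hsec g hp])
  have k2 : ∫ p, η p * ‖s p‖ ^ 2 ∂V.mu = ∫ p in LN.Om, V.rho p * (η p * ‖s p‖ ^ 2) := by
    rw [LN.int_mu]
    rfl
  have hcs : LN.CS (fun p => V.rho p * (η p * ‖s p‖ ^ 2)) :=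
    LN.CS.of_imp h3 fun p _ h => by simp only [h, zero_mul, mul_zero]
  have hco : ContinuousOn (fun p => V.rho p * (η p * ‖s p‖ ^ 2)) LN.Om :=
    V.rho_smo.cont.mul (h1.cont.mul hf)
  have hio : IntegrableOn (fun p => V.rho p * (η p * ‖s p‖ ^ 2)) LN.Om := PFin_intOn hco hcs
  have k3 : ∫ p in C, V.rho p * (η p * ‖s p‖ ^ 2) ≤
      ∫ p in LN.Om, V.rho p * (η p * ‖s p‖ ^ 2) := by
    refine setIntegral_mono_set hio ?_ (Eventually.of_forall hCO)
    refine (ae_restrict_mem LN.measurableSet_Om).mono fun p hp => ?_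
    exact mul_nonneg (V.rho_pos p hp).le (mul_nonneg (h4 p) (by positivity))
  have k4 : m * ∫ p in C, ‖s p‖ ^ 2 ≤ ∫ p in C, V.rho p * (η p * ‖s p‖ ^ 2) := by
    rw [← integral_const_mul]
    refine setIntegral_mono_on ?_ (hio.mono_set hCO) hCc.measurableSet fun p hp => ?_
    · exact ((continuousOn_const.mul (hf.mono hCO)).integrableOn_compact hCc)
    · rw [h6 p hp, one_mul]
      exact mul_le_mul_of_nonneg_right (hml p hp) (by positivity)
  have k5 : ∫ p in C, ‖s p‖ ^ 2 ≤ m⁻¹ * N * LN.B V χ s s := by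
    rw [mul_assoc, hB, ← div_eq_inv_mul, le_div_iff₀ hm]
    calc (∫ p in C, ‖s p‖ ^ 2) * m = m * ∫ p in C, ‖s p‖ ^ 2 := mul_comm _ _
      _ ≤ ∫ p in C, V.rho p * (η p * ‖s p‖ ^ 2) := k4
      _ ≤ ∫ p in LN.Om, V.rho p * (η p * ‖s p‖ ^ 2) := k3
      _ = ∫ p, η p * ‖s p‖ ^ 2 ∂V.mu := k2.symm
      _ ≤ N * ∫ p, χ p * ‖s p‖ ^ 2 ∂V.mu := k1
  rw [PFin_Q hC hCc hs]
  calc ENNReal.ofReal (∫ z in C, ‖s z‖ ^ 2) ≤ ENNReal.ofReal (m⁻¹ * N * LN.B V χ s s) :=
        ENNReal.ofReal_le_ofReal k5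
    _ = ENNReal.ofReal (m⁻¹ * N) * ENNReal.ofReal (LN.B V χ s s) :=
        ENNReal.ofReal_mul (by positivity)

/-- the Kaehler identity, as an inequality (module of helper86; here a hypothesis of the final
statement) -/
def KI (V : LN.VG G) (pi : G →* (H ≃ₗᵢ[ℂ] H)) (c : G → H) : Prop :=
  ∀ χ : C2 → ℝ, LN.IsChi V χ → ∀ C ⊆ Up, IsCompact C → ∃ N : ℝ≥0, ∀ h : C2 → H,
    ContDiffOn ℝ ∞ h Up → LN.IsAff V (reR pi) c h → ∀ a c',
      Q C (fun z => HV K.A a c' h z) ≤ N * ENNReal.ofReal (LN.B V χ (V.L h) (V.L h))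

/-- S3: the pluriharmonic equivariant map -/
theorem S3 (hV : KV K V) (pi : G →* (H ≃ₗᵢ[ℂ] H)) {c : G → H}
    (hc : ∀ g h, c (g * h) = pi g (c h) + c g) (D : LN.Decay (reR pi)) (hK : KI K V pi c) :
    ∃ h : C2 → H, ContDiffOn ℝ ∞ h Up ∧ (∀ g, ∀ x ∈ Up, h (K.al g x) = pi g (h x) + c g) ∧
      ∀ x ∈ Up, ∀ a c', HV K.A a c' h x = 0 := by
  obtain ⟨χ, hχ⟩ := LN.exists_chi V
  have hc' : LN.IsCoc (reR pi) c := fun g h => by rw [reR_apply]; exact hc g h
  obtain ⟨h, h1, h2, h3⟩ := LN.main_seq V (reR pi) hχ D hc'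
  have hs : ∀ n, ContDiffOn ℝ ∞ (h n) Up := fun n => (h1 n).1
  have hd : ∀ C ⊆ Up, IsCompact C → ∀ a c', Tendsto
      (fun n => Q C (fun z => HV K.A a c' (h n) z)) atTop (𝓝 0) := by
    intro C hC hCc a c'
    obtain ⟨N, hN⟩ := hK χ hχ C hC hCc
    have t1 : Tendsto (fun n => (N : ℝ≥0∞) * ENNReal.ofReal (LN.B V χ (V.L (h n)) (V.L (h n))))
        atTop (𝓝 0) := by
      have t2 := ENNReal.Tendsto.const_mul (a := (N : ℝ≥0∞)) (ENNReal.tendsto_ofReal h2)
        (Or.inr ENNReal.coe_ne_top)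
      rw [ENNReal.ofReal_zero, mul_zero] at t2
      exact t2
    exact tendsto_of_tendsto_of_tendsto_of_le_of_le tendsto_const_nhds t1
      (fun n => bot_le) (fun n => hN (h n) (hs n) (h1 n).2 a c')
  have hC' : ∀ C ⊆ Up, IsCompact C → ∀ ε : ℝ≥0∞, 0 < ε → ∃ N, ∀ m ≥ N, ∀ n ≥ N,
      Q C (fun z => h m z - h n z) ≤ ε := by
    intro C hC hCc ε hε
    obtain ⟨N, hN⟩ := Q_le_B V hχ hC hCc
    rcases eq_or_ne ε ⊤ with he | he
    · exact ⟨0, fun m _ n _ => by rw [he]; exact le_top⟩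
    have hε' : 0 < ε.toReal := ENNReal.toReal_pos hε.ne' he
    obtain ⟨M, hM⟩ := h3 (ε.toReal / (N + 1)) (by positivity)
    refine ⟨M, fun m hm n hn => ?_⟩
    have hsec : LN.IsSec V (reR pi) (fun p => h m p - h n p) :=
      LN.IsAff.sub V (reR pi) (h1 m).2 (h1 n).2
    have hcont : ContinuousOn (fun p => h m p - h n p) Up :=
      (hs m).continuousOn.sub (hs n).continuousOn
    refine (hN H (reR pi) _ hcont hsec).trans ?_
    have hb := hM m hm n hn
    calc (N : ℝ≥0∞) * ENNReal.ofReal (LN.B V χ (fun p => h m p - h n p) (fun p => h m p - h n p))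
        ≤ (N : ℝ≥0∞) * ENNReal.ofReal (ε.toReal / (N + 1)) := by
          gcongr
      _ = ENNReal.ofReal (N * (ε.toReal / (N + 1))) := by
          rw [ENNReal.ofReal_mul (NNReal.coe_nonneg N), ENNReal.ofReal_coe_nnreal]
      _ ≤ ENNReal.ofReal ε.toReal := by
          apply ENNReal.ofReal_le_ofReal
          have hN0 : (0 : ℝ) ≤ N := NNReal.coe_nonneg N
          rw [mul_div_assoc', div_le_iff₀ (by positivity)]
          nlinarith
      _ = ε := ENNReal.ofReal_toReal he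
  obtain ⟨v, hv, hv0, hvl⟩ := glue K.ba hs hd hC'
  refine ⟨v, hv, fun g => ?_, hv0⟩
  have hact : ∀ x ∈ Up, V.act g x = K.al g x := hV.act g
  have hT : ContDiffOn ℝ ∞ (K.al g) Up :=
    ContDiffOn.congr (V.act_smo g) fun x hx => (hact x hx).symm
  have hopen : IsOpen Up := LN.isOpen_Om
  have hi : Set.InjOn (K.al g) Up := by
    intro x hx y hy hxy
    rw [← hact x hx, ← hact y hy] at hxy
    rw [← LN.act_inv_act V g (p := x) hx, ← LN.act_inv_act V g (p := y) hy, hxy]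
  have hj : ∀ x ∈ Up, (fderiv ℝ (K.al g) x).det ≠ 0 := by
    intro x hx h0
    have he : K.al g =ᶠ[𝓝 x] V.act g := by
      filter_upwards [hopen.mem_nhds hx] with y hy
      exact (hact y hy).symm
    have h5 := V.jac g x hx
    rw [he.fderiv_eq] at h0
    rw [h0, abs_zero, mul_zero] at h5
    exact (V.rho_pos x hx).ne h5
  refine eqv_lim (fun n => (hs n).continuousOn) hv.continuousOn hvl hT (K.maps g) hi hj (pi g)
    (c g) fun n x hx => ?_
  rw [← hact x hx, (h1 n).2 g x hx, reR_apply]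

end Pool.Agent.MPd01a95.LP
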